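import Pool.Agent.FreudM.Step

/-!
# Expansions to all orders
-/

set_option autoImplicit false

open MeasureTheory Filter Topology Set
open scoped Pointwise

namespace Pool.Agent.FreudM

open Pool.Agent.Freud

variable {α κ r r1 c : ℝ} {A : Set ℂ} {We W0 Wx R : ℕ → ℂ → Mat2}

lemma sInv_mem : sInv ∈ Lam α := Submonoid.subset_closure (Or.inl rfl)

lemma sPow_mem : sPow α ∈ Lam α := Submonoid.subset_closure (Or.inr (Or.inl rfl))

lemma pow_scale (k : ℕ) : (fun n : ℕ => (n : ℝ) ^ (-(k : ℝ))) = sInv ^ k := by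
  ext n
  rw [Pi.pow_apply]
  unfold sInv
  rw [← Real.rpow_natCast, ← Real.rpow_mul (Nat.cast_nonneg n)]
  congr 1
  ring

lemma pow_mem_Lam (k : ℕ) : (fun n : ℕ => (n : ℝ) ^ (-(k : ℝ))) ∈ Lam α := by
  rw [pow_scale]
  exact Submonoid.pow_mem _ sInv_mem k

/-- The scale `n^(-α)`. -/
noncomputable def sA (α : ℝ) : ℕ → ℝ := fun n => (n : ℝ) ^ (-α)

lemma sA_eq (hα : 1 < α) : sA α = sInv * sPow α := by
  ext n
  rw [Pi.mul_apply]
  unfold sA sInv sPow
  rcases Nat.eq_zero_or_pos n with rfl | hn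
  · rw [Nat.cast_zero, Real.zero_rpow (by linarith), Real.zero_rpow (by norm_num), zero_mul]
  · have hn0 : (0 : ℝ) < n := by exact_mod_cast hn
    rw [← Real.rpow_add hn0]
    congr 1
    ring

lemma sA_mem (hα : 1 < α) : sA α ∈ Lam α := by
  rw [sA_eq hα]
  exact mul_mem sInv_mem sPow_mem

lemma sgn_mul_sgn : sgn * sgn = 1 := by
  ext n
  simp only [Pi.mul_apply, sgn, Pi.one_apply, ← mul_pow]
  norm_num

lemma osc_eq : osc α = sgn * sA α := rfl

lemma oscn_eq : oscn α = sgn * sPow α := rfl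

lemma PA_mul_Lam {p l : ℕ → ℝ} (hp : p ∈ PA α) (hl : l ∈ Lam α) : p * l ∈ PA α := by
  rcases hp with hp | ⟨m, hm, rfl⟩
  · exact Or.inl (mul_mem hp hl)
  · exact Or.inr ⟨m * l, mul_mem hm hl, by rw [mul_assoc]⟩

lemma PB_mul_Lam {p l : ℕ → ℝ} (hp : p ∈ PB α) (hl : l ∈ Lam α) : p * l ∈ PB α := by
  rcases hp with hp | ⟨m, hm, rfl⟩
  · exact Or.inl (mul_mem hp hl)
  · exact Or.inr ⟨m * l, mul_mem hm hl, by rw [mul_assoc]⟩

lemma PA_sub_PB (hα : 1 < α) {p : ℕ → ℝ} (hp : p ∈ PA α) : p ∈ PB α := by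
  rcases hp with hp | ⟨m, hm, rfl⟩
  · exact Or.inl hp
  · refine Or.inr ⟨sA α * m, mul_mem (sA_mem hα) hm, ?_⟩
    rw [osc_eq, mul_assoc]

lemma osc_mul_PB (hα : 1 < α) {p : ℕ → ℝ} (hp : p ∈ PB α) : osc α * p ∈ PA α := by
  rcases hp with hp | ⟨m, hm, rfl⟩
  · exact Or.inr ⟨p, hp, rfl⟩
  · refine Or.inl ?_
    rw [osc_eq, show sgn * sA α * (sgn * m) = (sgn * sgn) * (sA α * m) by ring, sgn_mul_sgn,
      one_mul]
    exact mul_mem (sA_mem hα) hm

lemma sgn_mul_PB {p : ℕ → ℝ} (hp : p ∈ PB α) : sgn * p ∈ PB α := by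
  rcases hp with hp | ⟨m, hm, rfl⟩
  · exact Or.inr ⟨p, hp, rfl⟩
  · refine Or.inl ?_
    rw [← mul_assoc, sgn_mul_sgn, one_mul]
    exact hm

lemma PA_mul_PA (hα : 1 < α) {p q : ℕ → ℝ} (hp : p ∈ PA α) (hq : q ∈ PA α) : p * q ∈ PA α := by
  rcases hq with hq | ⟨m, hm, rfl⟩
  · exact PA_mul_Lam hp hq
  · have h1 := osc_mul_PB hα (PB_mul_Lam (PA_sub_PB hα hp) hm)
    rwa [show p * (osc α * m) = osc α * (p * m) by ring]

lemma one_mem_PA : (1 : ℕ → ℝ) ∈ PA α := Or.inl (one_mem _)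

lemma one_mem_PB : (1 : ℕ → ℝ) ∈ PB α := Or.inl (one_mem _)

lemma pw1_sub_Lam {p : ℕ → ℝ} (hp : p ∈ pw1) : p ∈ Lam α := by
  obtain ⟨k, -, rfl⟩ := hp
  exact pow_mem_Lam k

lemma Ord_PB (hα : 1 < α) : Ord (PB α) 0 := by
  rintro s (hs | ⟨m, hm, rfl⟩)
  · exact Ord_Lam hα s hs
  · obtain ⟨C, hC⟩ := Ord_Lam hα m hm
    refine ⟨C, ?_⟩
    filter_upwards [hC] with n hn
    rw [Pi.mul_apply, abs_mul]
    unfold sgn
    rw [abs_pow, abs_neg, abs_one, one_pow, one_mul]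
    exact hn

lemma Ord_PA (hα : 1 < α) : Ord (PA α) 0 := fun s hs => Ord_PB hα s (PA_sub_PB hα hs)

/-- Adding the identity. -/
lemma EA_of_Dv {P : Set (ℕ → ℝ)} {T : ℝ} (h1 : (1 : ℕ → ℝ) ∈ P) (h : EA (Dv R) A P T) :
    EA R A P T := by
  intro i j
  have := (h i j).add one_le_one1 (ExpTo.of_gen (Ω := fun _ => A) (T := T) h1
    (PolyGrowth.const (ρ := one1) ((1 : Mat2) i j)))
  refine this.congr (Eventually.of_forall fun n s _ => ?_)
  unfold Dv
  rw [Matrix.sub_apply]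
  simp

lemma EZ_of_Dv {P : Set (ℕ → ℝ)} {T : ℝ} (h1 : (1 : ℕ → ℝ) ∈ P) (h : EZ (Dv R) r1 P T) :
    EZ R r1 P T := by
  intro i j
  have := (h i j).add one_le_rho1 (ExpTo.of_gen (Ω := Om r1) (T := T) h1
    (PolyGrowth.const (ρ := rho1) ((1 : Mat2) i j)))
  refine this.congr (Eventually.of_forall fun n s _ => ?_)
  unfold Dv
  rw [Matrix.sub_apply]
  simp

/-- Expansions of the solution to all orders. -/
theorem MD.all (h : MD α κ r r1 c A We W0 Wx R) (T : ℝ) : EA R A (PA α) T ∧ EZ R r1 (PB α) T := by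
  have hα := h.hα
  set μ := min 1 (α - 1) with hμ
  have hμ0 : 0 < μ := lt_min one_pos (by linarith)
  have key : ∀ m : ℕ, EA R A (PA α) (m * μ) ∧ EZ R r1 (PB α) (m * μ) := by
    intro m
    induction m with
    | zero =>
      constructor
      · intro i j
        refine ExpTo.of_bound (C := 2) (K := 0) ?_
        filter_upwards [h.R_unif] with n hn s hs
        simpa using hn s (h.A_sub hs) i j
      · intro i j
        refine ExpTo.of_bound (C := 2) (K := 0) ?_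
        filter_upwards [h.R_unif, eventually_ge_atTop 1] with n hn hn1 s hs
        simpa using hn _ (div_mem_UH hn1 hs.1) i j
    | succ m ih =>
      have hT : (0 : ℝ) ≤ m * μ := by positivity
      obtain ⟨h1, h2⟩ := h.step (Ord_PA hα) (Ord_PB hα) hT ih.1 ih.2 (E := PA α) (O := PB α)
        (by
          rintro p ⟨a, ha, b, hb, rfl⟩
          exact PA_mul_Lam ha (pw1_sub_Lam hb))
        (by
          rintro p ⟨a, ha, b, hb, rfl⟩ k
          have h3 : (fun n : ℕ => osc α n * ((n : ℝ) ^ (-(k : ℝ)) * (a * b) n)) =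
              osc α * (a * (b * fun n : ℕ => (n : ℝ) ^ (-(k : ℝ)))) := by
            ext n; simp only [Pi.mul_apply]; ring
          show (fun n : ℕ => osc α n * ((n : ℝ) ^ (-(k : ℝ)) * (a * b) n)) ∈ PA α
          rw [h3]
          exact osc_mul_PB hα (PB_mul_Lam ha (mul_mem hb (pow_mem_Lam k))))
        (by
          rintro p ⟨a, ha, b, hb, rfl⟩ k
          have h3 : (fun n : ℕ => (n : ℝ) ^ (-(k : ℝ)) * (a * b) n) =
              a * (b * fun n : ℕ => (n : ℝ) ^ (-(k : ℝ))) := by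
            ext n; simp only [Pi.mul_apply]; ring
          show (fun n : ℕ => (n : ℝ) ^ (-(k : ℝ)) * (a * b) n) ∈ PB α
          rw [h3]
          exact PB_mul_Lam (PA_sub_PB hα ha) (mul_mem (pw1_sub_Lam hb) (pow_mem_Lam k)))
        (by
          rintro p ⟨a, ha, b, hb, rfl⟩
          have h3 : (fun n : ℕ => oscn α n * (a * b) n) = sgn * (a * (b * sPow α)) := by
            ext n
            rw [oscn_eq]
            simp only [Pi.mul_apply]
            ring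
          show (fun n : ℕ => oscn α n * (a * b) n) ∈ PB α
          rw [h3]
          exact sgn_mul_PB (PB_mul_Lam ha (mul_mem hb sPow_mem)))
      have e : ((m + 1 : ℕ) : ℝ) * μ = m * μ + μ := by push_cast; ring
      rw [e]
      exact ⟨EA_of_Dv one_mem_PA h1, EZ_of_Dv one_mem_PB h2⟩
  obtain ⟨m, hm⟩ := exists_nat_ge (T / μ)
  have hm' : T ≤ m * μ := by
    rw [div_le_iff₀ hμ0] at hm
    exact hm
  exact ⟨fun i j => ((key m).1 i j).mono_T one_le_one1 hm',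
    fun i j => ((key m).2 i j).mono_T one_le_rho1 hm'⟩

/-- The scale `n^(1-2α)`. -/
noncomputable def sB (α : ℝ) : ℕ → ℝ := sA α * sPow α

/-- Scales of the deviation near the origin. -/
def OD (α : ℝ) : Set (ℕ → ℝ) := {s | (∃ p ∈ PA α, s = sInv * p) ∨ ∃ p ∈ PB α, s = oscn α * p}

lemma mem_pw1 {p : ℕ → ℝ} (hp : p ∈ pw1) : ∃ l ∈ Lam α, p = sInv * l := by
  obtain ⟨k, hk, rfl⟩ := hp
  obtain ⟨m, rfl⟩ : ∃ m, k = m + 1 := ⟨k - 1, by omega⟩
  refine ⟨sInv ^ m, Submonoid.pow_mem _ sInv_mem m, ?_⟩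
  rw [pow_scale, pow_succ, mul_comm]

/-- Expansions of the deviation near the origin. -/
theorem MD.dev (h : MD α κ r r1 c A We W0 Wx R) (T : ℝ) : EZ (Dv R) r1 (OD α) T := by
  have hα := h.hα
  have hμ0 : 0 < min 1 (α - 1) := lt_min one_pos (by linarith)
  obtain ⟨ih1, ih2⟩ := h.all |T|
  obtain ⟨-, h2⟩ := h.step (Ord_PA hα) (Ord_PB hα) (abs_nonneg T) ih1 ih2 (E := univ) (O := OD α)
    (fun _ _ => mem_univ _) (fun _ _ _ => mem_univ _)
    (by
      rintro p ⟨a, ha, b, hb, rfl⟩ k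
      obtain ⟨l, hl, rfl⟩ := mem_pw1 (α := α) hb
      have h3 : (fun n : ℕ => (n : ℝ) ^ (-(k : ℝ)) * (a * (sInv * l)) n) =
          sInv * (a * (l * fun n : ℕ => (n : ℝ) ^ (-(k : ℝ)))) := by
        ext n; simp only [Pi.mul_apply]; ring
      show (fun n : ℕ => (n : ℝ) ^ (-(k : ℝ)) * (a * (sInv * l)) n) ∈ OD α
      rw [h3]
      exact Or.inl ⟨_, PA_mul_Lam ha (mul_mem hl (pow_mem_Lam k)), rfl⟩)
    (by
      rintro p ⟨a, ha, b, hb, rfl⟩
      show (fun n : ℕ => oscn α n * (a * b) n) ∈ OD α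
      exact Or.inr ⟨a * b, PB_mul_Lam ha hb, rfl⟩)
  exact fun i j => (h2 i j).mono_T one_le_rho1 (by linarith [le_abs_self T])

/-- Scales of the non-leading part of the final integral. -/
def JD (α : ℝ) : Set (ℕ → ℝ) := {s | (∃ p ∈ PA α, s = sInv * p) ∨ ∃ p ∈ PB α, s = sB α * p}

lemma Ord_OD (hα : 1 < α) : Ord (OD α) 0 := by
  rintro s (⟨p, hp, rfl⟩ | ⟨p, hp, rfl⟩)
  · have h1 := Ord_PA hα _ (PA_mul_Lam hp sInv_mem)
    rwa [mul_comm] at h1
  · have h1 := Ord_PB hα _ (sgn_mul_PB (PB_mul_Lam hp sPow_mem))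
    rw [oscn_eq, show sgn * sPow α * p = sgn * (p * sPow α) by ring]
    exact h1

end Pool.Agent.FreudM
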