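import Pool.Agent.FreudM.Inst

/-!
# From the total integrals to the recurrence coefficients
-/

set_option autoImplicit false

open MeasureTheory Filter Topology Set
open scoped Pointwise

namespace Pool.Agent.FreudM

open Pool.Agent.Freud

/-- `f = O(n ^ (-a))`. -/
def BO (a : ℝ) (f : ℕ → ℝ) : Prop := ∃ C : ℝ, ∀ᶠ n : ℕ in atTop, |f n| ≤ C * (n : ℝ) ^ (-a)

lemma BO.mono {a b : ℝ} {f : ℕ → ℝ} (h : BO a f) (hab : b ≤ a) : BO b f := by
  obtain ⟨C, hC⟩ := h
  refine ⟨|C|, ?_⟩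
  filter_upwards [hC, eventually_ge_atTop 1] with n hn h1
  have h2 := rpow_neg_mono_aux h1 hab
  have h3 : (0 : ℝ) ≤ (n : ℝ) ^ (-a) := Real.rpow_nonneg (Nat.cast_nonneg n) _
  calc |f n| ≤ C * (n : ℝ) ^ (-a) := hn
    _ ≤ |C| * (n : ℝ) ^ (-a) := by gcongr; exact le_abs_self C
    _ ≤ |C| * (n : ℝ) ^ (-b) := by gcongr

lemma BO.add {a : ℝ} {f g : ℕ → ℝ} (hf : BO a f) (hg : BO a g) : BO a (fun n => f n + g n) := by
  obtain ⟨C, hC⟩ := hf
  obtain ⟨D, hD⟩ := hg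
  refine ⟨C + D, ?_⟩
  filter_upwards [hC, hD] with n h1 h2
  calc |f n + g n| ≤ |f n| + |g n| := abs_add_le _ _
    _ ≤ _ := by linarith

lemma BO.const_mul {a : ℝ} {f : ℕ → ℝ} (hf : BO a f) (k : ℝ) : BO a (fun n => k * f n) := by
  obtain ⟨C, hC⟩ := hf
  refine ⟨|k| * C, ?_⟩
  filter_upwards [hC] with n h1
  rw [abs_mul, mul_assoc]
  gcongr

lemma BO.neg {a : ℝ} {f : ℕ → ℝ} (hf : BO a f) : BO a (fun n => -f n) := by
  simpa using hf.const_mul (-1)

lemma BO.sub {a : ℝ} {f g : ℕ → ℝ} (hf : BO a f) (hg : BO a g) : BO a (fun n => f n - g n) := by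
  simpa [sub_eq_add_neg] using hf.add hg.neg

lemma BO.mul {a b : ℝ} {f g : ℕ → ℝ} (hf : BO a f) (hg : BO b g) :
    BO (a + b) (fun n => f n * g n) := by
  obtain ⟨C, hC⟩ := hf
  obtain ⟨D, hD⟩ := hg
  refine ⟨|C| * |D|, ?_⟩
  filter_upwards [hC, hD, eventually_ge_atTop 1] with n h1 h2 hn
  have hn0 : (0 : ℝ) < n := by exact_mod_cast hn
  have e1 : (0 : ℝ) ≤ (n : ℝ) ^ (-a) := Real.rpow_nonneg hn0.le _
  have e2 : (0 : ℝ) ≤ (n : ℝ) ^ (-b) := Real.rpow_nonneg hn0.le _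
  have h3 : |f n| ≤ |C| * (n : ℝ) ^ (-a) := h1.trans (by gcongr; exact le_abs_self C)
  have h4 : |g n| ≤ |D| * (n : ℝ) ^ (-b) := h2.trans (by gcongr; exact le_abs_self D)
  rw [abs_mul]
  calc |f n| * |g n| ≤ (|C| * (n : ℝ) ^ (-a)) * (|D| * (n : ℝ) ^ (-b)) := by gcongr
    _ = |C| * |D| * ((n : ℝ) ^ (-a) * (n : ℝ) ^ (-b)) := by ring
    _ = |C| * |D| * (n : ℝ) ^ (-(a + b)) := by
        rw [← Real.rpow_add hn0]; congr 2; ring

lemma BO.congr {a : ℝ} {f g : ℕ → ℝ} (hf : BO a f) (h : ∀ᶠ n : ℕ in atTop, f n = g n) : BO a g := by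
  obtain ⟨C, hC⟩ := hf
  refine ⟨C, ?_⟩
  filter_upwards [hC, h] with n h1 h2
  rwa [← h2]

lemma BO.le {a : ℝ} {f g : ℕ → ℝ} (hf : BO a f) (h : ∀ᶠ n : ℕ in atTop, |g n| ≤ |f n|) :
    BO a g := by
  obtain ⟨C, hC⟩ := hf
  refine ⟨C, ?_⟩
  filter_upwards [hC, h] with n h1 h2
  exact h2.trans h1

lemma BO.isBigO {a : ℝ} {f : ℕ → ℝ} (hf : BO a f) : f =O[atTop] (fun n : ℕ => (n : ℝ) ^ (-a)) := by
  obtain ⟨C, hC⟩ := hf
  refine Asymptotics.IsBigO.of_bound C ?_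
  filter_upwards [hC] with n hn
  rw [Real.norm_eq_abs, Real.norm_eq_abs, abs_of_nonneg (Real.rpow_nonneg (Nat.cast_nonneg n) _)]
  exact hn

lemma BO.isLittleO {a b : ℝ} {f : ℕ → ℝ} (hf : BO a f) (h : b < a) :
    f =o[atTop] (fun n : ℕ => (n : ℝ) ^ (-b)) := by
  refine hf.isBigO.trans_isLittleO ?_
  have h1 : Tendsto (fun n : ℕ => (n : ℝ) ^ (-(a - b))) atTop (𝓝 0) :=
    (tendsto_rpow_neg_atTop (sub_pos.2 h)).comp tendsto_natCast_atTop_atTop
  have h2 := (Asymptotics.isLittleO_one_iff ℝ).2 h1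
  have h3 := h2.mul_isBigO (Asymptotics.isBigO_refl (fun n : ℕ => (n : ℝ) ^ (-b)) atTop)
  refine h3.congr' ?_ (Eventually.of_forall fun n => by simp)
  filter_upwards [eventually_ge_atTop 1] with n hn
  have hn0 : (0 : ℝ) < n := by exact_mod_cast hn
  rw [← Real.rpow_add hn0]
  congr 1
  ring

lemma BO.small {a : ℝ} {f : ℕ → ℝ} (hf : BO a f) (ha : 0 < a) {ε : ℝ} (hε : 0 < ε) :
    ∀ᶠ n : ℕ in atTop, |f n| ≤ ε := by
  obtain ⟨C, hC⟩ := hf
  have h3 : Tendsto (fun n : ℕ => C * (n : ℝ) ^ (-a)) atTop (𝓝 (C * 0)) :=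
    ((tendsto_rpow_neg_atTop ha).comp tendsto_natCast_atTop_atTop).const_mul C
  rw [mul_zero] at h3
  filter_upwards [hC, h3.eventually (gt_mem_nhds hε)] with n h4 h5
  linarith

lemma BO_rpow (a : ℝ) : BO a (fun n => (n : ℝ) ^ (-a)) := by
  refine ⟨1, Eventually.of_forall fun n => ?_⟩
  rw [abs_of_nonneg (Real.rpow_nonneg (Nat.cast_nonneg n) _), one_mul]

lemma BO_const (k : ℝ) : BO 0 (fun _ => k) := by
  refine ⟨|k|, Eventually.of_forall fun n => ?_⟩
  simp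

lemma BO_sgn : BO 0 (fun n => (-1) ^ n) := by
  refine ⟨1, Eventually.of_forall fun n => ?_⟩
  simp

lemma BO_log {a b : ℝ} (hab : b < a) (q : ℕ) : BO b (fun n => Real.log n ^ q * (n : ℝ) ^ (-a)) := by
  have h1 : (fun x : ℝ => Real.log x ^ q) =o[atTop] (fun x : ℝ => x ^ (a - b)) := by
    have := isLittleO_log_rpow_rpow_atTop (q : ℝ) (sub_pos.2 hab)
    simpa [Real.rpow_natCast] using this
  have h2 := (h1.comp_tendsto tendsto_natCast_atTop_atTop).bound (show (0 : ℝ) < 1 by norm_num)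
  refine ⟨1, ?_⟩
  filter_upwards [h2, eventually_ge_atTop 1] with n hn h1
  have hn0 : (0 : ℝ) < n := by exact_mod_cast h1
  simp only [Function.comp_apply, Real.norm_eq_abs, one_mul] at hn
  rw [abs_of_pos (show (0 : ℝ) < (n : ℝ) ^ (a - b) by positivity)] at hn
  rw [abs_mul, abs_of_pos (show (0 : ℝ) < (n : ℝ) ^ (-a) by positivity), one_mul]
  calc |Real.log (n : ℝ) ^ q| * (n : ℝ) ^ (-a) ≤ (n : ℝ) ^ (a - b) * (n : ℝ) ^ (-a) := by gcongr
    _ = (n : ℝ) ^ (-b) := by rw [← Real.rpow_add hn0]; congr 1; ring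

/-- Comparison of square roots. -/
lemma sqrt_diff {t t' l : ℕ → ℝ} {S : ℝ} (ht1 : BO 1 t) (ht' : BO 1 t') (hl : BO (S - 1) l)
    (ht : BO S (fun n => t n - t' n - 4 * l n)) :
    BO S (fun n => √(1 + t n) - √(1 + t' n) - 2 * l n) := by
  have key : ∀ x : ℝ, |x| ≤ 1 / 2 → (1 / 2 : ℝ) ≤ √(1 + x) ∧ |√(1 + x) - 1| ≤ |x| ∧
      √(1 + x) ^ 2 = 1 + x := by
    intro x hx
    have h3 := abs_le.1 hx
    have h4 : (1 / 2 : ℝ) ≤ √(1 + x) := by
      apply Real.le_sqrt_of_sq_le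
      linarith
    have h5 : √(1 + x) ^ 2 = 1 + x := Real.sq_sqrt (by linarith)
    refine ⟨h4, ?_, h5⟩
    have h6 : (√(1 + x) - 1) * (√(1 + x) + 1) = x := by linear_combination h5
    have h7 : |√(1 + x) - 1| * |√(1 + x) + 1| = |x| := by rw [← abs_mul, h6]
    rw [abs_of_pos (show 0 < √(1 + x) + 1 by linarith)] at h7
    nlinarith [abs_nonneg (√(1 + x) - 1)]
  have h2 : BO S (fun n => |l n| * (|t n| + |t' n|)) := by
    have ha : BO (S - 1) (fun n => |l n|) := hl.le (Eventually.of_forall fun n => by simp)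
    have hb : BO 1 (fun n => |t n|) := ht1.le (Eventually.of_forall fun n => by simp)
    have hc : BO 1 (fun n => |t' n|) := ht'.le (Eventually.of_forall fun n => by simp)
    have := ha.mul (hb.add hc)
    simpa using this
  have h3 : BO S (fun n => |t n - t' n - 4 * l n| + 2 * (|l n| * (|t n| + |t' n|))) := by
    refine BO.add (ht.le (Eventually.of_forall fun n => by simp)) (h2.const_mul 2)
  refine h3.le ?_
  filter_upwards [ht1.small one_pos (show (0 : ℝ) < 1 / 2 by norm_num),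
    ht'.small one_pos (show (0 : ℝ) < 1 / 2 by norm_num)] with n a1 a2
  obtain ⟨b1, b2, b3⟩ := key _ a1
  obtain ⟨c1, c2, c3⟩ := key _ a2
  have hD : 1 ≤ √(1 + t n) + √(1 + t' n) := by linarith
  have e1 : (√(1 + t n) - √(1 + t' n) - 2 * l n) * (√(1 + t n) + √(1 + t' n)) =
      (t n - t' n - 4 * l n) - 2 * (l n * ((√(1 + t n) - 1) + (√(1 + t' n) - 1))) := by
    linear_combination b3 - c3
  have e2 : |√(1 + t n) - √(1 + t' n) - 2 * l n| * (√(1 + t n) + √(1 + t' n)) ≤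
      |t n - t' n - 4 * l n| + 2 * (|l n| * (|t n| + |t' n|)) := by
    rw [← abs_of_pos (show 0 < √(1 + t n) + √(1 + t' n) by linarith), ← abs_mul, e1]
    refine (abs_sub _ _).trans ?_
    rw [abs_mul 2, abs_two, abs_mul (l n)]
    have e3 : |(√(1 + t n) - 1) + (√(1 + t' n) - 1)| ≤ |t n| + |t' n| :=
      (abs_add_le _ _).trans (add_le_add b2 c2)
    gcongr
  rw [abs_of_nonneg (show 0 ≤ |t n - t' n - 4 * l n| + 2 * (|l n| * (|t n| + |t' n|)) by positivity)]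
  nlinarith [abs_nonneg (√(1 + t n) - √(1 + t' n) - 2 * l n)]

/-- From the factors to the coefficients. -/
theorem coef_lemma {X Y X' Y' l r : ℕ → ℝ} {S : ℝ} (hS : 1 ≤ S) (hX' : BO 1 X') (hY' : BO 1 Y')
    (hl : BO (S - 1) l) (hl1 : BO 1 l) (hX : BO S (fun n => X n - X' n - 2 * l n))
    (hY : BO S (fun n => Y n - Y' n - 2 * l n))
    (hr : ∀ᶠ n : ℕ in atTop, 0 < r n ∧ r n ^ 2 = (1 + X n) * (1 + Y n)) :
    BO S (fun n => r n - √(1 + (X' n + Y' n + X' n * Y' n)) - 2 * l n) := by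
  have eX : BO (S - 1) (fun n => X n - X' n) :=
    ((hX.mono (show S - 1 ≤ S by linarith)).add (hl.const_mul 2)).congr
      (Eventually.of_forall fun n => by ring)
  have eX1 : BO 1 (fun n => X n - X' n) :=
    ((hX.mono hS).add (hl1.const_mul 2)).congr (Eventually.of_forall fun n => by ring)
  have eY : BO (S - 1) (fun n => Y n - Y' n) :=
    ((hY.mono (show S - 1 ≤ S by linarith)).add (hl.const_mul 2)).congr
      (Eventually.of_forall fun n => by ring)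
  have eY1 : BO 1 (fun n => Y n - Y' n) :=
    ((hY.mono hS).add (hl1.const_mul 2)).congr (Eventually.of_forall fun n => by ring)
  have hX1 : BO 1 X := (eX1.add hX').congr (Eventually.of_forall fun n => by ring)
  have hY1 : BO 1 Y := (eY1.add hY').congr (Eventually.of_forall fun n => by ring)
  have ht1 : BO 1 (fun n => X n + Y n + X n * Y n) :=
    (hX1.add hY1).add ((hX1.mul hY1).mono (by norm_num))
  have ht' : BO 1 (fun n => X' n + Y' n + X' n * Y' n) :=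
    (hX'.add hY').add ((hX'.mul hY').mono (by norm_num))
  have hprod : BO S (fun n => X n * Y n - X' n * Y' n) := by
    have h1 : BO S (fun n => X n * (Y n - Y' n)) := (hX1.mul eY).mono (by linarith)
    have h2 : BO S (fun n => (X n - X' n) * Y' n) := (eX.mul hY').mono (by linarith)
    exact (h1.add h2).congr (Eventually.of_forall fun n => by ring)
  have ht : BO S (fun n => (X n + Y n + X n * Y n) - (X' n + Y' n + X' n * Y' n) - 4 * l n) :=
    ((hX.add hY).add hprod).congr (Eventually.of_forall fun n => by ring)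
  refine (sqrt_diff ht1 ht' hl ht).congr ?_
  filter_upwards [hr] with n ⟨h1, h2⟩
  have h3 : √(1 + (X n + Y n + X n * Y n)) = r n := by
    rw [show 1 + (X n + Y n + X n * Y n) = (1 + X n) * (1 + Y n) by ring, ← h2]
    exact Real.sqrt_sq h1.le
  rw [h3]

end Pool.Agent.FreudM
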