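import Mathlib

/-!
# Asymptotic expansions of families of functions

`ExpTo P Ω ρ T u` says that the family `u n x` has an expansion in the scales of `P` (real sequences)
with coefficient functions of polynomial growth in the weight `ρ`, up to an error `O(n ^ (-T))`
(again with polynomial growth in `ρ`), uniformly for `x ∈ Ω n`.
-/

set_option autoImplicit false

open MeasureTheory Filter Topology Set

namespace Pool.Agent.FreudM

variable {X Y : Type*} [MeasurableSpace X] [MeasurableSpace Y]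

/-- A function of polynomial growth with respect to the weight `ρ`. -/
def PolyGrowth (ρ : X → ℝ) (c : X → ℂ) : Prop :=
  Measurable c ∧ ∃ (C : ℝ) (K : ℕ), ∀ x, ‖c x‖ ≤ C * ρ x ^ K

/-- The generating terms `s n * c x`. -/
def Gen (P : Set (ℕ → ℝ)) (ρ : X → ℝ) : Set (ℕ → X → ℂ) :=
  {f | ∃ s ∈ P, ∃ c : X → ℂ, PolyGrowth ρ c ∧ f = fun n x => (s n : ℂ) * c x}

/-- Finite sums of generating terms. -/
def Sums (P : Set (ℕ → ℝ)) (ρ : X → ℝ) : AddSubmonoid (ℕ → X → ℂ) :=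
  AddSubmonoid.closure (Gen P ρ)

/-- `u` has an expansion up to order `T`. -/
def ExpTo (P : Set (ℕ → ℝ)) (Ω : ℕ → Set X) (ρ : X → ℝ) (T : ℝ) (u : ℕ → X → ℂ) : Prop :=
  ∃ p ∈ Sums P ρ, ∃ (C : ℝ) (K : ℕ), ∀ᶠ n : ℕ in atTop, ∀ x ∈ Ω n,
    ‖u n x - p n x‖ ≤ C * (n : ℝ) ^ (-T) * ρ x ^ K

/-- All scales of `P` are `O(n ^ (-a))`. -/
def Ord (P : Set (ℕ → ℝ)) (a : ℝ) : Prop :=
  ∀ s ∈ P, ∃ C : ℝ, ∀ᶠ n : ℕ in atTop, |s n| ≤ C * (n : ℝ) ^ (-a)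

variable {P Q P' : Set (ℕ → ℝ)} {Ω Ω' : ℕ → Set X} {ρ : X → ℝ} {T T' : ℝ} {u v : ℕ → X → ℂ}

lemma Sums_mono (h : P ⊆ P') {p : ℕ → X → ℂ} (hp : p ∈ Sums P ρ) : p ∈ Sums P' ρ := by
  refine AddSubmonoid.closure_mono ?_ hp
  rintro f ⟨s, hs, c, hc, rfl⟩
  exact ⟨s, h hs, c, hc, rfl⟩

lemma Gen_mem_Sums {s : ℕ → ℝ} (hs : s ∈ P) {c : X → ℂ} (hc : PolyGrowth ρ c) :
    (fun n x => (s n : ℂ) * c x) ∈ Sums P ρ :=
  AddSubmonoid.subset_closure ⟨s, hs, c, hc, rfl⟩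

lemma PolyGrowth.add (hρ : ∀ x, 1 ≤ ρ x) {c d : X → ℂ} (hc : PolyGrowth ρ c) (hd : PolyGrowth ρ d) :
    PolyGrowth ρ (fun x => c x + d x) := by
  obtain ⟨hcm, C, K, hC⟩ := hc
  obtain ⟨hdm, D, L, hD⟩ := hd
  refine ⟨hcm.add hdm, |C| + |D|, K + L, fun x => ?_⟩
  have h1 : ρ x ^ K ≤ ρ x ^ (K + L) := pow_le_pow_right₀ (hρ x) (by omega)
  have h2 : ρ x ^ L ≤ ρ x ^ (K + L) := pow_le_pow_right₀ (hρ x) (by omega)
  have h0 : 0 ≤ ρ x := le_trans zero_le_one (hρ x)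
  calc ‖c x + d x‖ ≤ ‖c x‖ + ‖d x‖ := norm_add_le _ _
    _ ≤ C * ρ x ^ K + D * ρ x ^ L := add_le_add (hC x) (hD x)
    _ ≤ |C| * ρ x ^ (K + L) + |D| * ρ x ^ (K + L) := by
        gcongr
        · exact le_abs_self C
        · exact le_abs_self D
    _ = (|C| + |D|) * ρ x ^ (K + L) := by ring

lemma PolyGrowth.mul (hρ : ∀ x, 1 ≤ ρ x) {c d : X → ℂ} (hc : PolyGrowth ρ c) (hd : PolyGrowth ρ d) :
    PolyGrowth ρ (fun x => c x * d x) := by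
  obtain ⟨hcm, C, K, hC⟩ := hc
  obtain ⟨hdm, D, L, hD⟩ := hd
  refine ⟨hcm.mul hdm, |C| * |D|, K + L, fun x => ?_⟩
  have h0 : 0 ≤ ρ x := le_trans zero_le_one (hρ x)
  have hC' : ‖c x‖ ≤ |C| * ρ x ^ K :=
    (hC x).trans (mul_le_mul_of_nonneg_right (le_abs_self C) (pow_nonneg h0 _))
  have hD' : ‖d x‖ ≤ |D| * ρ x ^ L :=
    (hD x).trans (mul_le_mul_of_nonneg_right (le_abs_self D) (pow_nonneg h0 _))
  calc ‖c x * d x‖ = ‖c x‖ * ‖d x‖ := norm_mul _ _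
    _ ≤ (|C| * ρ x ^ K) * (|D| * ρ x ^ L) := by gcongr
    _ = |C| * |D| * ρ x ^ (K + L) := by rw [pow_add]; ring

lemma PolyGrowth.const (a : ℂ) : PolyGrowth ρ (fun _ : X => a) :=
  ⟨measurable_const, ‖a‖, 0, fun x => by simp⟩

lemma PolyGrowth.conj {c : X → ℂ} (hc : PolyGrowth ρ c) :
    PolyGrowth ρ (fun x => (starRingEnd ℂ) (c x)) := by
  obtain ⟨hcm, C, K, hC⟩ := hc
  refine ⟨Complex.continuous_conj.measurable.comp hcm, C, K, fun x => ?_⟩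
  rw [RCLike.norm_conj]
  exact hC x

lemma PolyGrowth.of_bound {c : X → ℂ} (hm : Measurable c) (C : ℝ) (K : ℕ)
    (h : ∀ x, ‖c x‖ ≤ C * ρ x ^ K) : PolyGrowth ρ c := ⟨hm, C, K, h⟩

/-- Growth bound for finite sums. -/
lemma Sums_bound (hρ : ∀ x, 1 ≤ ρ x) {a : ℝ} (hP : Ord P a) {p : ℕ → X → ℂ}
    (hp : p ∈ Sums P ρ) : ∃ (C : ℝ) (K : ℕ), 0 ≤ C ∧ ∀ᶠ n : ℕ in atTop, ∀ x,
      ‖p n x‖ ≤ C * (n : ℝ) ^ (-a) * ρ x ^ K := by
  refine AddSubmonoid.closure_induction (motive := fun p _ => ∃ (C : ℝ) (K : ℕ), 0 ≤ C ∧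
    ∀ᶠ n : ℕ in atTop, ∀ x, ‖p n x‖ ≤ C * (n : ℝ) ^ (-a) * ρ x ^ K) ?_ ?_ ?_ hp
  · rintro f ⟨s, hs, c, ⟨hcm, C, K, hC⟩, rfl⟩
    obtain ⟨D, hD⟩ := hP s hs
    refine ⟨|D| * |C|, K, by positivity, ?_⟩
    filter_upwards [hD] with n hn x
    have h0 : 0 ≤ ρ x := le_trans zero_le_one (hρ x)
    have hna : (0 : ℝ) ≤ (n : ℝ) ^ (-a) := Real.rpow_nonneg (Nat.cast_nonneg n) _
    have h1 : ‖c x‖ ≤ |C| * ρ x ^ K :=
      (hC x).trans (mul_le_mul_of_nonneg_right (le_abs_self C) (pow_nonneg h0 _))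
    have h2 : |s n| ≤ |D| * (n : ℝ) ^ (-a) :=
      hn.trans (mul_le_mul_of_nonneg_right (le_abs_self D) hna)
    calc ‖(s n : ℂ) * c x‖ = |s n| * ‖c x‖ := by
          rw [norm_mul, Complex.norm_real, Real.norm_eq_abs]
      _ ≤ (|D| * (n : ℝ) ^ (-a)) * (|C| * ρ x ^ K) := by gcongr
      _ = |D| * |C| * (n : ℝ) ^ (-a) * ρ x ^ K := by ring
  · exact ⟨0, 0, le_rfl, Eventually.of_forall fun n x => by simp⟩
  · rintro p q - - ⟨C, K, hC0, hC⟩ ⟨D, L, hD0, hD⟩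
    refine ⟨C + D, K + L, by positivity, ?_⟩
    filter_upwards [hC, hD] with n hn hn' x
    have hna : (0 : ℝ) ≤ (n : ℝ) ^ (-a) := Real.rpow_nonneg (Nat.cast_nonneg n) _
    have h1 : ρ x ^ K ≤ ρ x ^ (K + L) := pow_le_pow_right₀ (hρ x) (by omega)
    have h2 : ρ x ^ L ≤ ρ x ^ (K + L) := pow_le_pow_right₀ (hρ x) (by omega)
    calc ‖(p + q) n x‖ ≤ ‖p n x‖ + ‖q n x‖ := norm_add_le _ _
      _ ≤ C * (n : ℝ) ^ (-a) * ρ x ^ K + D * (n : ℝ) ^ (-a) * ρ x ^ L := add_le_add (hn x) (hn' x)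
      _ ≤ C * (n : ℝ) ^ (-a) * ρ x ^ (K + L) + D * (n : ℝ) ^ (-a) * ρ x ^ (K + L) := by gcongr
      _ = (C + D) * (n : ℝ) ^ (-a) * ρ x ^ (K + L) := by ring

lemma Sums_measurable {p : ℕ → X → ℂ} (hp : p ∈ Sums P ρ) (n : ℕ) : Measurable (p n) := by
  refine AddSubmonoid.closure_induction (motive := fun p _ => Measurable (p n)) ?_ ?_ ?_ hp
  · rintro f ⟨s, hs, c, ⟨hcm, -⟩, rfl⟩
    exact measurable_const.mul hcm
  · exact measurable_const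
  · rintro p q - - h1 h2
    exact h1.add h2

lemma Sums_zero : (fun _ _ => 0 : ℕ → X → ℂ) ∈ Sums P ρ := (Sums P ρ).zero_mem

lemma Sums_conj {p : ℕ → X → ℂ} (hp : p ∈ Sums P ρ) :
    (fun n x => (starRingEnd ℂ) (p n x)) ∈ Sums P ρ := by
  refine AddSubmonoid.closure_induction
    (motive := fun p _ => (fun n x => (starRingEnd ℂ) (p n x)) ∈ Sums P ρ) ?_ ?_ ?_ hp
  · rintro f ⟨s, hs, c, hc, rfl⟩
    have := Gen_mem_Sums (P := P) (ρ := ρ) hs hc.conj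
    convert this using 3 with n x
    simp
  · simpa using Sums_zero
  · rintro p q - - h1 h2
    have := (Sums P ρ).add_mem h1 h2
    convert this using 3 with n x
    simp

open scoped Pointwise in
lemma Sums_mul (hρ : ∀ x, 1 ≤ ρ x) {p q : ℕ → X → ℂ} (hp : p ∈ Sums P ρ) (hq : q ∈ Sums Q ρ) :
    (fun n x => p n x * q n x) ∈ Sums (P * Q) ρ := by
  refine AddSubmonoid.closure_induction
    (motive := fun p _ => (fun n x => p n x * q n x) ∈ Sums (P * Q) ρ) ?_ ?_ ?_ hp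
  · rintro f ⟨s, hs, c, hc, rfl⟩
    refine AddSubmonoid.closure_induction
      (motive := fun q _ => (fun n x => (s n : ℂ) * c x * q n x) ∈ Sums (P * Q) ρ) ?_ ?_ ?_ hq
    · rintro g ⟨t, ht, d, hd, rfl⟩
      have := Gen_mem_Sums (P := P * Q) (ρ := ρ) (Set.mul_mem_mul hs ht) (hc.mul hρ hd)
      convert this using 3 with n x
      simp only [Pi.mul_apply]
      push_cast
      ring
    · simpa using Sums_zero
    · rintro q q' - - h1 h2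
      have := (Sums (P * Q) ρ).add_mem h1 h2
      convert this using 3 with n x
      simp only [Pi.add_apply]
      ring
  · simpa using Sums_zero
  · rintro p p' - - h1 h2
    have := (Sums (P * Q) ρ).add_mem h1 h2
    convert this using 3 with n x
    simp only [Pi.add_apply]
    ring

/-! ### Expansions -/

lemma ExpTo.mono_P (h : P ⊆ P') (hu : ExpTo P Ω ρ T u) : ExpTo P' Ω ρ T u := by
  obtain ⟨p, hp, C, K, hC⟩ := hu
  exact ⟨p, Sums_mono h hp, C, K, hC⟩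

lemma ExpTo.mono_Ω (h : ∀ᶠ n : ℕ in atTop, Ω' n ⊆ Ω n) (hu : ExpTo P Ω ρ T u) :
    ExpTo P Ω' ρ T u := by
  obtain ⟨p, hp, C, K, hC⟩ := hu
  refine ⟨p, hp, C, K, ?_⟩
  filter_upwards [hC, h] with n hn h' x hx using hn x (h' hx)

lemma ExpTo.congr (h : ∀ᶠ n : ℕ in atTop, ∀ x ∈ Ω n, u n x = v n x) (hu : ExpTo P Ω ρ T u) :
    ExpTo P Ω ρ T v := by
  obtain ⟨p, hp, C, K, hC⟩ := hu
  refine ⟨p, hp, C, K, ?_⟩
  filter_upwards [hC, h] with n hn h' x hx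
  rw [← h' x hx]
  exact hn x hx

lemma rpow_neg_mono_aux {n : ℕ} (hn : 1 ≤ n) {T T' : ℝ} (h : T' ≤ T) :
    (n : ℝ) ^ (-T) ≤ (n : ℝ) ^ (-T') :=
  Real.rpow_le_rpow_of_exponent_le (by exact_mod_cast hn) (by linarith)

lemma ExpTo.mono_T (hρ : ∀ x, 1 ≤ ρ x) (h : T' ≤ T) (hu : ExpTo P Ω ρ T u) :
    ExpTo P Ω ρ T' u := by
  obtain ⟨p, hp, C, K, hC⟩ := hu
  refine ⟨p, hp, |C|, K, ?_⟩
  filter_upwards [hC, eventually_ge_atTop 1] with n hn h1 x hx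
  have h0 : 0 ≤ ρ x := le_trans zero_le_one (hρ x)
  have hna : (0 : ℝ) ≤ (n : ℝ) ^ (-T) := Real.rpow_nonneg (Nat.cast_nonneg n) _
  calc ‖u n x - p n x‖ ≤ C * (n : ℝ) ^ (-T) * ρ x ^ K := hn x hx
    _ ≤ |C| * (n : ℝ) ^ (-T) * ρ x ^ K := by
        gcongr
        exact le_abs_self C
    _ ≤ |C| * (n : ℝ) ^ (-T') * ρ x ^ K := by
        have := rpow_neg_mono_aux h1 h
        gcongr

lemma ExpTo.of_sums {p : ℕ → X → ℂ} (hp : p ∈ Sums P ρ) : ExpTo P Ω ρ T p :=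
  ⟨p, hp, 0, 0, Eventually.of_forall fun n x _ => by simp⟩

lemma ExpTo.of_gen {s : ℕ → ℝ} (hs : s ∈ P) {c : X → ℂ} (hc : PolyGrowth ρ c) :
    ExpTo P Ω ρ T (fun n x => (s n : ℂ) * c x) :=
  ExpTo.of_sums (Gen_mem_Sums hs hc)

lemma ExpTo.of_bound {C : ℝ} {K : ℕ}
    (h : ∀ᶠ n : ℕ in atTop, ∀ x ∈ Ω n, ‖u n x‖ ≤ C * (n : ℝ) ^ (-T) * ρ x ^ K) :
    ExpTo P Ω ρ T u := by
  refine ⟨0, (Sums P ρ).zero_mem, C, K, ?_⟩
  filter_upwards [h] with n hn x hx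
  simpa using hn x hx

lemma ExpTo.zero : ExpTo P Ω ρ T (fun _ _ => 0) :=
  ExpTo.of_bound (C := 0) (K := 0) (Eventually.of_forall fun n x _ => by simp)

lemma ExpTo.add (hρ : ∀ x, 1 ≤ ρ x) (hu : ExpTo P Ω ρ T u) (hv : ExpTo P Ω ρ T v) :
    ExpTo P Ω ρ T (fun n x => u n x + v n x) := by
  obtain ⟨p, hp, C, K, hC⟩ := hu
  obtain ⟨q, hq, D, L, hD⟩ := hv
  refine ⟨p + q, (Sums P ρ).add_mem hp hq, |C| + |D|, K + L, ?_⟩
  filter_upwards [hC, hD] with n hn hn' x hx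
  have h0 : 0 ≤ ρ x := le_trans zero_le_one (hρ x)
  have hna : (0 : ℝ) ≤ (n : ℝ) ^ (-T) := Real.rpow_nonneg (Nat.cast_nonneg n) _
  have h1 : ρ x ^ K ≤ ρ x ^ (K + L) := pow_le_pow_right₀ (hρ x) (by omega)
  have h2 : ρ x ^ L ≤ ρ x ^ (K + L) := pow_le_pow_right₀ (hρ x) (by omega)
  calc ‖u n x + v n x - (p + q) n x‖ = ‖(u n x - p n x) + (v n x - q n x)‖ := by
        simp only [Pi.add_apply]; ring_nf
    _ ≤ ‖u n x - p n x‖ + ‖v n x - q n x‖ := norm_add_le _ _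
    _ ≤ C * (n : ℝ) ^ (-T) * ρ x ^ K + D * (n : ℝ) ^ (-T) * ρ x ^ L :=
        add_le_add (hn x hx) (hn' x hx)
    _ ≤ |C| * (n : ℝ) ^ (-T) * ρ x ^ (K + L) + |D| * (n : ℝ) ^ (-T) * ρ x ^ (K + L) := by
        gcongr
        · exact le_abs_self C
        · exact le_abs_self D
    _ = (|C| + |D|) * (n : ℝ) ^ (-T) * ρ x ^ (K + L) := by ring

lemma ExpTo.conj (hu : ExpTo P Ω ρ T u) :
    ExpTo P Ω ρ T (fun n x => (starRingEnd ℂ) (u n x)) := by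
  obtain ⟨p, hp, C, K, hC⟩ := hu
  refine ⟨_, Sums_conj hp, C, K, ?_⟩
  filter_upwards [hC] with n hn x hx
  rw [← map_sub, RCLike.norm_conj]
  exact hn x hx

open scoped Pointwise in
lemma ExpTo.mul (hρ : ∀ x, 1 ≤ ρ x) {a b : ℝ} (hP : Ord P a) (hQ : Ord Q b)
    (hT' : b ≤ T') (hu : ExpTo P Ω ρ T u) (hv : ExpTo Q Ω ρ T' v) :
    ExpTo (P * Q) Ω ρ (min (T + b) (T' + a)) (fun n x => u n x * v n x) := by
  obtain ⟨p, hp, C, K, hC⟩ := hu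
  obtain ⟨q, hq, D, L, hD⟩ := hv
  obtain ⟨A, I, hA0, hA⟩ := Sums_bound hρ hP hp
  obtain ⟨B, J, hB0, hB⟩ := Sums_bound hρ hQ hq
  refine ⟨_, Sums_mul hρ hp hq, |C| * (B + |D|) + A * |D|, K + L + I + J, ?_⟩
  filter_upwards [hC, hD, hA, hB, eventually_ge_atTop 1] with n h1 h2 h3 h4 hn x hx
  have h0 : 0 ≤ ρ x := le_trans zero_le_one (hρ x)
  have hn0 : (0 : ℝ) < n := by exact_mod_cast hn
  have e1 : ∀ t : ℝ, (0 : ℝ) ≤ (n : ℝ) ^ t := fun t => Real.rpow_nonneg hn0.le _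
  have hR : ∀ {k : ℕ}, k ≤ L + J → ρ x ^ k ≤ ρ x ^ (L + J) :=
    fun h => pow_le_pow_right₀ (hρ x) h
  have hv : ‖v n x‖ ≤ (B + |D|) * (n : ℝ) ^ (-b) * ρ x ^ (L + J) := by
    calc ‖v n x‖ = ‖(v n x - q n x) + q n x‖ := by ring_nf
      _ ≤ ‖v n x - q n x‖ + ‖q n x‖ := norm_add_le _ _
      _ ≤ D * (n : ℝ) ^ (-T') * ρ x ^ L + B * (n : ℝ) ^ (-b) * ρ x ^ J :=
          add_le_add (h2 x hx) (h4 x)
      _ ≤ |D| * (n : ℝ) ^ (-b) * ρ x ^ (L + J) + B * (n : ℝ) ^ (-b) * ρ x ^ (L + J) := by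
          have e2 := e1 (-T')
          have e3 := e1 (-b)
          have e4 := rpow_neg_mono_aux hn hT'
          have e5 : ρ x ^ L ≤ ρ x ^ (L + J) := hR (by omega)
          have e6 : ρ x ^ J ≤ ρ x ^ (L + J) := hR (by omega)
          gcongr
          exact le_abs_self D
      _ = (B + |D|) * (n : ℝ) ^ (-b) * ρ x ^ (L + J) := by ring
  have key : u n x * v n x - p n x * q n x
      = (u n x - p n x) * v n x + p n x * (v n x - q n x) := by ring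
  have m1 : (n : ℝ) ^ (-T) * (n : ℝ) ^ (-b) ≤ (n : ℝ) ^ (-(min (T + b) (T' + a))) := by
    rw [← Real.rpow_add hn0]
    refine Real.rpow_le_rpow_of_exponent_le (by exact_mod_cast hn) ?_
    have := min_le_left (T + b) (T' + a)
    linarith
  have m2 : (n : ℝ) ^ (-a) * (n : ℝ) ^ (-T') ≤ (n : ℝ) ^ (-(min (T + b) (T' + a))) := by
    rw [← Real.rpow_add hn0]
    refine Real.rpow_le_rpow_of_exponent_le (by exact_mod_cast hn) ?_
    have := min_le_right (T + b) (T' + a)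
    linarith
  have r1 : ρ x ^ (K + (L + J)) ≤ ρ x ^ (K + L + I + J) := pow_le_pow_right₀ (hρ x) (by omega)
  have r2 : ρ x ^ (I + L) ≤ ρ x ^ (K + L + I + J) := pow_le_pow_right₀ (hρ x) (by omega)
  rw [key]
  calc ‖(u n x - p n x) * v n x + p n x * (v n x - q n x)‖
      ≤ ‖u n x - p n x‖ * ‖v n x‖ + ‖p n x‖ * ‖v n x - q n x‖ := by
        refine (norm_add_le _ _).trans ?_
        rw [norm_mul, norm_mul]
    _ ≤ (|C| * (n : ℝ) ^ (-T) * ρ x ^ K) * ((B + |D|) * (n : ℝ) ^ (-b) * ρ x ^ (L + J))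
        + (A * (n : ℝ) ^ (-a) * ρ x ^ I) * (|D| * (n : ℝ) ^ (-T') * ρ x ^ L) := by
        have e2 := e1 (-T')
        have e3 := e1 (-b)
        have e4 := e1 (-T)
        have e5 := e1 (-a)
        have c1 : ‖u n x - p n x‖ ≤ |C| * (n : ℝ) ^ (-T) * ρ x ^ K := by
          refine (h1 x hx).trans ?_
          gcongr
          exact le_abs_self C
        have c2 : ‖v n x - q n x‖ ≤ |D| * (n : ℝ) ^ (-T') * ρ x ^ L := by
          refine (h2 x hx).trans ?_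
          gcongr
          exact le_abs_self D
        have c3 := h3 x
        gcongr
    _ = (|C| * (B + |D|)) * ((n : ℝ) ^ (-T) * (n : ℝ) ^ (-b)) * ρ x ^ (K + (L + J))
        + (A * |D|) * ((n : ℝ) ^ (-a) * (n : ℝ) ^ (-T')) * ρ x ^ (I + L) := by
        rw [pow_add (ρ x) K (L + J), pow_add (ρ x) I L]; ring
    _ ≤ (|C| * (B + |D|)) * (n : ℝ) ^ (-(min (T + b) (T' + a))) * ρ x ^ (K + L + I + J)
        + (A * |D|) * (n : ℝ) ^ (-(min (T + b) (T' + a))) * ρ x ^ (K + L + I + J) := by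
        have e2 := e1 (-(min (T + b) (T' + a)))
        gcongr
    _ = _ := by ring

end Pool.Agent.FreudM
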