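import Pool.Agent.FreudM.Targets

/-!
# From expansions in the scales `PA α` to form (E)
-/

set_option autoImplicit false

open MeasureTheory Filter Topology Set Asymptotics

namespace Pool.Agent.FreudM

namespace EB

/-- Finite sums of powers. -/
noncomputable def ev : (ℝ →₀ ℝ) →ₗ[ℝ] (ℕ → ℝ) :=
  Finsupp.linearCombination ℝ (fun μ (n : ℕ) => (n : ℝ) ^ (-μ))

lemma ev_apply (c : ℝ →₀ ℝ) (n : ℕ) : ev c n = ∑ μ ∈ c.support, c μ * (n : ℝ) ^ (-μ) := by
  simp [ev, Finsupp.linearCombination_apply, Finsupp.sum, Finset.sum_apply]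

lemma ev_apply_of_subset (c : ℝ →₀ ℝ) {s : Finset ℝ} (hs : c.support ⊆ s) (n : ℕ) :
    ev c n = ∑ μ ∈ s, c μ * (n : ℝ) ^ (-μ) := by
  rw [ev_apply]
  refine Finset.sum_subset hs fun x _ hx => ?_
  rw [Finsupp.notMem_support_iff.mp hx, zero_mul]

lemma ev_single (μ c : ℝ) (n : ℕ) : ev (Finsupp.single μ c) n = c * (n : ℝ) ^ (-μ) := by
  simp [ev, Finsupp.linearCombination_single]

/-- The set of exponents. -/
def E (α : ℝ) : Set ℝ := {μ | ∃ a b : ℕ, μ = a + b * (α - 1)}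

/-- Uniqueness of the coefficients. -/
lemma uniq (c : ℝ →₀ ℝ) (x : ℕ → ℕ) (hx : Tendsto x atTop atTop) (T : ℝ)
    (h : (fun m => ev c (x m)) =o[atTop] fun m => (x m : ℝ) ^ (-T)) : ∀ μ ≤ T, c μ = 0 := by
  by_contra hne
  push Not at hne
  obtain ⟨μ1, hμ1, hcμ1⟩ := hne
  have hsne : c.support.Nonempty := ⟨μ1, Finsupp.mem_support_iff.mpr hcμ1⟩
  set μ0 := c.support.min' hsne with hμ0
  have h0mem : μ0 ∈ c.support := Finset.min'_mem _ _
  have h0le : μ0 ≤ T := (Finset.min'_le _ _ (Finsupp.mem_support_iff.mpr hcμ1)).trans hμ1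
  have hxr : Tendsto (fun m => (x m : ℝ)) atTop atTop := tendsto_natCast_atTop_atTop.comp hx
  have hpos : ∀ᶠ m in atTop, (0 : ℝ) < x m := hxr.eventually (eventually_gt_atTop 0)
  have h1pos : ∀ᶠ m in atTop, (1 : ℝ) ≤ x m := hxr.eventually (eventually_ge_atTop 1)
  -- the limit of the normalised sum
  have hl1 : Tendsto (fun m => (x m : ℝ) ^ μ0 * ev c (x m)) atTop (𝓝 (c μ0)) := by
    have hs : Tendsto (fun m => c μ0 + ∑ μ ∈ c.support.erase μ0, c μ * (x m : ℝ) ^ (-(μ - μ0)))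
        atTop (𝓝 (c μ0 + ∑ μ ∈ c.support.erase μ0, c μ * 0)) := by
      refine tendsto_const_nhds.add (tendsto_finsetSum _ fun μ hμ => Tendsto.const_mul _ ?_)
      have hlt : μ0 < μ := lt_of_le_of_ne (Finset.min'_le _ _ (Finset.mem_of_mem_erase hμ))
        (Finset.ne_of_mem_erase hμ).symm
      exact (tendsto_rpow_neg_atTop (by linarith)).comp hxr
    simp only [mul_zero, Finset.sum_const_zero, add_zero] at hs
    refine hs.congr' ?_
    filter_upwards [hpos] with m hm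
    rw [ev_apply, ← Finset.add_sum_erase _ _ h0mem, mul_add, Finset.mul_sum]
    congr 1
    · rw [mul_left_comm, ← Real.rpow_add hm]; simp
    · refine Finset.sum_congr rfl fun μ _ => ?_
      rw [mul_left_comm, ← Real.rpow_add hm]; congr 2; ring
  have hl2 : Tendsto (fun m => (x m : ℝ) ^ μ0 * ev c (x m)) atTop (𝓝 0) := by
    have h2 : (fun m => (x m : ℝ) ^ μ0 * ev c (x m)) =o[atTop] fun _ => (1 : ℝ) := by
      have h3 : (fun m => (x m : ℝ) ^ μ0 * ev c (x m)) =o[atTop]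
          fun m => (x m : ℝ) ^ μ0 * (x m : ℝ) ^ (-T) :=
        (isBigO_refl _ _).mul_isLittleO h
      refine h3.trans_isBigO ?_
      refine IsBigO.of_bound 1 ?_
      filter_upwards [hpos, h1pos] with m hm hm1
      rw [← Real.rpow_add hm, one_mul, norm_one, Real.norm_eq_abs,
        abs_of_pos (Real.rpow_pos_of_pos hm _)]
      exact Real.rpow_le_one_of_one_le_of_nonpos hm1 (by linarith)
    exact (isLittleO_one_iff ℝ).mp h2
  have := tendsto_nhds_unique hl1 hl2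
  exact (Finsupp.mem_support_iff.mp h0mem) this

/-- Uniqueness for a smooth and an oscillating part. -/
lemma uniq2 (a b : ℝ →₀ ℝ) (T : ℝ)
    (h : (fun n : ℕ => ev a n + (-1) ^ n * ev b n) =o[atTop] fun n : ℕ => (n : ℝ) ^ (-T)) :
    ∀ μ ≤ T, a μ = 0 ∧ b μ = 0 := by
  have hx1 : Tendsto (fun m : ℕ => 2 * m) atTop atTop :=
    tendsto_atTop_mono (fun m => by simp only [id]; omega) tendsto_id
  have hx2 : Tendsto (fun m : ℕ => 2 * m + 1) atTop atTop :=
    tendsto_atTop_mono (fun m => by simp only [id]; omega) tendsto_id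
  have h1 : ∀ μ ≤ T, (a + b) μ = 0 := by
    refine uniq (a + b) (fun m => 2 * m) hx1 T ?_
    have := h.comp_tendsto hx1
    refine this.congr' ?_ (Eventually.of_forall fun _ => rfl)
    refine Eventually.of_forall fun m => ?_
    simp only [Function.comp_apply, map_add, Pi.add_apply]
    rw [pow_mul]
    simp
  have h2 : ∀ μ ≤ T, (a - b) μ = 0 := by
    refine uniq (a - b) (fun m => 2 * m + 1) hx2 T ?_
    have := h.comp_tendsto hx2
    refine this.congr' ?_ (Eventually.of_forall fun _ => rfl)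
    refine Eventually.of_forall fun m => ?_
    simp only [Function.comp_apply, map_sub, Pi.sub_apply]
    rw [pow_succ, pow_mul]
    simp
    ring
  intro μ hμ
  have e1 := h1 μ hμ
  have e2 := h2 μ hμ
  simp only [Finsupp.coe_add, Finsupp.coe_sub, Pi.add_apply, Pi.sub_apply] at e1 e2
  constructor <;> linarith

lemma pow_isLittleO {μ T : ℝ} (h : T < μ) :
    (fun n : ℕ => (n : ℝ) ^ (-μ)) =o[atTop] fun n : ℕ => (n : ℝ) ^ (-T) := by
  refine (isLittleO_iff_tendsto' ?_).mpr ?_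
  · filter_upwards [eventually_ge_atTop 1] with n hn h0
    have hn0 : (0 : ℝ) < n := by exact_mod_cast hn
    exact absurd h0 (Real.rpow_pos_of_pos hn0 _).ne'
  · have h1 : Tendsto (fun n : ℕ => (n : ℝ) ^ (-(μ - T))) atTop (𝓝 0) :=
      (tendsto_rpow_neg_atTop (by linarith)).comp tendsto_natCast_atTop_atTop
    refine h1.congr' ?_
    filter_upwards [eventually_ge_atTop 1] with n hn
    have hn0 : (0 : ℝ) < n := by exact_mod_cast hn
    rw [← Real.rpow_sub hn0]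
    congr 1
    ring

/-- Sums with large exponents are small. -/
lemma tail (c : ℝ →₀ ℝ) (T : ℝ) (h : ∀ μ, c μ ≠ 0 → T < μ) :
    (fun n : ℕ => ev c n) =o[atTop] fun n : ℕ => (n : ℝ) ^ (-T) := by
  have : (fun n : ℕ => ev c n) = fun n : ℕ => ∑ μ ∈ c.support, c μ * (n : ℝ) ^ (-μ) := by
    funext n; exact ev_apply c n
  rw [this]
  have key : ∀ μ ∈ c.support, (fun n : ℕ => c μ * (n : ℝ) ^ (-μ)) =o[atTop]
      fun n : ℕ => (n : ℝ) ^ (-T) := by
    intro μ hμ
    refine IsLittleO.const_mul_left ?_ _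
    exact pow_isLittleO (h μ (Finsupp.mem_support_iff.mp hμ))
  exact (IsLittleO.sum key).congr_left fun n => by rw [Finset.sum_apply]

lemma sgn_isBigO (f : ℕ → ℝ) (g : ℕ → ℝ) (h : f =o[atTop] g) :
    (fun n : ℕ => (-1) ^ n * f n) =o[atTop] g := by
  refine IsBigO.trans_isLittleO (IsBigO.of_bound 1 (Eventually.of_forall fun n => ?_)) h
  rw [norm_mul, norm_pow, norm_neg, norm_one, one_pow, one_mul]

/-- The smooth scales are powers. -/
lemma Lam_pow {α : ℝ} (hα : ∀ k : ℕ, α ≠ 2 * k + 1) {s : ℕ → ℝ} (hs : s ∈ Lam α) :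
    ∃ μ ∈ E α, ∀ n : ℕ, 1 ≤ n → s n = (n : ℝ) ^ (-μ) := by
  refine Submonoid.closure_induction
    (motive := fun s _ => ∃ μ ∈ E α, ∀ n : ℕ, 1 ≤ n → s n = (n : ℝ) ^ (-μ)) ?_ ?_ ?_ hs
  · rintro s (rfl | rfl | ⟨-, k, hk⟩)
    · exact ⟨1, ⟨1, 0, by simp⟩, fun n _ => rfl⟩
    · exact ⟨α - 1, ⟨0, 1, by simp⟩, fun n _ => rfl⟩
    · exact absurd hk (hα k)
  · exact ⟨0, ⟨0, 0, by simp⟩, fun n _ => by simp⟩
  · rintro s t - - ⟨μ, ⟨a, b, rfl⟩, h1⟩ ⟨ν, ⟨a', b', rfl⟩, h2⟩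
    refine ⟨_, ⟨a + a', b + b', rfl⟩, fun n hn => ?_⟩
    have hn0 : (0 : ℝ) < n := by exact_mod_cast hn
    rw [Pi.mul_apply, h1 n hn, h2 n hn, ← Real.rpow_add hn0]
    congr 1
    push_cast
    ring

/-- Finite sums of scales as sums of powers. -/
lemma Sums_ev {α : ℝ} (hα : ∀ k : ℕ, α ≠ 2 * k + 1) {p : ℕ → Unit → ℂ}
    (hp : p ∈ Sums (PA α) (fun _ => 1)) :
    ∃ a b : ℝ →₀ ℝ, (∀ μ, a μ ≠ 0 → μ ∈ E α) ∧ (∀ μ, b μ ≠ 0 → μ - α ∈ E α) ∧
      ∀ n : ℕ, 1 ≤ n → (p n ()).re = ev a n + (-1) ^ n * ev b n := by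
  refine AddSubmonoid.closure_induction
    (motive := fun p _ => ∃ a b : ℝ →₀ ℝ, (∀ μ, a μ ≠ 0 → μ ∈ E α) ∧
      (∀ μ, b μ ≠ 0 → μ - α ∈ E α) ∧
      ∀ n : ℕ, 1 ≤ n → (p n ()).re = ev a n + (-1) ^ n * ev b n) ?_ ?_ ?_ hp
  · rintro f ⟨s, hs, c, -, rfl⟩
    rcases hs with hs | ⟨l, hl, rfl⟩
    · obtain ⟨μ, hμ, h⟩ := Lam_pow hα hs
      refine ⟨Finsupp.single μ (c ()).re, 0, ?_, ?_, ?_⟩
      · intro ν hν
        by_cases hνμ : μ = ν
        · exact hνμ ▸ hμ
        · exact absurd (Finsupp.single_eq_of_ne' hνμ) hν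
      · intro ν hν
        exact absurd rfl hν
      · intro n hn
        rw [ev_single, map_zero, Complex.re_ofReal_mul, h n hn]
        simp [mul_comm]
    · obtain ⟨μ, hμ, h⟩ := Lam_pow hα hl
      refine ⟨0, Finsupp.single (α + μ) (c ()).re, ?_, ?_, ?_⟩
      · intro ν hν
        exact absurd rfl hν
      · intro ν hν
        by_cases hνμ : α + μ = ν
        · rw [← hνμ, add_sub_cancel_left]; exact hμ
        · exact absurd (Finsupp.single_eq_of_ne' hνμ) hν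
      · intro n hn
        have hn0 : (0 : ℝ) < n := by exact_mod_cast hn
        rw [ev_single, map_zero, Complex.re_ofReal_mul, Pi.mul_apply, h n hn, osc, neg_add,
          Real.rpow_add hn0]
        simp only [Pi.zero_apply]
        ring
  · refine ⟨0, 0, ?_, ?_, ?_⟩
    · intro ν hν
      exact absurd rfl hν
    · intro ν hν
      exact absurd rfl hν
    · intro n _
      simp
  · rintro p q - - ⟨a, b, ha, hb, h⟩ ⟨a', b', ha', hb', h'⟩
    refine ⟨a + a', b + b', ?_, ?_, ?_⟩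
    · intro ν hν
      by_cases h0 : a ν = 0
      · refine ha' ν fun h1 => hν ?_
        simp [h0, h1]
      · exact ha ν h0
    · intro ν hν
      by_cases h0 : b ν = 0
      · refine hb' ν fun h1 => hν ?_
        simp [h0, h1]
      · exact hb ν h0
    · intro n hn
      rw [Pi.add_apply, Pi.add_apply, Complex.add_re, h n hn, h' n hn, map_add, map_add,
        Pi.add_apply, Pi.add_apply]
      ring

lemma E_nonneg {α : ℝ} (hα : 1 < α) {μ : ℝ} (h : μ ∈ E α) : 0 ≤ μ := by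
  obtain ⟨a, b, rfl⟩ := h
  have : (0 : ℝ) ≤ (b : ℝ) * (α - 1) := mul_nonneg (Nat.cast_nonneg b) (by linarith)
  positivity

lemma E_finite {α : ℝ} (hα : 1 < α) (T : ℝ) : {μ ∈ E α | μ ≤ T}.Finite := by
  have h1 : {μ ∈ E α | μ ≤ T} ⊆ (fun q : ℕ × ℕ => (q.1 : ℝ) + q.2 * (α - 1)) ''
      ((Set.Iic ⌊T⌋₊) ×ˢ (Set.Iic ⌊T / (α - 1)⌋₊)) := by
    rintro μ ⟨⟨a, b, rfl⟩, h⟩
    have hα' : 0 < α - 1 := by linarith
    have hb : (0 : ℝ) ≤ (b : ℝ) * (α - 1) := mul_nonneg (Nat.cast_nonneg b) hα'.le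
    have ha : (0 : ℝ) ≤ (a : ℝ) := Nat.cast_nonneg a
    refine ⟨(a, b), ⟨?_, ?_⟩, rfl⟩
    · exact Nat.le_floor (by linarith)
    · refine Nat.le_floor ?_
      rw [le_div_iff₀ hα']
      linarith
  exact (((Set.finite_Iic _).prod (Set.finite_Iic _)).image _).subset h1

/-- Enumeration of a locally finite set. -/
lemma enum (F : Set ℝ) (h0 : (0 : ℝ) ∈ F) (hpos : ∀ μ ∈ F, 0 ≤ μ)
    (hfin : ∀ T, {μ ∈ F | μ ≤ T}.Finite) (hunb : ∀ T, ∃ μ ∈ F, T < μ) :
    ∃ i : ℕ → ℝ, StrictMono i ∧ i 0 = 0 ∧ Set.range i = F ∧ Tendsto i atTop atTop := by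
  classical
  let _ : LocallyFiniteOrder F := LocallyFiniteOrder.ofFiniteIcc fun a b => by
    refine Set.Finite.of_finite_image (f := (Subtype.val : F → ℝ)) ?_ Subtype.val_injective.injOn
    refine (hfin b).subset ?_
    rintro _ ⟨x, hx, rfl⟩
    exact ⟨x.2, hx.2⟩
  let _ : OrderBot F := { bot := ⟨0, h0⟩, bot_le := fun x => hpos x x.2 }
  have _ : NoMaxOrder F := ⟨fun a => by
    obtain ⟨μ, hμ, h⟩ := hunb a
    exact ⟨⟨μ, hμ⟩, h⟩⟩
  let _ : SuccOrder F := LinearLocallyFiniteOrder.succOrder F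
  let _ : PredOrder F := LinearLocallyFiniteOrder.predOrder F
  let e : F ≃o ℕ := orderIsoNatOfLinearSuccPredArch
  refine ⟨fun k => (e.symm k : ℝ), ?_, ?_, ?_, ?_⟩
  · intro a b hab
    exact e.symm.strictMono hab
  · have : e.symm 0 = ⊥ := by
      rw [← Nat.bot_eq_zero]
      exact map_bot e.symm
    simp only [this]
    rfl
  · ext x
    constructor
    · rintro ⟨k, rfl⟩
      exact (e.symm k).2
    · intro hx
      exact ⟨e ⟨x, hx⟩, by simp⟩
  · refine tendsto_atTop_atTop_of_monotone (fun a b hab => e.symm.monotone hab) fun T => ?_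
    obtain ⟨μ, hμ, h⟩ := hunb T
    exact ⟨e ⟨μ, hμ⟩, by simpa using h.le⟩

/-- The expansion at order `T` in terms of powers. -/
lemma exp_ev {α : ℝ} (hα : ∀ k : ℕ, α ≠ 2 * k + 1) {r : ℕ → ℝ} (T : ℝ)
    (h : ExpTo (PA α) (fun _ => (univ : Set Unit)) (fun _ => 1) (T + 1)
      (fun n _ => ((r n : ℝ) : ℂ))) :
    ∃ a b : ℝ →₀ ℝ, (∀ μ, a μ ≠ 0 → μ ∈ E α) ∧ (∀ μ, b μ ≠ 0 → μ - α ∈ E α) ∧
      (fun n : ℕ => r n - (ev a n + (-1) ^ n * ev b n)) =o[atTop] fun n : ℕ => (n : ℝ) ^ (-T) := by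
  obtain ⟨p, hp, C, K, hC⟩ := h
  obtain ⟨a, b, ha, hb, hab⟩ := Sums_ev hα hp
  refine ⟨a, b, ha, hb, ?_⟩
  have h1 : (fun n : ℕ => r n - (ev a n + (-1) ^ n * ev b n)) =O[atTop]
      fun n : ℕ => (n : ℝ) ^ (-(T + 1)) := by
    refine IsBigO.of_bound |C| ?_
    filter_upwards [hC, eventually_ge_atTop 1] with n hn hn1
    have h2 := hn () (mem_univ _)
    rw [one_pow, mul_one] at h2
    rw [← hab n hn1, Real.norm_eq_abs]
    have h3 : |r n - (p n ()).re| ≤ ‖((r n : ℝ) : ℂ) - p n ()‖ := by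
      have := Complex.abs_re_le_norm (((r n : ℝ) : ℂ) - p n ())
      simpa using this
    have h4 : (0 : ℝ) ≤ (n : ℝ) ^ (-(T + 1)) := Real.rpow_nonneg (Nat.cast_nonneg n) _
    rw [Real.norm_eq_abs, abs_of_nonneg h4]
    exact h3.trans (h2.trans (mul_le_mul_of_nonneg_right (le_abs_self C) h4))
  exact h1.trans_isLittleO (pow_isLittleO (by linarith))

lemma uniq_filter (c : ℝ →₀ ℝ) (T : ℝ) (n : ℕ) :
    ev c n = ev (c.filter (fun μ => μ ≤ T)) n + ev (c.filter (fun μ => ¬ μ ≤ T)) n := by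
  conv_lhs => rw [← Finsupp.filter_add_filter_not c (fun μ => μ ≤ T)]
  rw [map_add, Pi.add_apply]

/-- The truncated sum in form (E). -/
lemma trunc_sum (i : ℕ → ℝ) (hi : StrictMono i) (c : ℝ →₀ ℝ) (g : ℝ → ℝ) (T : ℝ)
    (hfin : {k : ℕ | i k ≤ T}.Finite) (hsup : ∀ μ, c μ ≠ 0 → μ ∈ Set.range i)
    (hg : ∀ μ ≤ T, g μ = c μ) (n : ℕ) :
    ∑ᶠ k ∈ {k : ℕ | (k : ℕ∞) < ⊤ ∧ i k ≤ T}, g (i k) * (n : ℝ) ^ (-(i k))
      = ev (c.filter (fun μ => μ ≤ T)) n := by
  classical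
  have hset : {k : ℕ | (k : ℕ∞) < ⊤ ∧ i k ≤ T} = {k : ℕ | i k ≤ T} := by
    ext k; simp
  rw [hset, finsum_mem_eq_finite_toFinset_sum _ hfin]
  have h1 : ∑ k ∈ hfin.toFinset, g (i k) * (n : ℝ) ^ (-(i k))
      = ∑ μ ∈ hfin.toFinset.image i, g μ * (n : ℝ) ^ (-μ) := by
    rw [Finset.sum_image fun a _ b _ h => hi.injective h]
  rw [h1, ev_apply_of_subset (s := hfin.toFinset.image i)]
  · refine Finset.sum_congr rfl fun μ hμ => ?_
    obtain ⟨k, hk, rfl⟩ := Finset.mem_image.mp hμ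
    have hk' : i k ≤ T := by simpa using hk
    rw [hg _ hk', Finsupp.filter_apply_pos (fun μ => μ ≤ T) c hk']
  · intro μ hμ
    rw [Finsupp.support_filter, Finset.mem_filter, Finsupp.mem_support_iff] at hμ
    obtain ⟨k, rfl⟩ := hsup μ hμ.1
    exact Finset.mem_image_of_mem i (by simpa using hμ.2)

end EB

open EB in
theorem target_expEB : Target_expEB := by
  intro α r B0 hα1 hα hexp hlead
  have hex : ∀ T : ℝ, ∃ ab : (ℝ →₀ ℝ) × (ℝ →₀ ℝ), (∀ μ, ab.1 μ ≠ 0 → μ ∈ E α) ∧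
      (∀ μ, ab.2 μ ≠ 0 → μ - α ∈ E α) ∧
      (fun n : ℕ => r n - (ev ab.1 n + (-1) ^ n * ev ab.2 n)) =o[atTop]
        fun n : ℕ => (n : ℝ) ^ (-T) := by
    intro T
    obtain ⟨a, b, h1, h2, h3⟩ := exp_ev hα T (hexp (T + 1))
    exact ⟨(a, b), h1, h2, h3⟩
  choose ab hA hB hab using hex
  -- coefficients do not depend on the order
  have hcoh : ∀ T T' μ : ℝ, μ ≤ T → μ ≤ T' → (ab T).1 μ = (ab T').1 μ ∧
      (ab T).2 μ = (ab T').2 μ := by
    have key : ∀ T T' : ℝ, T ≤ T' → ∀ μ ≤ T, (ab T).1 μ = (ab T').1 μ ∧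
      (ab T).2 μ = (ab T').2 μ := by
      intro T T' hTT μ hμ
      have h1 := hab T
      have h2 : (fun n : ℕ => r n - (ev (ab T').1 n + (-1) ^ n * ev (ab T').2 n)) =o[atTop]
          fun n : ℕ => (n : ℝ) ^ (-T) := by
        refine (hab T').trans_isBigO ?_
        refine IsBigO.of_bound 1 ?_
        filter_upwards [eventually_ge_atTop 1] with n hn
        have hn1 : (1 : ℝ) ≤ n := by exact_mod_cast hn
        rw [one_mul, Real.norm_eq_abs, Real.norm_eq_abs,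
          abs_of_nonneg (Real.rpow_nonneg (Nat.cast_nonneg n) _),
          abs_of_nonneg (Real.rpow_nonneg (Nat.cast_nonneg n) _)]
        exact Real.rpow_le_rpow_of_exponent_le hn1 (by linarith)
      have h3 := uniq2 ((ab T).1 - (ab T').1) ((ab T).2 - (ab T').2) T (by
        refine (h2.sub h1).congr_left fun n => ?_
        simp only [map_sub, Pi.sub_apply]
        ring) μ hμ
      simp only [Finsupp.coe_sub, Pi.sub_apply] at h3
      exact ⟨by linarith [h3.1], by linarith [h3.2]⟩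
    intro T T' μ h h'
    rcases le_total T T' with hT | hT
    · exact key T T' hT μ h
    · exact ⟨(key T' T hT μ h').1.symm, (key T' T hT μ h').2.symm⟩
  obtain ⟨i, hi, hi0, hir, hit⟩ := enum (E α) ⟨0, 0, by simp⟩ (fun μ h => E_nonneg hα1 h)
    (E_finite hα1) (fun T => by
      obtain ⟨m, hm⟩ := exists_nat_gt T
      exact ⟨m, ⟨m, 0, by simp⟩, hm⟩)
  have hj : StrictMono fun k => α + i k := fun a b h => by
    have := hi h
    simp only
    linarith
  have hjt : Tendsto (fun k => α + i k) atTop atTop := tendsto_atTop_add_const_left _ _ hit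
  have hfin : ∀ (f : ℕ → ℝ), Tendsto f atTop atTop → ∀ T : ℝ, {k : ℕ | f k ≤ T}.Finite := by
    intro f hf T
    obtain ⟨K, hK⟩ := eventually_atTop.mp (hf.eventually (eventually_gt_atTop T))
    refine (Set.finite_lt_nat K).subset fun k hk => ?_
    by_contra hk2
    have := hK k (not_lt.mp hk2)
    exact absurd hk (not_le.mpr this)
  -- leading coefficients
  have hlead' : (ab α).1 0 = 1 ∧ (ab α).2 α = B0 := by
    obtain ⟨K, c, hc0, hK⟩ := hlead
    set cc : ℝ →₀ ℝ := ∑ k ∈ Finset.range (K + 1), Finsupp.single (k : ℝ) (c k) with hcc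
    have hev : ∀ n : ℕ, ev cc n = ∑ k ∈ Finset.range (K + 1), c k * (n : ℝ) ^ (-(k : ℝ)) := by
      intro n
      rw [hcc, map_sum, Finset.sum_apply]
      exact Finset.sum_congr rfl fun k _ => ev_single _ _ _
    have hcc0 : cc 0 = 1 := by
      rw [hcc, Finsupp.finsetSum_apply, Finset.sum_eq_single 0]
      · simp [hc0]
      · intro k _ hk
        exact Finsupp.single_eq_of_ne' (by exact_mod_cast hk)
      · intro h
        exact absurd (Finset.mem_range.mpr (Nat.succ_pos K)) h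
    have h3 := uniq2 ((ab α).1 - cc) ((ab α).2 - Finsupp.single α B0) α (by
      refine (hK.sub (hab α)).congr_left fun n => ?_
      simp only [map_sub, Pi.sub_apply, ev_single, hev]
      ring)
    have h4 := (h3 0 (by linarith)).1
    have h5 := (h3 α le_rfl).2
    simp only [Finsupp.coe_sub, Pi.sub_apply, hcc0, Finsupp.single_eq_same] at h4 h5
    exact ⟨by linarith, by linarith⟩
  refine ⟨⊤, ⊤, i, fun k => α + i k, fun k => (ab (i k)).1 (i k),
    fun k => (ab (α + i k)).2 (α + i k), by simp, hi0, ?_, by simp, by simp [hi0], ?_,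
    fun k l h _ => hi h, fun k l h _ => hj h, fun _ => hit, fun _ => hjt, ?_⟩
  · simp only [hi0]
    rw [(hcoh 0 α 0 le_rfl (by linarith)).1, hlead'.1]
  · simp only [hi0, add_zero]
    exact hlead'.2
  · intro T hT
    have hs1 : ∀ n : ℕ, ∑ᶠ k ∈ {k : ℕ | (k : ℕ∞) < ⊤ ∧ i k ≤ T},
        (ab (i k)).1 (i k) * (n : ℝ) ^ (-(i k)) = ev ((ab T).1.filter (fun μ => μ ≤ T)) n := by
      intro n
      refine trunc_sum i hi (ab T).1 (fun μ => (ab μ).1 μ) T (hfin i hit T) ?_ ?_ n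
      · intro μ hμ
        rw [hir]
        exact hA T μ hμ
      · intro μ hμ
        exact (hcoh μ T μ le_rfl hμ).1
    have hs2 : ∀ n : ℕ, ∑ᶠ k ∈ {k : ℕ | (k : ℕ∞) < ⊤ ∧ α + i k ≤ T},
        (ab (α + i k)).2 (α + i k) * (n : ℝ) ^ (-(α + i k))
          = ev ((ab T).2.filter (fun μ => μ ≤ T)) n := by
      intro n
      refine trunc_sum (fun k => α + i k) hj (ab T).2 (fun μ => (ab μ).2 μ) T (hfin _ hjt T) ?_ ?_ n
      · intro μ hμ
        have := hB T μ hμ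
        rw [← hir] at this
        obtain ⟨k, hk⟩ := this
        exact ⟨k, by simp only; linarith⟩
      · intro μ hμ
        exact (hcoh μ T μ le_rfl hμ).2
    have ht1 := tail ((ab T).1.filter (fun μ => ¬ μ ≤ T)) T (fun μ hμ => by
      by_contra h
      exact hμ (Finsupp.filter_apply_neg (fun μ => ¬ μ ≤ T) _ (by simpa using h)))
    have ht2 := tail ((ab T).2.filter (fun μ => ¬ μ ≤ T)) T (fun μ hμ => by
      by_contra h
      exact hμ (Finsupp.filter_apply_neg (fun μ => ¬ μ ≤ T) _ (by simpa using h)))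
    refine (((hab T).add ht1).add (sgn_isBigO _ _ ht2)).congr_left fun n => ?_
    rw [hs1 n, hs2 n, uniq_filter (ab T).1 T n, uniq_filter (ab T).2 T n]
    ring

end Pool.Agent.FreudM
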