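import Pool.Agent.FreudM.Targets
import Pool.Agent.Freud.NearZero
import Pool.Agent.Freud.GBasic

/-!
# The g-function at the origin to all orders
-/

set_option autoImplicit false

open MeasureTheory Filter Topology Set

namespace Pool.Agent.FreudM

open Pool.Agent.Freud

/-! ### Power series with bounded coefficients -/

theorem n0_summable {c : ℕ → ℂ} {C : ℝ} (hc : ∀ k, ‖c k‖ ≤ C) {w : ℂ} (hw : ‖w‖ < 1) :
    Summable fun k : ℕ => c k * w ^ k := by
  refine Summable.of_norm_bounded (g := fun k : ℕ => C * ‖w‖ ^ k)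
    ((summable_geometric_of_lt_one (norm_nonneg _) hw).mul_left _) fun k => ?_
  rw [norm_mul, norm_pow]
  exact mul_le_mul_of_nonneg_right (hc k) (by positivity)

theorem n0_summable' {c : ℕ → ℂ} {C : ℝ} (hc : ∀ k, ‖c k‖ ≤ C) {w : ℂ} (hw : ‖w‖ < 1) :
    Summable fun k : ℕ => (k : ℂ) * c k * w ^ k := by
  have h1 : Summable fun k : ℕ => (k : ℝ) ^ 1 * ‖w‖ ^ k :=
    summable_pow_mul_geometric_of_norm_lt_one 1 (by rwa [norm_norm])
  refine Summable.of_norm_bounded (g := fun k : ℕ => C * ((k : ℝ) ^ 1 * ‖w‖ ^ k))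
    (h1.mul_left _) fun k => ?_
  rw [norm_mul, norm_mul, norm_pow, Complex.norm_natCast, pow_one]
  have : (k : ℝ) * ‖c k‖ ≤ (k : ℝ) * C := mul_le_mul_of_nonneg_left (hc k) (Nat.cast_nonneg k)
  calc (k : ℝ) * ‖c k‖ * ‖w‖ ^ k ≤ (k : ℝ) * C * ‖w‖ ^ k :=
        mul_le_mul_of_nonneg_right this (by positivity)
    _ = C * ((k : ℝ) * ‖w‖ ^ k) := by ring

theorem n0_hasDerivAt {c : ℕ → ℂ} {C : ℝ} (hc : ∀ k, ‖c k‖ ≤ C) {w : ℂ} (hw : ‖w‖ < 1) :
    HasDerivAt (fun w : ℂ => ∑' k : ℕ, c k * w ^ k)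
      (∑' k : ℕ, c k * ((k : ℂ) * w ^ (k - 1))) w := by
  obtain ⟨r, hr1, hr2⟩ := exists_between hw
  have hr0 : 0 < r := lt_of_le_of_lt (norm_nonneg _) hr1
  have hC : 0 ≤ C := le_trans (norm_nonneg _) (hc 0)
  have hu : Summable fun k : ℕ => C * ((k : ℝ) * r ^ (k - 1)) := by
    have h1 : Summable fun k : ℕ => (k : ℝ) ^ 1 * r ^ k :=
      summable_pow_mul_geometric_of_norm_lt_one 1 (by rwa [Real.norm_eq_abs, abs_of_pos hr0])
    refine Summable.mul_left _ ?_
    refine (h1.mul_left r⁻¹).congr fun k => ?_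
    rcases k with _ | k
    · simp
    · rw [pow_one, Nat.add_sub_cancel, pow_succ]
      field_simp
  refine hasDerivAt_tsum_of_isPreconnected (𝕜 := ℂ) (F := ℂ) (t := Metric.ball (0 : ℂ) r)
    (g := fun k w => c k * w ^ k) (g' := fun k w => c k * ((k : ℂ) * w ^ (k - 1))) (y₀ := 0) hu
    Metric.isOpen_ball (convex_ball _ _).isPreconnected (fun k y _ => ?_) (fun k y hy => ?_)
    (Metric.mem_ball_self hr0) ?_ (by rwa [mem_ball_zero_iff])
  · exact (hasDerivAt_pow k y).const_mul (c k)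
  · rw [norm_mul, norm_mul, norm_pow, Complex.norm_natCast]
    have h1 : ‖y‖ ≤ r := (mem_ball_zero_iff.1 hy).le
    have h2 : ‖y‖ ^ (k - 1) ≤ r ^ (k - 1) := pow_le_pow_left₀ (norm_nonneg _) h1 _
    exact mul_le_mul (hc k) (mul_le_mul_of_nonneg_left h2 (Nat.cast_nonneg k))
      (by positivity) hC
  · exact n0_summable hc (by simp)

theorem n0_mul_deriv {c : ℕ → ℂ} {w : ℂ} :
    w * (∑' k : ℕ, c k * ((k : ℂ) * w ^ (k - 1))) = ∑' k : ℕ, (k : ℂ) * c k * w ^ k := by
  rw [← tsum_mul_left]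
  congr 1
  ext k
  rcases k with _ | k
  · simp
  · rw [Nat.add_sub_cancel, pow_succ]
    ring

/-! ### The binomial series -/

/-- The coefficients of `(1 - w) ^ (-1/2)`. -/
noncomputable def n0b (k : ℕ) : ℂ := (Nat.centralBinom k : ℂ) / 4 ^ k

theorem n0b_zero : n0b 0 = 1 := by simp [n0b]

theorem n0b_succ (k : ℕ) : 2 * ((k : ℂ) + 1) * n0b (k + 1) = (2 * k + 1) * n0b k := by
  have h := Nat.succ_mul_centralBinom_succ k
  have h' : ((k : ℂ) + 1) * (Nat.centralBinom (k + 1) : ℂ) =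
      2 * (2 * k + 1) * (Nat.centralBinom k : ℂ) := by exact_mod_cast h
  unfold n0b
  have h4 : (4 : ℂ) ^ k ≠ 0 := pow_ne_zero _ (by norm_num)
  rw [pow_succ]
  field_simp
  linear_combination 2 * h'

theorem n0b_norm (k : ℕ) : ‖n0b k‖ ≤ 1 := by
  induction k with
  | zero => simp [n0b_zero]
  | succ k ih =>
    have h := n0b_succ k
    have h1 : ‖2 * ((k : ℂ) + 1) * n0b (k + 1)‖ = 2 * ((k : ℝ) + 1) * ‖n0b (k + 1)‖ := by
      rw [norm_mul, norm_mul]
      have : ‖(k : ℂ) + 1‖ = (k : ℝ) + 1 := by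
        have := Complex.norm_natCast (k + 1)
        push_cast at this
        exact this
      rw [this]
      norm_num
    have h2 : ‖(2 * (k : ℂ) + 1) * n0b k‖ = (2 * (k : ℝ) + 1) * ‖n0b k‖ := by
      rw [norm_mul]
      have : ‖2 * (k : ℂ) + 1‖ = 2 * (k : ℝ) + 1 := by
        have := Complex.norm_natCast (2 * k + 1)
        push_cast at this
        exact this
      rw [this]
    rw [h, h2] at h1
    have hk : (0 : ℝ) ≤ k := Nat.cast_nonneg k
    have : (2 * (k : ℝ) + 1) * ‖n0b k‖ ≤ 2 * k + 1 := by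
      nlinarith
    have h5 : 2 * ((k : ℝ) + 1) * ‖n0b (k + 1)‖ ≤ 2 * k + 1 := by rw [← h1]; exact this
    by_contra hcon
    push Not at hcon
    nlinarith

/-- The sum of the binomial series. -/
theorem n0_binom {w : ℂ} (hw : ‖w‖ < 1) :
    ∑' k : ℕ, n0b k * w ^ k = (1 - w) ^ (-(1 / 2) : ℂ) := by
  set F : ℂ → ℂ := fun w => ∑' k : ℕ, n0b k * w ^ k with hF
  have hD : ∀ w : ℂ, ‖w‖ < 1 → ∃ D, HasDerivAt F D w ∧ 2 * (1 - w) * D = F w := by
    intro w hw
    refine ⟨_, n0_hasDerivAt n0b_norm hw, ?_⟩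
    set D := ∑' k : ℕ, n0b k * ((k : ℂ) * w ^ (k - 1)) with hDdef
    have h1 : w * D = ∑' k : ℕ, (k : ℂ) * n0b k * w ^ k := n0_mul_deriv
    have hs : Summable fun k : ℕ => n0b k * ((k : ℂ) * w ^ (k - 1)) := by
      rw [← summable_nat_add_iff 1]
      have hs1 := n0_summable' n0b_norm hw
      have hs2 := n0_summable n0b_norm hw
      have hs3 : Summable fun k : ℕ => (k : ℂ) * n0b k * w ^ k + (1 / 2) * (n0b k * w ^ k) :=
        hs1.add (hs2.mul_left _)
      refine hs3.congr fun k => ?_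
      have h := n0b_succ k
      rw [Nat.add_sub_cancel]
      push_cast
      linear_combination (-(1 / 2) * w ^ k) * h
    have h2 : D = ∑' k : ℕ, ((k : ℂ) * n0b k * w ^ k + (1 / 2) * (n0b k * w ^ k)) := by
      rw [hDdef, hs.tsum_eq_zero_add]
      simp only [CharP.cast_eq_zero, zero_mul, mul_zero, zero_add]
      congr 1
      ext k
      have h := n0b_succ k
      rw [Nat.add_sub_cancel]
      push_cast
      linear_combination (1 / 2 * w ^ k) * h
    rw [(n0_summable' n0b_norm hw).tsum_add ((n0_summable n0b_norm hw).mul_left _), tsum_mul_left,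
      ← h1] at h2
    show 2 * (1 - w) * D = ∑' k : ℕ, n0b k * w ^ k
    linear_combination 2 * h2
  have hslit : ∀ w : ℂ, ‖w‖ < 1 → 1 - w ∈ Complex.slitPlane := by
    intro w hw
    left
    have := Complex.abs_re_le_norm w
    have h3 := le_abs_self w.re
    rw [Complex.sub_re, Complex.one_re]
    linarith
  have hG : ∀ w : ℂ, ‖w‖ < 1 → HasDerivAt (fun w => F w * (1 - w) ^ (1 / 2 : ℂ)) 0 w := by
    intro w hw
    obtain ⟨D, hD1, hD2⟩ := hD w hw
    have h0 : (1 - w) ≠ 0 := Complex.slitPlane_ne_zero (hslit w hw)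
    have h1 : HasDerivAt (fun w : ℂ => (1 - w) ^ (1 / 2 : ℂ))
        ((1 / 2 : ℂ) * (1 - w) ^ ((1 / 2 : ℂ) - 1) * (-1)) w :=
      ((hasDerivAt_id w).const_sub 1).cpow_const (hslit w hw)
    have h2 := hD1.mul h1
    have e : D * (1 - w) ^ (1 / 2 : ℂ) +
        F w * ((1 / 2 : ℂ) * (1 - w) ^ ((1 / 2 : ℂ) - 1) * (-1)) = 0 := by
      rw [Complex.cpow_sub _ _ h0, Complex.cpow_one, ← hD2]
      field_simp
      ring
    rw [e] at h2
    exact h2
  have hconst : F w * (1 - w) ^ (1 / 2 : ℂ) = F 0 * (1 - 0) ^ (1 / 2 : ℂ) := by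
    have := Convex.is_const_of_fderivWithin_eq_zero (𝕜 := ℂ) (f := fun w => F w * (1 - w) ^ (1 / 2 : ℂ))
      (convex_ball (0 : ℂ) 1)
      (fun z hz => (hG z (mem_ball_zero_iff.1 hz)).differentiableAt.differentiableWithinAt)
      (fun z hz => ?_) (mem_ball_zero_iff.2 hw) (Metric.mem_ball_self one_pos)
    · exact this
    · rw [fderivWithin_of_isOpen Metric.isOpen_ball hz]
      have := (hG z (mem_ball_zero_iff.1 hz)).hasFDerivAt.fderiv
      rw [this]
      ext
      simp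
  have hF0 : F 0 = 1 := by
    show ∑' k : ℕ, n0b k * (0 : ℂ) ^ k = 1
    rw [tsum_eq_single 0]
    · simp [n0b_zero]
    · intro k hk
      simp [hk]
  rw [hF0, sub_zero, Complex.one_cpow, mul_one] at hconst
  show F w = _
  have h0 : (1 - w) ≠ 0 := Complex.slitPlane_ne_zero (hslit w hw)
  rw [Complex.cpow_neg]
  have h1 : (1 - w) ^ (1 / 2 : ℂ) ≠ 0 := by
    intro h
    rw [h, mul_zero] at hconst
    exact zero_ne_one hconst
  exact eq_inv_of_mul_eq_one_left hconst

/-! ### The differential equation -/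

theorem n0_smul_mem {z : ℂ} (hz : z ∈ UH) {t : ℝ} (ht : 0 < t) : (t : ℂ) * z ∈ UH := by
  show 0 < ((t : ℂ) * z).im
  rw [Complex.im_ofReal_mul]
  exact mul_pos ht hz

theorem n0_gbU_scale {z : ℂ} (hz : z ∈ UH) {t : ℝ} (ht : 0 < t) (u : ℝ) :
    gbU (t * z) (t * u) = t * gbU z u := by
  apply nz_root_unique
  · rw [gbU_sq]
    rw [mul_pow (t : ℂ) (gbU z u), gbU_sq]
    push_cast
    ring
  · exact gbU_re_pos (n0_smul_mem hz ht) _
  · rw [Complex.re_ofReal_mul]
    exact mul_pos ht (gbU_re_pos hz u)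

/-- The integrand of `dgfun`. -/
noncomputable def n0K (α : ℝ) (z : ℂ) (s : ℝ) : ℂ :=
  ((gbW α s : ℝ) : ℂ) * (-Complex.I / gbU z s)

theorem n0K_scale {α : ℝ} {z : ℂ} (hz : z ∈ UH) {t : ℝ} (ht : 0 < t) {u : ℝ}
    (hu : 0 ≤ u) : n0K α (t * z) (t * u) = ((t ^ (α - 2) : ℝ) : ℂ) * n0K α z u := by
  unfold n0K
  rw [n0_gbU_scale hz ht]
  have e1 : gbW α (t * u) = t ^ (α - 1) * gbW α u := by
    unfold gbW
    rw [Real.mul_rpow ht.le hu]
    ring
  have e2 : t ^ (α - 2) = t ^ (α - 1) / t := by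
    rw [show α - 2 = (α - 1) - 1 by ring, Real.rpow_sub_one ht.ne']
  have ht' : (t : ℂ) ≠ 0 := by exact_mod_cast ht.ne'
  have hg := gbU_ne_zero hz u
  rw [e1, e2]
  push_cast
  field_simp

theorem n0_scale {α : ℝ} {z : ℂ} (hz : z ∈ UH) {t : ℝ} (ht : 0 < t) :
    dgfun α (t * z) = ((t ^ (α - 1) : ℝ) : ℂ) * ∫ u in (0 : ℝ)..t⁻¹, n0K α z u := by
  have ht' : (t : ℂ) ≠ 0 := by exact_mod_cast ht.ne'
  have h1 : dgfun α (t * z) = ∫ s in (0 : ℝ)..1, n0K α (t * z) s := dgfun_eq α _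
  have h2 : ∫ u in (0 : ℝ)..t⁻¹, n0K α (t * z) (t * u) =
      t⁻¹ • ∫ s in (t * 0)..(t * t⁻¹), n0K α (t * z) s :=
    intervalIntegral.integral_comp_mul_left _ ht.ne'
  rw [mul_zero, mul_inv_cancel₀ ht.ne', ← h1] at h2
  have h3 : ∫ u in (0 : ℝ)..t⁻¹, n0K α (t * z) (t * u) =
      ((t ^ (α - 2) : ℝ) : ℂ) * ∫ u in (0 : ℝ)..t⁻¹, n0K α z u := by
    rw [← intervalIntegral.integral_const_mul]
    refine intervalIntegral.integral_congr fun u hu => ?_
    rw [uIcc_of_le (by positivity)] at hu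
    exact n0K_scale hz ht hu.1
  rw [h3, Complex.real_smul] at h2
  have e2 : t ^ (α - 2) = t ^ (α - 1) / t := by
    rw [show α - 2 = (α - 1) - 1 by ring, Real.rpow_sub_one ht.ne']
  rw [e2] at h2
  set J := ∫ u in (0 : ℝ)..t⁻¹, n0K α z u with hJ
  push_cast at h2
  have h4 : (((t ^ (α - 1) : ℝ)) : ℂ) * J = dgfun α (t * z) := by
    field_simp at h2
    exact h2
  exact h4.symm

theorem n0_dgfun_diff {α : ℝ} (hα : 1 < α) : DifferentiableOn ℂ (dgfun α) UH := by
  have h1 : DifferentiableOn ℂ (gfun α) UH := fun z hz =>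
    (gfun_hasDerivAt α hα z hz).differentiableAt.differentiableWithinAt
  have ho : IsOpen UH := isOpen_lt continuous_const Complex.continuous_im
  have h2 : DifferentiableOn ℂ (deriv (gfun α)) UH := h1.deriv ho
  exact h2.congr fun z hz => (gfun_hasDerivAt α hα z hz).deriv.symm

theorem n0_ode {α : ℝ} (hα : 1 < α) {z : ℂ} (hz : z ∈ UH) :
    ∃ D, HasDerivAt (dgfun α) D z ∧
      z * D = (α - 1) * dgfun α z + Complex.I * α * (1 - z ^ 2) ^ (-(1 / 2) : ℂ) := by
  have ho : IsOpen UH := isOpen_lt continuous_const Complex.continuous_im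
  have hd : HasDerivAt (dgfun α) (deriv (dgfun α) z) z :=
    ((n0_dgfun_diff hα).differentiableAt (ho.mem_nhds hz)).hasDerivAt
  refine ⟨_, hd, ?_⟩
  set D := deriv (dgfun α) z with hD
  have h1 : HasDerivAt (fun w : ℂ => dgfun α (w * z)) (D * z) ((1 : ℝ) : ℂ) := by
    have hd' : HasDerivAt (dgfun α) D ((((1 : ℝ) : ℂ)) * z) := by
      rw [Complex.ofReal_one, one_mul]
      exact hd
    have h := hd'.comp ((1 : ℝ) : ℂ) ((hasDerivAt_id ((1 : ℝ) : ℂ)).mul_const z)
    rw [one_mul] at h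
    exact h
  have h2 : HasDerivAt (fun t : ℝ => dgfun α ((t : ℂ) * z)) (D * z) 1 := h1.comp_ofReal
  have hcont : Continuous (n0K α z) := dgfun_integrand_cont hα hz
  have h3 : HasDerivAt (fun x : ℝ => ∫ u in (0 : ℝ)..x, n0K α z u) (n0K α z 1) 1⁻¹ := by
    rw [inv_one]
    exact intervalIntegral.integral_hasDerivAt_right (hcont.intervalIntegrable _ _)
      (hcont.stronglyMeasurableAtFilter _ _) hcont.continuousAt
  have h4 : HasDerivAt (fun t : ℝ => t⁻¹) (-((1 : ℝ) ^ 2)⁻¹) 1 := hasDerivAt_inv one_ne_zero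
  have h5 : HasDerivAt (fun t : ℝ => ∫ u in (0 : ℝ)..t⁻¹, n0K α z u)
      ((-((1 : ℝ) ^ 2)⁻¹) • n0K α z 1) 1 := h3.scomp 1 h4
  have h6 : HasDerivAt (fun t : ℝ => ((t ^ (α - 1) : ℝ) : ℂ)) (((α - 1 : ℝ)) : ℂ) 1 := by
    have := (Real.hasDerivAt_rpow_const (x := 1) (p := α - 1) (Or.inl one_ne_zero)).ofReal_comp
    simpa using this
  have h7 := h6.mul h5
  have h8 : (fun t : ℝ => dgfun α ((t : ℂ) * z)) =ᶠ[𝓝 1]
      (fun t : ℝ => ((t ^ (α - 1) : ℝ) : ℂ)) * (fun t : ℝ => ∫ u in (0 : ℝ)..t⁻¹, n0K α z u) := by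
    filter_upwards [lt_mem_nhds one_pos] with t ht
    exact n0_scale hz ht
  have h9 := (h7.congr_of_eventuallyEq h8).unique h2
  have h10 : ∫ u in (0 : ℝ)..1, n0K α z u = dgfun α z := (dgfun_eq α z).symm
  simp only [inv_one, Real.one_rpow, Complex.ofReal_one, one_mul, one_pow, neg_smul, one_smul] at h9
  rw [h10] at h9
  have h11 : n0K α z 1 = -(Complex.I * α * (1 - z ^ 2) ^ (-(1 / 2) : ℂ)) := by
    unfold n0K gbW gbU
    rw [Complex.cpow_neg, Real.one_rpow]
    push_cast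
    rw [one_pow]
    ring
  rw [h11] at h9
  push_cast at h9
  linear_combination -h9

/-! ### Functions with zero derivative on the half disc -/

/-- The open upper half of the unit disc. -/
def n0S : Set ℂ := UH ∩ Metric.ball (0 : ℂ) 1

theorem n0S_open : IsOpen n0S :=
  (isOpen_lt continuous_const Complex.continuous_im).inter Metric.isOpen_ball

theorem n0S_convex : Convex ℝ n0S :=
  (convex_halfSpace_im_gt 0).inter (convex_ball _ _)

theorem n0_const {f : ℂ → ℂ} (hf : ∀ z ∈ n0S, HasDerivAt f 0 z) :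
    ∃ c, ∀ z ∈ n0S, f z = c := by
  refine ⟨f (Complex.I / 2), fun z hz => ?_⟩
  have hi : Complex.I / 2 ∈ n0S := by
    constructor
    · show 0 < (Complex.I / 2).im
      simp
    · rw [mem_ball_zero_iff, norm_div, Complex.norm_I]
      norm_num
  refine Convex.is_const_of_fderivWithin_eq_zero (𝕜 := ℂ) n0S_convex
    (fun z hz => (hf z hz).differentiableAt.differentiableWithinAt) (fun z hz => ?_) hz hi
  rw [fderivWithin_of_isOpen n0S_open hz, (hf z hz).hasFDerivAt.fderiv]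
  ext
  simp

theorem n0_slit {z : ℂ} (hz : z ∈ UH) : z ∈ Complex.slitPlane := by
  right
  have : 0 < z.im := hz
  exact this.ne'

theorem n0_ne {z : ℂ} (hz : z ∈ UH) : z ≠ 0 := Complex.slitPlane_ne_zero (n0_slit hz)

/-- The odd primitive. -/
noncomputable def n0P (p : ℕ → ℂ) (z : ℂ) : ℂ :=
  z * ∑' k : ℕ, p k / (2 * k + 1) * (z ^ 2) ^ k

/-- Its derivative. -/
noncomputable def n0A (p : ℕ → ℂ) (z : ℂ) : ℂ := ∑' k : ℕ, p k * (z ^ 2) ^ k

theorem n0_odd_ne (k : ℕ) : (2 * (k : ℂ) + 1) ≠ 0 := by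
  have : ((2 * k + 1 : ℕ) : ℂ) ≠ 0 := Nat.cast_ne_zero.2 (by omega)
  push_cast at this
  exact this

theorem n0_div_bound {p : ℕ → ℂ} {C : ℝ} (hp : ∀ k, ‖p k‖ ≤ C) (k : ℕ) :
    ‖p k / (2 * k + 1)‖ ≤ C := by
  rw [norm_div]
  have h1 : ‖2 * (k : ℂ) + 1‖ = 2 * (k : ℝ) + 1 := by
    have := Complex.norm_natCast (2 * k + 1)
    push_cast at this
    exact this
  rw [h1, div_le_iff₀ (by positivity)]
  have hk : (0 : ℝ) ≤ k := Nat.cast_nonneg k
  have := norm_nonneg (p k)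
  have h2 := hp k
  nlinarith

theorem n0_sq_lt {z : ℂ} (hz : ‖z‖ < 1) : ‖z ^ 2‖ < 1 := by
  rw [norm_pow]
  exact pow_lt_one₀ (norm_nonneg _) hz two_ne_zero

theorem n0P_hasDerivAt {p : ℕ → ℂ} {C : ℝ} (hp : ∀ k, ‖p k‖ ≤ C) {z : ℂ} (hz : ‖z‖ < 1) :
    HasDerivAt (n0P p) (n0A p z) z := by
  have hw := n0_sq_lt hz
  have h1 := n0_hasDerivAt (n0_div_bound hp) hw
  have h2 : HasDerivAt (fun z : ℂ => z ^ 2) (2 * z) z := by
    simpa using hasDerivAt_pow 2 z
  have h3 := h1.comp z h2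
  have h4 := (hasDerivAt_id z).mul h3
  have e : n0A p z = 1 * ∑' k : ℕ, p k / (2 * k + 1) * (z ^ 2) ^ k +
      z * ((∑' k : ℕ, p k / (2 * k + 1) * ((k : ℂ) * (z ^ 2) ^ (k - 1))) * (2 * z)) := by
    have h5 : z * ((∑' k : ℕ, p k / (2 * k + 1) * ((k : ℂ) * (z ^ 2) ^ (k - 1))) * (2 * z)) =
        2 * (z ^ 2 * ∑' k : ℕ, p k / (2 * k + 1) * ((k : ℂ) * (z ^ 2) ^ (k - 1))) := by ring
    rw [h5, n0_mul_deriv, one_mul, ← tsum_mul_left,
      ← (n0_summable (n0_div_bound hp) hw).tsum_add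
        ((n0_summable' (n0_div_bound hp) hw).mul_left _)]
    unfold n0A
    congr 1
    ext k
    have := n0_odd_ne k
    field_simp
    ring
  rw [e]
  exact h4

theorem n0A_hasDerivAt {p : ℕ → ℂ} {C : ℝ} (hp : ∀ k, ‖p k‖ ≤ C) {z : ℂ} (hz : ‖z‖ < 1) :
    ∃ D, HasDerivAt (n0A p) D z ∧ z * D = ∑' k : ℕ, (2 * k) * p k * (z ^ 2) ^ k := by
  have hw := n0_sq_lt hz
  have h1 := n0_hasDerivAt hp hw
  have h2 : HasDerivAt (fun z : ℂ => z ^ 2) (2 * z) z := by
    simpa using hasDerivAt_pow 2 z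
  have h3 := h1.comp z h2
  have h3' : HasDerivAt (n0A p)
      ((∑' k : ℕ, p k * ((k : ℂ) * (z ^ 2) ^ (k - 1))) * (2 * z)) z := h3
  refine ⟨_, h3', ?_⟩
  have h5 : z * ((∑' k : ℕ, p k * ((k : ℂ) * (z ^ 2) ^ (k - 1))) * (2 * z)) =
        2 * (z ^ 2 * ∑' k : ℕ, p k * ((k : ℂ) * (z ^ 2) ^ (k - 1))) := by ring
  rw [h5, n0_mul_deriv, ← tsum_mul_left]
  congr 1
  ext k
  ring

theorem n0_core {α : ℝ} (hα : 1 < α) {p : ℕ → ℂ} {C : ℝ} (hp : ∀ k, ‖p k‖ ≤ C) {e : ℂ}
    (hres : ∀ z ∈ UH, ‖z‖ < 1 → ∑' k : ℕ, (2 * k - (α - 1)) * p k * (z ^ 2) ^ k =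
      2 * α * Complex.I * (1 - z ^ 2) ^ (-(1 / 2) : ℂ) - α * e * z ^ ((α : ℂ) - 1)) :
    ∃ d, ∀ z ∈ n0S, 2 * gfun α z - ell α =
      Real.pi * Complex.I + n0P p z + d * z ^ (α : ℂ) + e * z ^ (α : ℂ) * Complex.log z := by
  have hα0 : (α : ℂ) ≠ 0 := by
    have : α ≠ 0 := by linarith
    exact_mod_cast this
  have hnorm : ∀ z ∈ n0S, ‖z‖ < 1 := fun z hz => mem_ball_zero_iff.1 hz.2
  -- step 1
  obtain ⟨d0, hd0⟩ := n0_const (f := fun z => z ^ (-((α : ℂ) - 1)) *
    (2 * dgfun α z - n0A p z - α * e * (z ^ ((α : ℂ) - 1) * Complex.log z))) (by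
    intro z hz
    have hs := n0_slit hz.1
    have hz0 := n0_ne hz.1
    obtain ⟨D1, hD1, hD1'⟩ := n0_ode hα hz.1
    obtain ⟨D2, hD2, hD2'⟩ := n0A_hasDerivAt hp (hnorm z hz)
    have hr := hres z hz.1 (hnorm z hz)
    have hsum : ∑' k : ℕ, (2 * (k : ℂ) - (α - 1)) * p k * (z ^ 2) ^ k =
        z * D2 - (α - 1) * n0A p z := by
      rw [hD2']
      unfold n0A
      rw [← tsum_mul_left, ← Summable.tsum_sub]
      · congr 1
        ext k
        ring
      · refine ((n0_summable' hp (n0_sq_lt (hnorm z hz))).mul_left 2).congr fun k => ?_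
        ring
      · exact (n0_summable hp (n0_sq_lt (hnorm z hz))).mul_left _
    rw [hsum] at hr
    have h1 : HasDerivAt (fun z : ℂ => z ^ ((α : ℂ) - 1))
        (((α : ℂ) - 1) * z ^ ((α : ℂ) - 1 - 1) * 1) z := (hasDerivAt_id z).cpow_const hs
    have h2 := Complex.hasDerivAt_log hs
    have h3 := (h1.mul h2).const_mul ((α : ℂ) * e)
    have h4 := (((hD1.const_mul 2).sub hD2).sub h3)
    have h5 : HasDerivAt (fun z : ℂ => z ^ (-((α : ℂ) - 1)))
        ((-((α : ℂ) - 1)) * z ^ (-((α : ℂ) - 1) - 1) * 1) z := (hasDerivAt_id z).cpow_const hs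
    have h6 := h5.mul h4
    have e1 : z ^ ((α : ℂ) - 1 - 1) = z ^ ((α : ℂ) - 1) / z := by
      rw [Complex.cpow_sub _ 1 hz0, Complex.cpow_one]
    have e2 : z ^ (-((α : ℂ) - 1) - 1) = z ^ (-((α : ℂ) - 1)) / z := by
      rw [Complex.cpow_sub _ 1 hz0, Complex.cpow_one]
    rw [e1, e2] at h6
    have key : -((α : ℂ) - 1) * (z ^ (-((α : ℂ) - 1)) / z) * 1 *
        (2 * dgfun α z - n0A p z - α * e * (z ^ ((α : ℂ) - 1) * Complex.log z)) +
        z ^ (-((α : ℂ) - 1)) * (2 * D1 - D2 - (α : ℂ) * e *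
          (((α : ℂ) - 1) * (z ^ ((α : ℂ) - 1) / z) * 1 * Complex.log z +
            z ^ ((α : ℂ) - 1) * z⁻¹)) = 0 := by
      field_simp
      linear_combination (z ^ (-((α : ℂ) - 1))) * (2 * hD1' - hr)
    rw [← key]
    exact h6)
  -- step 2
  have hR : ∀ z ∈ n0S, 2 * dgfun α z = n0A p z + α * e * (z ^ ((α : ℂ) - 1) * Complex.log z) +
      d0 * z ^ ((α : ℂ) - 1) := by
    intro z hz
    have h := hd0 z hz
    have hz0 := n0_ne hz.1
    rw [Complex.cpow_neg] at h
    have h1 : z ^ ((α : ℂ) - 1) ≠ 0 := by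
      rw [Ne, Complex.cpow_eq_zero_iff]
      tauto
    field_simp at h
    linear_combination h
  obtain ⟨c, hc⟩ := n0_const (f := fun z => 2 * gfun α z - n0P p z -
    (d0 - e) / α * z ^ (α : ℂ) - e * (z ^ (α : ℂ) * Complex.log z)) (by
    intro z hz
    have hs := n0_slit hz.1
    have hz0 := n0_ne hz.1
    have h1 : HasDerivAt (fun z : ℂ => z ^ (α : ℂ)) ((α : ℂ) * z ^ ((α : ℂ) - 1) * 1) z :=
      (hasDerivAt_id z).cpow_const hs
    have h2 := Complex.hasDerivAt_log hs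
    have h3 := gfun_hasDerivAt α hα z hz.1
    have h4 := n0P_hasDerivAt hp (hnorm z hz)
    have h5 := (((h3.const_mul 2).sub h4).sub (h1.const_mul ((d0 - e) / α))).sub
      ((h1.mul h2).const_mul e)
    have e1 : z ^ (α : ℂ) = z ^ ((α : ℂ) - 1) * z := by
      rw [Complex.cpow_sub _ 1 hz0, Complex.cpow_one]
      field_simp
    have key : 2 * dgfun α z - n0A p z - (d0 - e) / α * ((α : ℂ) * z ^ ((α : ℂ) - 1) * 1) -
        e * ((α : ℂ) * z ^ ((α : ℂ) - 1) * 1 * Complex.log z + z ^ (α : ℂ) * z⁻¹) = 0 := by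
      rw [hR z hz, e1]
      field_simp
      ring
    rw [← key]
    exact h5)
  refine ⟨(d0 - e) / α, ?_⟩
  have hc0 : c = ell α + Real.pi * Complex.I := by
    have hmem : ∀ᶠ t : ℝ in 𝓝[>] (0 : ℝ), (t : ℂ) * Complex.I ∈ n0S ∧ 0 < t := by
      filter_upwards [self_mem_nhdsWithin, nhdsWithin_le_nhds (gt_mem_nhds one_pos)] with t ht ht1
      have ht' : 0 < t := ht
      refine ⟨⟨?_, ?_⟩, ht'⟩
      · show 0 < ((t : ℂ) * Complex.I).im
        simpa using ht'
      · rw [mem_ball_zero_iff, norm_mul, Complex.norm_I, Complex.norm_real,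
          Real.norm_of_nonneg ht'.le, mul_one]
        exact ht1
    have hz0 : Tendsto (fun t : ℝ => (t : ℂ) * Complex.I) (𝓝[>] (0 : ℝ)) (𝓝 0) := by
      have : Continuous fun t : ℝ => (t : ℂ) * Complex.I := by fun_prop
      have h := (this.tendsto 0).mono_left (nhdsWithin_le_nhds (s := Ioi 0))
      simpa using h
    have hnz : ∀ t : ℝ, 0 < t → ‖(t : ℂ) * Complex.I‖ = t := by
      intro t ht
      rw [norm_mul, Complex.norm_I, Complex.norm_real, Real.norm_of_nonneg ht.le, mul_one]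
    have ht0 : Tendsto (fun t : ℝ => t) (𝓝[>] (0 : ℝ)) (𝓝 0) :=
      tendsto_id.mono_left nhdsWithin_le_nhds
    -- g
    obtain ⟨θ, K, r, hθ, hr, hg⟩ := near_zero α hα
    have hg1 : Tendsto (fun t : ℝ => gfun α ((t : ℂ) * Complex.I)) (𝓝[>] (0 : ℝ))
        (𝓝 (ell α / 2 + Real.pi / 2 * Complex.I)) := by
      have h1 : Tendsto (fun t : ℝ => gfun α ((t : ℂ) * Complex.I) -
          (ell α / 2 + Real.pi / 2 * Complex.I - Complex.I * (α / (α - 1)) *
            ((t : ℂ) * Complex.I))) (𝓝[>] (0 : ℝ)) (𝓝 0) := by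
        have h2 : Tendsto (fun t : ℝ => K * t ^ (1 + θ)) (𝓝[>] (0 : ℝ)) (𝓝 0) := by
          have h3 : Continuous fun t : ℝ => K * t ^ (1 + θ) :=
            continuous_const.mul (Real.continuous_rpow_const (by linarith))
          have h4 := (h3.tendsto 0).mono_left (nhdsWithin_le_nhds (s := Ioi 0))
          rw [Real.zero_rpow (by linarith), mul_zero] at h4
          exact h4
        refine squeeze_zero_norm' ?_ h2
        filter_upwards [hmem, nhdsWithin_le_nhds (gt_mem_nhds hr)] with t ht htr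
        have h5 := hg _ ht.1.1 (by rw [hnz t ht.2]; exact le_of_lt htr)
        rw [hnz t ht.2] at h5
        exact h5
      have h2 : Tendsto (fun t : ℝ => ell α / 2 + Real.pi / 2 * Complex.I -
          Complex.I * (α / (α - 1)) * ((t : ℂ) * Complex.I)) (𝓝[>] (0 : ℝ))
          (𝓝 (ell α / 2 + Real.pi / 2 * Complex.I - Complex.I * (α / (α - 1)) * 0)) :=
        tendsto_const_nhds.sub (hz0.const_mul _)
      have h3 := h1.add h2
      rw [mul_zero, sub_zero, zero_add] at h3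
      refine h3.congr fun t => ?_
      ring
    have hP1 : Tendsto (fun t : ℝ => n0P p ((t : ℂ) * Complex.I)) (𝓝[>] (0 : ℝ)) (𝓝 0) := by
      have h1 : ContinuousAt (n0P p) 0 := (n0P_hasDerivAt hp (by simp)).continuousAt
      have h2 : n0P p 0 = 0 := by unfold n0P; simp
      have h3 := h1.tendsto.comp hz0
      rw [h2] at h3
      exact h3
    have hA1 : Tendsto (fun t : ℝ => ((t : ℂ) * Complex.I) ^ (α : ℂ)) (𝓝[>] (0 : ℝ)) (𝓝 0) := by
      have h2 : Tendsto (fun t : ℝ => t ^ α) (𝓝[>] (0 : ℝ)) (𝓝 0) := by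
        have h3 : Continuous fun t : ℝ => t ^ α := Real.continuous_rpow_const (by linarith)
        have h4 := (h3.tendsto 0).mono_left (nhdsWithin_le_nhds (s := Ioi 0))
        rw [Real.zero_rpow (by linarith)] at h4
        exact h4
      refine squeeze_zero_norm' ?_ h2
      filter_upwards [hmem] with t ht
      rw [Complex.norm_cpow_real, hnz t ht.2]
    have hL1 : Tendsto (fun t : ℝ => ((t : ℂ) * Complex.I) ^ (α : ℂ) *
        Complex.log ((t : ℂ) * Complex.I)) (𝓝[>] (0 : ℝ)) (𝓝 0) := by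
      have h2 : Tendsto (fun t : ℝ => |Real.log t * t ^ α| + Real.pi * t ^ α)
          (𝓝[>] (0 : ℝ)) (𝓝 0) := by
        have h3 : Continuous fun t : ℝ => Real.pi * t ^ α :=
          continuous_const.mul (Real.continuous_rpow_const (by linarith))
        have h4 := (h3.tendsto 0).mono_left (nhdsWithin_le_nhds (s := Ioi 0))
        rw [Real.zero_rpow (by linarith), mul_zero] at h4
        have h5 := (tendsto_log_mul_rpow_nhdsGT_zero (show 0 < α by linarith)).abs
        rw [abs_zero] at h5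
        have h6 := h5.add h4
        rw [zero_add] at h6
        exact h6
      refine squeeze_zero_norm' ?_ h2
      filter_upwards [hmem] with t ht
      rw [norm_mul, Complex.norm_cpow_real, hnz t ht.2]
      have h7 : ‖Complex.log ((t : ℂ) * Complex.I)‖ ≤ |Real.log t| + Real.pi := by
        refine (Complex.norm_le_abs_re_add_abs_im _).trans ?_
        rw [Complex.log_re, Complex.log_im, hnz t ht.2]
        exact add_le_add le_rfl (Complex.abs_arg_le_pi _)
      have h8 : 0 ≤ t ^ α := Real.rpow_nonneg ht.2.le _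
      calc t ^ α * ‖Complex.log ((t : ℂ) * Complex.I)‖ ≤ t ^ α * (|Real.log t| + Real.pi) :=
            mul_le_mul_of_nonneg_left h7 h8
        _ = |Real.log t * t ^ α| + Real.pi * t ^ α := by
            rw [abs_mul, abs_of_nonneg h8]
            ring
    have hall := ((((hg1.const_mul 2).sub hP1).sub (hA1.const_mul ((d0 - e) / α))).sub
      (hL1.const_mul e))
    have hcc : Tendsto (fun _ : ℝ => c) (𝓝[>] (0 : ℝ)) (𝓝 c) := tendsto_const_nhds
    have huniq := tendsto_nhds_unique (hcc.congr' (by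
      filter_upwards [hmem] with t ht
      exact (hc _ ht.1).symm)) hall
    rw [huniq]
    ring
  intro z hz
  have h := hc z hz
  rw [hc0] at h
  linear_combination h

theorem n0_finish {α : ℝ} (hα : 1 < α) {p : ℕ → ℂ} {C : ℝ} (hp : ∀ k, ‖p k‖ ≤ C) {e : ℂ}
    (hp0 : p 0 = -(2 * Complex.I * (α / (α - 1))))
    (hres : ∀ z ∈ UH, ‖z‖ < 1 → ∑' k : ℕ, (2 * k - (α - 1)) * p k * (z ^ 2) ^ k =
      2 * α * Complex.I * (1 - z ^ 2) ^ (-(1 / 2) : ℂ) - α * e * z ^ ((α : ℂ) - 1))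
    (he1 : (∀ k : ℕ, α ≠ 2 * k + 1) → e = 0)
    (he2 : ∀ k : ℕ, 1 ≤ k → α = 2 * k + 1 →
      e = 2 * Complex.I * ((Nat.centralBinom k : ℂ) / 4 ^ k)) : Near0 α := by
  obtain ⟨d, hd⟩ := n0_core hα hp hres
  refine ⟨1, n0P p, d, e, one_pos, fun z hz => ?_, ?_, ?_, he1, he2, fun z hz hz1 => ?_⟩
  · exact (n0P_hasDerivAt hp (mem_ball_zero_iff.1 hz)).differentiableAt.differentiableWithinAt
  · unfold n0P
    simp
  · rw [(n0P_hasDerivAt hp (z := 0) (by simp)).deriv, ← hp0]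
    unfold n0A
    rw [tsum_eq_single 0]
    · simp
    · intro k hk
      simp [hk]
  · exact hd z ⟨hz, mem_ball_zero_iff.2 hz1⟩

/-- The coefficients of the regular part. -/
noncomputable def n0p (α : ℝ) (k : ℕ) : ℂ :=
  if α = 2 * k + 1 then 0 else 2 * α * Complex.I * n0b k / (2 * k - (α - 1))

theorem n0p_bound (α : ℝ) : ∃ C : ℝ, ∀ k, ‖n0p α k‖ ≤ C := by
  obtain ⟨K, hK⟩ := exists_nat_gt (|α| + 1)
  have hbig : ∀ k : ℕ, K ≤ k → ‖n0p α k‖ ≤ 2 * |α| := by
    intro k hk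
    have hk' : (K : ℝ) ≤ k := by exact_mod_cast hk
    have h1 := le_abs_self α
    have hα0 := abs_nonneg α
    unfold n0p
    split_ifs
    · rw [norm_zero]
      positivity
    · have h2 : ((2 * (k : ℂ)) - ((α : ℂ) - 1)) = ((2 * (k : ℝ) - (α - 1) : ℝ) : ℂ) := by
        push_cast
        ring
      have h3 : (1 : ℝ) ≤ 2 * (k : ℝ) - (α - 1) := by linarith
      rw [norm_div, norm_mul, norm_mul, norm_mul, Complex.norm_I, h2, Complex.norm_real,
        Complex.norm_real, Real.norm_eq_abs, Real.norm_eq_abs, Complex.norm_ofNat, mul_one,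
        abs_of_pos (show (0 : ℝ) < 2 * (k : ℝ) - (α - 1) by linarith)]
      rw [div_le_iff₀ (by linarith)]
      have h4 := n0b_norm k
      have h5 := norm_nonneg (n0b k)
      calc 2 * |α| * ‖n0b k‖ ≤ 2 * |α| * 1 := by gcongr
        _ ≤ 2 * |α| * (2 * (k : ℝ) - (α - 1)) := by gcongr
  refine ⟨2 * |α| + ∑ k ∈ Finset.range K, ‖n0p α k‖, fun k => ?_⟩
  rcases lt_or_ge k K with h | h
  · have := Finset.single_le_sum (f := fun k => ‖n0p α k‖) (fun i _ => norm_nonneg _)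
      (Finset.mem_range.2 h)
    have hα0 := abs_nonneg α
    linarith
  · have h1 := hbig k h
    have h2 : 0 ≤ ∑ k ∈ Finset.range K, ‖n0p α k‖ := Finset.sum_nonneg fun i _ => norm_nonneg _
    linarith

theorem target_near0 : Target_near0 := by
  intro α hα
  obtain ⟨C, hC⟩ := n0p_bound α
  have hα1 : (α : ℂ) - 1 ≠ 0 := by
    have : α - 1 ≠ 0 := by linarith
    exact_mod_cast this
  have hp0 : n0p α 0 = -(2 * Complex.I * (α / (α - 1))) := by
    unfold n0p
    rw [if_neg (by push_cast; linarith), n0b_zero]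
    have : (2 * ((0 : ℕ) : ℂ) - ((α : ℂ) - 1)) ≠ 0 := by
      push_cast
      intro h
      apply hα1
      linear_combination -h
    rw [eq_comm, eq_div_iff this]
    push_cast
    field_simp
    ring
  by_cases h : ∃ k0 : ℕ, α = 2 * k0 + 1
  · obtain ⟨k0, hk0⟩ := h
    refine n0_finish hα hC (e := 2 * Complex.I * n0b k0) hp0 (fun z hz hz1 => ?_)
      (fun h => absurd hk0 (h k0)) (fun k _ hk => ?_)
    · have hw := n0_sq_lt hz1
      have h1 : ∀ k : ℕ, (2 * (k : ℂ) - (α - 1)) * n0p α k * (z ^ 2) ^ k =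
          2 * α * Complex.I * (n0b k * (z ^ 2) ^ k) -
            (if k = k0 then 2 * α * Complex.I * n0b k0 * (z ^ 2) ^ k0 else 0) := by
        intro k
        by_cases hk : k = k0
        · subst hk
          rw [if_pos rfl]
          unfold n0p
          rw [if_pos hk0]
          ring
        · rw [if_neg hk]
          have hne : ¬ α = 2 * k + 1 := by
            intro h2
            apply hk
            have : (k : ℝ) = k0 := by linarith
            exact_mod_cast this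
          have hne' : (2 * (k : ℂ) - ((α : ℂ) - 1)) ≠ 0 := by
            intro h3
            apply hne
            have : (α : ℂ) = 2 * k + 1 := by linear_combination -h3
            exact_mod_cast this
          unfold n0p
          rw [if_neg hne]
          field_simp
          ring
      rw [tsum_congr h1, Summable.tsum_sub ((n0_summable n0b_norm hw).mul_left _),
        tsum_mul_left, n0_binom hw, tsum_ite_eq]
      · have h2 : z ^ ((α : ℂ) - 1) = (z ^ 2) ^ k0 := by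
          have : (α : ℂ) - 1 = ((2 * k0 : ℕ) : ℂ) := by
            rw [hk0]
            push_cast
            ring
          rw [this, Complex.cpow_natCast, pow_mul]
        rw [h2]
        ring
      · exact (hasSum_ite_eq k0 _).summable
    · have : (k : ℝ) = k0 := by linarith
      have : k = k0 := by exact_mod_cast this
      rw [this]
      rfl
  · push Not at h
    refine n0_finish hα hC (e := 0) hp0 (fun z hz hz1 => ?_) (fun _ => rfl)
      (fun k _ hk => absurd hk (h k))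
    have hw := n0_sq_lt hz1
    have h1 : ∀ k : ℕ, (2 * (k : ℂ) - (α - 1)) * n0p α k * (z ^ 2) ^ k =
        2 * α * Complex.I * (n0b k * (z ^ 2) ^ k) := by
      intro k
      have hne' : (2 * (k : ℂ) - ((α : ℂ) - 1)) ≠ 0 := by
        intro h3
        apply h k
        have : (α : ℂ) = 2 * k + 1 := by linear_combination -h3
        exact_mod_cast this
      unfold n0p
      rw [if_neg (h k)]
      field_simp
    rw [tsum_congr h1, tsum_mul_left, n0_binom hw]
    ring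

end Pool.Agent.FreudM
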