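import Pool.Agent.FreudM.Targets
import Pool.Agent.Freud.ZeroQ

/-!
# Expansion of the source term near the origin (FM2)
-/

set_option autoImplicit false

open MeasureTheory Filter Topology Set

namespace Pool.Agent.FreudM

open Pool.Agent.Freud

namespace W0E

/-! ### Taylor expansion -/

lemma taylor {f : ℂ → ℂ} {r0 : ℝ} (hr0 : 0 < r0)
    (hf : DifferentiableOn ℂ f (Metric.ball 0 r0)) (N : ℕ) :
    ∃ (c : ℕ → ℂ) (h : ℂ → ℂ), DifferentiableOn ℂ h (Metric.ball 0 r0) ∧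
      ∀ z, f z = ∑ m ∈ Finset.range N, c m * z ^ m + z ^ N * h z := by
  induction N with
  | zero => exact ⟨0, f, hf, fun z => by simp⟩
  | succ N ih =>
    obtain ⟨c, h, hh, e⟩ := ih
    refine ⟨Function.update c N (h 0), dslope h 0, ?_, fun z => ?_⟩
    · exact (Complex.differentiableOn_dslope (Metric.ball_mem_nhds 0 hr0)).2 hh
    · have h1 : h z = h 0 + z * dslope h 0 z := by
        have := sub_smul_dslope h 0 z
        simp only [sub_zero, smul_eq_mul] at this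
        rw [this]; ring
      have h2 : ∑ m ∈ Finset.range N, Function.update c N (h 0) m * z ^ m =
          ∑ m ∈ Finset.range N, c m * z ^ m := by
        refine Finset.sum_congr rfl fun m hm => ?_
        rw [Function.update_of_ne (Finset.mem_range.1 hm).ne]
      rw [Finset.sum_range_succ, e z, Function.update_self, h2]
      conv_lhs => rw [h1]
      ring

lemma bdd {h : ℂ → ℂ} {r0 : ℝ} (hr0 : 0 < r0) (hh : DifferentiableOn ℂ h (Metric.ball 0 r0)) :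
    ∃ C : ℝ, 0 ≤ C ∧ ∀ z : ℂ, ‖z‖ ≤ r0 / 2 → ‖h z‖ ≤ C := by
  have hsub : Metric.closedBall (0 : ℂ) (r0 / 2) ⊆ Metric.ball 0 r0 :=
    Metric.closedBall_subset_ball (by linarith)
  obtain ⟨C, hC⟩ := (isCompact_closedBall (0 : ℂ) (r0 / 2)).exists_bound_of_continuousOn
    (hh.continuousOn.mono hsub)
  refine ⟨|C|, abs_nonneg _, fun z hz => (hC z ?_).trans (le_abs_self _)⟩
  simpa using hz

/-! ### scales -/

lemma Ord_Lam {α : ℝ} (hα : 1 < α) : Ord (Lam α : Set (ℕ → ℝ)) 0 := by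
  intro s hs
  refine Submonoid.closure_induction
    (motive := fun (s : ℕ → ℝ) _ => ∃ C : ℝ, ∀ᶠ n : ℕ in atTop, |s n| ≤ C * (n : ℝ) ^ (-(0 : ℝ)))
    ?_ ?_ ?_ hs
  · rintro s (rfl | rfl | ⟨rfl, -⟩)
    · refine ⟨1, ?_⟩
      filter_upwards [eventually_ge_atTop 1] with n hn
      have hn1 : (1 : ℝ) ≤ n := by exact_mod_cast hn
      unfold sInv
      rw [abs_of_nonneg (by positivity), one_mul]
      exact Real.rpow_le_rpow_of_exponent_le hn1 (by norm_num)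
    · refine ⟨1, ?_⟩
      filter_upwards [eventually_ge_atTop 1] with n hn
      have hn1 : (1 : ℝ) ≤ n := by exact_mod_cast hn
      unfold sPow
      rw [abs_of_nonneg (by positivity), one_mul]
      exact Real.rpow_le_rpow_of_exponent_le hn1 (by linarith)
    · refine ⟨1 / (α - 1), ?_⟩
      filter_upwards [eventually_ge_atTop 1] with n hn
      have hn1 : (1 : ℝ) ≤ n := by exact_mod_cast hn
      have hn0 : (0 : ℝ) < n := by linarith
      have h1 := Real.log_le_rpow_div (x := n) (ε := α - 1) hn0.le (by linarith)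
      have h2 : 0 ≤ Real.log n := Real.log_nonneg hn1
      have h3 : (0 : ℝ) < (n : ℝ) ^ (-(α - 1)) := by positivity
      unfold sLog
      rw [abs_of_nonneg (by positivity), neg_zero, Real.rpow_zero, mul_one]
      calc (n : ℝ) ^ (-(α - 1)) * Real.log n
          ≤ (n : ℝ) ^ (-(α - 1)) * ((n : ℝ) ^ (α - 1) / (α - 1)) := by gcongr
        _ = ((n : ℝ) ^ (-(α - 1)) * (n : ℝ) ^ (α - 1)) / (α - 1) := by ring
        _ = 1 / (α - 1) := by rw [← Real.rpow_add hn0]; simp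
  · exact ⟨1, Eventually.of_forall fun n => by simp⟩
  · rintro s t - - ⟨C, hC⟩ ⟨D, hD⟩
    refine ⟨|C| * |D|, ?_⟩
    filter_upwards [hC, hD] with n h1 h2
    rw [neg_zero, Real.rpow_zero, mul_one] at *
    rw [Pi.mul_apply, abs_mul]
    exact mul_le_mul (h1.trans (le_abs_self _)) (h2.trans (le_abs_self _)) (abs_nonneg _)
      (abs_nonneg _)

open scoped Pointwise in
lemma Lam_mul (α : ℝ) : (Lam α : Set (ℕ → ℝ)) * (Lam α : Set (ℕ → ℝ)) ⊆ Lam α := by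
  rintro s ⟨a, ha, b, hb, rfl⟩
  exact (Lam α).mul_mem ha hb

lemma sInv_mem (α : ℝ) : sInv ∈ Lam α := Submonoid.subset_closure (Or.inl rfl)

lemma sPow_mem (α : ℝ) : sPow α ∈ Lam α := Submonoid.subset_closure (Or.inr (Or.inl rfl))

lemma sLog_mem {α : ℝ} (h : ∃ k : ℕ, α = 2 * k + 1) : sLog α ∈ Lam α :=
  Submonoid.subset_closure (Or.inr (Or.inr ⟨rfl, h⟩))

/-- Products of expansions in the scales `Lam α`. -/
lemma mulL {α : ℝ} (hα : 1 < α) {Ω : ℕ → Set ℂ} {T : ℝ} (hT : 0 ≤ T) {u v : ℕ → ℂ → ℂ}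
    (hu : ExpTo (Lam α : Set (ℕ → ℝ)) Ω rho1 T u) (hv : ExpTo (Lam α : Set (ℕ → ℝ)) Ω rho1 T v) :
    ExpTo (Lam α : Set (ℕ → ℝ)) Ω rho1 T (fun n x => u n x * v n x) := by
  have h := ExpTo.mul one_le_rho1 (Ord_Lam hα) (Ord_Lam hα) hT hu hv
  have h2 := ExpTo.mono_P (Lam_mul α) h
  rw [add_zero, min_self] at h2
  exact h2

lemma powL {α : ℝ} (hα : 1 < α) {Ω : ℕ → Set ℂ} {T : ℝ} (hT : 0 ≤ T) {u : ℕ → ℂ → ℂ}
    (hu : ExpTo (Lam α : Set (ℕ → ℝ)) Ω rho1 T u) (j : ℕ) :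
    ExpTo (Lam α : Set (ℕ → ℝ)) Ω rho1 T (fun n x => u n x ^ j) := by
  induction j with
  | zero =>
    have := ExpTo.of_gen (Ω := Ω) (T := T) (ρ := rho1) (s := 1) (Lam α).one_mem
      (PolyGrowth.const (1 : ℂ))
    refine this.congr (Eventually.of_forall fun n x _ => ?_)
    simp
  | succ j ih =>
    refine (mulL hα hT ih hu).congr (Eventually.of_forall fun n x _ => ?_)
    rw [pow_succ]

/-- Multiplication by a fixed function. -/
lemma funL {α : ℝ} {Ω : ℕ → Set ℂ} {T : ℝ} {u : ℕ → ℂ → ℂ}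
    (hu : ExpTo (Lam α : Set (ℕ → ℝ)) Ω rho1 T u) {c : ℂ → ℂ} (hc : PolyGrowth rho1 c) :
    ExpTo (Lam α : Set (ℕ → ℝ)) Ω rho1 T (fun n x => c x * u n x) := by
  have h := ExpTo.gen_mul (Q := (Lam α : Set (ℕ → ℝ))) one_le_rho1 (s := 1) (a := 0)
    ⟨1, Eventually.of_forall fun n => by simp⟩ hc
    (fun p hp => by simpa using hp) hu
  rw [add_zero] at h
  exact h.congr (Eventually.of_forall fun n x _ => by simp)

/-- Multiplication by a scale and a fixed function. -/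
lemma genL {α : ℝ} (hα : 1 < α) {Ω : ℕ → Set ℂ} {T : ℝ} {u : ℕ → ℂ → ℂ}
    (hu : ExpTo (Lam α : Set (ℕ → ℝ)) Ω rho1 T u) {s : ℕ → ℝ} (hs : s ∈ Lam α)
    {c : ℂ → ℂ} (hc : PolyGrowth rho1 c) :
    ExpTo (Lam α : Set (ℕ → ℝ)) Ω rho1 T (fun n x => (s n : ℂ) * c x * u n x) := by
  have h := ExpTo.gen_mul (Q := (Lam α : Set (ℕ → ℝ))) one_le_rho1 (s := s) (a := 0)
    (Ord_Lam hα s hs) hc (fun p hp => (Lam α).mul_mem hs hp) hu
  rwa [add_zero] at h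

/-! ### polynomial growth -/

lemma rho1_pos (z : ℂ) : 0 < rho1 z := lt_of_lt_of_le one_pos (one_le_rho1 z)

lemma norm_le_rho1 (z : ℂ) : ‖z‖ ≤ rho1 z := by unfold rho1; linarith

lemma rpow_le_rho1 {a : ℝ} (ha : 0 ≤ a) (z : ℂ) : ‖z‖ ^ a ≤ rho1 z ^ ⌈a⌉₊ := by
  calc ‖z‖ ^ a ≤ rho1 z ^ a := Real.rpow_le_rpow (norm_nonneg _) (norm_le_rho1 z) ha
    _ ≤ rho1 z ^ ((⌈a⌉₊ : ℕ) : ℝ) :=
        Real.rpow_le_rpow_of_exponent_le (one_le_rho1 z) (Nat.le_ceil a)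
    _ = rho1 z ^ ⌈a⌉₊ := Real.rpow_natCast _ _

lemma pg_cpow {a : ℝ} (ha : 0 ≤ a) : PolyGrowth rho1 (fun z : ℂ => z ^ (a : ℂ)) := by
  refine ⟨by fun_prop, 1, ⌈a⌉₊, fun z => ?_⟩
  rw [Complex.norm_cpow_real, one_mul]
  exact rpow_le_rho1 ha z

lemma pg_pow (m : ℕ) : PolyGrowth rho1 (fun z : ℂ => z ^ m) := by
  refine ⟨by fun_prop, 1, m, fun z => ?_⟩
  rw [norm_pow, one_mul]
  exact pow_le_pow_left₀ (norm_nonneg _) (norm_le_rho1 z) m

lemma norm_clog_le {z : ℂ} : ‖Complex.log z‖ ≤ |Real.log ‖z‖| + Real.pi := by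
  have h := Complex.norm_le_abs_re_add_abs_im (Complex.log z)
  rw [Complex.log_re, Complex.log_im] at h
  linarith [Complex.abs_arg_le_pi z]

lemma pg_cpow_log {a : ℝ} (ha : 1 ≤ a) :
    PolyGrowth rho1 (fun z : ℂ => z ^ (a : ℂ) * Complex.log z) := by
  refine ⟨by fun_prop, 5, ⌈a⌉₊ + 1, fun z => ?_⟩
  have h1 := one_le_rho1 z
  have h2 := rpow_le_rho1 (show 0 ≤ a by linarith) z
  rcases eq_or_ne z 0 with rfl | hz
  · show ‖(0 : ℂ) ^ (a : ℂ) * Complex.log 0‖ ≤ _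
    rw [Complex.zero_cpow (by exact_mod_cast (show a ≠ 0 by linarith)), zero_mul, norm_zero]
    have := rho1_pos 0
    positivity
  have hn : 0 < ‖z‖ := norm_pos_iff.2 hz
  rw [norm_mul, Complex.norm_cpow_real]
  have h3 : ‖z‖ ^ a * |Real.log ‖z‖| ≤ rho1 z ^ (⌈a⌉₊ + 1) := by
    rcases le_total ‖z‖ 1 with h | h
    · have h4 : ‖z‖ ^ a ≤ ‖z‖ := by
        have := Real.rpow_le_rpow_of_exponent_ge hn h ha
        rwa [Real.rpow_one] at this
      have h5 := Real.abs_log_mul_self_lt ‖z‖ hn h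
      rw [abs_mul, abs_of_pos hn] at h5
      calc ‖z‖ ^ a * |Real.log ‖z‖| ≤ ‖z‖ * |Real.log ‖z‖| := by gcongr
        _ ≤ 1 := by linarith
        _ ≤ rho1 z ^ (⌈a⌉₊ + 1) := one_le_pow₀ h1
    · have h4 : |Real.log ‖z‖| ≤ rho1 z := by
        rw [abs_of_nonneg (Real.log_nonneg h)]
        have := Real.log_le_sub_one_of_pos hn
        have := norm_le_rho1 z
        linarith
      rw [pow_succ]
      exact mul_le_mul h2 h4 (abs_nonneg _) (by have := rho1_pos z; positivity)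
  have h6 : ‖z‖ ^ a * Real.pi ≤ 4 * rho1 z ^ (⌈a⌉₊ + 1) := by
    have h7 : rho1 z ^ ⌈a⌉₊ ≤ rho1 z ^ (⌈a⌉₊ + 1) := pow_le_pow_right₀ h1 (by omega)
    have h8 := Real.pi_le_four
    calc ‖z‖ ^ a * Real.pi ≤ rho1 z ^ (⌈a⌉₊ + 1) * 4 := by
          apply mul_le_mul (h2.trans h7) h8 Real.pi_pos.le
          have := rho1_pos z
          positivity
      _ = _ := by ring
  calc ‖z‖ ^ a * ‖Complex.log z‖ ≤ ‖z‖ ^ a * (|Real.log ‖z‖| + Real.pi) := by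
        gcongr
        exact norm_clog_le
    _ = ‖z‖ ^ a * |Real.log ‖z‖| + ‖z‖ ^ a * Real.pi := by ring
    _ ≤ 5 * rho1 z ^ (⌈a⌉₊ + 1) := by linarith

lemma PolyGrowth.constMul {c : ℂ → ℂ} (hc : PolyGrowth rho1 c) (a : ℂ) :
    PolyGrowth rho1 (fun z => a * c z) :=
  (PolyGrowth.const a).mul one_le_rho1 hc

/-! ### analytic functions of `σ / n` -/

lemma norm_div_nat (σ : ℂ) (n : ℕ) : ‖σ / n‖ = ‖σ‖ / n := by
  rw [norm_div, Complex.norm_natCast]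

lemma anL {α : ℝ} {f : ℂ → ℂ} {r0 r1 T : ℝ} (hr0 : 0 < r0)
    (hf : DifferentiableOn ℂ f (Metric.ball 0 r0)) (hr1 : r1 ≤ r0 / 2) :
    ExpTo (Lam α : Set (ℕ → ℝ)) (Om r1) rho1 T (fun n σ => f (σ / n)) := by
  obtain ⟨N, hN⟩ := exists_nat_ge T
  obtain ⟨c, h, hh, e⟩ := taylor hr0 hf N
  obtain ⟨C, hC0, hC⟩ := bdd hr0 hh
  have h1 : ExpTo (Lam α : Set (ℕ → ℝ)) (Om r1) rho1 T
      (fun n σ => ∑ m ∈ Finset.range N, (((sInv ^ m) n : ℝ) : ℂ) * (c m * σ ^ m)) :=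
    ExpTo.sum one_le_rho1 _ _ fun m _ =>
      ExpTo.of_gen ((Lam α).pow_mem (sInv_mem α) m) (PolyGrowth.constMul (pg_pow m) (c m))
  have h2 : ExpTo (Lam α : Set (ℕ → ℝ)) (Om r1) rho1 T
      (fun n σ => (σ / n) ^ N * h (σ / n)) := by
    refine ExpTo.of_bound (C := C) (K := N) ?_
    filter_upwards [eventually_ge_atTop 1] with n hn σ hσ
    have hn1 : (1 : ℝ) ≤ n := by exact_mod_cast hn
    have hn0 : (0 : ℝ) < n := by linarith
    have h3 : ‖σ / n‖ ≤ r0 / 2 := by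
      rw [norm_div_nat, div_le_iff₀ hn0]
      exact hσ.2.trans (mul_le_mul_of_nonneg_right hr1 hn0.le)
    rw [norm_mul, norm_pow, norm_div_nat]
    have h4 : (‖σ‖ / n) ^ N ≤ (n : ℝ) ^ (-T) * rho1 σ ^ N := by
      rw [div_eq_mul_inv, mul_pow, mul_comm]
      have h5 : ((n : ℝ)⁻¹) ^ N ≤ (n : ℝ) ^ (-T) := by
        rw [← Real.rpow_neg_one, ← Real.rpow_natCast, ← Real.rpow_mul hn0.le]
        exact Real.rpow_le_rpow_of_exponent_le hn1 (by linarith)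
      have h6 : ‖σ‖ ^ N ≤ rho1 σ ^ N := pow_le_pow_left₀ (norm_nonneg _) (norm_le_rho1 σ) N
      gcongr
    calc (‖σ‖ / n) ^ N * ‖h (σ / n)‖ ≤ ((n : ℝ) ^ (-T) * rho1 σ ^ N) * C := by
          have := rho1_pos σ
          exact mul_le_mul h4 (hC _ h3) (norm_nonneg _) (by positivity)
      _ = C * (n : ℝ) ^ (-T) * rho1 σ ^ N := by ring
  refine (h1.add one_le_rho1 h2).congr ?_
  filter_upwards [eventually_ge_atTop 1] with n hn σ _
  rw [e (σ / n)]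
  congr 1
  refine Finset.sum_congr rfl fun m _ => ?_
  have : (((sInv ^ m) n : ℝ) : ℂ) = ((n : ℂ)⁻¹) ^ m := by
    rw [Pi.pow_apply, sInv, Real.rpow_neg_one]
    push_cast
    ring
  rw [this, div_eq_mul_inv, mul_pow]
  ring

/-! ### the outer conjugation -/

/-- Analytic continuation of `zS` to the disc. -/
noncomputable def SS (z : ℂ) : ℂ := Complex.I * Complex.exp (Complex.log ((1 - z) / (1 + z)) / 2)

lemma one_add_ne {z : ℂ} (hz : ‖z‖ < 1) : 1 + z ≠ 0 := by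
  intro h
  have : z = -1 := by linear_combination h
  rw [this] at hz
  simp at hz

lemma u_re {z : ℂ} (hz : ‖z‖ < 1) : 0 < ((1 - z) / (1 + z)).re := by
  have h1 : 0 < Complex.normSq (1 + z) := Complex.normSq_pos.2 (one_add_ne hz)
  have h2 : Complex.normSq z < 1 := by
    rw [Complex.normSq_eq_norm_sq]
    nlinarith [norm_nonneg z]
  rw [Complex.normSq_apply] at h2
  rw [Complex.div_re, ← add_div]
  apply div_pos _ h1
  simp only [Complex.sub_re, Complex.add_re, Complex.one_re, Complex.sub_im, Complex.add_im,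
    Complex.one_im]
  nlinarith

lemma SS_diff : DifferentiableOn ℂ SS (Metric.ball 0 1) := by
  intro z hz
  have hz' : ‖z‖ < 1 := by simpa using hz
  have h1 : (1 - z) / (1 + z) ∈ Complex.slitPlane := Or.inl (u_re hz')
  have h2 : DifferentiableAt ℂ (fun z : ℂ => (1 - z) / (1 + z)) z :=
    DifferentiableAt.div (by fun_prop) (by fun_prop) (one_add_ne hz')
  unfold SS
  exact (((h2.clog h1).div_const 2).cexp.const_mul Complex.I).differentiableWithinAt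

lemma SS_ne (z : ℂ) : SS z ≠ 0 := mul_ne_zero Complex.I_ne_zero (Complex.exp_ne_zero _)

lemma SS_eq {z : ℂ} (hz : z ∈ UH) (h : ‖z‖ < 1) : zS z = SS z := by
  have h1 := zS_sq hz
  have hu : (1 - z) / (1 + z) ≠ 0 := by
    intro h0
    have := u_re h
    rw [h0] at this
    simp at this
  have h2 : SS z ^ 2 = (z - 1) / (z + 1) := by
    unfold SS
    rw [mul_pow, ← Complex.exp_nat_mul]
    have : ((2 : ℕ) : ℂ) * (Complex.log ((1 - z) / (1 + z)) / 2) =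
        Complex.log ((1 - z) / (1 + z)) := by push_cast; ring
    rw [this, Complex.exp_log hu, Complex.I_sq, add_comm z 1]
    ring
  have h3 : (zS z - SS z) * (zS z + SS z) = 0 := by linear_combination h1 - h2
  rcases mul_eq_zero.1 h3 with h4 | h4
  · exact sub_eq_zero.1 h4
  · exfalso
    have h5 := zS_im hz
    have h6 : 0 < (SS z).im := by
      unfold SS
      rw [Complex.I_mul_im, Complex.exp_re]
      apply mul_pos (Real.exp_pos _)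
      have h7 : (Complex.log ((1 - z) / (1 + z)) / 2).im = Complex.arg ((1 - z) / (1 + z)) / 2 := by
        have : Complex.log ((1 - z) / (1 + z)) / 2 =
            ((1 / 2 : ℝ) : ℂ) * Complex.log ((1 - z) / (1 + z)) := by push_cast; ring
        rw [this, Complex.im_ofReal_mul, Complex.log_im]
        ring
      rw [h7]
      have h8 := Complex.abs_arg_lt_pi_div_two_iff.2 (Or.inl (u_re h))
      rw [abs_lt] at h8
      apply Real.cos_pos_of_mem_Ioo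
      constructor <;> linarith [Real.pi_pos]
    have h7 : zS z = -SS z := by linear_combination h4
    rw [h7, Complex.neg_im] at h5
    linarith

/-- Analytic continuation of `zM`. -/
noncomputable def MM (z : ℂ) : Mat2 :=
  !![-((SS z - (SS z)⁻¹) / 4), -((SS z + (SS z)⁻¹ - 2) / 4);
     (SS z + (SS z)⁻¹ + 2) / 4, (SS z - (SS z)⁻¹) / 4]

lemma MM_eq {z : ℂ} (hz : z ∈ UH) (h : ‖z‖ < 1) : zM z = MM z := by
  unfold zM MM
  rw [SS_eq hz h]

lemma MM_diff (i j : Fin 2) : DifferentiableOn ℂ (fun z => MM z i j) (Metric.ball 0 1) := by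
  have h1 := SS_diff
  have h2 : DifferentiableOn ℂ (fun z => (SS z)⁻¹) (Metric.ball 0 1) := h1.inv fun z _ => SS_ne z
  fin_cases i <;> fin_cases j <;> simp only [MM] <;> simp
  · exact (h1.sub h2).div_const 4
  · exact ((h1.add h2).sub (differentiableOn_const _)).div_const 4
  · exact ((h1.add h2).add (differentiableOn_const _)).div_const 4
  · exact (h1.sub h2).div_const 4

/-! ### the exponent -/

lemma log_div_nat {σ : ℂ} (hσ : σ ≠ 0) {n : ℕ} (hn : 1 ≤ n) :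
    Complex.log (σ / n) = Complex.log σ - (Real.log n : ℝ) := by
  have hn0 : (0 : ℝ) < n := by exact_mod_cast hn
  have h := Complex.log_ofReal_mul (r := (n : ℝ)⁻¹) (by positivity) hσ
  have e : (((n : ℝ)⁻¹ : ℝ) : ℂ) * σ = σ / n := by push_cast; ring
  rw [e, Real.log_inv] at h
  rw [h]
  push_cast
  ring

lemma cpow_div_nat (α : ℝ) {σ : ℂ} (hσ : σ ≠ 0) {n : ℕ} (hn : 1 ≤ n) :
    (σ / n) ^ (α : ℂ) = (((n : ℝ) ^ (-α) : ℝ) : ℂ) * σ ^ (α : ℂ) := by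
  have hn0 : (0 : ℝ) < n := by exact_mod_cast hn
  have hnc : (n : ℂ) ≠ 0 := by exact_mod_cast hn0.ne'
  rw [Complex.cpow_def_of_ne_zero (div_ne_zero hσ hnc), Complex.cpow_def_of_ne_zero hσ,
    log_div_nat hσ hn, Real.rpow_def_of_pos hn0, Complex.ofReal_exp, ← Complex.exp_add]
  congr 1
  push_cast
  ring

lemma sPow_eq (α : ℝ) {n : ℕ} (hn : 1 ≤ n) : sPow α n = n * (n : ℝ) ^ (-α) := by
  have hn0 : (0 : ℝ) < n := by exact_mod_cast hn
  unfold sPow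
  nth_rewrite 2 [← Real.rpow_one (n : ℝ)]
  rw [← Real.rpow_add hn0]
  congr 1
  ring

/-- The remainder of the g-function. -/
noncomputable def RR (α : ℝ) (h : ℂ → ℂ) (d e : ℂ) (z : ℂ) : ℂ :=
  z ^ 2 * h z + d * z ^ (α : ℂ) + e * z ^ (α : ℂ) * Complex.log z

/-- The exponent `-n R(σ/n)`, written with scales. -/
noncomputable def EX (α : ℝ) (h : ℂ → ℂ) (d e : ℂ) (n : ℕ) (σ : ℂ) : ℂ :=
  ((sInv n : ℝ) : ℂ) * (-1 * σ ^ 2) * h (σ / n) +
    (((sPow α n : ℝ) : ℂ) * (-d * σ ^ (α : ℂ)) +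
      (((sPow α n : ℝ) : ℂ) * (-e * (σ ^ (α : ℂ) * Complex.log σ)) +
        ((sLog α n : ℝ) : ℂ) * (e * σ ^ (α : ℂ))))

lemma EX_eq (α : ℝ) (h : ℂ → ℂ) (d e : ℂ) {σ : ℂ} (hσ : σ ≠ 0) {n : ℕ} (hn : 1 ≤ n) :
    EX α h d e n σ = -(n * RR α h d e (σ / n)) := by
  have hn0 : (0 : ℝ) < n := by exact_mod_cast hn
  have hnc : (n : ℂ) ≠ 0 := by exact_mod_cast hn0.ne'
  have e1 : sLog α n = sPow α n * Real.log n := rfl
  unfold EX RR
  rw [e1, sPow_eq α hn, cpow_div_nat α hσ hn, log_div_nat hσ hn, sInv, Real.rpow_neg_one]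
  push_cast
  field_simp
  ring

lemma RR_small {α : ℝ} (hα : 1 < α) {h : ℂ → ℂ} {r0 : ℝ} (hr0 : 0 < r0)
    (hh : DifferentiableOn ℂ h (Metric.ball 0 r0)) (d e : ℂ) {η : ℝ} (hη : 0 < η) :
    ∃ rs : ℝ, 0 < rs ∧ ∀ z : ℂ, ‖z‖ ≤ rs → ‖RR α h d e z‖ ≤ η * ‖z‖ := by
  obtain ⟨C, hC0, hC⟩ := bdd hr0 hh
  have hα1 : 0 < α - 1 := by linarith
  have t1 : Tendsto (fun t : ℝ => t) (𝓝[>] 0) (𝓝 0) := tendsto_nhdsWithin_of_tendsto_nhds tendsto_id
  have t2 : Tendsto (fun t : ℝ => t ^ (α - 1)) (𝓝[>] 0) (𝓝 0) := by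
    have := (Real.continuousAt_rpow_const 0 (α - 1) (Or.inr hα1.le)).tendsto
    rw [Real.zero_rpow hα1.ne'] at this
    exact tendsto_nhdsWithin_of_tendsto_nhds this
  have t3 : Tendsto (fun t : ℝ => |Real.log t * t ^ (α - 1)|) (𝓝[>] 0) (𝓝 0) := by
    have := (tendsto_log_mul_rpow_nhdsGT_zero hα1).abs
    rwa [abs_zero] at this
  have t4 : Tendsto (fun t : ℝ => C * t + (‖d‖ * t ^ (α - 1) + ‖e‖ *
      (|Real.log t * t ^ (α - 1)| + Real.pi * t ^ (α - 1)))) (𝓝[>] 0) (𝓝 0) := by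
    have := (t1.const_mul C).add ((t2.const_mul ‖d‖).add
      ((t3.add (t2.const_mul Real.pi)).const_mul ‖e‖))
    simpa using this
  have t5 := (t4.eventually (gt_mem_nhds hη))
  obtain ⟨ε, hε, hsub⟩ := mem_nhdsGT_iff_exists_Ioo_subset.1 t5
  have hε' : (0 : ℝ) < ε := hε
  refine ⟨min (r0 / 2) (ε / 2), by positivity, fun z hz => ?_⟩
  rcases eq_or_ne z 0 with rfl | hz0
  · unfold RR
    rw [Complex.zero_cpow (by exact_mod_cast (show α ≠ 0 by linarith))]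
    simp
  have hn : 0 < ‖z‖ := norm_pos_iff.2 hz0
  have h1 : ‖z‖ ≤ r0 / 2 := hz.trans (min_le_left _ _)
  have h2 : ‖z‖ < ε := by
    have := hz.trans (min_le_right _ _)
    linarith
  have h3 := hsub (show ‖z‖ ∈ Ioo 0 ε from ⟨hn, h2⟩)
  simp only [mem_ofPred_eq] at h3
  have e1 : ‖z‖ ^ α = ‖z‖ ^ (α - 1) * ‖z‖ := by
    nth_rewrite 3 [← Real.rpow_one ‖z‖]
    rw [← Real.rpow_add hn]
    congr 1
    ring
  have a1 : ‖z ^ 2 * h z‖ ≤ C * ‖z‖ * ‖z‖ := by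
    rw [norm_mul, norm_pow]
    calc ‖z‖ ^ 2 * ‖h z‖ ≤ ‖z‖ ^ 2 * C := by gcongr; exact hC z h1
      _ = _ := by ring
  have a2 : ‖d * z ^ (α : ℂ)‖ = ‖d‖ * ‖z‖ ^ (α - 1) * ‖z‖ := by
    rw [norm_mul, Complex.norm_cpow_real, e1]; ring
  have a3 : ‖e * z ^ (α : ℂ) * Complex.log z‖ ≤ ‖e‖ *
      (|Real.log ‖z‖ * ‖z‖ ^ (α - 1)| + Real.pi * ‖z‖ ^ (α - 1)) * ‖z‖ := by
    rw [norm_mul, norm_mul, Complex.norm_cpow_real, e1, abs_mul, abs_of_nonneg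
      (show 0 ≤ ‖z‖ ^ (α - 1) by positivity)]
    calc ‖e‖ * (‖z‖ ^ (α - 1) * ‖z‖) * ‖Complex.log z‖
        ≤ ‖e‖ * (‖z‖ ^ (α - 1) * ‖z‖) * (|Real.log ‖z‖| + Real.pi) := by
          gcongr
          exact norm_clog_le
      _ = _ := by ring
  calc ‖RR α h d e z‖ ≤ ‖z ^ 2 * h z‖ + ‖d * z ^ (α : ℂ)‖ + ‖e * z ^ (α : ℂ) * Complex.log z‖ := by
        unfold RR
        exact (norm_add_le _ _).trans (add_le_add_left (norm_add_le _ _) _)
    _ ≤ C * ‖z‖ * ‖z‖ + ‖d‖ * ‖z‖ ^ (α - 1) * ‖z‖ + ‖e‖ *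
      (|Real.log ‖z‖ * ‖z‖ ^ (α - 1)| + Real.pi * ‖z‖ ^ (α - 1)) * ‖z‖ := by linarith
    _ = (C * ‖z‖ + (‖d‖ * ‖z‖ ^ (α - 1) + ‖e‖ *
      (|Real.log ‖z‖ * ‖z‖ ^ (α - 1)| + Real.pi * ‖z‖ ^ (α - 1)))) * ‖z‖ := by ring
    _ ≤ η * ‖z‖ := by gcongr

lemma EX_exp {α : ℝ} (hα : 1 < α) {h : ℂ → ℂ} {r0 r1 T : ℝ} (hr0 : 0 < r0)
    (hh : DifferentiableOn ℂ h (Metric.ball 0 r0)) (hr1 : r1 ≤ r0 / 2) (d e : ℂ)
    (he : (∀ k : ℕ, α ≠ 2 * k + 1) → e = 0) :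
    ExpTo (Lam α : Set (ℕ → ℝ)) (Om r1) rho1 T (fun n σ => EX α h d e n σ) := by
  have h0 : PolyGrowth rho1 (fun σ : ℂ => σ ^ (α : ℂ)) := pg_cpow (by linarith)
  have h1 : ExpTo (Lam α : Set (ℕ → ℝ)) (Om r1) rho1 T
      (fun n σ => ((sInv n : ℝ) : ℂ) * (-1 * σ ^ 2) * h (σ / n)) :=
    genL hα (anL hr0 hh hr1) (sInv_mem α) (PolyGrowth.constMul (pg_pow 2) (-1))
  have h2 : ExpTo (Lam α : Set (ℕ → ℝ)) (Om r1) rho1 T
      (fun n σ => ((sPow α n : ℝ) : ℂ) * (-d * σ ^ (α : ℂ))) :=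
    ExpTo.of_gen (sPow_mem α) (PolyGrowth.constMul h0 (-d))
  have h3 : ExpTo (Lam α : Set (ℕ → ℝ)) (Om r1) rho1 T
      (fun n σ => ((sPow α n : ℝ) : ℂ) * (-e * (σ ^ (α : ℂ) * Complex.log σ))) :=
    ExpTo.of_gen (sPow_mem α) (PolyGrowth.constMul (pg_cpow_log hα.le) (-e))
  have h4 : ExpTo (Lam α : Set (ℕ → ℝ)) (Om r1) rho1 T
      (fun n σ => ((sLog α n : ℝ) : ℂ) * (e * σ ^ (α : ℂ))) := by
    by_cases hk : ∃ k : ℕ, α = 2 * k + 1
    · exact ExpTo.of_gen (sLog_mem hk) (PolyGrowth.constMul h0 e)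
    · push Not at hk
      rw [he hk]
      simpa using ExpTo.zero
  exact h1.add one_le_rho1 (h2.add one_le_rho1 (h3.add one_le_rho1 h4))

lemma EX_bd {α : ℝ} (hα : 1 < α) {h : ℂ → ℂ} {r0 r1 : ℝ} (hr0 : 0 < r0)
    (hh : DifferentiableOn ℂ h (Metric.ball 0 r0)) (hr1 : r1 ≤ r0 / 2) (d e : ℂ) :
    ∃ (θ C : ℝ) (K : ℕ), 0 < θ ∧ 0 ≤ C ∧ ∀ n : ℕ, 1 ≤ n → ∀ σ ∈ Om r1 n,
      ‖EX α h d e n σ‖ ≤ C * (n : ℝ) ^ (-θ) * rho1 σ ^ K := by
  obtain ⟨C, hC0, hC⟩ := bdd hr0 hh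
  obtain ⟨-, C1, K1, hC1⟩ := pg_cpow (show 0 ≤ α by linarith)
  obtain ⟨-, C2, K2, hC2⟩ := pg_cpow_log hα.le
  have hα1 : 0 < α - 1 := by linarith
  set θ := min 1 ((α - 1) / 2) with hθ
  set K := 2 + K1 + K2 with hK
  refine ⟨θ, C + ‖d‖ * |C1| + ‖e‖ * |C2| + (2 / (α - 1)) * (‖e‖ * |C1|), K,
    lt_min one_pos (by linarith), by positivity, fun n hn σ hσ => ?_⟩
  have hn1 : (1 : ℝ) ≤ n := by exact_mod_cast hn
  have hn0 : (0 : ℝ) < n := by linarith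
  have hρ := one_le_rho1 σ
  have hρ0 := rho1_pos σ
  have hnθ : 0 ≤ (n : ℝ) ^ (-θ) := by positivity
  have p1 : ∀ {k : ℕ}, k ≤ K → rho1 σ ^ k ≤ rho1 σ ^ K := fun h => pow_le_pow_right₀ hρ h
  have q1 : sInv n ≤ (n : ℝ) ^ (-θ) :=
    Real.rpow_le_rpow_of_exponent_le hn1 (by linarith [min_le_left 1 ((α - 1) / 2)])
  have q2 : sPow α n ≤ (n : ℝ) ^ (-θ) :=
    Real.rpow_le_rpow_of_exponent_le hn1 (by linarith [min_le_right 1 ((α - 1) / 2)])
  have q3 : sLog α n ≤ 2 / (α - 1) * (n : ℝ) ^ (-θ) := by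
    have h1 := Real.log_le_rpow_div (x := n) (ε := (α - 1) / 2) hn0.le (by linarith)
    unfold sLog
    calc (n : ℝ) ^ (-(α - 1)) * Real.log n
        ≤ (n : ℝ) ^ (-(α - 1)) * ((n : ℝ) ^ ((α - 1) / 2) / ((α - 1) / 2)) := by gcongr
      _ = 2 / (α - 1) * ((n : ℝ) ^ (-(α - 1)) * (n : ℝ) ^ ((α - 1) / 2)) := by field_simp
      _ = 2 / (α - 1) * (n : ℝ) ^ (-((α - 1) / 2)) := by
          rw [← Real.rpow_add hn0]; congr 2; ring
      _ ≤ 2 / (α - 1) * (n : ℝ) ^ (-θ) := by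
          apply mul_le_mul_of_nonneg_left _ (by positivity)
          exact Real.rpow_le_rpow_of_exponent_le hn1 (by linarith [min_le_right 1 ((α - 1) / 2)])
  have q10 : 0 ≤ sInv n := by unfold sInv; positivity
  have q20 : 0 ≤ sPow α n := by unfold sPow; positivity
  have q30 : 0 ≤ sLog α n := by
    unfold sLog
    have := Real.log_nonneg hn1
    positivity
  have hnd : ‖σ / n‖ ≤ r0 / 2 := by
    rw [norm_div_nat, div_le_iff₀ hn0]
    exact hσ.2.trans (mul_le_mul_of_nonneg_right hr1 hn0.le)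
  have b1 : ‖σ ^ (α : ℂ)‖ ≤ |C1| * rho1 σ ^ K := by
    refine (hC1 σ).trans ?_
    calc C1 * rho1 σ ^ K1 ≤ |C1| * rho1 σ ^ K1 := by gcongr; exact le_abs_self _
      _ ≤ |C1| * rho1 σ ^ K := by gcongr; omega
  have b2 : ‖σ ^ (α : ℂ) * Complex.log σ‖ ≤ |C2| * rho1 σ ^ K := by
    refine (hC2 σ).trans ?_
    calc C2 * rho1 σ ^ K2 ≤ |C2| * rho1 σ ^ K2 := by gcongr; exact le_abs_self _
      _ ≤ |C2| * rho1 σ ^ K := by gcongr; omega
  have b3 : ‖σ ^ 2‖ ≤ rho1 σ ^ K := by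
    rw [norm_pow]
    exact (pow_le_pow_left₀ (norm_nonneg _) (norm_le_rho1 σ) 2).trans (p1 (by omega))
  have c1 : ‖((sInv n : ℝ) : ℂ) * (-1 * σ ^ 2) * h (σ / n)‖ ≤ C * (n : ℝ) ^ (-θ) * rho1 σ ^ K := by
    rw [norm_mul, norm_mul, Complex.norm_real, Real.norm_eq_abs, abs_of_nonneg q10, neg_one_mul,
      norm_neg]
    calc sInv n * ‖σ ^ 2‖ * ‖h (σ / n)‖ ≤ (n : ℝ) ^ (-θ) * rho1 σ ^ K * C := by
          gcongr
          exact hC _ hnd
      _ = _ := by ring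
  have c2 : ‖((sPow α n : ℝ) : ℂ) * (-d * σ ^ (α : ℂ))‖ ≤
      ‖d‖ * |C1| * (n : ℝ) ^ (-θ) * rho1 σ ^ K := by
    rw [norm_mul, norm_mul, Complex.norm_real, Real.norm_eq_abs, abs_of_nonneg q20, norm_neg]
    calc sPow α n * (‖d‖ * ‖σ ^ (α : ℂ)‖) ≤ (n : ℝ) ^ (-θ) * (‖d‖ * (|C1| * rho1 σ ^ K)) := by
          gcongr
      _ = _ := by ring
  have c3 : ‖((sPow α n : ℝ) : ℂ) * (-e * (σ ^ (α : ℂ) * Complex.log σ))‖ ≤
      ‖e‖ * |C2| * (n : ℝ) ^ (-θ) * rho1 σ ^ K := by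
    rw [norm_mul, norm_mul, Complex.norm_real, Real.norm_eq_abs, abs_of_nonneg q20, norm_neg]
    calc sPow α n * (‖e‖ * ‖σ ^ (α : ℂ) * Complex.log σ‖)
        ≤ (n : ℝ) ^ (-θ) * (‖e‖ * (|C2| * rho1 σ ^ K)) := by gcongr
      _ = _ := by ring
  have c4 : ‖((sLog α n : ℝ) : ℂ) * (e * σ ^ (α : ℂ))‖ ≤
      (2 / (α - 1)) * (‖e‖ * |C1|) * (n : ℝ) ^ (-θ) * rho1 σ ^ K := by
    rw [norm_mul, norm_mul, Complex.norm_real, Real.norm_eq_abs, abs_of_nonneg q30]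
    calc sLog α n * (‖e‖ * ‖σ ^ (α : ℂ)‖)
        ≤ (2 / (α - 1) * (n : ℝ) ^ (-θ)) * (‖e‖ * (|C1| * rho1 σ ^ K)) := by gcongr
      _ = _ := by ring
  unfold EX
  refine (norm_add_le _ _).trans ?_
  refine (add_le_add_right (norm_add_le _ _) _).trans ?_
  refine (add_le_add_right (add_le_add_right (norm_add_le _ _) _) _).trans ?_
  linarith

/-- The exponential of the remainder. -/
lemma expE {α : ℝ} (hα : 1 < α) {Ω : ℕ → Set ℂ} {T η θ C : ℝ} {K : ℕ} (hT : 0 ≤ T)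
    {E : ℕ → ℂ → ℂ} (hE : ExpTo (Lam α : Set (ℕ → ℝ)) Ω rho1 T E) (hη : 0 ≤ η) (hθ : 0 < θ)
    (hC : 0 ≤ C)
    (hb : ∀ n : ℕ, 1 ≤ n → ∀ σ ∈ Ω n, ‖E n σ‖ ≤ C * (n : ℝ) ^ (-θ) * rho1 σ ^ K)
    (hl : ∀ n : ℕ, 1 ≤ n → ∀ σ ∈ Ω n, ‖E n σ‖ ≤ η * ‖σ‖) :
    ExpTo (Lam α : Set (ℕ → ℝ)) Ω rho1 T
      (fun n σ => ((Real.exp (-(η * ‖σ‖)) : ℝ) : ℂ) * Complex.exp (E n σ)) := by
  obtain ⟨J, hJ⟩ := exists_nat_ge (T / θ)
  have hJ' : T ≤ θ * J := by
    rw [div_le_iff₀ hθ] at hJ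
    linarith
  have hc : ∀ j : ℕ, PolyGrowth rho1
      (fun σ : ℂ => ((Real.exp (-(η * ‖σ‖)) / (j.factorial : ℝ) : ℝ) : ℂ)) := by
    intro j
    refine ⟨by fun_prop, 1, 0, fun σ => ?_⟩
    rw [Complex.norm_real, Real.norm_eq_abs, abs_of_nonneg (by positivity), pow_zero, mul_one]
    have h1 : (1 : ℝ) ≤ (j.factorial : ℝ) := by exact_mod_cast Nat.factorial_pos j
    rw [div_le_one (by linarith)]
    refine le_trans ?_ h1
    rw [Real.exp_le_one_iff]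
    have := mul_nonneg hη (norm_nonneg σ)
    linarith
  have h1 : ExpTo (Lam α : Set (ℕ → ℝ)) Ω rho1 T (fun n σ => ∑ j ∈ Finset.range J,
      ((Real.exp (-(η * ‖σ‖)) / (j.factorial : ℝ) : ℝ) : ℂ) * E n σ ^ j) :=
    ExpTo.sum one_le_rho1 _ _ fun j _ => funL (powL hα hT hE j) (hc j)
  have h2 : ExpTo (Lam α : Set (ℕ → ℝ)) Ω rho1 T (fun n σ => ((Real.exp (-(η * ‖σ‖)) : ℝ) : ℂ) *
      (Complex.exp (E n σ) - ∑ j ∈ Finset.range J, E n σ ^ j / (j.factorial : ℂ))) := by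
    refine ExpTo.of_bound (C := C ^ J) (K := K * J) ?_
    filter_upwards [eventually_ge_atTop 1] with n hn σ hσ
    have hn1 : (1 : ℝ) ≤ n := by exact_mod_cast hn
    have hn0 : (0 : ℝ) < n := by linarith
    have hρ0 := rho1_pos σ
    have e1 := Complex.norm_exp_sub_sum_le_norm_mul_exp (E n σ) J
    rw [norm_mul, Complex.norm_real, Real.norm_eq_abs, abs_of_pos (Real.exp_pos _)]
    calc Real.exp (-(η * ‖σ‖)) *
          ‖Complex.exp (E n σ) - ∑ j ∈ Finset.range J, E n σ ^ j / (j.factorial : ℂ)‖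
        ≤ Real.exp (-(η * ‖σ‖)) * (‖E n σ‖ ^ J * Real.exp ‖E n σ‖) := by gcongr
      _ = ‖E n σ‖ ^ J * Real.exp (‖E n σ‖ - η * ‖σ‖) := by
          rw [sub_eq_neg_add, Real.exp_add]; ring
      _ ≤ ‖E n σ‖ ^ J * 1 := by
          gcongr
          rw [Real.exp_le_one_iff]
          linarith [hl n hn σ hσ]
      _ ≤ (C * (n : ℝ) ^ (-θ) * rho1 σ ^ K) ^ J := by
          rw [mul_one]
          exact pow_le_pow_left₀ (norm_nonneg _) (hb n hn σ hσ) J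
      _ = C ^ J * (n : ℝ) ^ (-(θ * J)) * rho1 σ ^ (K * J) := by
          rw [mul_pow, mul_pow, ← pow_mul, ← Real.rpow_natCast ((n : ℝ) ^ (-θ)),
            ← Real.rpow_mul hn0.le]
          congr 3
          ring
      _ ≤ C ^ J * (n : ℝ) ^ (-T) * rho1 σ ^ (K * J) := by
          have := Real.rpow_le_rpow_of_exponent_le hn1 (show -(θ * J) ≤ -T by linarith)
          gcongr
  refine (h1.add one_le_rho1 h2).congr (Eventually.of_forall fun n σ _ => ?_)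
  rw [mul_sub, Finset.mul_sum]
  have : ∀ j ∈ Finset.range J, ((Real.exp (-(η * ‖σ‖)) / (j.factorial : ℝ) : ℝ) : ℂ) * E n σ ^ j =
      ((Real.exp (-(η * ‖σ‖)) : ℝ) : ℂ) * (E n σ ^ j / (j.factorial : ℂ)) := by
    intro j _
    push_cast
    ring
  rw [Finset.sum_congr rfl this]
  ring

/-- One of the exponentials of the field. -/
lemma expA {α : ℝ} (hα : 1 < α) {r1 T η : ℝ} (hr1 : 0 < r1) (a : ℂ)
    (ha : ‖a‖ * r1 ^ (α - 1) ≤ η) :
    ExpTo (Lam α : Set (ℕ → ℝ)) (Om r1) rho1 T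
      (fun n σ => ((Real.exp (-(η * ‖σ‖)) : ℝ) : ℂ) * ((σ ^ (α : ℂ))⁻¹ *
        (((n : ℝ) ^ (α - 1) : ℝ) : ℂ) *
        (Complex.exp (a * (((sPow α n : ℝ) : ℂ) * σ ^ (α : ℂ))) - 1))) := by
  have hα1 : 0 < α - 1 := by linarith
  have hη : 0 ≤ η := le_trans (by positivity) ha
  obtain ⟨M, hM⟩ := exists_nat_ge (T / (α - 1))
  have hM' : T ≤ (α - 1) * M := by
    rw [div_le_iff₀ hα1] at hM
    linarith
  have hc : ∀ m : ℕ, PolyGrowth rho1
      (fun σ : ℂ => ((Real.exp (-(η * ‖σ‖)) : ℝ) : ℂ) *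
        ((a ^ (m + 1) / ((m + 1).factorial : ℂ)) * (σ ^ (α : ℂ)) ^ m)) := by
    intro m
    have p1 : PolyGrowth rho1 (fun σ : ℂ => ((Real.exp (-(η * ‖σ‖)) : ℝ) : ℂ)) := by
      refine ⟨by fun_prop, 1, 0, fun σ => ?_⟩
      rw [Complex.norm_real, Real.norm_eq_abs, abs_of_nonneg (by positivity), pow_zero, mul_one,
        Real.exp_le_one_iff]
      have := mul_nonneg hη (norm_nonneg σ)
      linarith
    have p2 : PolyGrowth rho1 (fun σ : ℂ => (σ ^ (α : ℂ)) ^ m) := by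
      obtain ⟨-, C1, K1, hC1⟩ := pg_cpow (show 0 ≤ α by linarith)
      refine ⟨by fun_prop, C1 ^ m, K1 * m, fun σ => ?_⟩
      rw [norm_pow]
      have := pow_le_pow_left₀ (norm_nonneg _) (hC1 σ) m
      rwa [mul_pow, ← pow_mul] at this
    exact p1.mul one_le_rho1 (PolyGrowth.constMul p2 _)
  have h1 : ExpTo (Lam α : Set (ℕ → ℝ)) (Om r1) rho1 T (fun n σ => ∑ m ∈ Finset.range M,
      (((sPow α ^ m) n : ℝ) : ℂ) * (((Real.exp (-(η * ‖σ‖)) : ℝ) : ℂ) *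
        ((a ^ (m + 1) / ((m + 1).factorial : ℂ)) * (σ ^ (α : ℂ)) ^ m))) :=
    ExpTo.sum one_le_rho1 _ _ fun m _ =>
      ExpTo.of_gen ((Lam α).pow_mem (sPow_mem α) m) (hc m)
  have h2 : ExpTo (Lam α : Set (ℕ → ℝ)) (Om r1) rho1 T (fun n σ =>
      ((Real.exp (-(η * ‖σ‖)) : ℝ) : ℂ) * ((σ ^ (α : ℂ))⁻¹ * (((n : ℝ) ^ (α - 1) : ℝ) : ℂ) *
        (Complex.exp (a * (((sPow α n : ℝ) : ℂ) * σ ^ (α : ℂ))) -
          ∑ m ∈ Finset.range (M + 1), (a * (((sPow α n : ℝ) : ℂ) * σ ^ (α : ℂ))) ^ m /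
            (m.factorial : ℂ)))) := by
    refine ExpTo.of_bound (C := ‖a‖ ^ (M + 1)) (K := ⌈α⌉₊ * M) ?_
    filter_upwards [eventually_ge_atTop 1] with n hn σ hσ
    have hn1 : (1 : ℝ) ≤ n := by exact_mod_cast hn
    have hn0 : (0 : ℝ) < n := by linarith
    have hρ0 := rho1_pos σ
    have hσ0 : σ ≠ 0 := by
      rintro rfl
      have := hσ.1
      simp at this
    have hs0 : 0 < ‖σ‖ := norm_pos_iff.2 hσ0
    set w : ℂ := ((sPow α n : ℝ) : ℂ) * σ ^ (α : ℂ) with hw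
    have q20 : 0 < sPow α n := by unfold sPow; positivity
    have hwn : ‖w‖ = sPow α n * ‖σ‖ ^ α := by
      rw [hw, norm_mul, Complex.norm_real, Real.norm_eq_abs, abs_of_pos q20,
        Complex.norm_cpow_real]
    have hlin : ‖a * w‖ ≤ η * ‖σ‖ := by
      rw [norm_mul, hwn]
      have e1 : sPow α n * ‖σ‖ ^ α = (‖σ‖ / n) ^ (α - 1) * ‖σ‖ := by
        rw [Real.div_rpow hs0.le hn0.le, sPow, Real.rpow_neg hn0.le]
        have : ‖σ‖ ^ α = ‖σ‖ ^ (α - 1) * ‖σ‖ := by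
          nth_rewrite 3 [← Real.rpow_one ‖σ‖]
          rw [← Real.rpow_add hs0]
          congr 1
          ring
        rw [this]
        ring
      rw [e1]
      have e2 : (‖σ‖ / n) ^ (α - 1) ≤ r1 ^ (α - 1) := by
        apply Real.rpow_le_rpow (by positivity) _ hα1.le
        rw [div_le_iff₀ hn0]
        exact hσ.2
      calc ‖a‖ * ((‖σ‖ / n) ^ (α - 1) * ‖σ‖) ≤ ‖a‖ * (r1 ^ (α - 1) * ‖σ‖) := by gcongr
        _ = (‖a‖ * r1 ^ (α - 1)) * ‖σ‖ := by ring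
        _ ≤ η * ‖σ‖ := by gcongr
    have e1 := Complex.norm_exp_sub_sum_le_norm_mul_exp (a * w) (M + 1)
    rw [norm_mul, norm_mul, norm_mul, Complex.norm_real, Complex.norm_real, Real.norm_eq_abs,
      Real.norm_eq_abs, abs_of_pos (Real.exp_pos _), norm_inv, Complex.norm_cpow_real,
      abs_of_pos (show 0 < (n : ℝ) ^ (α - 1) by positivity)]
    have hn2 : (n : ℝ) ^ (α - 1) * sPow α n = 1 := by
      unfold sPow
      rw [← Real.rpow_add hn0]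
      simp
    calc Real.exp (-(η * ‖σ‖)) * ((‖σ‖ ^ α)⁻¹ * (n : ℝ) ^ (α - 1) *
          ‖Complex.exp (a * w) - ∑ m ∈ Finset.range (M + 1), (a * w) ^ m / (m.factorial : ℂ)‖)
        ≤ Real.exp (-(η * ‖σ‖)) * ((‖σ‖ ^ α)⁻¹ * (n : ℝ) ^ (α - 1) *
          (‖a * w‖ ^ (M + 1) * Real.exp ‖a * w‖)) := by gcongr
      _ = (‖σ‖ ^ α)⁻¹ * (n : ℝ) ^ (α - 1) * ‖a * w‖ ^ (M + 1) *
            Real.exp (‖a * w‖ - η * ‖σ‖) := by
          have : Real.exp (‖a * w‖ - η * ‖σ‖) =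
              Real.exp (-(η * ‖σ‖)) * Real.exp ‖a * w‖ := by
            rw [← Real.exp_add]; congr 1; ring
          rw [this]; ring
      _ ≤ (‖σ‖ ^ α)⁻¹ * (n : ℝ) ^ (α - 1) * ‖a * w‖ ^ (M + 1) * 1 := by
          gcongr
          rw [Real.exp_le_one_iff]
          linarith
      _ = ‖a‖ ^ (M + 1) * ((n : ℝ) ^ (α - 1) * sPow α n) * ((‖σ‖ ^ α)⁻¹ * ‖σ‖ ^ α) *
            (sPow α n ^ M * (‖σ‖ ^ α) ^ M) := by
          rw [norm_mul, hwn]; ring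
      _ = ‖a‖ ^ (M + 1) * (sPow α n ^ M * (‖σ‖ ^ α) ^ M) := by
          rw [hn2, inv_mul_cancel₀ (by positivity)]; ring
      _ ≤ ‖a‖ ^ (M + 1) * ((n : ℝ) ^ (-T) * (rho1 σ ^ ⌈α⌉₊) ^ M) := by
          have g1 : sPow α n ^ M ≤ (n : ℝ) ^ (-T) := by
            unfold sPow
            rw [← Real.rpow_natCast, ← Real.rpow_mul hn0.le]
            exact Real.rpow_le_rpow_of_exponent_le hn1 (by linarith)
          have g2 := rpow_le_rho1 (show 0 ≤ α by linarith) σ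
          gcongr
      _ = ‖a‖ ^ (M + 1) * (n : ℝ) ^ (-T) * rho1 σ ^ (⌈α⌉₊ * M) := by
          rw [← pow_mul]; ring
  refine (h1.add one_le_rho1 h2).congr ?_
  filter_upwards [eventually_ge_atTop 1] with n hn σ hσ
  have hn0 : (0 : ℝ) < n := by exact_mod_cast hn
  have hσ0 : σ ≠ 0 := by
    rintro rfl
    have := hσ.1
    simp at this
  have hne : σ ^ (α : ℂ) ≠ 0 := by
    rw [Ne, Complex.cpow_eq_zero_iff]
    exact fun h => hσ0 h.1
  have hn2 : (((n : ℝ) ^ (α - 1) : ℝ) : ℂ) * ((sPow α n : ℝ) : ℂ) = 1 := by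
    rw [← Complex.ofReal_mul]
    unfold sPow
    rw [← Real.rpow_add hn0]
    simp
  have e3 : ∀ m ∈ Finset.range M, (((sPow α ^ m) n : ℝ) : ℂ) *
      (((Real.exp (-(η * ‖σ‖)) : ℝ) : ℂ) *
        ((a ^ (m + 1) / ((m + 1).factorial : ℂ)) * (σ ^ (α : ℂ)) ^ m)) =
      ((Real.exp (-(η * ‖σ‖)) : ℝ) : ℂ) * ((σ ^ (α : ℂ))⁻¹ * (((n : ℝ) ^ (α - 1) : ℝ) : ℂ) *
        ((a * (((sPow α n : ℝ) : ℂ) * σ ^ (α : ℂ))) ^ (m + 1) / ((m + 1).factorial : ℂ))) := by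
    intro m _
    have : (σ ^ (α : ℂ))⁻¹ * (((n : ℝ) ^ (α - 1) : ℝ) : ℂ) *
        ((a * (((sPow α n : ℝ) : ℂ) * σ ^ (α : ℂ))) ^ (m + 1) / ((m + 1).factorial : ℂ)) =
        ((((n : ℝ) ^ (α - 1) : ℝ) : ℂ) * ((sPow α n : ℝ) : ℂ)) *
        ((σ ^ (α : ℂ))⁻¹ * σ ^ (α : ℂ)) *
        (a ^ (m + 1) / ((m + 1).factorial : ℂ) *
          (((sPow α n : ℝ) : ℂ) ^ m * (σ ^ (α : ℂ)) ^ m)) := by ring
    rw [this, hn2, inv_mul_cancel₀ hne, Pi.pow_apply]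
    push_cast
    ring
  rw [Finset.sum_congr rfl e3, ← Finset.mul_sum, ← Finset.mul_sum, Finset.sum_range_succ',
    ← mul_add, ← mul_add]
  congr 2
  simp
  ring

/-- The remaining bounded factor. -/
noncomputable def cc (α lam : ℝ) : ℂ → ℂ := UH.indicator fun σ =>
  -Complex.I * (Complex.exp (Complex.I * lam * σ) * ztau σ) *
    (σ ^ (α : ℂ) * ((Real.exp (3 * lam / 8 * ‖σ‖) : ℝ) : ℂ))

lemma cc_pg {α lam : ℝ} (hα : 1 < α) (hl : 0 < lam) : PolyGrowth rho1 (cc α lam) := by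
  obtain ⟨Ct, hC0, hC⟩ := ztau_bd
  have hm : Measurable (fun σ : ℂ => -Complex.I * (Complex.exp (Complex.I * lam * σ) * ztau σ) *
    (σ ^ (α : ℂ) * ((Real.exp (3 * lam / 8 * ‖σ‖) : ℝ) : ℂ))) := by
    have h1 : Measurable (deriv tau) := zb_dtau_cont.measurable
    unfold ztau
    fun_prop
  refine ⟨hm.indicator zb_meas_UH, Ct, ⌈α - 1⌉₊, fun σ => ?_⟩
  have hρ0 := rho1_pos σ
  unfold cc
  by_cases hσ : σ ∈ UH
  · rw [indicator_of_mem hσ]
    have hs0 : 0 < ‖σ‖ := norm_pos_iff.2 (zb_ne_zero hσ)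
    have h1 := zi_kernel_bd hC hC0 hl hσ
    rw [norm_mul, norm_mul, norm_mul _ ((Real.exp (3 * lam / 8 * ‖σ‖) : ℝ) : ℂ), norm_neg,
      Complex.norm_I, one_mul, Complex.norm_cpow_real,
      Complex.norm_real, Real.norm_eq_abs, abs_of_pos (Real.exp_pos _)]
    have h2 : ‖σ‖ ^ α = ‖σ‖ ^ (α - 1) * ‖σ‖ := by
      nth_rewrite 3 [← Real.rpow_one ‖σ‖]
      rw [← Real.rpow_add hs0]
      congr 1
      ring
    calc ‖Complex.exp (Complex.I * lam * σ) * ztau σ‖ *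
          (‖σ‖ ^ α * Real.exp (3 * lam / 8 * ‖σ‖))
        ≤ (Ct / ‖σ‖ * Real.exp (-(lam / 2) * ‖σ‖)) *
          (‖σ‖ ^ α * Real.exp (3 * lam / 8 * ‖σ‖)) := by gcongr
      _ = Ct * ‖σ‖ ^ (α - 1) * (Real.exp (-(lam / 2) * ‖σ‖) * Real.exp (3 * lam / 8 * ‖σ‖)) := by
          rw [h2]; field_simp
      _ ≤ Ct * ‖σ‖ ^ (α - 1) * 1 := by
          gcongr
          rw [← Real.exp_add, Real.exp_le_one_iff]
          have := mul_pos hl hs0
          linarith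
      _ ≤ Ct * rho1 σ ^ ⌈α - 1⌉₊ := by
          rw [mul_one]
          gcongr
          exact rpow_le_rho1 (by linarith) σ
  · rw [indicator_of_notMem hσ, norm_zero]
    positivity

lemma ztau_div {σ : ℂ} {n : ℕ} (hn : 1 ≤ n) : ztau (σ / n) = n * ztau σ := by
  have hn0 : (0 : ℝ) < n := by exact_mod_cast hn
  have hnc : (n : ℂ) ≠ 0 := by exact_mod_cast hn0.ne'
  have e1 : (σ / n).re = σ.re / n := by
    rw [Complex.div_natCast_re]
  have e2 : (σ / n).im = σ.im / n := by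
    rw [Complex.div_natCast_im]
  unfold ztau
  rw [e1, e2, div_div_div_cancel_right₀ hn0.ne']
  push_cast
  by_cases h : (σ.im : ℂ) = 0
  · rw [h]; simp
  · field_simp

end W0E

open W0E in
theorem target_W0_exp : Target_W0_exp := by
  intro α y0 hα hy0 hN
  obtain ⟨r0, P, d, e, hr0, hP, hP0, hP1, he0, -, hg⟩ := hN
  have hα1 : 0 < α - 1 := by linarith
  have hα0 : 0 < α := by linarith
  have hk := za_kap_pos hα
  set lam : ℝ := 2 * α / (α - 1) with hlam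
  have hlam0 : 0 < lam := by positivity
  set h : ℂ → ℂ := dslope (dslope P 0) 0 with hh
  have hd1 : DifferentiableOn ℂ (dslope P 0) (Metric.ball 0 r0) :=
    (Complex.differentiableOn_dslope (Metric.ball_mem_nhds 0 hr0)).2 hP
  have hd2 : DifferentiableOn ℂ h (Metric.ball 0 r0) :=
    (Complex.differentiableOn_dslope (Metric.ball_mem_nhds 0 hr0)).2 hd1
  have hPe : ∀ z, P z = -(Complex.I * lam * z) + z ^ 2 * h z := by
    intro z
    have a1 := sub_smul_dslope P 0 z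
    have a2 := sub_smul_dslope (dslope P 0) 0 z
    rw [dslope_same, hP1] at a2
    rw [hP0] at a1
    simp only [sub_zero, smul_eq_mul] at a1 a2
    rw [hlam]
    push_cast
    linear_combination -a1 - z * a2
  set η : ℝ := lam / 8 with hη
  have hη0 : 0 < η := by positivity
  obtain ⟨rR, hrR0, hrR⟩ := RR_small hα hr0 hd2 d e hη0
  set rs : ℝ := min (min (r0 / 2) (y0 / 2)) (min (min (1 / 2) rR) ((η / kap α) ^ (1 / (α - 1))))
    with hrs
  have hrs0 : 0 < rs := by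
    rw [hrs]
    positivity
  refine ⟨η, rs, hη0, hrs0, fun r1 hr10 hr1s T i j => ?_⟩
  have s1 : r1 ≤ r0 / 2 := hr1s.trans ((min_le_left _ _).trans (min_le_left _ _))
  have s2 : r1 ≤ y0 / 2 := hr1s.trans ((min_le_left _ _).trans (min_le_right _ _))
  have s3 : r1 ≤ 1 / 2 :=
    hr1s.trans ((min_le_right _ _).trans ((min_le_left _ _).trans (min_le_left _ _)))
  have s4 : r1 ≤ rR :=
    hr1s.trans ((min_le_right _ _).trans ((min_le_left _ _).trans (min_le_right _ _)))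
  have s5 : r1 ≤ (η / kap α) ^ (1 / (α - 1)) :=
    hr1s.trans ((min_le_right _ _).trans (min_le_right _ _))
  have s6 : kap α * r1 ^ (α - 1) ≤ η := by
    have h1 : r1 ^ (α - 1) ≤ ((η / kap α) ^ (1 / (α - 1))) ^ (α - 1) :=
      Real.rpow_le_rpow hr10.le s5 hα1.le
    rw [← Real.rpow_mul (by positivity), one_div, inv_mul_cancel₀ hα1.ne', Real.rpow_one] at h1
    calc kap α * r1 ^ (α - 1) ≤ kap α * (η / kap α) := by gcongr
      _ = η := by field_simp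
  set T' : ℝ := max T 0 with hT'
  have hT0 : 0 ≤ T' := le_max_right _ _
  refine ExpTo.mono_T one_le_rho1 (le_max_left T 0) ?_
  rw [← hT']
  -- the factors
  set ω : ℂ := Complex.exp (-(Complex.I * Real.pi * α)) with hω
  have hωn : ‖ω‖ = 1 := by
    rw [hω, Complex.norm_exp]; simp
  have f1 : ExpTo (Lam α : Set (ℕ → ℝ)) (Om r1) rho1 T' (fun n σ => MM (σ / n) i j) :=
    anL one_pos (MM_diff i j) s3
  have f2a := expA (T := T') hα hr10 (η := η) ((kap α : ℝ) : ℂ)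
    (by rw [Complex.norm_real, Real.norm_eq_abs, abs_of_pos hk]; exact s6)
  have f2b := expA (T := T') hα hr10 (η := η) (((kap α : ℝ) : ℂ) * ω)
    (by rw [norm_mul, hωn, Complex.norm_real, Real.norm_eq_abs, abs_of_pos hk, mul_one]; exact s6)
  have f2 := f2a.add one_le_rho1 (funL f2b (PolyGrowth.const (-1)))
  obtain ⟨θ, C, K, hθ, hC0, hb⟩ := EX_bd hα hr0 hd2 s1 d e
  have hlin : ∀ n : ℕ, 1 ≤ n → ∀ σ ∈ Om r1 n, ‖EX α h d e n σ‖ ≤ η * ‖σ‖ := by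
    intro n hn σ hσ
    have hn0 : (0 : ℝ) < n := by exact_mod_cast hn
    have hσ0 : σ ≠ 0 := zb_ne_zero hσ.1
    rw [EX_eq α h d e hσ0 hn, norm_neg, norm_mul, Complex.norm_natCast]
    have h1 : ‖σ / n‖ ≤ rR := by
      rw [norm_div_nat, div_le_iff₀ hn0]
      exact hσ.2.trans (mul_le_mul_of_nonneg_right s4 hn0.le)
    have h2 := hrR _ h1
    rw [norm_div_nat] at h2
    calc (n : ℝ) * ‖RR α h d e (σ / n)‖ ≤ n * (η * (‖σ‖ / n)) := by gcongr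
      _ = η * ‖σ‖ := by field_simp
  have f3 := expE hα hT0 (EX_exp hα hr0 hd2 s1 d e he0) hη0.le hθ hC0 hb hlin
  have f4 := funL (mulL hα hT0 f1 (mulL hα hT0 f2 f3)) (cc_pg hα hlam0)
  refine f4.congr ?_
  filter_upwards [eventually_ge_atTop 1] with n hn σ hσ
  have hn0 : (0 : ℝ) < n := by exact_mod_cast hn
  have hnc : (n : ℂ) ≠ 0 := by exact_mod_cast hn0.ne'
  have hσU : σ ∈ UH := hσ.1
  have hσ0 : σ ≠ 0 := zb_ne_zero hσU
  have hzU : σ / n ∈ UH := by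
    show 0 < (σ / n).im
    rw [Complex.div_natCast_im]
    exact div_pos hσ.1 hn0
  have hzn : ‖σ / n‖ ≤ r1 := by
    rw [norm_div_nat, div_le_iff₀ hn0]
    exact hσ.2
  have hne : σ ^ (α : ℂ) ≠ 0 := by
    rw [Ne, Complex.cpow_eq_zero_iff]
    exact fun h => hσ0 h.1
  have hrho : rho ((σ / n).im / y0) = 1 := by
    apply za_rho_one
    rw [div_le_iff₀ hy0]
    have := Complex.abs_im_le_norm (σ / n)
    have := le_abs_self (σ / n).im
    linarith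
  have hexp : Complex.exp (-(2 * n * gfun α (σ / n)) + n * ell α) =
      (-1 : ℂ) ^ n * Complex.exp (Complex.I * lam * σ) * Complex.exp (EX α h d e n σ) := by
    have e1 : (-1 : ℂ) ^ n = Complex.exp (-(n * (Real.pi * Complex.I))) := by
      have : Complex.exp (-(n * (Real.pi * Complex.I))) =
          Complex.exp (-(Real.pi * Complex.I)) ^ n := by
        rw [← Complex.exp_nat_mul]; congr 1; ring
      rw [this, Complex.exp_neg, Complex.exp_pi_mul_I]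
      norm_num
    rw [e1, ← Complex.exp_add, ← Complex.exp_add]
    congr 1
    have e2 := hg (σ / n) hzU (by linarith)
    rw [EX_eq α h d e hσ0 hn]
    unfold RR
    have e3 := hPe (σ / n)
    have e4 : (n : ℂ) * (σ / n) = σ := by field_simp
    linear_combination (-(n : ℂ)) * e2 + (-(n : ℂ)) * e3 + (Complex.I * lam) * e4
  have hcp : (n : ℂ) * kap α * (σ / n) ^ (α : ℂ) =
      kap α * (((sPow α n : ℝ) : ℂ) * σ ^ (α : ℂ)) := by
    rw [cpow_div_nat α hσ0 hn, sPow_eq α hn]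
    push_cast
    ring
  have hcm : (n : ℂ) * kap α * (-(σ / n)) ^ (α : ℂ) =
      kap α * ω * (((sPow α n : ℝ) : ℂ) * σ ^ (α : ℂ)) := by
    rw [za_neg_cpow α hzU, ← hω]
    linear_combination ω * hcp
  have hM : zM (σ / n) = MM (σ / n) := MM_eq hzU (by linarith)
  unfold vO
  rw [Matrix.smul_apply, W0_eq, Matrix.smul_apply, smul_eq_mul, smul_eq_mul, za_q_eq, hrho, hexp,
    hcp, hcm, hM, ztau_div hn]
  unfold cc
  rw [indicator_of_mem hσU]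
  have x1 : (((-1) ^ n * (n : ℝ) ^ (α - 2) * Real.exp (η * ‖σ‖) : ℝ) : ℂ) * n * (-1) ^ n =
      (((n : ℝ) ^ (α - 1) : ℝ) : ℂ) * (((Real.exp (3 * lam / 8 * ‖σ‖) : ℝ) : ℂ) *
        ((Real.exp (-(η * ‖σ‖)) : ℝ) : ℂ) * ((Real.exp (-(η * ‖σ‖)) : ℝ) : ℂ)) := by
    have y1 : (n : ℝ) ^ (α - 2) * n = (n : ℝ) ^ (α - 1) := by
      nth_rewrite 2 [← Real.rpow_one (n : ℝ)]
      rw [← Real.rpow_add hn0]
      congr 1
      ring
    have y2 : Real.exp (3 * lam / 8 * ‖σ‖) * Real.exp (-(η * ‖σ‖)) * Real.exp (-(η * ‖σ‖)) =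
        Real.exp (η * ‖σ‖) := by
      rw [← Real.exp_add, ← Real.exp_add]
      congr 1
      rw [hη]
      ring
    have y3 : ((-1 : ℝ) ^ n) * (-1) ^ n = 1 := by
      rw [← mul_pow]; simp
    rw [← Complex.ofReal_mul, ← Complex.ofReal_mul, y2, ← Complex.ofReal_mul, ← y1]
    have : (((-1) ^ n * (n : ℝ) ^ (α - 2) * Real.exp (η * ‖σ‖) : ℝ) : ℂ) * n * (-1) ^ n =
        (((-1) ^ n * (-1) ^ n * ((n : ℝ) ^ (α - 2) * n * Real.exp (η * ‖σ‖)) : ℝ) : ℂ) := by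
      push_cast
      ring
    rw [this, y3, one_mul]
  have x2 : σ ^ (α : ℂ) * (σ ^ (α : ℂ))⁻¹ = 1 := mul_inv_cancel₀ hne
  set A1 := Complex.exp (Complex.I * lam * σ)
  set A2 := Complex.exp (EX α h d e n σ)
  set A3 := Complex.exp (((kap α : ℝ) : ℂ) * (((sPow α n : ℝ) : ℂ) * σ ^ (α : ℂ)))
  set A4 := Complex.exp (((kap α : ℝ) : ℂ) * ω * (((sPow α n : ℝ) : ℂ) * σ ^ (α : ℂ)))
  set A5 := MM (σ / n) i j
  set A6 := ztau σ
  set B1 := ((Real.exp (3 * lam / 8 * ‖σ‖) : ℝ) : ℂ)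
  set B2 := ((Real.exp (-(η * ‖σ‖)) : ℝ) : ℂ)
  set B3 := (((n : ℝ) ^ (α - 1) : ℝ) : ℂ)
  set D := σ ^ (α : ℂ)
  rw [Complex.ofReal_one]
  linear_combination (-Complex.I * A6 * A1 * A2 * (A3 - A4) * A5 * B3 * B1 * B2 * B2) * x2 -
    (-Complex.I * A6 * A1 * A2 * (A3 - A4) * A5) * x1

end Pool.Agent.FreudM
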