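import Pool.Agent.FreudM.Sqrt
import Pool.Agent.FreudM.Near0
import Pool.Agent.FreudM.W0Exp
import Pool.Agent.Freud.FreudOP

/-!
# The integral equation of the recurrence coefficients
-/

set_option autoImplicit false

open MeasureTheory Filter Topology Set
open scoped Pointwise

namespace Pool.Agent.FreudM

open Pool.Agent.Freud

lemma entry_le_nm (M : Mat2) (i j : Fin 2) : ‖M i j‖ ≤ nm M := by
  unfold nm
  have h00 := norm_nonneg (M 0 0)
  have h01 := norm_nonneg (M 0 1)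
  have h10 := norm_nonneg (M 1 0)
  have h11 := norm_nonneg (M 1 1)
  fin_cases i <;> fin_cases j <;> simp <;> linarith

lemma contOn_entry {F : ℂ → Mat2} {S : Set ℂ} (h : ContinuousOn F S) (i j : Fin 2) :
    ContinuousOn (fun s => F s i j) S :=
  (continuous_id.matrix_elem i j).comp_continuousOn h

variable {α y0 r c C : ℝ} {n0 : ℕ} {A : Set ℂ} {w : ℕ → ℂ → Mat2} {We Wx : ℕ → ℂ → Mat2}

lemma asm_We_exp (hA : Asm α y0 r c C n0 A w We Wx) (T : ℝ) (i j : Fin 2) :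
    ExpTo pw1 (fun _ => A) one1 T (fun n s => We n s i j) := by
  obtain ⟨K, hK⟩ := exists_nat_ge T
  obtain ⟨B, hB⟩ := hA.We_exp K
  have hp : (fun (n : ℕ) (s : ℂ) => ∑ k ∈ Finset.range K,
      (((n : ℝ) ^ (-((k + 1 : ℕ) : ℝ)) : ℝ) : ℂ) * w k s i j) ∈ Sums pw1 one1 := by
    have : (fun (n : ℕ) (s : ℂ) => ∑ k ∈ Finset.range K,
        (((n : ℝ) ^ (-((k + 1 : ℕ) : ℝ)) : ℝ) : ℂ) * w k s i j) =
        ∑ k ∈ Finset.range K, (fun (n : ℕ) (s : ℂ) =>
          (((n : ℝ) ^ (-((k + 1 : ℕ) : ℝ)) : ℝ) : ℂ) * w k s i j) := by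
      funext n s
      simp [Finset.sum_apply]
    rw [this]
    refine sum_mem fun k _ => ?_
    have hs1 : (fun n : ℕ => (n : ℝ) ^ (-((k + 1 : ℕ) : ℝ))) ∈ pw1 := ⟨k + 1, by omega, rfl⟩
    refine Gen_mem_Sums (P := pw1) hs1 (c := fun s => w k s i j) ?_
    obtain ⟨B', hB'⟩ := hA.w_bd k
    refine ⟨hA.w_meas k i j, |B'|, 0, fun s => ?_⟩
    show ‖w k s i j‖ ≤ |B'| * one1 s ^ 0
    rw [pow_zero, mul_one]
    by_cases hs : s ∈ A
    · exact (entry_le_nm _ i j).trans ((hB' s hs).trans (le_abs_self _))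
    · rw [hA.w_supp k s hs]
      simp
  refine ⟨_, hp, B, 0, ?_⟩
  filter_upwards [eventually_ge_atTop n0, eventually_ge_atTop 1] with n hn hn1 s hs
  have hn' : (1 : ℝ) ≤ n := by exact_mod_cast hn1
  have h1 := hB n hn s hs
  have hB0 : 0 ≤ B := by
    have h2 : 0 ≤ B / (n : ℝ) ^ (K + 1) := le_trans (by unfold nm; positivity) h1
    by_contra hcon
    push Not at hcon
    have : B / (n : ℝ) ^ (K + 1) < 0 := div_neg_of_neg_of_pos hcon (by positivity)
    linarith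
  have h2 : We n s i j - ∑ k ∈ Finset.range K,
      (((n : ℝ) ^ (-((k + 1 : ℕ) : ℝ)) : ℝ) : ℂ) * w k s i j =
      (We n s - ∑ k ∈ Finset.range K, (((n : ℂ) ^ (k + 1))⁻¹) • w k s) i j := by
    rw [Matrix.sub_apply, Matrix.sum_apply]
    congr 1
    refine Finset.sum_congr rfl fun k _ => ?_
    rw [Matrix.smul_apply, smul_eq_mul, Real.rpow_neg (by positivity), Real.rpow_natCast]
    push_cast
    rfl
  rw [h2, pow_zero, mul_one]
  refine (entry_le_nm _ i j).trans (h1.trans ?_)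
  rw [div_eq_mul_inv]
  refine mul_le_mul_of_nonneg_left ?_ hB0
  rw [← Real.rpow_natCast, ← Real.rpow_neg (by positivity)]
  refine Real.rpow_le_rpow_of_exponent_le hn' ?_
  push_cast
  linarith

lemma asm_Wx_neg (hA : Asm α y0 r c C n0 A w We Wx) (N : ℝ) : ∃ C' : ℝ, ∀ᶠ n : ℕ in atTop,
    ∀ s ∈ UH, ∀ i j, ‖Wx n s i j‖ ≤ C' * (n : ℝ) ^ (-N) * (1 + ‖s‖) ^ (-3 : ℝ) := by
  obtain ⟨C1, hC10, hC1⟩ := exp_growth c hA.c_pos 0
  obtain ⟨C2, hC20, hC2⟩ := exp_le_pow c hA.c_pos N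
  refine ⟨|C| * C2 * C1, ?_⟩
  filter_upwards [hC2, eventually_ge_atTop n0] with n h2 hn s hs i j
  have h1 := hC1 ‖s‖ (norm_nonneg s)
  rw [pow_zero, mul_one] at h1
  have e0 : (0 : ℝ) ≤ (n : ℝ) ^ (-N) := Real.rpow_nonneg (Nat.cast_nonneg n) _
  calc ‖Wx n s i j‖ ≤ nm (Wx n s) := entry_le_nm _ i j
    _ ≤ C * Real.exp (-(c * n)) * Real.exp (-(c * ‖s‖)) := hA.Wx_bd n hn s hs
    _ ≤ |C| * (C2 * (n : ℝ) ^ (-N)) * (C1 * (1 + ‖s‖) ^ (-3 : ℝ)) := by
        gcongr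
        exact le_abs_self C
    _ = _ := by ring

/-- The data of the integral equation obtained from the steepest descent analysis. -/
theorem md_of_asm (hα : 1 < α) (hA : Asm α y0 r c C n0 A w We Wx) {R : ℕ → ℂ → Mat2}
    (hRc : ∀ n, n0 ≤ n → ContinuousOn (R n) UH)
    (hRb : ∀ n, n0 ≤ n → ∃ B : ℝ, ∀ z ∈ UH, nm (R n z) ≤ B)
    (hR : ∀ n, n0 ≤ n → ∀ z ∈ UH,
      R n z = 1 + KK (fun s => R n s * (We n s + W0 α n y0 s + Wx n s)) z) :
    ∃ κ r1 : ℝ, MD α κ r r1 c A We (fun n => W0 α n y0) Wx R := by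
  obtain ⟨κ, rs, hκ, hrs, hW⟩ := target_W0_exp α y0 hα hA.y0_pos (target_near0 α hα)
  have hr1 : 0 < min rs (r / 2) := lt_min hrs (half_pos hA.r_pos)
  refine ⟨κ, min rs (r / 2), ?_⟩
  refine
    { hα := hα
      hκ := hκ
      hc := hA.c_pos
      hr := hA.r_pos
      hr1 := hr1
      hr1' := min_le_right _ _
      A_meas := hA.A_meas
      A_sub := hA.A_sub
      A_loc := hA.A_loc
      We_off := fun n s hs => hA.We_supp n s hs
      We_exp := fun T i j => asm_We_exp hA T i j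
      W0_exp := ?_
      W0_bd := ?_
      Wx_neg := fun N => asm_Wx_neg hA N
      We_cont := ?_
      W0_cont := ?_
      Wx_cont := ?_
      R_cont := ?_
      R_bd := ?_
      R_eq := ?_ }
  · intro T i j
    refine (hW _ hr1 (min_le_left _ _) T i j).congr (Eventually.of_forall fun n σ _ => ?_)
    show (_ • W0 α n y0 (σ / n)) i j = _
    rw [Matrix.smul_apply, smul_eq_mul]
  · refine ⟨C, ?_⟩
    filter_upwards [eventually_ge_atTop 1] with n hn s hs i j
    refine (entry_le_nm _ i j).trans ((hA.W0_bd n hn s hs).trans (le_of_eq ?_))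
    ring
  · filter_upwards [eventually_ge_atTop n0] with n hn i j
    exact contOn_entry (hA.We_cont n hn) i j
  · exact Eventually.of_forall fun n i j => contOn_entry (hA.W0_cont n) i j
  · filter_upwards [eventually_ge_atTop n0] with n hn i j
    exact contOn_entry (hA.Wx_cont n hn) i j
  · filter_upwards [eventually_ge_atTop n0] with n hn i j
    exact contOn_entry (hRc n hn) i j
  · filter_upwards [eventually_ge_atTop n0] with n hn
    obtain ⟨B, hB⟩ := hRb n hn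
    exact ⟨B, fun z hz i j => (entry_le_nm _ i j).trans (hB z hz)⟩
  · filter_upwards [eventually_ge_atTop n0] with n hn z hz
    exact hR n hn z hz

/-- The solutions attached to the recurrence coefficients. -/
theorem freud_R (hα : 1 < α) (hA : Asm α y0 r c C n0 A w We Wx) {p : ℕ → Polynomial ℝ}
    {a : ℕ → ℝ} (hF : IsFreud α p a) : ∃ R : ℕ → ℂ → Mat2,
    (∀ n, n0 ≤ n → ContinuousOn (R n) UH) ∧
    (∀ n, n0 ≤ n → ∃ B : ℝ, ∀ z ∈ UH, nm (R n z) ≤ B) ∧
    (∀ n, n0 ≤ n → ∀ z ∈ UH,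
      R n z = 1 + KK (fun s => R n s * (We n s + W0 α n y0 s + Wx n s)) z) ∧
    (∀ n, n0 ≤ n → 0 < rfreud α a n ∧ rfreud α a n ^ 2 =
      (1 + (4 / Real.pi) * (tot R We (fun n => W0 α n y0) Wx n 0 1).re) *
      (1 + (4 / Real.pi) * (tot R We (fun n => W0 α n y0) Wx n 1 0).re)) := by
  have key : ∀ n : ℕ, ∃ R : ℂ → Mat2, n0 ≤ n → (ContinuousOn R UH ∧
      (∃ B : ℝ, ∀ z ∈ UH, nm (R z) ≤ B) ∧
      (∀ z ∈ UH, R z = 1 + KK (fun s => R s * (We n s + W0 α n y0 s + Wx n s)) z) ∧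
      0 < rfreud α a n ∧ rfreud α a n ^ 2 =
      (1 + (4 / Real.pi) * (IU (fun s => R s * (We n s + W0 α n y0 s + Wx n s)) 0 1).re) *
      (1 + (4 / Real.pi) * (IU (fun s => R s * (We n s + W0 α n y0 s + Wx n s)) 1 0).re)) := by
    intro n
    by_cases hn : n0 ≤ n
    · have hn1 : 1 ≤ n := hA.n0_pos.trans hn
      obtain ⟨ha, P, Q, hP, hQ, hO, hr⟩ := opdata_of_freud α hα p a hF n hn1
      obtain ⟨R, h1, h2, h3, h4⟩ := hA.sol n hn P Q hP hQ hO
      refine ⟨R, fun _ => ⟨h1, h2, h3, ?_, ?_⟩⟩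
      · have hn0 : (0 : ℝ) < n := by exact_mod_cast hn1
        have hC : 0 < Cfreud α := by
          unfold Cfreud
          have g1 := Real.Gamma_pos_of_pos (show 0 < (α + 1) / 2 by linarith)
          have g2 := Real.Gamma_pos_of_pos (show 0 < α / 2 by linarith)
          have g3 := Real.sqrt_pos.2 Real.pi_pos
          positivity
        unfold rfreud
        positivity
      · rw [hr, h4]
        ring
    · exact ⟨0, fun h => absurd h hn⟩
  choose R hR using key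
  refine ⟨R, fun n hn => (hR n hn).1, fun n hn => (hR n hn).2.1, fun n hn => (hR n hn).2.2.1,
    fun n hn => ⟨(hR n hn).2.2.2.1, ?_⟩⟩
  exact (hR n hn).2.2.2.2

end Pool.Agent.FreudM
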