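import Pool.Agent.FreudM.Exp

/-!
# Integration against a fixed kernel preserves expansions
-/

set_option autoImplicit false

open MeasureTheory Filter Topology Set

namespace Pool.Agent.FreudM

variable {X Y : Type*} [MeasurableSpace X] [MeasurableSpace Y]
variable {P : Set (ℕ → ℝ)} {Ω : ℕ → Set X} {Ω' : ℕ → Set Y} {ρ : X → ℝ} {ρ' : Y → ℝ} {T : ℝ}

lemma Sums_growth (hρ : ∀ x, 1 ≤ ρ x) {p : ℕ → X → ℂ} (hp : p ∈ Sums P ρ) (n : ℕ) :
    PolyGrowth ρ (p n) := by
  refine AddSubmonoid.closure_induction (motive := fun p _ => PolyGrowth ρ (p n)) ?_ ?_ ?_ hp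
  · rintro f ⟨s, hs, c, hc, rfl⟩
    exact (PolyGrowth.const (s n : ℂ)).mul hρ hc
  · exact PolyGrowth.const 0
  · rintro p q - - h1 h2
    exact h1.add hρ h2

lemma integrable_of_growth {μ : Measure X} (hρ : ∀ x, 1 ≤ ρ x)
    {h : X → ℝ} (hh : ∀ x, 0 ≤ h x) (hhm : Measurable h)
    {k : X → ℂ} (hk : Measurable k) {K : ℕ}
    (hint : Integrable (fun x => h x * ρ x ^ K * ‖k x‖) μ) {c : X → ℂ} (hc : Measurable c)
    {C : ℝ} (hC : ∀ x, ‖c x‖ ≤ C * ρ x ^ K) :
    Integrable (fun x => (h x : ℂ) * c x * k x) μ := by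
  refine Integrable.mono' (hint.const_mul C) ?_ (Eventually.of_forall fun x => ?_)
  · exact (((Complex.measurable_ofReal.comp hhm).mul hc).mul hk).aestronglyMeasurable
  · have h0 : 0 ≤ ρ x := le_trans zero_le_one (hρ x)
    calc ‖(h x : ℂ) * c x * k x‖ = h x * ‖c x‖ * ‖k x‖ := by
          rw [norm_mul, norm_mul, Complex.norm_real, Real.norm_of_nonneg (hh x)]
      _ ≤ h x * (C * ρ x ^ K) * ‖k x‖ := by
          have := hC x
          have := hh x
          gcongr
      _ = C * (h x * ρ x ^ K * ‖k x‖) := by ring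

/-- Integration against a fixed kernel preserves expansions. -/
theorem ExpTo.integral {μ : Measure X} [SFinite μ] (hρ : ∀ x, 1 ≤ ρ x) (hρ' : ∀ y, 1 ≤ ρ' y)
    {a : ℝ} (hP : Ord P a) {h : X → ℝ} (hh : ∀ x, 0 ≤ h x) (hhm : Measurable h)
    {k : X → Y → ℂ} (hkm : Measurable (Function.uncurry k)) (hΩ : ∀ n, MeasurableSet (Ω n))
    (hint : ∀ K : ℕ, ∃ (C : ℝ) (L : ℕ), ∀ y, Integrable (fun x => h x * ρ x ^ K * ‖k x y‖) μ ∧
      ∫ x, h x * ρ x ^ K * ‖k x y‖ ∂μ ≤ C * ρ' y ^ L)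
    (htail : ∀ K : ℕ, ∃ (C : ℝ) (L : ℕ), ∀ᶠ n : ℕ in atTop, ∀ y ∈ Ω' n,
      ∫ x in (Ω n)ᶜ, h x * ρ x ^ K * ‖k x y‖ ∂μ ≤ C * (n : ℝ) ^ (-(T - a)) * ρ' y ^ L)
    {b : ℕ → X → ℂ} (hb : ExpTo P Ω ρ T b)
    (hbm : ∀ᶠ n : ℕ in atTop, AEStronglyMeasurable (b n) (μ.restrict (Ω n))) :
    ExpTo P Ω' ρ' T (fun n y => ∫ x in Ω n, (h x : ℂ) * b n x * k x y ∂μ) := by
  obtain ⟨p, hp, C, K, hC⟩ := hb
  obtain ⟨A, I, hA0, hA⟩ := Sums_bound hρ hP hp
  obtain ⟨C1, L1, h1⟩ := hint K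
  obtain ⟨C2, L2, h2⟩ := htail I
  have hky : ∀ y, Measurable (fun x => k x y) := fun y =>
    hkm.comp (measurable_id.prodMk measurable_const)
  have hintp : ∀ {q : ℕ → X → ℂ}, q ∈ Sums P ρ → ∀ n y,
      Integrable (fun x => (h x : ℂ) * q n x * k x y) μ := by
    intro q hq n y
    obtain ⟨hqm, D, J, hD⟩ := Sums_growth hρ hq n
    obtain ⟨C3, L3, h3⟩ := hint J
    exact integrable_of_growth hρ hh hhm (hky y) (h3 y).1 hqm hD
  refine ⟨fun n y => ∫ x, (h x : ℂ) * p n x * k x y ∂μ, ?_, |C| * |C1| + A * |C2|, L1 + L2, ?_⟩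
  · refine AddSubmonoid.closure_induction
      (motive := fun p _ => (fun n y => ∫ x, (h x : ℂ) * p n x * k x y ∂μ) ∈ Sums P ρ') ?_ ?_ ?_ hp
    · rintro f ⟨s, hs, c, ⟨hcm, D, J, hD⟩, rfl⟩
      obtain ⟨C3, L3, h3⟩ := hint J
      have hc' : PolyGrowth ρ' (fun y => ∫ x, (h x : ℂ) * c x * k x y ∂μ) := by
        refine ⟨?_, |D| * |C3|, L3, fun y => ?_⟩
        · have hm : Measurable (fun z : X × Y => (h z.1 : ℂ) * c z.1 * k z.1 z.2) :=
            ((Complex.measurable_ofReal.comp (hhm.comp measurable_fst)).mul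
              (hcm.comp measurable_fst)).mul hkm
          exact (hm.stronglyMeasurable.integral_prod_left' (μ := μ)).measurable
        · have h0 : 0 ≤ ρ' y := le_trans zero_le_one (hρ' y)
          calc ‖∫ x, (h x : ℂ) * c x * k x y ∂μ‖
              ≤ ∫ x, ‖(h x : ℂ) * c x * k x y‖ ∂μ := norm_integral_le_integral_norm _
            _ ≤ ∫ x, |D| * (h x * ρ x ^ J * ‖k x y‖) ∂μ := by
                refine integral_mono_of_nonneg (Eventually.of_forall fun x => norm_nonneg _)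
                  ((h3 y).1.const_mul _) (Eventually.of_forall fun x => ?_)
                have hx0 : 0 ≤ ρ x := le_trans zero_le_one (hρ x)
                have e1 : ‖c x‖ ≤ |D| * ρ x ^ J :=
                  (hD x).trans (mul_le_mul_of_nonneg_right (le_abs_self D) (pow_nonneg hx0 _))
                have e2 := hh x
                calc ‖(h x : ℂ) * c x * k x y‖ = h x * ‖c x‖ * ‖k x y‖ := by
                      rw [norm_mul, norm_mul, Complex.norm_real, Real.norm_of_nonneg (hh x)]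
                  _ ≤ h x * (|D| * ρ x ^ J) * ‖k x y‖ := by gcongr
                  _ = |D| * (h x * ρ x ^ J * ‖k x y‖) := by ring
            _ = |D| * ∫ x, h x * ρ x ^ J * ‖k x y‖ ∂μ := integral_const_mul _ _
            _ ≤ |D| * (|C3| * ρ' y ^ L3) := by
                gcongr
                exact (h3 y).2.trans (mul_le_mul_of_nonneg_right (le_abs_self _) (pow_nonneg h0 _))
            _ = |D| * |C3| * ρ' y ^ L3 := by ring
      have := Gen_mem_Sums (P := P) (ρ := ρ') hs hc'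
      convert this using 3 with n y
      rw [← integral_const_mul]
      congr 1
      ext x
      ring
    · simpa using Sums_zero
    · rintro p q hp' hq' h1' h2'
      have := (Sums P ρ').add_mem h1' h2'
      convert this using 3 with n y
      simp only [Pi.add_apply]
      rw [← integral_add (hintp hp' n y) (hintp hq' n y)]
      congr 1
      ext x
      ring
  · filter_upwards [hC, hA, h2, hbm, eventually_ge_atTop 1] with n hn hAn h2n hbn hn1 y hy
    have hy0 : 0 ≤ ρ' y := le_trans zero_le_one (hρ' y)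
    have hn0 : (0 : ℝ) < n := by exact_mod_cast hn1
    have e1 : ∀ t : ℝ, (0 : ℝ) ≤ (n : ℝ) ^ t := fun t => Real.rpow_nonneg hn0.le _
    have ip := hintp hp n y
    -- the difference is integrable on Ω n
    have hnorm : ∀ x ∈ Ω n, ‖(h x : ℂ) * (b n x - p n x) * k x y‖ ≤
        (|C| * (n : ℝ) ^ (-T)) * (h x * ρ x ^ K * ‖k x y‖) := by
      intro x hx
      have hx0 : 0 ≤ ρ x := le_trans zero_le_one (hρ x)
      have e2 := hh x
      have e3 := e1 (-T)
      have e4 : ‖b n x - p n x‖ ≤ |C| * (n : ℝ) ^ (-T) * ρ x ^ K := by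
        refine (hn x hx).trans ?_
        gcongr
        exact le_abs_self C
      calc ‖(h x : ℂ) * (b n x - p n x) * k x y‖ = h x * ‖b n x - p n x‖ * ‖k x y‖ := by
            rw [norm_mul, norm_mul, Complex.norm_real, Real.norm_of_nonneg (hh x)]
        _ ≤ h x * (|C| * (n : ℝ) ^ (-T) * ρ x ^ K) * ‖k x y‖ := by gcongr
        _ = _ := by ring
    have idiff : IntegrableOn (fun x => (h x : ℂ) * (b n x - p n x) * k x y) (Ω n) μ := by
      refine Integrable.mono' (((h1 y).1.integrableOn (s := Ω n)).const_mul (|C| * (n : ℝ) ^ (-T)))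
        ?_ ?_
      · exact (((Complex.measurable_ofReal.comp hhm).aestronglyMeasurable).mul
          (hbn.sub (Sums_measurable hp n).aestronglyMeasurable)).mul
          (hky y).aestronglyMeasurable
      · filter_upwards [ae_restrict_mem (hΩ n)] with x hx using hnorm x hx
    have split1 : ∫ x in Ω n, (h x : ℂ) * b n x * k x y ∂μ =
        ∫ x in Ω n, (h x : ℂ) * (b n x - p n x) * k x y ∂μ +
          ∫ x in Ω n, (h x : ℂ) * p n x * k x y ∂μ := by
      rw [← integral_add idiff ip.integrableOn]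
      congr 1
      ext x
      ring
    have split2 : ∫ x, (h x : ℂ) * p n x * k x y ∂μ =
        ∫ x in Ω n, (h x : ℂ) * p n x * k x y ∂μ + ∫ x in (Ω n)ᶜ, (h x : ℂ) * p n x * k x y ∂μ :=
      (integral_add_compl (hΩ n) ip).symm
    have b1 : ‖∫ x in Ω n, (h x : ℂ) * (b n x - p n x) * k x y ∂μ‖ ≤
        (|C| * (n : ℝ) ^ (-T)) * (|C1| * ρ' y ^ L1) := by
      calc ‖∫ x in Ω n, (h x : ℂ) * (b n x - p n x) * k x y ∂μ‖
          ≤ ∫ x in Ω n, (|C| * (n : ℝ) ^ (-T)) * (h x * ρ x ^ K * ‖k x y‖) ∂μ := by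
            refine norm_integral_le_of_norm_le (((h1 y).1.integrableOn).const_mul _) ?_
            filter_upwards [ae_restrict_mem (hΩ n)] with x hx using hnorm x hx
        _ = (|C| * (n : ℝ) ^ (-T)) * ∫ x in Ω n, (h x * ρ x ^ K * ‖k x y‖) ∂μ :=
            integral_const_mul _ _
        _ ≤ (|C| * (n : ℝ) ^ (-T)) * (|C1| * ρ' y ^ L1) := by
            have e3 := e1 (-T)
            gcongr
            calc ∫ x in Ω n, (h x * ρ x ^ K * ‖k x y‖) ∂μ
                ≤ ∫ x, (h x * ρ x ^ K * ‖k x y‖) ∂μ := by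
                  refine setIntegral_le_integral (h1 y).1 (Eventually.of_forall fun x => ?_)
                  have hx0 : 0 ≤ ρ x := le_trans zero_le_one (hρ x)
                  have e2 := hh x
                  simp only [Pi.zero_apply]
                  positivity
              _ ≤ C1 * ρ' y ^ L1 := (h1 y).2
              _ ≤ |C1| * ρ' y ^ L1 := mul_le_mul_of_nonneg_right (le_abs_self _) (pow_nonneg hy0 _)
    have b2 : ‖∫ x in (Ω n)ᶜ, (h x : ℂ) * p n x * k x y ∂μ‖ ≤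
        (A * (n : ℝ) ^ (-a)) * (|C2| * (n : ℝ) ^ (-(T - a)) * ρ' y ^ L2) := by
      obtain ⟨C3, L3, h3⟩ := hint I
      calc ‖∫ x in (Ω n)ᶜ, (h x : ℂ) * p n x * k x y ∂μ‖
          ≤ ∫ x in (Ω n)ᶜ, (A * (n : ℝ) ^ (-a)) * (h x * ρ x ^ I * ‖k x y‖) ∂μ := by
            refine norm_integral_le_of_norm_le (((h3 y).1.integrableOn).const_mul _) ?_
            refine Eventually.of_forall fun x => ?_
            have hx0 : 0 ≤ ρ x := le_trans zero_le_one (hρ x)
            have e2 := hh x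
            have e3 := hAn x
            calc ‖(h x : ℂ) * p n x * k x y‖ = h x * ‖p n x‖ * ‖k x y‖ := by
                  rw [norm_mul, norm_mul, Complex.norm_real, Real.norm_of_nonneg (hh x)]
              _ ≤ h x * (A * (n : ℝ) ^ (-a) * ρ x ^ I) * ‖k x y‖ := by gcongr
              _ = _ := by ring
        _ = (A * (n : ℝ) ^ (-a)) * ∫ x in (Ω n)ᶜ, (h x * ρ x ^ I * ‖k x y‖) ∂μ :=
            integral_const_mul _ _
        _ ≤ (A * (n : ℝ) ^ (-a)) * (|C2| * (n : ℝ) ^ (-(T - a)) * ρ' y ^ L2) := by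
            have e3 := e1 (-a)
            have e4 := e1 (-(T - a))
            gcongr
            refine (h2n y hy).trans ?_
            gcongr
            exact le_abs_self _
    have key : ∫ x in Ω n, (h x : ℂ) * b n x * k x y ∂μ - ∫ x, (h x : ℂ) * p n x * k x y ∂μ =
        ∫ x in Ω n, (h x : ℂ) * (b n x - p n x) * k x y ∂μ -
          ∫ x in (Ω n)ᶜ, (h x : ℂ) * p n x * k x y ∂μ := by
      rw [split1, split2]; ring
    have hexp : (n : ℝ) ^ (-a) * (n : ℝ) ^ (-(T - a)) = (n : ℝ) ^ (-T) := by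
      rw [← Real.rpow_add hn0]; congr 1; ring
    have r1 : ρ' y ^ L1 ≤ ρ' y ^ (L1 + L2) := pow_le_pow_right₀ (hρ' y) (by omega)
    have r2 : ρ' y ^ L2 ≤ ρ' y ^ (L1 + L2) := pow_le_pow_right₀ (hρ' y) (by omega)
    rw [key]
    calc ‖_ - _‖ ≤ _ := norm_sub_le _ _
      _ ≤ (|C| * (n : ℝ) ^ (-T)) * (|C1| * ρ' y ^ L1) +
          (A * (n : ℝ) ^ (-a)) * (|C2| * (n : ℝ) ^ (-(T - a)) * ρ' y ^ L2) := add_le_add b1 b2
      _ = (|C| * |C1|) * (n : ℝ) ^ (-T) * ρ' y ^ L1 +
          (A * |C2|) * ((n : ℝ) ^ (-a) * (n : ℝ) ^ (-(T - a))) * ρ' y ^ L2 := by ring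
      _ = (|C| * |C1|) * (n : ℝ) ^ (-T) * ρ' y ^ L1 +
          (A * |C2|) * (n : ℝ) ^ (-T) * ρ' y ^ L2 := by rw [hexp]
      _ ≤ (|C| * |C1|) * (n : ℝ) ^ (-T) * ρ' y ^ (L1 + L2) +
          (A * |C2|) * (n : ℝ) ^ (-T) * ρ' y ^ (L1 + L2) := by
          have e3 := e1 (-T)
          gcongr
      _ = _ := by ring

end Pool.Agent.FreudM
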