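import Pool.Agent.FreudM.Int

/-!
# The Cauchy kernel in the plane and its action on expansions
-/

set_option autoImplicit false

open MeasureTheory Filter Topology Set

namespace Pool.Agent.FreudM

lemma integrableOn_inv_ball (R : ℝ) :
    IntegrableOn (fun s : ℂ => ‖s⁻¹‖) (Metric.ball 0 R) := by
  refine integrableOn_ball_of_norm_le_rpow (C := 1) (α := 1) ?_ ?_ ?_ ?_
  · simp
  · simp
  · refine Eventually.of_forall fun x => ?_
    rw [Real.rpow_neg_one, norm_norm, norm_inv, one_mul]
  · exact (measurable_inv.norm).aestronglyMeasurable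

lemma integrable_cube : Integrable (fun s : ℂ => (1 + ‖s‖) ^ (-3 : ℝ)) := by
  refine integrable_one_add_norm ?_
  simp only [Complex.finrank_real_complex]
  norm_num

/-- The integrals of the Cauchy kernel against cubically decaying functions are bounded. -/
theorem kernel_int : ∃ Ck : ℝ, 0 < Ck ∧ ∀ (f : ℂ → ℝ) (M : ℝ), Measurable f →
    (∀ s, 0 ≤ f s) → (∀ s, f s ≤ M * (1 + ‖s‖) ^ (-3 : ℝ)) → ∀ z : ℂ,
      Integrable (fun s => f s * ‖(s - z)⁻¹‖) ∧ ∫ s, f s * ‖(s - z)⁻¹‖ ≤ Ck * M := by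
  set I1 : ℝ := ∫ s : ℂ in Metric.ball 0 1, ‖s⁻¹‖ with hI1
  set I2 : ℝ := ∫ s : ℂ, (1 + ‖s‖) ^ (-3 : ℝ) with hI2
  have hI1' : 0 ≤ I1 := integral_nonneg fun s => norm_nonneg _
  have hI2' : 0 ≤ I2 := integral_nonneg fun s => by positivity
  refine ⟨I1 + I2 + 1, by positivity, fun f M hfm hf0 hfM z => ?_⟩
  have hM0 : 0 ≤ M := by
    have := (hf0 0).trans (hfM 0)
    simpa using this
  have hfM' : ∀ s, f s ≤ M := fun s => by
    refine (hfM s).trans ?_
    have : (1 + ‖s‖) ^ (-3 : ℝ) ≤ 1 := Real.rpow_le_one_of_one_le_of_nonpos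
      (by linarith [norm_nonneg s]) (by norm_num)
    nlinarith
  have htr : IntegrableOn (fun s : ℂ => ‖(s - z)⁻¹‖) (Metric.ball z 1) := by
    have h1 := integrableOn_inv_ball 1
    have h2 : MeasurePreserving (fun s : ℂ => s - z) volume volume :=
      measurePreserving_sub_right volume z
    have h3 := (h2.integrableOn_comp_preimage (Homeomorph.subRight z).measurableEmbedding
      (f := fun s : ℂ => ‖s⁻¹‖) (s := Metric.ball 0 1)).2 h1
    have h4 : (fun s : ℂ => s - z) ⁻¹' Metric.ball 0 1 = Metric.ball z 1 := by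
      ext s; simp [dist_eq_norm]
    rw [h4] at h3
    exact h3
  have htr' : ∫ s : ℂ in Metric.ball z 1, ‖(s - z)⁻¹‖ = I1 := by
    have h2 : MeasurePreserving (fun s : ℂ => s - z) volume volume :=
      measurePreserving_sub_right volume z
    have h3 := h2.setIntegral_preimage_emb (Homeomorph.subRight z).measurableEmbedding
      (fun s : ℂ => ‖s⁻¹‖) (Metric.ball 0 1)
    have h4 : (fun s : ℂ => s - z) ⁻¹' Metric.ball 0 1 = Metric.ball z 1 := by
      ext s; simp [dist_eq_norm]
    rw [h4] at h3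
    exact h3
  set g : ℂ → ℝ := fun s => M * (Metric.ball z 1).indicator (fun s => ‖(s - z)⁻¹‖) s
    + M * (1 + ‖s‖) ^ (-3 : ℝ) with hg
  have hgi : Integrable g :=
    (((integrable_indicator_iff measurableSet_ball).2 htr).const_mul M).add
      (integrable_cube.const_mul M)
  have hle : ∀ s, f s * ‖(s - z)⁻¹‖ ≤ g s := by
    intro s
    have e0 : 0 ≤ M * (1 + ‖s‖) ^ (-3 : ℝ) := by positivity
    by_cases hs : s ∈ Metric.ball z 1
    · simp only [hg, indicator_of_mem hs]
      have := mul_le_mul_of_nonneg_right (hfM' s) (norm_nonneg ((s - z)⁻¹))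
      linarith
    · simp only [hg, indicator_of_notMem hs, mul_zero, zero_add]
      have h1 : 1 ≤ ‖s - z‖ := by
        simpa [dist_eq_norm] using hs
      have h2 : ‖(s - z)⁻¹‖ ≤ 1 := by
        rw [norm_inv]
        exact inv_le_one_of_one_le₀ h1
      have := hf0 s
      have := hfM s
      nlinarith [norm_nonneg ((s - z)⁻¹)]
  have hi : Integrable (fun s => f s * ‖(s - z)⁻¹‖) := by
    refine hgi.mono' ?_ (Eventually.of_forall fun s => ?_)
    · exact (hfm.mul ((measurable_id.sub_const z).inv.norm)).aestronglyMeasurable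
    · rw [Real.norm_of_nonneg (mul_nonneg (hf0 s) (norm_nonneg _))]
      exact hle s
  refine ⟨hi, ?_⟩
  calc ∫ s, f s * ‖(s - z)⁻¹‖ ≤ ∫ s, g s := integral_mono hi hgi hle
    _ = M * I1 + M * I2 := by
        simp only [hg]
        rw [integral_add (((integrable_indicator_iff measurableSet_ball).2 htr).const_mul M)
          (integrable_cube.const_mul M), integral_const_mul, integral_const_mul,
          integral_indicator measurableSet_ball, htr']
    _ ≤ (I1 + I2 + 1) * M := by nlinarith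

/-- Exponential decay beats polynomial growth. -/
lemma exp_growth (κ : ℝ) (hκ : 0 < κ) (K : ℕ) : ∃ C : ℝ, 0 < C ∧ ∀ t : ℝ, 0 ≤ t →
    Real.exp (-(κ * t)) * (1 + t) ^ K ≤ C * (1 + t) ^ (-3 : ℝ) := by
  refine ⟨Real.exp κ * ((K + 3).factorial / κ ^ (K + 3)), by positivity, fun t ht => ?_⟩
  have h1 : (κ * (1 + t)) ^ (K + 3) / (K + 3).factorial ≤ Real.exp (κ * (1 + t)) :=
    Real.pow_div_factorial_le_exp _ (by positivity) _
  have h2 : (1 + t) ^ (K + 3) ≤ ((K + 3).factorial / κ ^ (K + 3)) * Real.exp (κ * (1 + t)) := by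
    rw [mul_pow, div_le_iff₀ (by positivity)] at h1
    rw [div_mul_eq_mul_div, le_div_iff₀ (by positivity)]
    linarith
  have h3 : (1 + t) ^ (-3 : ℝ) = ((1 + t) ^ 3)⁻¹ := by
    rw [Real.rpow_neg (by positivity)]
    norm_cast
  rw [h3, ← div_eq_mul_inv, le_div_iff₀ (by positivity)]
  calc Real.exp (-(κ * t)) * (1 + t) ^ K * (1 + t) ^ 3
      = Real.exp (-(κ * t)) * (1 + t) ^ (K + 3) := by rw [pow_add]; ring
    _ ≤ Real.exp (-(κ * t)) * (((K + 3).factorial / κ ^ (K + 3)) * Real.exp (κ * (1 + t))) := by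
        gcongr
    _ = Real.exp κ * ((K + 3).factorial / κ ^ (K + 3)) := by
        rw [show κ * (1 + t) = κ + κ * t by ring, Real.exp_add, Real.exp_neg]
        field_simp

end Pool.Agent.FreudM
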