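import Pool.Agent.FreudM.Coef
import Pool.Agent.Freud.PertA
import Pool.Agent.Freud.ZeroA

/-!
# The leading oscillating term
-/

set_option autoImplicit false

open MeasureTheory Filter Topology Set

namespace Pool.Agent.FreudM

open Pool.Agent.Freud

variable {α y0 r c C : ℝ} {n0 : ℕ} {A : Set ℂ} {w : ℕ → ℂ → Mat2} {We Wx : ℕ → ℂ → Mat2}
  {R : ℕ → ℂ → Mat2}

lemma re_const_mul (x : ℝ) : ((2 / (Real.pi : ℂ)) * (x : ℂ)).re = 2 / Real.pi * x := by
  have : (2 / (Real.pi : ℂ)) * (x : ℂ) = ((2 / Real.pi * x : ℝ) : ℂ) := by push_cast; rfl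
  rw [this, Complex.ofReal_re]

lemma re_smul_reM (M : Mat2) (i j : Fin 2) :
    (((2 / Real.pi : ℂ) • reM M) i j).re = 2 / Real.pi * (M i j).re := by
  rw [Matrix.smul_apply, smul_eq_mul]
  exact re_const_mul _

/-- The two factors up to the leading oscillating term. -/
lemma entry_lead {δ c' : ℝ} (hα : 1 < α) (hδ : 0 < δ) (hδ' : δ < 1 / 2) (hG : Geo α δ y0 c')
    (hA : Asm α y0 r c C n0 A w We Wx)
    (hRc : ∀ n, n0 ≤ n → ContinuousOn (R n) UH)
    (hRb : ∀ n, n0 ≤ n → ∃ B : ℝ, ∀ z ∈ UH, nm (R n z) ≤ B)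
    (hR : ∀ n, n0 ≤ n → ∀ z ∈ UH,
      R n z = 1 + KK (fun s => R n s * (We n s + W0 α n y0 s + Wx n s)) z) :
    ∃ θ : ℝ, 0 < θ ∧ θ ≤ 1 ∧ ∀ i j : Fin 2, (!![0, 1; 1, 0] : Mat2) i j = 1 →
      ∃ G : Polynomial ℝ, G.eval 0 = 0 ∧
        BO (α + θ) (fun n => (4 / Real.pi) * (tot R We (fun n => W0 α n y0) Wx n i j).re -
          G.eval (1 / (n : ℝ)) - 2 * ((-1) ^ n * (bco α * (n : ℝ) ^ (-α)))) := by
  obtain ⟨D, hD⟩ := perturb_a α y0 r c C hα n0 A w We Wx hA R hRc hRb hR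
  obtain ⟨K, hK⟩ := exists_nat_ge (α + 1)
  obtain ⟨θ1, B, hθ1, n1, hB⟩ := hD K hK
  obtain ⟨θ2, C2, hθ2, hC2⟩ := zero_a α δ y0 c' hα hδ hδ' hG
  refine ⟨min (min θ1 θ2) 1, by positivity, min_le_right _ _, fun i j hij => ?_⟩
  set θ := min (min θ1 θ2) 1 with hθ
  have hθ1' : θ ≤ θ1 := (min_le_left _ _).trans (min_le_left _ _)
  have hθ2' : θ ≤ θ2 := (min_le_left _ _).trans (min_le_right _ _)
  refine ⟨∑ k ∈ Finset.range K, Polynomial.C (2 * (D k i j).re) * Polynomial.X ^ (k + 1), ?_, ?_⟩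
  · rw [Polynomial.eval_finsetSum]
    refine Finset.sum_eq_zero fun k _ => ?_
    simp
  have h1 : BO (α + θ) (fun n => 2 / Real.pi * (tot R We (fun n => W0 α n y0) Wx n i j).re -
      (∑ k ∈ Finset.range K, ((n : ℝ) ^ (k + 1))⁻¹ * (D k i j).re) -
      2 / Real.pi * (IU (W0 α n y0) i j).re) := by
    have : BO (α + θ1) (fun n => 2 / Real.pi * (tot R We (fun n => W0 α n y0) Wx n i j).re -
      (∑ k ∈ Finset.range K, ((n : ℝ) ^ (k + 1))⁻¹ * (D k i j).re) -
      2 / Real.pi * (IU (W0 α n y0) i j).re) := by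
      refine ⟨B, ?_⟩
      filter_upwards [eventually_ge_atTop n1] with n hn
      have h2 := (Complex.abs_re_le_norm _).trans ((entry_le_nm _ i j).trans (hB n hn))
      rw [Matrix.sub_apply, Matrix.sub_apply, Complex.sub_re, Complex.sub_re, re_smul_reM,
        re_smul_reM, Matrix.sum_apply, Complex.re_sum] at h2
      rw [show -(α + θ1) = -α - θ1 by ring]
      refine le_trans (le_of_eq ?_) h2
      congr 1
      congr 1
      congr 1
      refine Finset.sum_congr rfl fun k _ => ?_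
      rw [Matrix.smul_apply, smul_eq_mul]
      have e : (((n : ℂ) ^ (k + 1))⁻¹) = ((((n : ℝ) ^ (k + 1))⁻¹ : ℝ) : ℂ) := by push_cast; rfl
      rw [e, Complex.re_ofReal_mul]
    exact this.mono (by linarith)
  have h2 : BO (α + θ) (fun n => 2 / Real.pi * (IU (W0 α n y0) i j).re -
      (-1) ^ n * (bco α * (n : ℝ) ^ (-α))) := by
    have : BO (α + θ2) (fun n => 2 / Real.pi * (IU (W0 α n y0) i j).re -
      (-1) ^ n * (bco α * (n : ℝ) ^ (-α))) := by
      refine ⟨C2, ?_⟩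
      filter_upwards [eventually_ge_atTop 1] with n hn
      have h2 := (Complex.abs_re_le_norm _).trans ((entry_le_nm _ i j).trans (hC2 n hn))
      rw [Matrix.sub_apply, Complex.sub_re, re_smul_reM, Matrix.smul_apply, smul_eq_mul, hij,
        mul_one, Complex.ofReal_re] at h2
      rw [show -(α + θ2) = -α - θ2 by ring]
      refine le_trans (le_of_eq ?_) h2
      congr 1
      ring
    exact this.mono (by linarith)
  refine ((h1.add h2).const_mul 2).congr (Eventually.of_forall fun n => ?_)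
  rw [Polynomial.eval_finsetSum]
  have e : ∑ k ∈ Finset.range K, Polynomial.eval (1 / (n : ℝ))
      (Polynomial.C (2 * (D k i j).re) * Polynomial.X ^ (k + 1)) =
      2 * ∑ k ∈ Finset.range K, ((n : ℝ) ^ (k + 1))⁻¹ * (D k i j).re := by
    rw [Finset.mul_sum]
    refine Finset.sum_congr rfl fun k _ => ?_
    simp only [Polynomial.eval_mul, Polynomial.eval_C, Polynomial.eval_pow, Polynomial.eval_X]
    rw [one_div, inv_pow]
    ring
  rw [e]
  ring

lemma BO_poly {G : Polynomial ℝ} (hG : G.eval 0 = 0) : BO 1 (fun n => G.eval (1 / (n : ℝ))) := by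
  obtain ⟨H, rfl⟩ : (Polynomial.X : Polynomial ℝ) ∣ G := by
    rw [Polynomial.X_dvd_iff, Polynomial.coeff_zero_eq_eval_zero]
    exact hG
  have h1 : BO 0 (fun n => H.eval (1 / (n : ℝ))) := by
    obtain ⟨M, hM⟩ := (isCompact_closedBall (0 : ℝ) 1).exists_bound_of_continuousOn
      (f := fun t => H.eval t) H.continuous.continuousOn
    refine ⟨M, ?_⟩
    filter_upwards [eventually_ge_atTop 1] with n hn
    have hn1 : (1 : ℝ) ≤ n := by exact_mod_cast hn
    have h2 := hM (1 / (n : ℝ)) (by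
      rw [Metric.mem_closedBall, dist_zero_right, Real.norm_eq_abs, abs_of_nonneg (by positivity)]
      rw [div_le_one (by linarith)]
      exact hn1)
    simpa using h2
  have h3 : BO 1 (fun n => (1 / (n : ℝ))) := by
    refine (BO_rpow 1).congr (Eventually.of_forall fun n => ?_)
    rw [Real.rpow_neg_one, one_div]
  have := h3.mul h1
  simpa using this

/-- The leading oscillating term of the normalised recurrence coefficients. -/
theorem lead_term {δ c' : ℝ} (hα : 1 < α) (hδ : 0 < δ) (hδ' : δ < 1 / 2) (hG : Geo α δ y0 c')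
    (hA : Asm α y0 r c C n0 A w We Wx) {p : ℕ → Polynomial ℝ} {a : ℕ → ℝ}
    (hF : IsFreud α p a) : ∃ (Q : Polynomial ℝ) (θ : ℝ), 0 < θ ∧ Q.eval 0 = 1 ∧
      BO (α + θ) (fun n => rfreud α a n - Q.eval (1 / (n : ℝ)) -
        2 * ((-1) ^ n * (bco α * (n : ℝ) ^ (-α)))) := by
  obtain ⟨R, hRc, hRb, hR, hr⟩ := freud_R hα hA hF
  obtain ⟨θ, hθ, hθ1, hE⟩ := entry_lead hα hδ hδ' hG hA hRc hRb hR
  obtain ⟨G1, hG1, h1⟩ := hE 0 1 (by simp)
  obtain ⟨G2, hG2, h2⟩ := hE 1 0 (by simp)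
  have hl : BO α (fun n => (-1) ^ n * (bco α * (n : ℝ) ^ (-α))) := by
    have := BO_sgn.mul ((BO_rpow α).const_mul (bco α))
    simpa using this
  have h3 := coef_lemma (S := α + θ) (by linarith) (BO_poly hG1) (BO_poly hG2)
    (hl.mono (by linarith)) (hl.mono hα.le) h1 h2
    (r := rfreud α a) (by
      filter_upwards [eventually_ge_atTop n0] with n hn
      exact hr n hn)
  obtain ⟨N, hN⟩ := exists_nat_ge (α + 1)
  obtain ⟨F, D, δ1, hδ1, hF0, -, hF1⟩ := sqrt_approx N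
  set G : Polynomial ℝ := G1 + G2 + G1 * G2 with hGdef
  have hG0 : G.eval 0 = 0 := by simp [hGdef, hG1, hG2]
  have hGB := BO_poly hG0
  have h4 : BO (α + θ) (fun n => √(1 + G.eval (1 / (n : ℝ))) - F.eval (G.eval (1 / (n : ℝ)))) := by
    have h5 : BO (N + 1) (fun n => √(1 + G.eval (1 / (n : ℝ))) -
        F.eval (G.eval (1 / (n : ℝ)))) := by
      have hGs := hGB.small one_pos hδ1
      obtain ⟨C1, hC1⟩ := hGB
      refine ⟨|D| * |C1| ^ (N + 1), ?_⟩
      filter_upwards [hC1, hGs, eventually_ge_atTop 1] with n e1 e2 hn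
      have hn0 : (0 : ℝ) < n := by exact_mod_cast hn
      have e3 : |G.eval (1 / (n : ℝ))| ≤ |C1| * (n : ℝ) ^ (-1 : ℝ) :=
        e1.trans (by gcongr; exact le_abs_self C1)
      calc |√(1 + G.eval (1 / (n : ℝ))) - F.eval (G.eval (1 / (n : ℝ)))|
          ≤ D * |G.eval (1 / (n : ℝ))| ^ (N + 1) := hF1 _ e2
        _ ≤ |D| * (|C1| * (n : ℝ) ^ (-1 : ℝ)) ^ (N + 1) := by
            gcongr
            exact le_abs_self D
        _ = |D| * |C1| ^ (N + 1) * ((n : ℝ) ^ (-1 : ℝ)) ^ (N + 1) := by rw [mul_pow]; ring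
        _ = |D| * |C1| ^ (N + 1) * (n : ℝ) ^ (-((N : ℝ) + 1)) := by
            congr 1
            rw [← Real.rpow_natCast, ← Real.rpow_mul hn0.le]
            congr 1
            push_cast
            ring
    exact h5.mono (by linarith)
  refine ⟨F.comp G, θ, hθ, by rw [Polynomial.eval_comp, hG0, hF0], ?_⟩
  refine (h3.add h4).congr (Eventually.of_forall fun n => ?_)
  have e : G.eval (1 / (n : ℝ)) = G1.eval (1 / (n : ℝ)) + G2.eval (1 / (n : ℝ)) +
      G1.eval (1 / (n : ℝ)) * G2.eval (1 / (n : ℝ)) := by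
    simp [hGdef]
  rw [Polynomial.eval_comp, ← e]
  ring

end Pool.Agent.FreudM
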