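import Pool.Agent.FreudM.Scale

/-!
# The bootstrapped integral equation
-/

set_option autoImplicit false

open MeasureTheory Filter Topology Set

namespace Pool.Agent.FreudM

open Pool.Agent.Freud

/-- Powers `n ^ (-k)` with `k ≥ 1`. -/
def pw1 : Set (ℕ → ℝ) := {s | ∃ k : ℕ, 1 ≤ k ∧ s = fun n : ℕ => (n : ℝ) ^ (-(k : ℝ))}

lemma Ord_pw1 : Ord pw1 1 := by
  rintro s ⟨k, hk, rfl⟩
  refine ⟨1, ?_⟩
  filter_upwards [eventually_ge_atTop 1] with n h1
  have hn0 : (0 : ℝ) < n := by exact_mod_cast h1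
  rw [abs_of_nonneg (Real.rpow_nonneg hn0.le _), one_mul]
  refine Real.rpow_le_rpow_of_exponent_le (by exact_mod_cast h1) ?_
  have : (1 : ℝ) ≤ k := by exact_mod_cast hk
  linarith

/-- The data of the integral equation. -/
structure MD (α κ r r1 c : ℝ) (A : Set ℂ) (We W0 Wx R : ℕ → ℂ → Mat2) : Prop where
  hα : 1 < α
  hκ : 0 < κ
  hc : 0 < c
  hr : 0 < r
  hr1 : 0 < r1
  hr1' : r1 ≤ r / 2
  A_meas : MeasurableSet A
  A_sub : A ⊆ UH
  A_loc : ∀ s ∈ A, r ≤ ‖s‖ ∧ ‖s‖ ≤ 2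
  We_off : ∀ n, ∀ s, s ∉ A → We n s = 0
  We_exp : ∀ (T : ℝ) (i j : Fin 2), ExpTo pw1 (fun _ => A) one1 T (fun n s => We n s i j)
  W0_exp : ∀ (T : ℝ) (i j : Fin 2), ExpTo (Lam α : Set (ℕ → ℝ)) (Om r1) rho1 T
    (fun n σ => (((-1) ^ n * (n : ℝ) ^ (α - 2) * Real.exp (κ * ‖σ‖) : ℝ) : ℂ) * W0 n (σ / n) i j)
  W0_bd : ∃ C : ℝ, ∀ᶠ n : ℕ in atTop, ∀ s ∈ UH, ∀ i j,
    ‖W0 n s i j‖ ≤ C * (n * ‖s‖ ^ (α - 1) * Real.exp (-(c * n * ‖s‖)))
  Wx_neg : ∀ N : ℝ, ∃ C : ℝ, ∀ᶠ n : ℕ in atTop, ∀ s ∈ UH, ∀ i j,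
    ‖Wx n s i j‖ ≤ C * (n : ℝ) ^ (-N) * (1 + ‖s‖) ^ (-3 : ℝ)
  We_cont : ∀ᶠ n : ℕ in atTop, ∀ i j, ContinuousOn (fun s => We n s i j) UH
  W0_cont : ∀ᶠ n : ℕ in atTop, ∀ i j, ContinuousOn (fun s => W0 n s i j) UH
  Wx_cont : ∀ᶠ n : ℕ in atTop, ∀ i j, ContinuousOn (fun s => Wx n s i j) UH
  R_cont : ∀ᶠ n : ℕ in atTop, ∀ i j, ContinuousOn (fun s => R n s i j) UH
  R_bd : ∀ᶠ n : ℕ in atTop, ∃ B : ℝ, ∀ z ∈ UH, ∀ i j, ‖R n z i j‖ ≤ B
  R_eq : ∀ᶠ n : ℕ in atTop, ∀ z ∈ UH,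
    R n z = 1 + KK (fun s => R n s * (We n s + W0 n s + Wx n s)) z

variable {α κ r r1 c : ℝ} {A : Set ℂ} {We W0 Wx R : ℕ → ℂ → Mat2}

/-- Entries of the products. -/
noncomputable def pr (R W : ℕ → ℂ → Mat2) (n : ℕ) (i j : Fin 2) (s : ℂ) : ℂ :=
  R n s i 0 * W n s 0 j + R n s i 1 * W n s 1 j

lemma pr_eq (R W : ℕ → ℂ → Mat2) (n : ℕ) (i j : Fin 2) (s : ℂ) :
    (R n s * W n s) i j = pr R W n i j s := by
  simp [pr, Matrix.mul_apply, Fin.sum_univ_two]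

/-- Uniform boundedness of the annular source. -/
lemma MD.We_bd (h : MD α κ r r1 c A We W0 Wx R) : ∃ C : ℝ, 0 < C ∧ ∀ᶠ n : ℕ in atTop, ∀ s, ∀ i j,
    ‖We n s i j‖ ≤ C * (n : ℝ) ^ (-1 : ℝ) * (1 + ‖s‖) ^ (-3 : ℝ) := by
  have key : ∀ i j : Fin 2, ∃ C : ℝ, 0 < C ∧ ∀ᶠ n : ℕ in atTop, ∀ s ∈ A,
      ‖We n s i j‖ ≤ C * (n : ℝ) ^ (-1 : ℝ) := by
    intro i j
    obtain ⟨p, hp, C, K, hC⟩ := h.We_exp 1 i j
    obtain ⟨D, L, hD0, hD⟩ := Sums_bound one_le_one1 Ord_pw1 hp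
    refine ⟨|C| + D + 1, by positivity, ?_⟩
    filter_upwards [hC, hD] with n h1 h2 s hs
    have e1 : (0 : ℝ) ≤ (n : ℝ) ^ (-1 : ℝ) := Real.rpow_nonneg (Nat.cast_nonneg n) _
    have a1 := h1 s hs
    have a2 := h2 s
    simp only [one1, one_pow, mul_one] at a1 a2
    calc ‖We n s i j‖ = ‖(We n s i j - p n s) + p n s‖ := by ring_nf
      _ ≤ ‖We n s i j - p n s‖ + ‖p n s‖ := norm_add_le _ _
      _ ≤ C * (n : ℝ) ^ (-1 : ℝ) + D * (n : ℝ) ^ (-1 : ℝ) := add_le_add a1 a2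
      _ ≤ (|C| + D + 1) * (n : ℝ) ^ (-1 : ℝ) := by
          have := le_abs_self C
          nlinarith
  choose Cf hCf0 hCf using key
  refine ⟨27 * (Cf 0 0 + Cf 0 1 + Cf 1 0 + Cf 1 1), by
    have := hCf0 0 0; have := hCf0 0 1; have := hCf0 1 0; have := hCf0 1 1; linarith, ?_⟩
  filter_upwards [hCf 0 0, hCf 0 1, hCf 1 0, hCf 1 1] with n h00 h01 h10 h11 s i j
  have e1 : (0 : ℝ) ≤ (n : ℝ) ^ (-1 : ℝ) := Real.rpow_nonneg (Nat.cast_nonneg n) _
  have p00 := hCf0 0 0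
  have p01 := hCf0 0 1
  have p10 := hCf0 1 0
  have p11 := hCf0 1 1
  by_cases hs : s ∈ A
  · have h2 := (h.A_loc s hs).2
    have h3 : (1 : ℝ) ≤ 27 * (1 + ‖s‖) ^ (-3 : ℝ) := by
      have := indicator_le_cube (A := A) (fun s hs => (h.A_loc s hs).2) s
      rwa [indicator_of_mem hs] at this
    have h4 : ‖We n s i j‖ ≤ (Cf 0 0 + Cf 0 1 + Cf 1 0 + Cf 1 1) * (n : ℝ) ^ (-1 : ℝ) := by
      fin_cases i <;> fin_cases j
      · refine (h00 s hs).trans ?_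
        gcongr
        linarith
      · refine (h01 s hs).trans ?_
        gcongr
        linarith
      · refine (h10 s hs).trans ?_
        gcongr
        linarith
      · refine (h11 s hs).trans ?_
        gcongr
        linarith
    calc ‖We n s i j‖ ≤ (Cf 0 0 + Cf 0 1 + Cf 1 0 + Cf 1 1) * (n : ℝ) ^ (-1 : ℝ) * 1 := by
          rw [mul_one]; exact h4
      _ ≤ (Cf 0 0 + Cf 0 1 + Cf 1 0 + Cf 1 1) * (n : ℝ) ^ (-1 : ℝ) *
          (27 * (1 + ‖s‖) ^ (-3 : ℝ)) := by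
          gcongr
      _ = _ := by ring
  · rw [h.We_off n s hs]
    simp only [Matrix.zero_apply, norm_zero]
    positivity

/-- Integrability and size of the products against the Cauchy kernel. -/
lemma MD.parts (h : MD α κ r r1 c A We W0 Wx R) : ∃ ε : ℕ → ℝ, Tendsto ε atTop (𝓝 0) ∧
    ∀ᶠ n : ℕ in atTop, ∀ B : ℝ, (∀ z ∈ UH, ∀ i j, ‖R n z i j‖ ≤ B) → ∀ i j, ∀ z : ℂ,
      IntegrableOn (fun s => pr R We n i j s * (s - z)⁻¹) UH ∧
      IntegrableOn (fun s => pr R W0 n i j s * (s - z)⁻¹) UH ∧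
      IntegrableOn (fun s => pr R Wx n i j s * (s - z)⁻¹) UH ∧
      ‖∫ s in UH, pr R We n i j s * (s - z)⁻¹‖ ≤ B * ε n ∧
      ‖∫ s in UH, pr R W0 n i j s * (s - z)⁻¹‖ ≤ B * ε n ∧
      ‖∫ s in UH, pr R Wx n i j s * (s - z)⁻¹‖ ≤ B * ε n := by
  obtain ⟨Ck, hCk, hk⟩ := JI_bound
  obtain ⟨C1, hC1, h1⟩ := h.We_bd
  obtain ⟨C2, h2⟩ := h.W0_bd
  obtain ⟨C3, h3⟩ := h.Wx_neg 1
  obtain ⟨D, hD, h4⟩ := zero_kernel α c h.hα h.hc
  have hUHo : Complex.I ∈ UH := by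
    show 0 < Complex.I.im
    simp
  refine ⟨fun n => 2 * C1 * Ck * (n : ℝ) ^ (-1 : ℝ) + 2 * |C2| * D * (n : ℝ) ^ (-(α - 1)) +
    2 * |C3| * Ck * (n : ℝ) ^ (-1 : ℝ), ?_, ?_⟩
  · have t1 : Tendsto (fun n : ℕ => (n : ℝ) ^ (-1 : ℝ)) atTop (𝓝 0) :=
      (tendsto_rpow_neg_atTop one_pos).comp tendsto_natCast_atTop_atTop
    have t2 : Tendsto (fun n : ℕ => (n : ℝ) ^ (-(α - 1))) atTop (𝓝 0) :=
      (tendsto_rpow_neg_atTop (by linarith [h.hα])).comp tendsto_natCast_atTop_atTop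
    have := ((t1.const_mul (2 * C1 * Ck)).add (t2.const_mul (2 * |C2| * D))).add
      (t1.const_mul (2 * |C3| * Ck))
    simpa using this
  · filter_upwards [h1, h2, h3, h.We_cont, h.W0_cont, h.Wx_cont, h.R_cont,
      eventually_ge_atTop 1] with n hn1 hn2 hn3 c1 c2 c3 cR hn B hB i j z
    have hB0 : 0 ≤ B := (norm_nonneg _).trans (hB Complex.I hUHo 0 0)
    have e1 : ∀ t : ℝ, (0 : ℝ) ≤ (n : ℝ) ^ t := fun t => Real.rpow_nonneg (Nat.cast_nonneg n) _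
    have hcont : ∀ W : ℕ → ℂ → Mat2, (∀ i j, ContinuousOn (fun s => W n s i j) UH) →
        AEStronglyMeasurable (fun s => pr R W n i j s) (volume.restrict UH) := by
      intro W hW
      refine ContinuousOn.aestronglyMeasurable ?_ measurableSet_UH'
      exact ((cR i 0).mul (hW 0 j)).add ((cR i 1).mul (hW 1 j))
    have hpr : ∀ (W : ℕ → ℂ → Mat2) (g : ℂ → ℝ), (∀ s ∈ UH, ∀ i j, ‖W n s i j‖ ≤ g s) →
        ∀ s ∈ UH, ‖pr R W n i j s‖ ≤ 2 * B * g s := by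
      intro W g hg s hs
      have g0 : 0 ≤ g s := (norm_nonneg _).trans (hg s hs 0 0)
      calc ‖pr R W n i j s‖ ≤ ‖R n s i 0 * W n s 0 j‖ + ‖R n s i 1 * W n s 1 j‖ :=
            norm_add_le _ _
        _ = ‖R n s i 0‖ * ‖W n s 0 j‖ + ‖R n s i 1‖ * ‖W n s 1 j‖ := by
            rw [norm_mul, norm_mul]
        _ ≤ B * g s + B * g s := by
            have b1 := hB s hs i 0
            have b2 := hB s hs i 1
            have b3 := hg s hs 0 j
            have b4 := hg s hs 1 j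
            gcongr
        _ = 2 * B * g s := by ring
    obtain ⟨i1, b1⟩ := hk UH (fun s => pr R We n i j s) (2 * B * (C1 * (n : ℝ) ^ (-1 : ℝ)))
      measurableSet_UH' (by have := e1 (-1); positivity) (hcont We c1) (fun s hs => by
        refine (hpr We (fun s => C1 * (n : ℝ) ^ (-1 : ℝ) * (1 + ‖s‖) ^ (-3 : ℝ))
          (fun s _ i j => hn1 s i j) s hs).trans (le_of_eq ?_)
        ring) z
    obtain ⟨i3, b3⟩ := hk UH (fun s => pr R Wx n i j s) (2 * B * (|C3| * (n : ℝ) ^ (-1 : ℝ)))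
      measurableSet_UH' (by have := e1 (-1); positivity) (hcont Wx c3) (fun s hs => by
        refine (hpr Wx (fun s => |C3| * (n : ℝ) ^ (-1 : ℝ) * (1 + ‖s‖) ^ (-3 : ℝ))
          (fun s hs i j => ?_) s hs).trans (le_of_eq ?_)
        · refine (hn3 s hs i j).trans ?_
          have := e1 (-1)
          gcongr
          exact le_abs_self C3
        · ring) z
    obtain ⟨i0, b0⟩ := h4 n hn z
    have hle : ∀ s ∈ UH, ‖pr R W0 n i j s * (s - z)⁻¹‖ ≤ (2 * B * |C2|) *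
        ((n : ℝ) * ‖s‖ ^ (α - 1) * Real.exp (-(c * n * ‖s‖)) * ‖(s - z)⁻¹‖) := by
      intro s hs
      have := hpr W0 (fun s => |C2| * ((n : ℝ) * ‖s‖ ^ (α - 1) * Real.exp (-(c * n * ‖s‖))))
        (fun s hs i j => by
          refine (hn2 s hs i j).trans ?_
          gcongr
          exact le_abs_self C2) s hs
      rw [norm_mul]
      calc ‖pr R W0 n i j s‖ * ‖(s - z)⁻¹‖ ≤ (2 * B * (|C2| * ((n : ℝ) * ‖s‖ ^ (α - 1) *
            Real.exp (-(c * n * ‖s‖))))) * ‖(s - z)⁻¹‖ :=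
            mul_le_mul_of_nonneg_right this (norm_nonneg _)
        _ = _ := by ring
    have i2 : IntegrableOn (fun s => pr R W0 n i j s * (s - z)⁻¹) UH := by
      refine Integrable.mono' ((i0.const_mul (2 * B * |C2|)).integrableOn (s := UH))
        ((hcont W0 c2).mul ((measurable_id.sub_const z).inv).aestronglyMeasurable) ?_
      filter_upwards [ae_restrict_mem measurableSet_UH'] with s hs using hle s hs
    have b2 : ‖∫ s in UH, pr R W0 n i j s * (s - z)⁻¹‖ ≤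
        (2 * B * |C2|) * (D * (n : ℝ) ^ (-(α - 1))) := by
      calc ‖∫ s in UH, pr R W0 n i j s * (s - z)⁻¹‖
          ≤ ∫ s in UH, (2 * B * |C2|) *
            ((n : ℝ) * ‖s‖ ^ (α - 1) * Real.exp (-(c * n * ‖s‖)) * ‖(s - z)⁻¹‖) := by
            refine norm_integral_le_of_norm_le (i0.const_mul _).integrableOn ?_
            filter_upwards [ae_restrict_mem measurableSet_UH'] with s hs using hle s hs
        _ ≤ ∫ s, (2 * B * |C2|) *
            ((n : ℝ) * ‖s‖ ^ (α - 1) * Real.exp (-(c * n * ‖s‖)) * ‖(s - z)⁻¹‖) := by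
            refine setIntegral_le_integral (i0.const_mul _) (Eventually.of_forall fun s => ?_)
            simp only [Pi.zero_apply]
            positivity
        _ ≤ _ := by
            rw [integral_const_mul]
            gcongr
    have p1 := e1 (-1)
    have p2 := e1 (-(α - 1))
    have q1 : 0 ≤ 2 * C1 * Ck * (n : ℝ) ^ (-1 : ℝ) := by positivity
    have q2 : 0 ≤ 2 * |C2| * D * (n : ℝ) ^ (-(α - 1)) := by positivity
    have q3 : 0 ≤ 2 * |C3| * Ck * (n : ℝ) ^ (-1 : ℝ) := by positivity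
    refine ⟨i1, i2, i3, b1.trans ?_, b2.trans ?_, b3.trans ?_⟩
    · nlinarith [mul_nonneg hB0 q2, mul_nonneg hB0 q3]
    · nlinarith [mul_nonneg hB0 q1, mul_nonneg hB0 q3]
    · nlinarith [mul_nonneg hB0 q1, mul_nonneg hB0 q2]

/-- The Cauchy integrals of the three parts. -/
noncomputable def Jall (R We W0 Wx : ℕ → ℂ → Mat2) (n : ℕ) (i j : Fin 2) (z : ℂ) : ℂ :=
  (∫ s in UH, pr R We n i j s * (s - z)⁻¹) + (∫ s in UH, pr R W0 n i j s * (s - z)⁻¹) +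
    ∫ s in UH, pr R Wx n i j s * (s - z)⁻¹

/-- The integral equation in terms of the Cauchy integrals. -/
lemma MD.eqn (h : MD α κ r r1 c A We W0 Wx R) : ∀ᶠ n : ℕ in atTop, ∀ z ∈ UH, ∀ i j,
    R n z i j = (1 : Mat2) i j - (1 / (Real.pi : ℂ)) *
      (Jall R We W0 Wx n i j z + (starRingEnd ℂ) (Jall R We W0 Wx n i j ((starRingEnd ℂ) z))) := by
  obtain ⟨ε, hε, hp⟩ := h.parts
  filter_upwards [hp, h.R_bd, h.R_eq] with n hpn ⟨B, hB⟩ hR z hz i j
  have key : ∀ w : ℂ, IntegrableOn (fun s => (R n s * (We n s + W0 n s + Wx n s)) i j *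
      (s - w)⁻¹) UH ∧ JI (fun s => (R n s * (We n s + W0 n s + Wx n s)) i j) w =
      Jall R We W0 Wx n i j w := by
    intro w
    obtain ⟨i1, i2, i3, -, -, -⟩ := hpn B hB i j w
    have e : ∀ s, (R n s * (We n s + W0 n s + Wx n s)) i j * (s - w)⁻¹ =
        pr R We n i j s * (s - w)⁻¹ + pr R W0 n i j s * (s - w)⁻¹ +
          pr R Wx n i j s * (s - w)⁻¹ := by
      intro s
      simp only [pr, Matrix.mul_apply, Fin.sum_univ_two, Matrix.add_apply]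
      ring
    have i12 : IntegrableOn (fun s => pr R We n i j s * (s - w)⁻¹ +
        pr R W0 n i j s * (s - w)⁻¹) UH := i1.add i2
    have i123 : IntegrableOn (fun s => pr R We n i j s * (s - w)⁻¹ +
        pr R W0 n i j s * (s - w)⁻¹ + pr R Wx n i j s * (s - w)⁻¹) UH := i12.add i3
    unfold JI Jall
    simp only [e]
    exact ⟨i123, by rw [integral_add i12 i3, integral_add i1 i2]⟩
  rw [hR z hz, Matrix.add_apply]
  unfold KK
  rw [KS_eq (key z).1 (key _).1, (key z).2, (key _).2]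
  ring

/-- The solution is uniformly bounded. -/
lemma MD.R_unif (h : MD α κ r r1 c A We W0 Wx R) : ∀ᶠ n : ℕ in atTop, ∀ z ∈ UH, ∀ i j,
    ‖R n z i j‖ ≤ 2 := by
  obtain ⟨ε, hε, hp⟩ := h.parts
  have hε' : ∀ᶠ n : ℕ in atTop, ε n ≤ 1 / 4 := hε.eventually (ge_mem_nhds (by norm_num))
  filter_upwards [hp, h.R_bd, h.eqn, hε'] with n hpn ⟨B, hB⟩ heq hεn
  have hUHo : Complex.I ∈ UH := by
    show 0 < Complex.I.im
    simp
  have hB0 : 0 ≤ B := (norm_nonneg _).trans (hB Complex.I hUHo 0 0)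
  have step : ∀ B' : ℝ, (∀ z ∈ UH, ∀ i j, ‖R n z i j‖ ≤ B') →
      ∀ z ∈ UH, ∀ i j, ‖R n z i j‖ ≤ 1 + B' / 2 := by
    intro B' hB' z hz i j
    have hB'0 : 0 ≤ B' := (norm_nonneg _).trans (hB' Complex.I hUHo 0 0)
    have hJ : ∀ w : ℂ, ‖Jall R We W0 Wx n i j w‖ ≤ 3 * (B' / 4) := by
      intro w
      obtain ⟨-, -, -, b1, b2, b3⟩ := hpn B' hB' i j w
      have : B' * ε n ≤ B' / 4 := by nlinarith
      unfold Jall
      calc ‖_ + _ + _‖ ≤ _ := norm_add₃_le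
        _ ≤ B' * ε n + B' * ε n + B' * ε n := add_le_add (add_le_add b1 b2) b3
        _ ≤ _ := by linarith
    rw [heq z hz i j]
    have h1 : ‖(1 : Mat2) i j‖ ≤ 1 := by
      fin_cases i <;> fin_cases j <;> simp
    have h2 : ‖(1 / (Real.pi : ℂ)) * (Jall R We W0 Wx n i j z +
        (starRingEnd ℂ) (Jall R We W0 Wx n i j ((starRingEnd ℂ) z)))‖ ≤ B' / 2 := by
      rw [norm_mul, norm_div, norm_one, Complex.norm_real, Real.norm_of_nonneg Real.pi_pos.le]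
      have h3 : ‖Jall R We W0 Wx n i j z +
          (starRingEnd ℂ) (Jall R We W0 Wx n i j ((starRingEnd ℂ) z))‖ ≤ 3 / 2 * B' := by
        refine (norm_add_le _ _).trans ?_
        rw [RCLike.norm_conj]
        have := hJ z
        have := hJ ((starRingEnd ℂ) z)
        linarith
      have h4 : 1 / Real.pi ≤ 1 / 3 := by
        apply one_div_le_one_div_of_le (by norm_num) Real.pi_gt_three.le
      calc 1 / Real.pi * ‖Jall R We W0 Wx n i j z +
          (starRingEnd ℂ) (Jall R We W0 Wx n i j ((starRingEnd ℂ) z))‖ ≤ 1 / 3 * (3 / 2 * B') := by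
            gcongr
        _ = B' / 2 := by ring
    calc ‖(1 : Mat2) i j - _‖ ≤ _ := norm_sub_le _ _
      _ ≤ 1 + B' / 2 := add_le_add h1 h2
  have iter : ∀ k : ℕ, ∀ z ∈ UH, ∀ i j, ‖R n z i j‖ ≤ 2 + B * (1 / 2) ^ k := by
    intro k
    induction k with
    | zero => intro z hz i j; have := hB z hz i j; simp; linarith
    | succ k ih =>
      intro z hz i j
      refine (step _ ih z hz i j).trans (le_of_eq ?_)
      rw [pow_succ]; ring
  intro z hz i j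
  have ht : Tendsto (fun k : ℕ => 2 + B * (1 / 2 : ℝ) ^ k) atTop (𝓝 (2 + B * 0)) :=
    (tendsto_const_nhds).add ((tendsto_pow_atTop_nhds_zero_of_lt_one (by norm_num)
      (by norm_num)).const_mul B)
  rw [mul_zero, add_zero] at ht
  exact ge_of_tendsto' ht fun k => iter k z hz i j

/-! ### Expansion of the Cauchy integrals -/

lemma ExpTo.comp {X Y : Type*} [MeasurableSpace X] [MeasurableSpace Y] {P : Set (ℕ → ℝ)}
    {Ω : ℕ → Set Y} {Ω' : ℕ → Set X} {ρ : Y → ℝ} {ρ' : X → ℝ} {T : ℝ} {u : ℕ → Y → ℂ}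
    (hu : ExpTo P Ω ρ T u) {φ : X → Y} (hφ : Measurable φ) (hρ : ∀ x, ρ (φ x) = ρ' x)
    (hΩ : ∀ᶠ n : ℕ in atTop, ∀ x ∈ Ω' n, φ x ∈ Ω n) : ExpTo P Ω' ρ' T (fun n x => u n (φ x)) := by
  obtain ⟨p, hp, C, K, hC⟩ := hu
  refine ⟨fun n x => p n (φ x), ?_, C, K, ?_⟩
  · refine AddSubmonoid.closure_induction
      (motive := fun p _ => (fun n x => p n (φ x)) ∈ Sums P ρ') ?_ ?_ ?_ hp
    · rintro f ⟨s, hs, c, ⟨hcm, D, L, hD⟩, rfl⟩
      exact Gen_mem_Sums hs ⟨hcm.comp hφ, D, L, fun x => by rw [← hρ x]; exact hD (φ x)⟩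
    · exact Sums_zero
    · rintro p q - - h1 h2
      exact (Sums P ρ').add_mem h1 h2
  · filter_upwards [hC, hΩ] with n h1 h2 x hx
    rw [← hρ x]
    exact h1 (φ x) (h2 x hx)

lemma ExpTo.const_mul {X : Type*} [MeasurableSpace X] {P : Set (ℕ → ℝ)} {Ω : ℕ → Set X}
    {ρ : X → ℝ} {T : ℝ} (hρ : ∀ x, 1 ≤ ρ x) {u : ℕ → X → ℂ} (hu : ExpTo P Ω ρ T u) (a : ℂ) :
    ExpTo P Ω ρ T (fun n x => a * u n x) := by
  have := hu.gen_mul (Q := P) hρ (s := fun _ => 1) (a := 0)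
    ⟨1, Eventually.of_forall fun n => by simp⟩ (c := fun _ => a) (PolyGrowth.const a)
    (fun p hp => by simpa using hp)
  simpa using this

/-- The negligible part of the Cauchy integral. -/
lemma MD.neg_part (h : MD α κ r r1 c A We W0 Wx R) (N : ℝ) : ∃ C : ℝ, 0 ≤ C ∧
    ∀ᶠ n : ℕ in atTop, ∀ i j, ∀ z : ℂ,
      ‖Jall R We W0 Wx n i j z - (∫ s in A, pr R We n i j s * (s - z)⁻¹) -
        ∫ s in Om r1 1, pr R W0 n i j s * (s - z)⁻¹‖ ≤ C * (n : ℝ) ^ (-N) := by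
  obtain ⟨Ck, hCk, hk⟩ := JI_bound
  obtain ⟨ε, hε, hp⟩ := h.parts
  obtain ⟨C2, h2⟩ := h.W0_bd
  obtain ⟨C3, h3⟩ := h.Wx_neg N
  obtain ⟨K, hK⟩ := exists_nat_ge (α - 1)
  have hc := h.hc
  obtain ⟨C4, hC40, hC4⟩ := exp_growth (c / 2) (half_pos hc) K
  obtain ⟨C5, hC50, hC5⟩ := exp_le_pow (c / 2 * r1) (by have := h.hr1; positivity) (N + 1)
  refine ⟨Ck * (4 * |C3|) + Ck * (4 * (|C2| * (C5 * C4))), by positivity, ?_⟩
  filter_upwards [hp, h2, h3, hC5, h.R_unif, h.We_cont, h.W0_cont, h.Wx_cont, h.R_cont,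
    eventually_ge_atTop 1] with n hpn hn2 hn3 hn5 hR c1 c2 c3 cR hn i j z
  obtain ⟨i1, i2, i3, -, -, -⟩ := hpn 2 hR i j z
  have hn0 : (0 : ℝ) < n := by exact_mod_cast hn
  have e1 : ∀ t : ℝ, (0 : ℝ) ≤ (n : ℝ) ^ t := fun t => Real.rpow_nonneg (Nat.cast_nonneg n) _
  have hcont : ∀ W : ℕ → ℂ → Mat2, (∀ i j, ContinuousOn (fun s => W n s i j) UH) →
      AEStronglyMeasurable (fun s => pr R W n i j s) (volume.restrict UH) := by
    intro W hW
    refine ContinuousOn.aestronglyMeasurable ?_ measurableSet_UH'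
    exact ((cR i 0).mul (hW 0 j)).add ((cR i 1).mul (hW 1 j))
  have hpr : ∀ (W : ℕ → ℂ → Mat2) (s : ℂ) (g : ℝ), s ∈ UH → (∀ i j, ‖W n s i j‖ ≤ g) →
      ‖pr R W n i j s‖ ≤ 4 * g := by
    intro W s g hs hg
    have g0 : 0 ≤ g := (norm_nonneg _).trans (hg 0 0)
    calc ‖pr R W n i j s‖ ≤ ‖R n s i 0 * W n s 0 j‖ + ‖R n s i 1 * W n s 1 j‖ :=
          norm_add_le _ _
      _ = ‖R n s i 0‖ * ‖W n s 0 j‖ + ‖R n s i 1‖ * ‖W n s 1 j‖ := by
          rw [norm_mul, norm_mul]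
      _ ≤ 2 * g + 2 * g := by
          have b1 := hR s hs i 0
          have b2 := hR s hs i 1
          have b3 := hg 0 j
          have b4 := hg 1 j
          gcongr
      _ = 4 * g := by ring
  -- annular part
  have E1 : ∫ s in UH, pr R We n i j s * (s - z)⁻¹ = ∫ s in A, pr R We n i j s * (s - z)⁻¹ := by
    refine setIntegral_eq_of_subset_of_forall_sdiff_eq_zero measurableSet_UH' h.A_sub
      fun s hs => ?_
    simp [pr, h.We_off n s hs.2]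
  -- origin part
  have hsub : Om r1 1 ⊆ UH := fun s hs => hs.1
  have E2 : ∫ s in UH, pr R W0 n i j s * (s - z)⁻¹ = (∫ s in Om r1 1,
      pr R W0 n i j s * (s - z)⁻¹) + ∫ s in UH \ Om r1 1, pr R W0 n i j s * (s - z)⁻¹ := by
    rw [← setIntegral_union disjoint_sdiff_right (measurableSet_UH'.diff (measurableSet_Om r1 1))
      (i2.mono_set hsub) (i2.mono_set sdiff_subset), union_sdiff_cancel hsub]
  have b3 := (hk UH (fun s => pr R Wx n i j s) (4 * |C3| * (n : ℝ) ^ (-N)) measurableSet_UH'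
    (by have := e1 (-N); positivity) (hcont Wx c3) (fun s hs => by
      have := hpr Wx s (|C3| * (n : ℝ) ^ (-N) * (1 + ‖s‖) ^ (-3 : ℝ)) hs (fun i j => by
        refine (hn3 s hs i j).trans ?_
        have := e1 (-N)
        gcongr
        exact le_abs_self C3)
      refine this.trans (le_of_eq ?_)
      ring) z).2
  have b2 := (hk (UH \ Om r1 1) (fun s => pr R W0 n i j s)
    (4 * (|C2| * (C5 * C4)) * (n : ℝ) ^ (-N)) (measurableSet_UH'.diff (measurableSet_Om r1 1))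
    (by have := e1 (-N); positivity)
    ((hcont W0 c2).mono_measure (Measure.restrict_mono sdiff_subset le_rfl)) (fun s hs => by
      have hsr : r1 < ‖s‖ := by
        by_contra hcon
        refine hs.2 ⟨hs.1, ?_⟩
        simpa using not_lt.1 hcon
      have hs0 := norm_nonneg s
      have g1 : ‖s‖ ^ (α - 1) ≤ (1 + ‖s‖) ^ K := by
        calc ‖s‖ ^ (α - 1) ≤ (1 + ‖s‖) ^ (α - 1) :=
              Real.rpow_le_rpow hs0 (by linarith) (by linarith [h.hα])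
          _ ≤ (1 + ‖s‖) ^ (K : ℝ) := Real.rpow_le_rpow_of_exponent_le (by linarith) hK
          _ = (1 + ‖s‖) ^ K := Real.rpow_natCast _ _
      have g2 : Real.exp (-(c * n * ‖s‖)) ≤ Real.exp (-(c / 2 * r1 * n)) *
          Real.exp (-(c / 2 * ‖s‖)) := by
        rw [← Real.exp_add]
        apply Real.exp_le_exp.2
        have hn1 : (1 : ℝ) ≤ n := by exact_mod_cast hn
        have a1 : c / 2 * r1 * n ≤ c / 2 * ‖s‖ * n := by gcongr
        have a2 : c / 2 * ‖s‖ * 1 ≤ c / 2 * ‖s‖ * n := by gcongr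
        nlinarith
      have g3 : (n : ℝ) * ‖s‖ ^ (α - 1) * Real.exp (-(c * n * ‖s‖)) ≤
          (C5 * C4) * (n : ℝ) ^ (-N) * (1 + ‖s‖) ^ (-3 : ℝ) := by
        have a3 := hC4 ‖s‖ hs0
        have a4 : (n : ℝ) * (n : ℝ) ^ (-(N + 1)) = (n : ℝ) ^ (-N) := by
          nth_rewrite 1 [← Real.rpow_one (n : ℝ)]
          rw [← Real.rpow_add hn0]
          congr 1
          ring
        calc (n : ℝ) * ‖s‖ ^ (α - 1) * Real.exp (-(c * n * ‖s‖))
            ≤ (n : ℝ) * (1 + ‖s‖) ^ K * (Real.exp (-(c / 2 * r1 * n)) *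
              Real.exp (-(c / 2 * ‖s‖))) := by gcongr
          _ = (n : ℝ) * Real.exp (-(c / 2 * r1 * n)) *
              (Real.exp (-(c / 2 * ‖s‖)) * (1 + ‖s‖) ^ K) := by ring
          _ ≤ (n : ℝ) * (C5 * (n : ℝ) ^ (-(N + 1))) * (C4 * (1 + ‖s‖) ^ (-3 : ℝ)) := by gcongr
          _ = (C5 * C4) * ((n : ℝ) * (n : ℝ) ^ (-(N + 1))) * (1 + ‖s‖) ^ (-3 : ℝ) := by ring
          _ = _ := by rw [a4]
      have := hpr W0 s (|C2| * ((C5 * C4) * (n : ℝ) ^ (-N) * (1 + ‖s‖) ^ (-3 : ℝ))) hs.1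
        (fun i j => by
          refine (hn2 s hs.1 i j).trans ?_
          calc C2 * ((n : ℝ) * ‖s‖ ^ (α - 1) * Real.exp (-(c * n * ‖s‖)))
              ≤ |C2| * ((n : ℝ) * ‖s‖ ^ (α - 1) * Real.exp (-(c * n * ‖s‖))) := by
                gcongr
                exact le_abs_self C2
            _ ≤ _ := by gcongr)
      refine this.trans (le_of_eq ?_)
      ring) z).2
  have key : Jall R We W0 Wx n i j z - (∫ s in A, pr R We n i j s * (s - z)⁻¹) -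
      (∫ s in Om r1 1, pr R W0 n i j s * (s - z)⁻¹) =
      (∫ s in UH, pr R Wx n i j s * (s - z)⁻¹) +
        ∫ s in UH \ Om r1 1, pr R W0 n i j s * (s - z)⁻¹ := by
    unfold Jall
    rw [E1, E2]
    ring
  rw [key]
  refine (norm_add_le _ _).trans ((add_le_add b3 b2).trans (le_of_eq ?_))
  ring

end Pool.Agent.FreudM
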