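import Pool.Agent.FreudM.Lead
import Pool.Agent.FreudM.ExpEB

/-!
# The full expansion when `α` is not an odd integer
-/

set_option autoImplicit false

open MeasureTheory Filter Topology Set
open scoped Pointwise

namespace Pool.Agent.FreudM

open Pool.Agent.Freud

variable {α y0 r c C : ℝ} {n0 : ℕ} {A : Set ℂ} {w : ℕ → ℂ → Mat2} {We Wx : ℕ → ℂ → Mat2}
  {R : ℕ → ℂ → Mat2}

lemma ord_singleton {s : ℕ → ℝ} {a : ℝ} (h : BO a s) : Ord {s} a := by
  rintro t rfl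
  exact h

lemma Ord.bo {P : Set (ℕ → ℝ)} {a : ℝ} (h : Ord P a) {s : ℕ → ℝ} (hs : s ∈ P) : BO a s := h s hs

lemma BO_sInv : BO 1 sInv := BO_rpow 1

lemma BO_sA (α : ℝ) : BO α (sA α) := BO_rpow α

lemma BO_osc (α : ℝ) : BO α (osc α) := by
  have := BO_sgn.mul (BO_rpow α)
  rw [zero_add] at this
  exact this

lemma BO_Lam (hα : 1 < α) {l : ℕ → ℝ} (hl : l ∈ Lam α) : BO 0 l := Ord_Lam hα l hl

lemma JD_sub_PA (hα : 1 < α) {s : ℕ → ℝ} (hs : s ∈ JD α) : s ∈ PA α := by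
  rcases hs with ⟨p, hp, rfl⟩ | ⟨p, hp, rfl⟩
  · rw [mul_comm]
    exact PA_mul_Lam hp sInv_mem
  · rcases hp with hp | ⟨l, hl, rfl⟩
    · exact Or.inl (mul_mem (mul_mem (sA_mem hα) sPow_mem) hp)
    · refine Or.inr ⟨sPow α * l, mul_mem sPow_mem hl, ?_⟩
      rw [osc_eq]
      unfold sB
      ring

lemma Ord_JD (hα : 1 < α) : Ord (JD α) 1 := by
  rintro s (⟨p, hp, rfl⟩ | ⟨p, hp, rfl⟩)
  · have h1 : BO 0 p := Ord_PA hα p hp
    have := BO_sInv.mul h1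
    rw [add_zero] at this
    exact this
  · have h1 : BO 0 p := Ord_PB hα p hp
    have h2 : BO 0 (sPow α) := BO_Lam hα sPow_mem
    have := ((BO_sA α).mul h2).mul h1
    exact this.mono (by linarith)

/-- The leading oscillating scales. -/
def JO (α : ℝ) : Set (ℕ → ℝ) := {s | ∃ l ∈ Lam α, s = osc α * l}

lemma JO_sub_PA {s : ℕ → ℝ} (hs : s ∈ JO α) : s ∈ PA α := Or.inr hs

lemma Ord_JO (hα : 1 < α) : Ord (JO α) 1 := by
  rintro s ⟨l, hl, rfl⟩
  have := (BO_osc α).mul (BO_Lam hα hl)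
  exact this.mono (by linarith)

lemma ExpS.mono_T' {P : Set (ℕ → ℝ)} {T T' : ℝ} {u : ℕ → ℂ} (h : T' ≤ T) (hu : ExpS P T u) :
    ExpS P T' u := ExpTo.mono_T (fun _ => le_rfl) h hu

lemma ExpS.mono_P' {P P' : Set (ℕ → ℝ)} {T : ℝ} {u : ℕ → ℂ} (h : P ⊆ P') (hu : ExpS P T u) :
    ExpS P' T u := ExpTo.mono_P h hu

lemma ExpS.congr' {P : Set (ℕ → ℝ)} {T : ℝ} {u v : ℕ → ℂ} (hu : ExpS P T u)
    (h : ∀ᶠ n : ℕ in atTop, u n = v n) : ExpS P T v :=
  ExpTo.congr (by filter_upwards [h] with n hn _ _ using hn) hu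

/-- The total integrals are expanded in the scales of `PA`. -/
lemma tot_PA {κ r1 : ℝ} {W0' : ℕ → ℂ → Mat2} (h : MD α κ r r1 c A We W0' Wx R) (T : ℝ)
    (i j : Fin 2) : ExpS (PA α) T (fun n => tot R We W0' Wx n i j) := by
  have h1 := (h.total T i j).mono_P' (P' := PA α) fun s hs => JD_sub_PA h.hα hs
  have h2 := (ExpS.mono_P' (P' := PA α) (fun s hs => JO_sub_PA hs) (h.lead T i j))
  exact (h1.add h2).congr' (Eventually.of_forall fun n => by ring)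

lemma tot_BO {κ r1 : ℝ} {W0' : ℕ → ℂ → Mat2} (h : MD α κ r r1 c A We W0' Wx R) (i j : Fin 2) :
    BO 1 (fun n => (tot R We W0' Wx n i j).re) := by
  obtain ⟨C1, hC10, hC1⟩ := (h.total 1 i j).size (Ord_JD h.hα) le_rfl
  obtain ⟨C2, hC20, hC2⟩ := ExpS.size (Ord_JO h.hα) le_rfl (h.lead 1 i j)
  refine ⟨C1 + C2, ?_⟩
  filter_upwards [hC1, hC2] with n h1 h2
  calc |(tot R We W0' Wx n i j).re| ≤ ‖tot R We W0' Wx n i j‖ := Complex.abs_re_le_norm _
    _ = ‖(tot R We W0' Wx n i j - IU (W0' n) i j) + IU (W0' n) i j‖ := by ring_nf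
    _ ≤ C1 * (n : ℝ) ^ (-1 : ℝ) + C2 * (n : ℝ) ^ (-1 : ℝ) := (norm_add_le _ _).trans
        (add_le_add h1 h2)
    _ = _ := by ring

lemma PA_mul_sub (hα : 1 < α) : PA α * PA α ⊆ PA α := by
  rintro s ⟨a, ha, b, hb, rfl⟩
  exact PA_mul_PA hα ha hb

/-- Expansion of the normalised recurrence coefficients, for every `α > 1`. -/
theorem freud_PA (hα : 1 < α) (hA : Asm α y0 r c C n0 A w We Wx) {p : ℕ → Polynomial ℝ}
    {a : ℕ → ℝ} (hF : IsFreud α p a) (T : ℝ) :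
    ExpS (PA α) T (fun n => ((rfreud α a n : ℝ) : ℂ)) := by
  wlog hT : 0 ≤ T with H
  · exact (H hα hA hF 0 le_rfl).mono_T' (not_le.1 hT).le
  obtain ⟨R, hRc, hRb, hR, hr⟩ := freud_R hα hA hF
  obtain ⟨κ, r1, hM⟩ := md_of_asm hα hA hRc hRb hR
  have hX : ∀ i j, ExpS (PA α) T (fun n => ((4 / Real.pi *
      (tot R We (fun n => W0 α n y0) Wx n i j).re : ℝ) : ℂ)) := by
    intro i j
    refine (((tot_PA hM T i j).re).const_mul ((4 / Real.pi : ℝ) : ℂ)).congr'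
      (Eventually.of_forall fun n => ?_)
    push_cast
    ring
  have hXB : ∀ i j, BO 1 (fun n => 4 / Real.pi *
      (tot R We (fun n => W0 α n y0) Wx n i j).re) := fun i j => (tot_BO hM i j).const_mul _
  set X : ℕ → ℝ := fun n => 4 / Real.pi * (tot R We (fun n => W0 α n y0) Wx n 0 1).re with hXd
  set Y : ℕ → ℝ := fun n => 4 / Real.pi * (tot R We (fun n => W0 α n y0) Wx n 1 0).re with hYd
  have ht : ExpS (PA α) T (fun n => ((X n + Y n + X n * Y n : ℝ) : ℂ)) := by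
    have h1 := (hX 0 1).add (hX 1 0)
    have h2 := ExpS.mono_P' (PA_mul_sub hα) ((hX 0 1).mul (Ord_PA hα) (Ord_PA hα) hT (hX 1 0))
    refine (h1.add h2).congr' (Eventually.of_forall fun n => ?_)
    simp only [hXd, hYd]
    push_cast
    ring
  have htB : BO 1 (fun n => X n + Y n + X n * Y n) :=
    ((hXB 0 1).add (hXB 1 0)).add (((hXB 0 1).mul (hXB 1 0)).mono (by norm_num))
  obtain ⟨C1, hC1⟩ := htB
  have := ExpS.sqrt (M := PA α) one_mem_PA (fun p hp q hq => PA_mul_PA hα hp hq) (Ord_PA hα) hT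
    (t := fun n => X n + Y n + X n * Y n) ht one_pos hC1
  refine this.congr' ?_
  filter_upwards [eventually_ge_atTop n0] with n hn
  obtain ⟨h1, h2⟩ := hr n hn
  have h3 : √(1 + (X n + Y n + X n * Y n)) = rfreud α a n := by
    rw [show 1 + (X n + Y n + X n * Y n) = (1 + X n) * (1 + Y n) by ring, ← h2]
    exact Real.sqrt_sq h1.le
  rw [h3]

/-- If `α` is not an odd integer, the conjectured expansion holds. -/
theorem freud_expEB {δ c' : ℝ} (hα : 1 < α) (hodd : ∀ k : ℕ, α ≠ 2 * k + 1) (hδ : 0 < δ)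
    (hδ' : δ < 1 / 2) (hG : Geo α δ y0 c') (hA : Asm α y0 r c C n0 A w We Wx)
    {p : ℕ → Polynomial ℝ} {a : ℕ → ℝ} (hF : IsFreud α p a) :
    ExpEB (rfreud α a) α (2 * bco α) := by
  refine target_expEB α (rfreud α a) (2 * bco α) hα hodd (fun T => freud_PA hα hA hF T) ?_
  obtain ⟨Q, θ, hθ, hQ, hB⟩ := lead_term hα hδ hδ' hG hA hF
  refine ⟨Q.natDegree, Q.coeff, by rw [Polynomial.coeff_zero_eq_eval_zero, hQ], ?_⟩
  refine (hB.isLittleO (show α < α + θ by linarith)).congr' ?_ (Eventually.of_forall fun n => rfl)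
  filter_upwards [eventually_ge_atTop 1] with n hn
  have hn0 : (0 : ℝ) < n := by exact_mod_cast hn
  rw [Polynomial.eval_eq_sum_range]
  have e : ∑ i ∈ Finset.range (Q.natDegree + 1), Q.coeff i * (1 / (n : ℝ)) ^ i =
      ∑ k ∈ Finset.range (Q.natDegree + 1), Q.coeff k * (n : ℝ) ^ (-(k : ℝ)) := by
    refine Finset.sum_congr rfl fun k _ => ?_
    rw [Real.rpow_neg hn0.le, Real.rpow_natCast, one_div, inv_pow]
  rw [e]
  ring

end Pool.Agent.FreudM
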