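import Pool.Agent.FreudM.Targets
import Pool.Agent.Freud.NotExpE

/-!
# A logarithmic oscillating term excludes an expansion of form (E)
-/

set_option autoImplicit false

open MeasureTheory Filter Topology Asymptotics

namespace Pool.Agent.FreudM

open Pool.Agent.Freud

namespace NEx

/-- The scale `x ^ (-p) * (log x) ^ q`. -/
noncomputable def gl (z : ℝ × ℕ) (x : ℝ) : ℝ := x ^ (-z.1) * (Real.log x) ^ z.2

theorem ratio {x : ℕ → ℝ} (hx : Tendsto x atTop atTop) (z z0 : ℝ × ℕ)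
    (h : z0.1 < z.1 ∨ (z0.1 = z.1 ∧ z.2 < z0.2)) :
    Tendsto (fun m => gl z (x m) / gl z0 (x m)) atTop (𝓝 0) := by
  have hlog : Tendsto (fun m => Real.log (x m)) atTop atTop := Real.tendsto_log_atTop.comp hx
  rcases h with h | ⟨h1, h2⟩
  · have h1 : Tendsto (fun m => (Real.log (x m)) ^ z.2 / (x m) ^ (z.1 - z0.1)) atTop (𝓝 0) := by
      have := (isLittleO_log_rpow_rpow_atTop (z.2 : ℝ) (s := z.1 - z0.1)
        (by linarith)).tendsto_div_nhds_zero
      have h3 := this.comp hx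
      refine h3.congr fun m => ?_
      simp [Real.rpow_natCast]
    refine squeeze_zero_norm' ?_ h1
    filter_upwards [hx.eventually (eventually_gt_atTop (0 : ℝ)),
      hlog.eventually (eventually_ge_atTop (1 : ℝ))] with m hm hl
    have hl0 : 0 < Real.log (x m) := by linarith
    have e1 : gl z (x m) / gl z0 (x m)
        = (Real.log (x m)) ^ z.2 / (x m) ^ (z.1 - z0.1) / (Real.log (x m)) ^ z0.2 := by
      unfold gl
      have : (x m) ^ (z.1 - z0.1) = (x m) ^ (-z0.1) / (x m) ^ (-z.1) := by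
        rw [← Real.rpow_sub hm]; congr 1; ring
      rw [this]
      have ha : (x m) ^ (-z0.1) ≠ 0 := (Real.rpow_pos_of_pos hm _).ne'
      have hb : (x m) ^ (-z.1) ≠ 0 := (Real.rpow_pos_of_pos hm _).ne'
      have hc : (Real.log (x m)) ^ z0.2 ≠ 0 := (pow_pos hl0 _).ne'
      field_simp
    have h0 : 0 ≤ (Real.log (x m)) ^ z.2 / (x m) ^ (z.1 - z0.1) :=
      div_nonneg (pow_nonneg hl0.le _) (Real.rpow_pos_of_pos hm _).le
    rw [e1, Real.norm_eq_abs, abs_of_nonneg (div_nonneg h0 (pow_nonneg hl0.le _))]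
    exact div_le_self h0 (one_le_pow₀ hl)
  · have h3 : Tendsto (fun m => ((Real.log (x m)) ^ (z0.2 - z.2))⁻¹) atTop (𝓝 0) :=
      tendsto_inv_atTop_zero.comp ((tendsto_pow_atTop (by omega)).comp hlog)
    refine h3.congr' ?_
    filter_upwards [hx.eventually (eventually_gt_atTop (0 : ℝ)),
      hlog.eventually (eventually_ge_atTop (1 : ℝ))] with m hm hl
    have hl0 : 0 < Real.log (x m) := by linarith
    unfold gl
    rw [h1]
    have hb : (x m) ^ (-z.1) ≠ 0 := (Real.rpow_pos_of_pos hm _).ne'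
    have : (Real.log (x m)) ^ z0.2 = (Real.log (x m)) ^ (z0.2 - z.2) * (Real.log (x m)) ^ z.2 := by
      rw [← pow_add]; congr 1; omega
    rw [this]
    have hc : (Real.log (x m)) ^ (z0.2 - z.2) ≠ 0 := (pow_pos hl0 _).ne'
    have hd : (Real.log (x m)) ^ z.2 ≠ 0 := (pow_pos hl0 _).ne'
    field_simp

/-- In a finite sum of scales which is `O(x ^ (-S))` all terms of larger order vanish. -/
theorem key {x : ℕ → ℝ} (hx : Tendsto x atTop atTop) (f : (ℝ × ℕ) →₀ ℝ) (S C : ℝ)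
    (h : ∀ᶠ m in atTop, |∑ z ∈ f.support, f z * gl z (x m)| ≤ C * x m ^ (-S))
    (w : ℝ × ℕ) (hw : w.1 < S ∨ (w.1 = S ∧ 0 < w.2)) : f w = 0 := by
  by_contra hfw
  have hws : w ∈ f.support := Finsupp.mem_support_iff.mpr hfw
  obtain ⟨z0, hz0, hmin⟩ := Finset.exists_min_image f.support
    (fun z => (toLex (z.1, OrderDual.toDual z.2) : ℝ ×ₗ ℕᵒᵈ)) ⟨w, hws⟩
  have hdom : ∀ z ∈ f.support, z ≠ z0 → (z0.1 < z.1 ∨ (z0.1 = z.1 ∧ z.2 < z0.2)) := by
    intro z hz hne
    have h1 := hmin z hz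
    rw [Prod.Lex.toLex_le_toLex] at h1
    rcases h1 with h1 | ⟨h1, h2⟩
    · exact Or.inl h1
    · right
      refine ⟨h1, ?_⟩
      have h3 : z.2 ≤ z0.2 := h2
      refine lt_of_le_of_ne h3 fun h4 => hne ?_
      exact Prod.ext h1.symm h4
  have hz0S : z0.1 < S ∨ (z0.1 = S ∧ 0 < z0.2) := by
    by_cases hwz : w = z0
    · exact hwz ▸ hw
    · rcases hdom w hws hwz with h1 | ⟨h1, h2⟩
      · rcases hw with h3 | ⟨h3, -⟩
        · exact Or.inl (h1.trans h3)
        · exact Or.inl (h3 ▸ h1)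
      · rcases hw with h3 | ⟨h3, h4⟩
        · exact Or.inl (h1 ▸ h3)
        · exact Or.inr ⟨h1.trans h3, h4.trans h2⟩
  have hlog : Tendsto (fun m => Real.log (x m)) atTop atTop := Real.tendsto_log_atTop.comp hx
  have hF1 : Tendsto (fun m => (∑ z ∈ f.support, f z * gl z (x m)) / gl z0 (x m)) atTop
      (𝓝 (f z0)) := by
    have h1 : Tendsto (fun m => f z0 + ∑ z ∈ f.support.erase z0,
        f z * (gl z (x m) / gl z0 (x m))) atTop
        (𝓝 (f z0 + ∑ z ∈ f.support.erase z0, f z * 0)) := by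
      refine tendsto_const_nhds.add (tendsto_finsetSum _ fun z hz => ?_)
      refine Tendsto.const_mul _ ?_
      rw [Finset.mem_erase] at hz
      exact ratio hx z z0 (hdom z hz.2 hz.1)
    have h2 : (f z0 + ∑ z ∈ f.support.erase z0, f z * 0) = f z0 := by simp
    rw [h2] at h1
    refine h1.congr' ?_
    filter_upwards [hx.eventually (eventually_gt_atTop (0 : ℝ)),
      hlog.eventually (eventually_ge_atTop (1 : ℝ))] with m hm hl
    have hl0 : 0 < Real.log (x m) := by linarith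
    have hg : gl z0 (x m) ≠ 0 :=
      (mul_pos (Real.rpow_pos_of_pos hm _) (pow_pos hl0 _)).ne'
    rw [← Finset.add_sum_erase _ _ hz0, add_div, mul_div_assoc, div_self hg, mul_one,
      Finset.sum_div]
    congr 1
    refine Finset.sum_congr rfl fun z _ => ?_
    rw [mul_div_assoc]
  have hF2 : Tendsto (fun m => (∑ z ∈ f.support, f z * gl z (x m)) / gl z0 (x m)) atTop
      (𝓝 0) := by
    have h1 : Tendsto (fun m => C * (gl (S, 0) (x m) / gl z0 (x m))) atTop (𝓝 (C * 0)) := by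
      refine Tendsto.const_mul _ (ratio hx (S, 0) z0 ?_)
      rcases hz0S with h | h
      · exact Or.inl h
      · exact Or.inr h
    rw [mul_zero] at h1
    refine squeeze_zero_norm' ?_ h1
    filter_upwards [h, hx.eventually (eventually_gt_atTop (0 : ℝ)),
      hlog.eventually (eventually_ge_atTop (1 : ℝ))] with m hm0 hm hl
    have hl0 : 0 < Real.log (x m) := by linarith
    have hg : 0 < gl z0 (x m) := mul_pos (Real.rpow_pos_of_pos hm _) (pow_pos hl0 _)
    rw [Real.norm_eq_abs, abs_div, abs_of_pos hg, ← mul_div_assoc]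
    refine div_le_div_of_nonneg_right ?_ hg.le
    simpa [gl] using hm0
  exact (Finsupp.mem_support_iff.mp hz0) (tendsto_nhds_unique hF1 hF2)

/-- Evaluation of a finite combination of scales. -/
noncomputable def ev (x : ℝ) : ((ℝ × ℕ) →₀ ℝ) →ₗ[ℝ] ℝ :=
  Finsupp.linearCombination ℝ (fun z => gl z x)

theorem ev_single (x : ℝ) (z : ℝ × ℕ) (c : ℝ) : ev x (Finsupp.single z c) = c * gl z x := by
  simp [ev, smul_eq_mul]

theorem ev_eq (x : ℝ) (f : (ℝ × ℕ) →₀ ℝ) : ev x f = ∑ z ∈ f.support, f z * gl z x := by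
  rw [ev, Finsupp.linearCombination_apply, Finsupp.sum]
  simp [smul_eq_mul]

theorem key' {y : ℕ → ℕ} (hy : Tendsto y atTop atTop) (f : (ℝ × ℕ) →₀ ℝ) (S : ℝ) {F : ℕ → ℝ}
    (hF : F =O[atTop] (fun n : ℕ => (n : ℝ) ^ (-S)))
    (h : ∀ m, ev (y m) f = F (y m))
    (w : ℝ × ℕ) (hw : w.1 < S ∨ (w.1 = S ∧ 0 < w.2)) : f w = 0 := by
  obtain ⟨C, hC⟩ := hF.bound
  refine key (x := fun m => (y m : ℝ)) (tendsto_natCast_atTop_atTop.comp hy) f S C ?_ w hw
  filter_upwards [hy.eventually hC] with m hm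
  rw [← ev_eq, h m]
  rw [Real.norm_eq_abs, Real.norm_eq_abs,
    abs_of_nonneg (Real.rpow_nonneg (Nat.cast_nonneg _) _)] at hm
  exact hm

end NEx

open NEx NotExpE in
theorem target_not_expE : Target_not_expE := by
  intro r S L I J a p q b t hL hS hO hE
  obtain ⟨N, M, i, j, A, B, _, _, _, _, _, hN, hM, hE⟩ := hE
  apply hL
  have hS1 := finite_of hN S
  have hS2 := finite_of hM S
  have f1 : ∀ n : ℕ, (∑ᶠ k ∈ {k : ℕ | (k : ℕ∞) < N ∧ i k ≤ S}, A k * (n : ℝ) ^ (-(i k)))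
      = ∑ k ∈ hS1.toFinset, A k * (n : ℝ) ^ (-(i k)) :=
    fun n => finsum_mem_eq_finite_toFinset_sum _ hS1
  have f2 : ∀ n : ℕ, (∑ᶠ k ∈ {k : ℕ | (k : ℕ∞) < M ∧ j k ≤ S}, B k * (n : ℝ) ^ (-(j k)))
      = ∑ k ∈ hS2.toFinset, B k * (n : ℝ) ^ (-(j k)) :=
    fun n => finsum_mem_eq_finite_toFinset_sum _ hS2
  have hES : (fun n : ℕ => r n - (∑ k ∈ hS1.toFinset, A k * (n : ℝ) ^ (-(i k)))
      - (-1) ^ n * ∑ k ∈ hS2.toFinset, B k * (n : ℝ) ^ (-(j k)))
        =O[atTop] (fun n : ℕ => (n : ℝ) ^ (-S)) := by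
    have := (hE S hS).isBigO
    simpa only [f1, f2] using this
  have hD := hES.sub hO
  set E : (ℝ × ℕ) →₀ ℝ := ∑ i, Finsupp.single (p i, q i) (a i)
    - ∑ k ∈ hS1.toFinset, Finsupp.single (i k, 0) (A k) with hEdef
  set O : (ℝ × ℕ) →₀ ℝ := ∑ j, Finsupp.single (t j, 0) (b j) + Finsupp.single (S, 1) L
    - ∑ k ∈ hS2.toFinset, Finsupp.single (j k, 0) (B k) with hOdef
  have evE : ∀ x : ℝ, ev x E = ∑ i, a i * x ^ (-(p i)) * (Real.log x) ^ (q i)
      - ∑ k ∈ hS1.toFinset, A k * x ^ (-(i k)) := by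
    intro x
    rw [hEdef, map_sub, map_sum, map_sum]
    simp only [ev_single, gl, pow_zero, mul_one, mul_assoc]
  have evO : ∀ x : ℝ, ev x O = ∑ j, b j * x ^ (-(t j)) + L * Real.log x * x ^ (-S)
      - ∑ k ∈ hS2.toFinset, B k * x ^ (-(j k)) := by
    intro x
    rw [hOdef, map_sub, map_add, map_sum, map_sum]
    simp only [ev_single, gl, pow_zero, mul_one, pow_one]
    ring
  have h1 : (E + O) (S, 1) = 0 := by
    have hy : Tendsto (fun m : ℕ => 2 * m) atTop atTop :=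
      tendsto_atTop_mono (fun m => by show m ≤ 2 * m; omega) tendsto_id
    refine key' hy (E + O) S hD ?_ (S, 1) (Or.inr ⟨rfl, Nat.one_pos⟩)
    intro m
    have heven : (-1 : ℝ) ^ (2 * m) = 1 := by rw [pow_mul]; simp
    rw [map_add, evE, evO]
    simp only [heven]
    ring
  have h2 : (E - O) (S, 1) = 0 := by
    have hy : Tendsto (fun m : ℕ => 2 * m + 1) atTop atTop :=
      tendsto_atTop_mono (fun m => by show m ≤ 2 * m + 1; omega) tendsto_id
    refine key' hy (E - O) S hD ?_ (S, 1) (Or.inr ⟨rfl, Nat.one_pos⟩)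
    intro m
    have hodd : (-1 : ℝ) ^ (2 * m + 1) = -1 := by rw [pow_succ, pow_mul]; simp
    rw [map_sub, evE, evO]
    simp only [hodd]
    ring
  have h3 : O (S, 1) = L := by
    rw [hOdef]
    simp
  rw [Finsupp.add_apply] at h1
  rw [Finsupp.sub_apply] at h2
  rw [← h3]
  linarith

end Pool.Agent.FreudM
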