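import Pool.Agent.FreudM.OpsO
import Pool.Agent.Freud.Defs2

/-!
# Scales and targets for the full expansion (all real `α > 1`)
-/

set_option autoImplicit false

open MeasureTheory Filter Topology Set

namespace Pool.Agent.FreudM

open Pool.Agent.Freud

/-- The scale `1 / n`. -/
noncomputable def sInv : ℕ → ℝ := fun n => (n : ℝ) ^ (-1 : ℝ)

/-- The scale `n ^ (1 - α)`. -/
noncomputable def sPow (α : ℝ) : ℕ → ℝ := fun n => (n : ℝ) ^ (-(α - 1))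

/-- The scale `n ^ (1 - α) * log n`. -/
noncomputable def sLog (α : ℝ) : ℕ → ℝ := fun n => (n : ℝ) ^ (-(α - 1)) * Real.log n

/-- Generators of the smooth scales; the logarithmic one is present only for odd integers `α`. -/
def gens (α : ℝ) : Set (ℕ → ℝ) :=
  {s | s = sInv ∨ s = sPow α ∨ (s = sLog α ∧ ∃ k : ℕ, α = 2 * k + 1)}

/-- The monoid of smooth scales. -/
def Lam (α : ℝ) : Submonoid (ℕ → ℝ) := Submonoid.closure (gens α)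

/-- The sign sequence. -/
def sgn : ℕ → ℝ := fun n => (-1) ^ n

/-- The basic oscillating scale. -/
noncomputable def osc (α : ℝ) : ℕ → ℝ := fun n => (-1) ^ n * (n : ℝ) ^ (-α)

/-- Scales of the final expansion. -/
def PA (α : ℝ) : Set (ℕ → ℝ) := {s | s ∈ Lam α ∨ ∃ l ∈ Lam α, s = osc α * l}

/-- Scales near the origin. -/
def PB (α : ℝ) : Set (ℕ → ℝ) := {s | s ∈ Lam α ∨ ∃ l ∈ Lam α, s = sgn * l}

/-- Complete behaviour of the g-function at the origin. -/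
def Near0 (α : ℝ) : Prop :=
  ∃ (r0 : ℝ) (P : ℂ → ℂ) (d e : ℂ), 0 < r0 ∧ DifferentiableOn ℂ P (Metric.ball 0 r0) ∧
    P 0 = 0 ∧ deriv P 0 = -(2 * Complex.I * (α / (α - 1))) ∧
    ((∀ k : ℕ, α ≠ 2 * k + 1) → e = 0) ∧
    (∀ k : ℕ, 1 ≤ k → α = 2 * k + 1 → e = 2 * Complex.I * ((Nat.centralBinom k : ℂ) / 4 ^ k)) ∧
    ∀ z ∈ UH, ‖z‖ < r0 → 2 * gfun α z - ell α =
      Real.pi * Complex.I + P z + d * z ^ (α : ℂ) + e * z ^ (α : ℂ) * Complex.log z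

/-- Target FM1. -/
def Target_near0 : Prop := ∀ α : ℝ, 1 < α → Near0 α

/-- The scaled source term near the origin, normalised. -/
noncomputable def vO (α κ y0 : ℝ) (n : ℕ) (σ : ℂ) : Mat2 :=
  (((-1) ^ n * (n : ℝ) ^ (α - 2) * Real.exp (κ * ‖σ‖) : ℝ) : ℂ) • W0 α n y0 (σ / n)

/-- Target FM2. -/
def Target_W0_exp : Prop := ∀ α y0 : ℝ, 1 < α → 0 < y0 → Near0 α →
  ∃ κ rs : ℝ, 0 < κ ∧ 0 < rs ∧ ∀ r1 : ℝ, 0 < r1 → r1 ≤ rs → ∀ (T : ℝ) (i j : Fin 2),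
    ExpTo (Lam α : Set (ℕ → ℝ)) (Om r1) rho1 T (fun n σ => vO α κ y0 n σ i j)

/-- The coefficient of the logarithmic term relative to the leading oscillating one. -/
noncomputable def Lr (k : ℕ) : ℝ :=
  -(2 * ((Nat.centralBinom k : ℝ) / 4 ^ k) * Real.Gamma (2 * (2 * k + 1) + 1) * (-1) ^ k /
    (Real.Gamma ((2 * k + 1) + 1) * (2 * (2 * k + 1) / (2 * k)) ^ (2 * k + 1)))

/-- Target FM3: the zero part at odd integers (it generalises `zero_b`, where `k = 1`). -/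
def Target_zero_odd : Prop := ∀ (k : ℕ) (α δ y0 c : ℝ), 1 ≤ k → α = 2 * k + 1 → 0 < δ →
  δ < 1 / 2 → Geo α δ y0 c → Near0 α →
  ∃ (Z : ℕ → Mat2) (C : ℝ), ∀ n : ℕ, 1 ≤ n →
    nm ((2 / Real.pi : ℂ) • reM (IU (W0 α n y0)) -
      (((-1) ^ n * (bco α * ((n : ℝ) ^ (-α) + Lr k * Real.log n * (n : ℝ) ^ (1 - 2 * α))) : ℝ) : ℂ) •
        (!![0, 1; 1, 0] : Mat2) -
      ∑ j ∈ Finset.range (2 * k - 1), (((-1) ^ n * (n : ℝ) ^ (-α - (j + 1)) : ℝ) : ℂ) • Z j)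
      ≤ C * (n : ℝ) ^ (1 - 2 * α)

/-- `r` has an expansion of form (E) in which the first oscillating term is `B₀ n ^ (-j₀)`. -/
def ExpEB (r : ℕ → ℝ) (j0 B0 : ℝ) : Prop :=
  ∃ (N M : ℕ∞) (i j A B : ℕ → ℝ), 0 < N ∧ i 0 = 0 ∧ A 0 = 1 ∧ 0 < M ∧ j 0 = j0 ∧ B 0 = B0 ∧
    (∀ k l : ℕ, k < l → (l : ℕ∞) < N → i k < i l) ∧
    (∀ k l : ℕ, k < l → (l : ℕ∞) < M → j k < j l) ∧
    (N = ⊤ → Tendsto i atTop atTop) ∧ (M = ⊤ → Tendsto j atTop atTop) ∧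
    ∀ T : ℝ, 0 < T → (fun n : ℕ => r n
      - (∑ᶠ k ∈ {k : ℕ | (k : ℕ∞) < N ∧ i k ≤ T}, A k * (n : ℝ) ^ (-(i k)))
      - (-1) ^ n * ∑ᶠ k ∈ {k : ℕ | (k : ℕ∞) < M ∧ j k ≤ T}, B k * (n : ℝ) ^ (-(j k)))
        =o[atTop] (fun n : ℕ => (n : ℝ) ^ (-T))

/-- Target FM4: from expansions in the scales `PA α` to form (E). -/
def Target_expEB : Prop := ∀ (α : ℝ) (r : ℕ → ℝ) (B0 : ℝ), 1 < α → (∀ k : ℕ, α ≠ 2 * k + 1) →
  (∀ T : ℝ, ExpTo (PA α) (fun _ => (univ : Set Unit)) (fun _ => 1) T (fun n _ => ((r n : ℝ) : ℂ))) →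
  (∃ (K : ℕ) (c : ℕ → ℝ), c 0 = 1 ∧ (fun n : ℕ => r n - ∑ k ∈ Finset.range (K + 1),
      c k * (n : ℝ) ^ (-(k : ℝ)) - (-1) ^ n * (B0 * (n : ℝ) ^ (-α)))
        =o[atTop] (fun n : ℕ => (n : ℝ) ^ (-α))) →
  ExpEB r α B0

/-- Target FM5: a logarithmic oscillating term excludes form (E). -/
def Target_not_expE : Prop := ∀ (r : ℕ → ℝ) (S L : ℝ) (I J : ℕ) (a p : Fin I → ℝ)
  (q : Fin I → ℕ) (b t : Fin J → ℝ), L ≠ 0 → 0 < S →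
  (fun n : ℕ => r n - ∑ i, a i * (n : ℝ) ^ (-(p i)) * (Real.log n) ^ (q i)
    - (-1) ^ n * (∑ j, b j * (n : ℝ) ^ (-(t j)) + L * Real.log n * (n : ℝ) ^ (-S)))
      =O[atTop] (fun n : ℕ => (n : ℝ) ^ (-S)) → ¬ ExpE r

end Pool.Agent.FreudM
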