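import Mathlib
import Pool.Agent.Freud.ZeroQ

/-!
FM3 of MP_6cbd85_an, part A: Taylor polynomials, analytic continuation of the conjugation by the
outer parametrix, negligible terms.
-/

set_option autoImplicit false

open MeasureTheory Filter Topology Asymptotics Set

namespace Pool.Agent.FreudM

open Pool.Agent.Freud

/-! ### Taylor polynomials -/

theorem zo_taylor (N : ℕ) : ∀ {f : ℂ → ℂ} {r : ℝ}, 0 < r → DifferentiableOn ℂ f (Metric.ball 0 r) →
    ∃ (c : ℕ → ℂ) (C : ℝ), c 0 = f 0 ∧ 0 ≤ C ∧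
      ∀ z : ℂ, ‖z‖ ≤ r / 2 → ‖f z - ∑ b ∈ Finset.range N, c b * z ^ b‖ ≤ C * ‖z‖ ^ N := by
  induction N with
  | zero =>
    intro f r hr hf
    have hc : ContinuousOn f (Metric.closedBall 0 (r / 2)) :=
      hf.continuousOn.mono (Metric.closedBall_subset_ball (by linarith))
    obtain ⟨C, hC⟩ := (isCompact_closedBall (0 : ℂ) (r / 2)).exists_bound_of_continuousOn hc
    refine ⟨fun _ => f 0, max C 0, rfl, le_max_right _ _, fun z hz => ?_⟩
    simp only [Finset.range_zero, Finset.sum_empty, sub_zero, pow_zero, mul_one]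
    exact (hC z (by simpa using hz)).trans (le_max_left _ _)
  | succ N ih =>
    intro f r hr hf
    have hg : DifferentiableOn ℂ (dslope f 0) (Metric.ball 0 r) :=
      (Complex.differentiableOn_dslope (Metric.ball_mem_nhds 0 hr)).2 hf
    obtain ⟨c, C, -, hC0, hC⟩ := ih hr hg
    refine ⟨fun b => Nat.casesOn b (f 0) c, C, rfl, hC0, fun z hz => ?_⟩
    have h1 : f z = f 0 + z * dslope f 0 z := by
      have := sub_smul_dslope f 0 z
      rw [sub_zero, smul_eq_mul] at this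
      rw [this]; ring
    rw [Finset.sum_range_succ']
    have h2 : f z - (∑ b ∈ Finset.range N, (Nat.casesOn (b + 1) (f 0) c : ℂ) * z ^ (b + 1) +
        (Nat.casesOn 0 (f 0) c : ℂ) * z ^ 0) =
        z * (dslope f 0 z - ∑ b ∈ Finset.range N, c b * z ^ b) := by
      rw [h1, mul_sub, Finset.mul_sum]
      have : ∑ b ∈ Finset.range N, (Nat.casesOn (b + 1) (f 0) c : ℂ) * z ^ (b + 1) =
          ∑ b ∈ Finset.range N, z * (c b * z ^ b) := by
        refine Finset.sum_congr rfl fun b _ => ?_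
        show c b * z ^ (b + 1) = _
        ring
      rw [this]
      show _ - (_ + f 0 * z ^ 0) = _
      ring
    rw [h2, norm_mul, pow_succ]
    have := mul_le_mul_of_nonneg_left (hC z hz) (norm_nonneg z)
    linarith

/-! ### analytic continuation of `zM` -/

/-- the analytic continuation of `zS` -/
noncomputable def zoS (z : ℂ) : ℂ :=
  Complex.I * Complex.exp ((Complex.log (1 - z) - Complex.log (1 + z)) / 2)

theorem zo_re_pos {z : ℂ} (hz : ‖z‖ < 1) : 0 < (1 - z).re ∧ 0 < (1 + z).re := by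
  have h := Complex.abs_re_le_norm z
  have h2 := abs_le.1 h
  constructor
  · rw [Complex.sub_re, Complex.one_re]; linarith
  · rw [Complex.add_re, Complex.one_re]; linarith

theorem zoS_ne (z : ℂ) : zoS z ≠ 0 := mul_ne_zero Complex.I_ne_zero (Complex.exp_ne_zero _)

theorem zoS_diff : DifferentiableOn ℂ zoS (Metric.ball 0 1) := by
  intro z hz
  have hz1 : ‖z‖ < 1 := by simpa using hz
  obtain ⟨h1, h2⟩ := zo_re_pos hz1
  have a1 : DifferentiableAt ℂ (fun z : ℂ => Complex.log (1 - z)) z :=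
    DifferentiableAt.clog (by fun_prop) (Or.inl h1)
  have a2 : DifferentiableAt ℂ (fun z : ℂ => Complex.log (1 + z)) z :=
    DifferentiableAt.clog (by fun_prop) (Or.inl h2)
  exact (((a1.sub a2).div_const 2).cexp.const_mul Complex.I).differentiableWithinAt

theorem zoS_sq {z : ℂ} (hz : ‖z‖ < 1) : zoS z ^ 2 = (z - 1) / (z + 1) := by
  obtain ⟨h1, h2⟩ := zo_re_pos hz
  have n1 : (1 - z) ≠ 0 := fun h => by rw [h] at h1; simp at h1
  have n2 : (1 + z) ≠ 0 := fun h => by rw [h] at h2; simp at h2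
  unfold zoS
  rw [mul_pow, Complex.I_sq, ← Complex.exp_nat_mul]
  have : ((2 : ℕ) : ℂ) * ((Complex.log (1 - z) - Complex.log (1 + z)) / 2) =
      Complex.log (1 - z) - Complex.log (1 + z) := by push_cast; ring
  rw [this, Complex.exp_sub, Complex.exp_log n1, Complex.exp_log n2, add_comm z 1]
  field_simp
  ring

theorem zoS_im {z : ℂ} (hz : ‖z‖ < 1) : 0 < (zoS z).im := by
  obtain ⟨h1, h2⟩ := zo_re_pos hz
  have b1 := Complex.abs_arg_lt_pi_div_two_iff.2 (Or.inl h1)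
  have b2 := Complex.abs_arg_lt_pi_div_two_iff.2 (Or.inl h2)
  rw [abs_lt] at b1 b2
  unfold zoS
  rw [Complex.I_mul_im, Complex.exp_re]
  apply mul_pos (Real.exp_pos _)
  apply Real.cos_pos_of_mem_Ioo
  have e : ((Complex.log (1 - z) - Complex.log (1 + z)) / 2).im =
      (Complex.arg (1 - z) - Complex.arg (1 + z)) / 2 := by
    have : (Complex.log (1 - z) - Complex.log (1 + z)) / 2 =
        ((1 / 2 : ℝ) : ℂ) * (Complex.log (1 - z) - Complex.log (1 + z)) := by push_cast; ring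
    rw [this, Complex.im_ofReal_mul, Complex.sub_im, Complex.log_im, Complex.log_im]
    ring
  rw [e]
  constructor <;> linarith

theorem zoS_eq {z : ℂ} (hz : z ∈ UH) (hn : ‖z‖ < 1) : zS z = zoS z := by
  have h : zS z ^ 2 = zoS z ^ 2 := by rw [zS_sq hz, zoS_sq hn]
  rcases sq_eq_sq_iff_eq_or_eq_neg.1 h with h | h
  · exact h
  · exfalso
    have h1 := zS_im hz
    have h2 := zoS_im hn
    rw [h, Complex.neg_im] at h1
    linarith

theorem zoS_zero : zoS 0 = Complex.I := by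
  unfold zoS; simp

/-- the analytic continuation of `zM` -/
noncomputable def zoM (z : ℂ) : Mat2 :=
  !![-((zoS z - (zoS z)⁻¹) / 4), -((zoS z + (zoS z)⁻¹ - 2) / 4);
     (zoS z + (zoS z)⁻¹ + 2) / 4, (zoS z - (zoS z)⁻¹) / 4]

theorem zoM_eq {z : ℂ} (hz : z ∈ UH) (hn : ‖z‖ < 1) : zM z = zoM z := by
  unfold zM zoM
  rw [zoS_eq hz hn]

theorem zoM_zero : zoM 0 = zM0 := by
  unfold zoM zM0
  rw [zoS_zero, Complex.inv_I]
  ext i j
  fin_cases i <;> fin_cases j <;> simp <;> ring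

theorem zoM_diff (i j : Fin 2) : DifferentiableOn ℂ (fun z => zoM z i j) (Metric.ball 0 1) := by
  have h1 := zoS_diff
  have h2 : DifferentiableOn ℂ (fun z => (zoS z)⁻¹) (Metric.ball 0 1) :=
    h1.inv fun z _ => zoS_ne z
  fin_cases i <;> fin_cases j <;> simp only [zoM] <;> simp
  · exact (h1.sub h2).div_const 4
  · exact ((h1.add h2).sub (differentiableOn_const _)).div_const 4
  · exact ((h1.add h2).add (differentiableOn_const _)).div_const 4
  · exact (h1.sub h2).div_const 4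

/-! ### negligible terms -/

/-- `f n z` is negligible on `S` -/
def Ng (k : ℕ) (S : Set ℂ) (f : ℕ → ℂ → ℝ) : Prop :=
  ∃ M c : ℝ, 0 ≤ M ∧ 0 < c ∧ ∀ n : ℕ, 1 ≤ n → ∀ z ∈ S,
    f n z * (n : ℝ) ^ (4 * k - 1) ≤ M * Real.exp (-(c * n * ‖z‖))

theorem Ng.mono {k : ℕ} {S : Set ℂ} {f g : ℕ → ℂ → ℝ} (hg : Ng k S g)
    (h : ∀ n : ℕ, 1 ≤ n → ∀ z ∈ S, f n z ≤ g n z) : Ng k S f := by
  obtain ⟨M, c, hM, hc, hb⟩ := hg
  exact ⟨M, c, hM, hc, fun n hn z hz =>
    (mul_le_mul_of_nonneg_right (h n hn z hz) (by positivity)).trans (hb n hn z hz)⟩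

theorem Ng.add {k : ℕ} {S : Set ℂ} {f g : ℕ → ℂ → ℝ} (hf : Ng k S f) (hg : Ng k S g) :
    Ng k S (fun n z => f n z + g n z) := by
  obtain ⟨M, c, hM, hc, hb⟩ := hf
  obtain ⟨M', c', hM', hc', hb'⟩ := hg
  refine ⟨M + M', min c c', by positivity, lt_min hc hc', fun n hn z hz => ?_⟩
  have h1 := hb n hn z hz
  have h2 := hb' n hn z hz
  have hnz : (0 : ℝ) ≤ n * ‖z‖ := by positivity
  have e1 : Real.exp (-(c * n * ‖z‖)) ≤ Real.exp (-(min c c' * n * ‖z‖)) := by
    rw [Real.exp_le_exp]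
    have := mul_le_mul_of_nonneg_right (min_le_left c c') hnz
    linarith
  have e2 : Real.exp (-(c' * n * ‖z‖)) ≤ Real.exp (-(min c c' * n * ‖z‖)) := by
    rw [Real.exp_le_exp]
    have := mul_le_mul_of_nonneg_right (min_le_right c c') hnz
    linarith
  have e3 := mul_le_mul_of_nonneg_left e1 hM
  have e4 := mul_le_mul_of_nonneg_left e2 hM'
  rw [add_mul, add_mul]
  linarith

theorem Ng.zero (k : ℕ) (S : Set ℂ) : Ng k S (fun _ _ => 0) :=
  ⟨0, 1, le_rfl, one_pos, fun n _ z _ => by simp⟩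

theorem Ng.sum {ι : Type*} {k : ℕ} {S : Set ℂ} (s : Finset ι) {f : ι → ℕ → ℂ → ℝ}
    (hf : ∀ a ∈ s, Ng k S (f a)) : Ng k S (fun n z => ∑ a ∈ s, f a n z) := by
  classical
  induction s using Finset.induction_on with
  | empty => simpa using Ng.zero k S
  | insert a s ha ih =>
    have h1 := hf a (Finset.mem_insert_self a s)
    have h2 := ih fun b hb => hf b (Finset.mem_insert_of_mem hb)
    have h3 := h1.add h2
    refine h3.mono fun n _ z _ => ?_
    rw [Finset.sum_insert ha]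

theorem Ng.const_mul {k : ℕ} {S : Set ℂ} {f : ℕ → ℂ → ℝ} (hf : Ng k S f) {K : ℝ} (hK : 0 ≤ K) :
    Ng k S (fun n z => K * f n z) := by
  obtain ⟨M, c, hM, hc, hb⟩ := hf
  refine ⟨K * M, c, by positivity, hc, fun n hn z hz => ?_⟩
  have := mul_le_mul_of_nonneg_left (hb n hn z hz) hK
  linarith

theorem Ng.union {k : ℕ} {S T : Set ℂ} {f : ℕ → ℂ → ℝ} (hS : Ng k S f) (hT : Ng k T f) :
    Ng k (S ∪ T) f := by
  obtain ⟨M, c, hM, hc, hb⟩ := hS
  obtain ⟨M', c', hM', hc', hb'⟩ := hT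
  refine ⟨M + M', min c c', by positivity, lt_min hc hc', fun n hn z hz => ?_⟩
  have hnz : (0 : ℝ) ≤ n * ‖z‖ := by positivity
  rcases hz with hz | hz
  · have h1 := hb n hn z hz
    have e1 : Real.exp (-(c * n * ‖z‖)) ≤ Real.exp (-(min c c' * n * ‖z‖)) := by
      rw [Real.exp_le_exp]
      have := mul_le_mul_of_nonneg_right (min_le_left c c') hnz
      linarith
    have e3 := mul_le_mul_of_nonneg_left e1 hM
    have e4 : 0 ≤ M' * Real.exp (-(min c c' * n * ‖z‖)) := by positivity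
    linarith
  · have h1 := hb' n hn z hz
    have e1 : Real.exp (-(c' * n * ‖z‖)) ≤ Real.exp (-(min c c' * n * ‖z‖)) := by
      rw [Real.exp_le_exp]
      have := mul_le_mul_of_nonneg_right (min_le_right c c') hnz
      linarith
    have e3 := mul_le_mul_of_nonneg_left e1 hM'
    have e4 : 0 ≤ M * Real.exp (-(min c c' * n * ‖z‖)) := by positivity
    linarith

theorem zo_pow_exp (q : ℕ) {c x : ℝ} (hc : 0 < c) (hx : 0 ≤ x) :
    x ^ q * Real.exp (-(c * x)) ≤ (q.factorial * (2 / c) ^ q) * Real.exp (-(c / 2 * x)) := by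
  have h1 := Real.pow_div_factorial_le_exp (c / 2 * x) (by positivity) q
  rw [div_le_iff₀ (by positivity)] at h1
  have h2 : x ^ q = (2 / c) ^ q * (c / 2 * x) ^ q := by
    rw [← mul_pow]; congr 1; field_simp
  have h3 : Real.exp (-(c * x)) = Real.exp (-(c / 2 * x)) * Real.exp (-(c / 2 * x)) := by
    rw [← Real.exp_add]; congr 1; ring
  have h4 : Real.exp (c / 2 * x) * Real.exp (-(c / 2 * x)) = 1 := by
    rw [← Real.exp_add]; simp
  rw [h2, h3]
  calc (2 / c) ^ q * (c / 2 * x) ^ q * (Real.exp (-(c / 2 * x)) * Real.exp (-(c / 2 * x)))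
      ≤ (2 / c) ^ q * (Real.exp (c / 2 * x) * q.factorial) *
        (Real.exp (-(c / 2 * x)) * Real.exp (-(c / 2 * x))) := by
        apply mul_le_mul_of_nonneg_right _ (by positivity)
        exact mul_le_mul_of_nonneg_left h1 (by positivity)
    _ = (q.factorial * (2 / c) ^ q) * (Real.exp (c / 2 * x) * Real.exp (-(c / 2 * x))) *
        Real.exp (-(c / 2 * x)) := by ring
    _ = _ := by rw [h4, mul_one]

theorem Ng.pow {k p q : ℕ} (h : p + (4 * k - 1) ≤ q) {c : ℝ} (hc : 0 < c) (S : Set ℂ) :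
    Ng k S (fun n z => (n : ℝ) ^ p * ‖z‖ ^ q * Real.exp (-(c * n * ‖z‖))) := by
  refine ⟨q.factorial * (2 / c) ^ q, c / 2, by positivity, by positivity, fun n hn z _ => ?_⟩
  have hn1 : (1 : ℝ) ≤ n := by exact_mod_cast hn
  have h1 := zo_pow_exp q hc (show 0 ≤ (n : ℝ) * ‖z‖ by positivity)
  have h2 : (n : ℝ) ^ p * ‖z‖ ^ q * Real.exp (-(c * n * ‖z‖)) * (n : ℝ) ^ (4 * k - 1) ≤
      (n * ‖z‖) ^ q * Real.exp (-(c * (n * ‖z‖))) := by
    have h3 : (n : ℝ) ^ p * (n : ℝ) ^ (4 * k - 1) ≤ (n : ℝ) ^ q := by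
      rw [← pow_add]; exact pow_le_pow_right₀ hn1 h
    have h4 : -(c * n * ‖z‖) = -(c * (n * ‖z‖)) := by ring
    rw [h4, mul_pow]
    have h5 := mul_le_mul_of_nonneg_right h3
      (show 0 ≤ ‖z‖ ^ q * Real.exp (-(c * (n * ‖z‖))) by positivity)
    linarith
  have h6 : -(c / 2 * (n * ‖z‖)) = -(c / 2 * n * ‖z‖) := by ring
  rw [h6] at h1
  exact h2.trans h1

/-- integral of a negligible function -/
theorem Ng.integral {k : ℕ} (hk : 1 ≤ k) {f : ℕ → ℂ → ℂ} (hf : Ng k UH (fun n z => ‖f n z‖)) :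
    ∃ C : ℝ, 0 ≤ C ∧ ∀ n : ℕ, 1 ≤ n → ‖∫ z in UH, f n z‖ ≤ C / (n : ℝ) ^ (4 * k + 1) := by
  obtain ⟨M, c, hM, hc, hb⟩ := hf
  refine ⟨M * (2 * Real.pi * Real.Gamma ((0 : ℝ) + 2) * c ^ (-((0 : ℝ) + 2))), ?_, fun n hn => ?_⟩
  · have := Real.Gamma_pos_of_pos (show (0 : ℝ) < 0 + 2 by norm_num)
    have := Real.pi_pos
    positivity
  have hn0 : (0 : ℝ) < n := by exact_mod_cast hn
  have hcn : 0 < c * n := by positivity
  have hi := ((zb_int_radial (q := 0) (b := c * n) (by norm_num) hcn).1).integrableOn (s := UH)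
  have hu := zb_int_UH (q := 0) (b := c * n) (by norm_num) hcn
  have hbd : ∀ᵐ z ∂(volume.restrict UH), ‖f n z‖ ≤
      M / (n : ℝ) ^ (4 * k - 1) * (‖z‖ ^ (0 : ℝ) * Real.exp (-(c * n) * ‖z‖)) := by
    filter_upwards [ae_restrict_mem zb_meas_UH] with z hz
    have h := hb n hn z hz
    rw [Real.rpow_zero, one_mul, div_mul_eq_mul_div, le_div_iff₀ (by positivity)]
    have e : -(c * n) * ‖z‖ = -(c * n * ‖z‖) := by ring
    rw [e]
    exact h
  refine (norm_integral_le_of_norm_le (hi.const_mul _) hbd).trans ?_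
  rw [integral_const_mul]
  refine (mul_le_mul_of_nonneg_left hu (by positivity)).trans (le_of_eq ?_)
  have e1 : (c * n : ℝ) ^ (-((0 : ℝ) + 2)) = c ^ (-((0 : ℝ) + 2)) * ((n : ℝ) ^ 2)⁻¹ := by
    rw [Real.mul_rpow hc.le hn0.le]
    congr 1
    rw [Real.rpow_neg hn0.le]
    congr 1
    rw [← Real.rpow_natCast]
    norm_num
  rw [e1]
  have e2 : (n : ℝ) ^ (4 * k + 1) = (n : ℝ) ^ (4 * k - 1) * (n : ℝ) ^ 2 := by
    rw [← pow_add]; congr 1; omega
  rw [e2]
  field_simp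

end Pool.Agent.FreudM
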