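import Mathlib
import Pool.Agent.FreudM.ZeroOddA
import Pool.Agent.FreudM.Targets

/-!
FM3 of MP_6cbd85_an, part B: the estimate near the origin.
-/

set_option autoImplicit false

open MeasureTheory Filter Topology Asymptotics Set

namespace Pool.Agent.FreudM

open Pool.Agent.Freud

theorem zo_bracket {w u v a m m0 T : ℂ} (hm : ‖m‖ ≤ 3) :
    ‖Complex.exp (w + u) * (Complex.exp a - Complex.exp (-a)) * m - 2 * a * (T + v * m0)‖ ≤
      (6 * ‖a‖ ^ 2 + 2 * ‖a‖ * (3 * (‖u‖ ^ 2 + ‖w‖ * ‖u‖) + 3 * ‖u - v‖ + ‖v‖ * ‖m - m0‖ )) *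
        Real.exp (‖w‖ + ‖u‖ + ‖a‖) + 2 * ‖a‖ * ‖Complex.exp w * m - T‖ := by
  set E := Real.exp (‖w‖ + ‖u‖ + ‖a‖) with hE
  have hw0 := norm_nonneg w
  have hu0 := norm_nonneg u
  have ha0 := norm_nonneg a
  have hE1 : 1 ≤ E := Real.one_le_exp (by positivity)
  have e : Complex.exp (w + u) * (Complex.exp a - Complex.exp (-a)) * m - 2 * a * (T + v * m0) =
      Complex.exp (w + u) * ((Complex.exp a - 1 - a) - (Complex.exp (-a) - 1 - (-a))) * m +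
      2 * a * ((Complex.exp w * (Complex.exp u - 1 - u) + (Complex.exp w - 1) * u + (u - v)) * m +
        v * (m - m0) + (Complex.exp w * m - T)) := by
    rw [Complex.exp_add]; ring
  rw [e]
  have h1 : ‖Complex.exp (w + u) * ((Complex.exp a - 1 - a) - (Complex.exp (-a) - 1 - (-a))) * m‖ ≤
      6 * ‖a‖ ^ 2 * E := by
    rw [norm_mul, norm_mul]
    have p1 : ‖Complex.exp (w + u)‖ ≤ Real.exp (‖w‖ + ‖u‖) :=
      (za_exp_norm _).trans (Real.exp_le_exp.2 (norm_add_le _ _))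
    have p2 : ‖(Complex.exp a - 1 - a) - (Complex.exp (-a) - 1 - (-a))‖ ≤
        2 * ‖a‖ ^ 2 * Real.exp ‖a‖ := by
      refine (norm_sub_le _ _).trans ?_
      have q1 := za_exp_norm_sub_two a
      have q2 := za_exp_norm_sub_two (-a)
      rw [norm_neg] at q2
      linarith
    have p3 : Real.exp (‖w‖ + ‖u‖) * Real.exp ‖a‖ = E := by rw [hE, ← Real.exp_add]
    calc ‖Complex.exp (w + u)‖ * ‖(Complex.exp a - 1 - a) - (Complex.exp (-a) - 1 - (-a))‖ * ‖m‖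
        ≤ Real.exp (‖w‖ + ‖u‖) * (2 * ‖a‖ ^ 2 * Real.exp ‖a‖) * 3 := by
          apply mul_le_mul _ hm (norm_nonneg _) (by positivity)
          exact mul_le_mul p1 p2 (norm_nonneg _) (by positivity)
      _ = 6 * ‖a‖ ^ 2 * (Real.exp (‖w‖ + ‖u‖) * Real.exp ‖a‖) := by ring
      _ = _ := by rw [p3]
  have h2 : ‖Complex.exp w * (Complex.exp u - 1 - u) + (Complex.exp w - 1) * u + (u - v)‖ ≤
      (‖u‖ ^ 2 + ‖w‖ * ‖u‖ + ‖u - v‖) * E := by
    refine (norm_add_le _ _).trans ?_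
    have a1 : ‖Complex.exp w * (Complex.exp u - 1 - u)‖ ≤ ‖u‖ ^ 2 * E := by
      rw [norm_mul]
      calc ‖Complex.exp w‖ * ‖Complex.exp u - 1 - u‖ ≤
            Real.exp ‖w‖ * (‖u‖ ^ 2 * Real.exp ‖u‖) :=
            mul_le_mul (za_exp_norm _) (za_exp_norm_sub_two u) (norm_nonneg _) (by positivity)
        _ = ‖u‖ ^ 2 * Real.exp (‖w‖ + ‖u‖) := by rw [Real.exp_add]; ring
        _ ≤ ‖u‖ ^ 2 * E := by
            apply mul_le_mul_of_nonneg_left _ (by positivity)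
            rw [hE, Real.exp_le_exp]; linarith
    have a2 : ‖(Complex.exp w - 1) * u‖ ≤ ‖w‖ * ‖u‖ * E := by
      rw [norm_mul]
      calc ‖Complex.exp w - 1‖ * ‖u‖ ≤ ‖w‖ * Real.exp ‖w‖ * ‖u‖ :=
            mul_le_mul_of_nonneg_right (za_exp_norm_sub_one w) hu0
        _ = ‖w‖ * ‖u‖ * Real.exp ‖w‖ := by ring
        _ ≤ ‖w‖ * ‖u‖ * E := by
            apply mul_le_mul_of_nonneg_left _ (by positivity)
            rw [hE, Real.exp_le_exp]; linarith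
    have a3 : ‖u - v‖ ≤ ‖u - v‖ * E := le_mul_of_one_le_right (norm_nonneg _) hE1
    have a4 := norm_add_le (Complex.exp w * (Complex.exp u - 1 - u)) ((Complex.exp w - 1) * u)
    linarith
  have h3 : ‖v * (m - m0)‖ ≤ ‖v‖ * ‖m - m0‖ * E := by
    rw [norm_mul]; exact le_mul_of_one_le_right (by positivity) hE1
  refine (norm_add_le _ _).trans ?_
  have h4 : ‖2 * a * ((Complex.exp w * (Complex.exp u - 1 - u) + (Complex.exp w - 1) * u +
      (u - v)) * m + v * (m - m0) + (Complex.exp w * m - T))‖ ≤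
      2 * ‖a‖ * ((‖u‖ ^ 2 + ‖w‖ * ‖u‖ + ‖u - v‖) * E * 3 + ‖v‖ * ‖m - m0‖ * E +
        ‖Complex.exp w * m - T‖) := by
    rw [norm_mul, norm_mul, Complex.norm_ofNat]
    apply mul_le_mul_of_nonneg_left _ (by positivity)
    refine (norm_add_le _ _).trans ?_
    have b1 := norm_add_le ((Complex.exp w * (Complex.exp u - 1 - u) + (Complex.exp w - 1) * u +
      (u - v)) * m) (v * (m - m0))
    have b2 : ‖(Complex.exp w * (Complex.exp u - 1 - u) + (Complex.exp w - 1) * u +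
      (u - v)) * m‖ ≤ (‖u‖ ^ 2 + ‖w‖ * ‖u‖ + ‖u - v‖) * E * 3 := by
      rw [norm_mul]
      exact mul_le_mul h2 hm (norm_nonneg _) (by positivity)
    linarith
  linarith

/-- truncation of the exponential and of the Taylor series -/
theorem zo_trunc {N n : ℕ} {z p2 m : ℂ} {c : ℕ → ℕ → ℂ} {C : ℕ → ℝ} (hm : ‖m‖ ≤ 3)
    (hc : ∀ a, a < N → ‖(-p2) ^ a / (a.factorial : ℂ) * m - ∑ b ∈ Finset.range N, c a b * z ^ b‖ ≤
      C a * ‖z‖ ^ N) :
    ‖Complex.exp (-(n * z ^ 2 * p2)) * m -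
        ∑ a ∈ Finset.range N, ∑ b ∈ Finset.range N, c a b * (n : ℂ) ^ a * z ^ (2 * a + b)‖ ≤
      3 * ‖(n * z ^ 2 * p2 : ℂ)‖ ^ N * Real.exp ‖(n * z ^ 2 * p2 : ℂ)‖ +
        ∑ a ∈ Finset.range N, C a * ((n : ℝ) ^ a * ‖z‖ ^ (2 * a + N)) := by
  set w : ℂ := -(n * z ^ 2 * p2) with hw
  have hwn : ‖(n * z ^ 2 * p2 : ℂ)‖ = ‖w‖ := by rw [hw, norm_neg]
  rw [hwn]
  have e : Complex.exp w * m -
        ∑ a ∈ Finset.range N, ∑ b ∈ Finset.range N, c a b * (n : ℂ) ^ a * z ^ (2 * a + b) =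
      (Complex.exp w - ∑ a ∈ Finset.range N, w ^ a / (a.factorial : ℂ)) * m +
      ∑ a ∈ Finset.range N, (n : ℂ) ^ a * z ^ (2 * a) *
        ((-p2) ^ a / (a.factorial : ℂ) * m - ∑ b ∈ Finset.range N, c a b * z ^ b) := by
    rw [sub_mul, Finset.sum_mul]
    have e1 : ∑ a ∈ Finset.range N, (n : ℂ) ^ a * z ^ (2 * a) *
        ((-p2) ^ a / (a.factorial : ℂ) * m - ∑ b ∈ Finset.range N, c a b * z ^ b) =
        ∑ a ∈ Finset.range N, w ^ a / (a.factorial : ℂ) * m -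
        ∑ a ∈ Finset.range N, ∑ b ∈ Finset.range N, c a b * (n : ℂ) ^ a * z ^ (2 * a + b) := by
      rw [← Finset.sum_sub_distrib]
      refine Finset.sum_congr rfl fun a _ => ?_
      rw [mul_sub, Finset.mul_sum]
      congr 1
      · rw [hw]
        have : (-(n * z ^ 2 * p2) : ℂ) ^ a = (n : ℂ) ^ a * z ^ (2 * a) * (-p2) ^ a := by
          rw [show (-(n * z ^ 2 * p2) : ℂ) = n * z ^ 2 * (-p2) by ring, mul_pow, mul_pow, ← pow_mul]
        rw [this]; ring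
      · refine Finset.sum_congr rfl fun b _ => ?_
        rw [pow_add]; ring
    rw [e1]; ring
  rw [e]
  refine (norm_add_le _ _).trans (add_le_add ?_ ?_)
  · rw [norm_mul]
    have h1 := Complex.norm_exp_sub_sum_le_norm_mul_exp w N
    calc _ ≤ ‖w‖ ^ N * Real.exp ‖w‖ * 3 := mul_le_mul h1 hm (norm_nonneg _) (by positivity)
      _ = _ := by ring
  · refine (norm_sum_le _ _).trans (Finset.sum_le_sum fun a ha => ?_)
    rw [norm_mul, norm_mul, norm_pow, norm_pow, Complex.norm_natCast]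
    have h1 := mul_le_mul_of_nonneg_left (hc a (Finset.mem_range.1 ha))
      (show 0 ≤ (n : ℝ) ^ a * ‖z‖ ^ (2 * a) by positivity)
    refine h1.trans (le_of_eq ?_)
    rw [pow_add]; ring

theorem zo_log_bd {z : ℂ} (h0 : 0 < ‖z‖) (h1 : ‖z‖ ≤ 1) : ‖z‖ * ‖Complex.log z‖ ≤ 5 := by
  have h2 : ‖Complex.log z‖ ≤ |Real.log ‖z‖| + Real.pi := by
    refine (Complex.norm_le_abs_re_add_abs_im _).trans ?_
    rw [Complex.log_re, Complex.log_im]
    exact add_le_add le_rfl (Complex.abs_arg_le_pi z)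
  have h3 : |Real.log ‖z‖| ≤ ‖z‖⁻¹ := by
    rw [abs_of_nonpos (Real.log_nonpos h0.le h1), ← Real.log_inv]
    have := Real.log_le_sub_one_of_pos (inv_pos.2 h0)
    linarith
  have h4 : ‖z‖ * ‖z‖⁻¹ = 1 := mul_inv_cancel₀ h0.ne'
  have h5 := Real.pi_lt_four
  calc ‖z‖ * ‖Complex.log z‖ ≤ ‖z‖ * (‖z‖⁻¹ + Real.pi) := by
        apply mul_le_mul_of_nonneg_left _ h0.le
        linarith
    _ = 1 + ‖z‖ * Real.pi := by rw [mul_add, h4]
    _ ≤ 5 := by nlinarith [Real.pi_pos]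

theorem zo_log_scaled {z : ℂ} {n : ℕ} (hn : 1 ≤ n) (h0 : 0 < ‖z‖) :
    ‖Complex.log z + Real.log n‖ ≤ n * ‖z‖ + (n * ‖z‖)⁻¹ + 4 := by
  have hn0 : (0 : ℝ) < n := by exact_mod_cast hn
  have h2 : ‖Complex.log z + Real.log n‖ ≤ |Real.log (n * ‖z‖)| + Real.pi := by
    refine (Complex.norm_le_abs_re_add_abs_im _).trans ?_
    rw [Complex.add_re, Complex.add_im, Complex.log_re, Complex.log_im, Complex.ofReal_re,
      Complex.ofReal_im, add_zero, Real.log_mul hn0.ne' h0.ne', add_comm (Real.log (n : ℝ))]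
    exact add_le_add le_rfl (Complex.abs_arg_le_pi z)
  have hs : 0 < n * ‖z‖ := by positivity
  have h3 : |Real.log (n * ‖z‖)| ≤ n * ‖z‖ + (n * ‖z‖)⁻¹ := by
    rw [abs_le]
    constructor
    · have := Real.log_le_sub_one_of_pos (inv_pos.2 hs)
      rw [Real.log_inv] at this
      linarith
    · have := Real.log_le_sub_one_of_pos hs
      have h4 : 0 < (n * ‖z‖)⁻¹ := inv_pos.2 hs
      linarith
  have h5 := Real.pi_lt_four
  linarith

theorem zo_log_nat {n : ℕ} (hn : 1 ≤ n) : 0 ≤ Real.log n ∧ Real.log n ≤ n := by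
  have hn0 : (0 : ℝ) < n := by exact_mod_cast hn
  have hn1 : (1 : ℝ) ≤ n := by exact_mod_cast hn
  refine ⟨Real.log_nonneg hn1, ?_⟩
  have := Real.log_le_sub_one_of_pos hn0
  linarith

/-- the polynomial factor of the error near the origin -/
noncomputable def zoX (k n : ℕ) (t U B D E : ℝ) (C : ℕ → ℝ) : ℝ :=
  3 * U ^ 2 * (n : ℝ) ^ 2 * t ^ (4 * k) + 3 * B * U * (n : ℝ) ^ 2 * t ^ (2 * k + 2) +
  3 * (D + 4 * E) * n * t ^ (2 * k + 1) + 6 * E * (n : ℝ) ^ 2 * t ^ (2 * k + 2) +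
  3 * E * t ^ (2 * k) + 3 * B ^ (2 * k) * (n : ℝ) ^ (2 * k) * t ^ (4 * k) +
  ∑ a ∈ Finset.range (2 * k), C a * ((n : ℝ) ^ a * t ^ (2 * a + 2 * k))

theorem zo_near_pt {k n : ℕ} (hk : 1 ≤ k) (hn : 1 ≤ n) {z p2 d e m m0 : ℂ} {κ B r η : ℝ}
    {c : ℕ → ℕ → ℂ} {C : ℕ → ℝ} (h0 : 0 < ‖z‖) (hr : ‖z‖ ≤ r) (hr2 : r ≤ 1 / 2) (hκ : 0 ≤ κ)
    (hp2 : ‖p2‖ ≤ B) (hm : ‖m‖ ≤ 3) (hm0 : ‖m - m0‖ ≤ 3 * ‖z‖)
    (hη : r * (B + (‖d‖ + 5 * ‖e‖) + κ) ≤ η)
    (hc : ∀ a, a < 2 * k → ‖(-p2) ^ a / (a.factorial : ℂ) * m -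
      ∑ b ∈ Finset.range (2 * k), c a b * z ^ b‖ ≤ C a * ‖z‖ ^ (2 * k)) (hC : ∀ a, 0 ≤ C a) :
    ‖Complex.exp (-(n * z ^ 2 * p2) + (-(n * d * z ^ (2 * k + 1)) -
        n * e * z ^ (2 * k + 1) * Complex.log z)) *
        (Complex.exp (n * κ * z ^ (2 * k + 1)) - Complex.exp (-(n * κ * z ^ (2 * k + 1)))) * m -
      2 * (n * κ * z ^ (2 * k + 1)) * (∑ a ∈ Finset.range (2 * k), ∑ b ∈ Finset.range (2 * k),
        c a b * (n : ℂ) ^ a * z ^ (2 * a + b) + n * e * Real.log n * z ^ (2 * k + 1) * m0)‖ ≤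
    Real.exp (η * n * ‖z‖) * (6 * κ ^ 2 * (n : ℝ) ^ 2 * ‖z‖ ^ (4 * k + 2) +
      2 * κ * n * ‖z‖ ^ (2 * k + 1) * zoX k n ‖z‖ (‖d‖ + 5 * ‖e‖) B ‖d‖ ‖e‖ C) := by
  set t := ‖z‖ with ht
  set w : ℂ := -(n * z ^ 2 * p2) with hw
  set u : ℂ := -(n * d * z ^ (2 * k + 1)) - n * e * z ^ (2 * k + 1) * Complex.log z with hu
  set v : ℂ := n * e * Real.log n * z ^ (2 * k + 1) with hv
  set a : ℂ := n * κ * z ^ (2 * k + 1) with ha
  set D := ‖d‖ with hD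
  set E := ‖e‖ with hE
  set U := D + 5 * E with hU
  have hn0 : (0 : ℝ) < n := by exact_mod_cast hn
  have hn1 : (1 : ℝ) ≤ n := by exact_mod_cast hn
  have hD0 : 0 ≤ D := norm_nonneg _
  have hE0 : 0 ≤ E := norm_nonneg _
  have hB0 : 0 ≤ B := (norm_nonneg _).trans hp2
  have hU0 : 0 ≤ U := by positivity
  have ht1 : t ≤ 1 := by linarith
  have hr0 : 0 < r := lt_of_lt_of_le h0 hr
  have hlog := zo_log_bd h0 ht1
  have hlogs := zo_log_scaled hn h0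
  have hlogn := zo_log_nat hn
  rw [← ht] at hlog hlogs
  -- sizes
  have bw : ‖w‖ ≤ B * n * t ^ 2 := by
    rw [hw, norm_neg, norm_mul, norm_mul, norm_pow, Complex.norm_natCast, ← ht]
    have := mul_le_mul_of_nonneg_left hp2 (show 0 ≤ (n : ℝ) * t ^ 2 by positivity)
    linarith
  have bu : ‖u‖ ≤ U * n * t ^ (2 * k) := by
    rw [hu]
    refine (norm_sub_le _ _).trans ?_
    rw [norm_neg, norm_mul, norm_mul, norm_mul, norm_mul, norm_mul, norm_pow, Complex.norm_natCast,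
      ← ht, ← hD, ← hE]
    have h1 : t ^ (2 * k + 1) ≤ t ^ (2 * k) := pow_le_pow_of_le_one h0.le ht1 (by omega)
    have h2 : n * D * t ^ (2 * k + 1) ≤ n * D * t ^ (2 * k) :=
      mul_le_mul_of_nonneg_left h1 (by positivity)
    have h3 : n * E * t ^ (2 * k + 1) * ‖Complex.log z‖ = n * E * t ^ (2 * k) *
        (t * ‖Complex.log z‖) := by rw [pow_succ]; ring
    have h4 := mul_le_mul_of_nonneg_left hlog (show 0 ≤ n * E * t ^ (2 * k) by positivity)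
    rw [h3, hU]
    linarith
  have buv : ‖u - v‖ ≤ n * t ^ (2 * k + 1) * (D + E * (n * t + (n * t)⁻¹ + 4)) := by
    have e1 : u - v = -(n * z ^ (2 * k + 1) * (d + e * (Complex.log z + Real.log n))) := by
      rw [hu, hv]; ring
    rw [e1, norm_neg, norm_mul, norm_mul, norm_pow, Complex.norm_natCast, ← ht]
    apply mul_le_mul_of_nonneg_left _ (by positivity)
    refine (norm_add_le _ _).trans ?_
    rw [norm_mul, ← hD, ← hE]
    have := mul_le_mul_of_nonneg_left hlogs hE0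
    linarith
  have buv' : ‖u - v‖ ≤ (D + 4 * E) * n * t ^ (2 * k + 1) + E * (n : ℝ) ^ 2 * t ^ (2 * k + 2) +
      E * t ^ (2 * k) := by
    refine buv.trans (le_of_eq ?_)
    have e1 : t ^ (2 * k + 1) = t ^ (2 * k) * t := pow_succ _ _
    have e2 : t ^ (2 * k + 2) = t ^ (2 * k) * t ^ 2 := pow_add _ _ _
    rw [e1, e2]
    field_simp
    ring
  have bv : ‖v‖ ≤ E * (n : ℝ) ^ 2 * t ^ (2 * k + 1) := by
    rw [hv, norm_mul, norm_mul, norm_mul, norm_pow, Complex.norm_natCast, Complex.norm_real,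
      Real.norm_eq_abs, abs_of_nonneg hlogn.1, ← ht, ← hE]
    have := mul_le_mul_of_nonneg_left hlogn.2 (show 0 ≤ n * E * t ^ (2 * k + 1) by positivity)
    linarith
  have ba : ‖a‖ = κ * n * t ^ (2 * k + 1) := by
    rw [ha, norm_mul, norm_mul, norm_pow, Complex.norm_natCast, Complex.norm_real,
      Real.norm_eq_abs, abs_of_nonneg hκ, ← ht]
    ring
  -- the exponent
  have hexp : ‖w‖ + ‖u‖ + ‖a‖ ≤ η * n * t := by
    have h1 : B * n * t ^ 2 ≤ n * t * (r * B) := by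
      have := mul_le_mul_of_nonneg_left hr (show 0 ≤ B * n * t by positivity)
      linarith
    have ht2 : t ^ (2 * k) ≤ t * r := by
      have h2 : t ^ (2 * k) ≤ t ^ 2 := pow_le_pow_of_le_one h0.le ht1 (by omega)
      have h3 := mul_le_mul_of_nonneg_left hr h0.le
      linarith
    have h2 : U * n * t ^ (2 * k) ≤ n * t * (r * U) := by
      have := mul_le_mul_of_nonneg_left ht2 (show 0 ≤ U * n by positivity)
      linarith
    have h3 : κ * n * t ^ (2 * k + 1) ≤ n * t * (r * κ) := by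
      have h4 : t ^ (2 * k + 1) ≤ t ^ (2 * k) := pow_le_pow_of_le_one h0.le ht1 (by omega)
      have := mul_le_mul_of_nonneg_left (h4.trans ht2) (show 0 ≤ κ * n by positivity)
      linarith
    have h5 := mul_le_mul_of_nonneg_left hη (show 0 ≤ n * t by positivity)
    rw [ba]
    linarith
  have hE2 : Real.exp (‖w‖ + ‖u‖ + ‖a‖) ≤ Real.exp (η * n * t) := Real.exp_le_exp.2 hexp
  have hbr := zo_bracket (w := w) (u := u) (v := v) (a := a) (m := m) (m0 := m0)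
    (T := ∑ a ∈ Finset.range (2 * k), ∑ b ∈ Finset.range (2 * k),
        c a b * (n : ℂ) ^ a * z ^ (2 * a + b)) hm
  have htr := zo_trunc (N := 2 * k) (n := n) (z := z) (p2 := p2) (m := m) (c := c) (C := C) hm hc
  have hwn : ‖(n * z ^ 2 * p2 : ℂ)‖ = ‖w‖ := by rw [hw, norm_neg]
  rw [hwn, ← hw, ← ht] at htr
  refine hbr.trans ?_
  set G := Real.exp (η * n * t) with hG
  have hη0 : 0 ≤ η := le_trans (by positivity) hη
  have hG1 : 1 ≤ G := Real.one_le_exp (by positivity)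
  have hEw : Real.exp ‖w‖ ≤ G := by
    rw [hG, Real.exp_le_exp]
    have := norm_nonneg u
    have := norm_nonneg a
    linarith
  -- part 1
  have q1 : 6 * ‖a‖ ^ 2 = 6 * κ ^ 2 * (n : ℝ) ^ 2 * t ^ (4 * k + 2) := by
    rw [ba]; ring
  have q2 : 3 * (‖u‖ ^ 2 + ‖w‖ * ‖u‖) + 3 * ‖u - v‖ + ‖v‖ * ‖m - m0‖ ≤
      3 * U ^ 2 * (n : ℝ) ^ 2 * t ^ (4 * k) + 3 * B * U * (n : ℝ) ^ 2 * t ^ (2 * k + 2) +
      3 * (D + 4 * E) * n * t ^ (2 * k + 1) + 6 * E * (n : ℝ) ^ 2 * t ^ (2 * k + 2) +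
      3 * E * t ^ (2 * k) := by
    have r1 : ‖u‖ ^ 2 ≤ (U * n * t ^ (2 * k)) ^ 2 := pow_le_pow_left₀ (norm_nonneg _) bu 2
    have r2 : ‖w‖ * ‖u‖ ≤ (B * n * t ^ 2) * (U * n * t ^ (2 * k)) :=
      mul_le_mul bw bu (norm_nonneg _) (by positivity)
    have r3 : ‖v‖ * ‖m - m0‖ ≤ (E * (n : ℝ) ^ 2 * t ^ (2 * k + 1)) * (3 * t) :=
      mul_le_mul bv hm0 (norm_nonneg _) (by positivity)
    have s1 : (U * n * t ^ (2 * k)) ^ 2 = U ^ 2 * (n : ℝ) ^ 2 * t ^ (4 * k) := by ring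
    have s2 : (B * n * t ^ 2) * (U * n * t ^ (2 * k)) = B * U * (n : ℝ) ^ 2 * t ^ (2 * k + 2) := by
      ring
    have s3 : (E * (n : ℝ) ^ 2 * t ^ (2 * k + 1)) * (3 * t) = 3 * E * (n : ℝ) ^ 2 * t ^ (2 * k + 2) := by
      ring
    rw [s1] at r1
    rw [s2] at r2
    rw [s3] at r3
    linarith
  have q3 : 3 * ‖w‖ ^ (2 * k) * Real.exp ‖w‖ ≤ 3 * B ^ (2 * k) * (n : ℝ) ^ (2 * k) * t ^ (4 * k) * G := by
    have r1 : ‖w‖ ^ (2 * k) ≤ (B * n * t ^ 2) ^ (2 * k) := pow_le_pow_left₀ (norm_nonneg _) bw _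
    have s1 : (B * n * t ^ 2) ^ (2 * k) = B ^ (2 * k) * (n : ℝ) ^ (2 * k) * t ^ (4 * k) := by
      rw [mul_pow, mul_pow, ← pow_mul]; congr 2; ring
    rw [s1] at r1
    have := mul_le_mul r1 hEw (Real.exp_pos _).le (by positivity)
    linarith
  have hsum0 : 0 ≤ ∑ a ∈ Finset.range (2 * k), C a * ((n : ℝ) ^ a * t ^ (2 * a + 2 * k)) :=
    Finset.sum_nonneg fun a _ => mul_nonneg (hC a) (by positivity)
  have q4 : ‖Complex.exp w * m - ∑ a ∈ Finset.range (2 * k), ∑ b ∈ Finset.range (2 * k),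
        c a b * (n : ℂ) ^ a * z ^ (2 * a + b)‖ ≤
      (3 * B ^ (2 * k) * (n : ℝ) ^ (2 * k) * t ^ (4 * k) +
        ∑ a ∈ Finset.range (2 * k), C a * ((n : ℝ) ^ a * t ^ (2 * a + 2 * k))) * G := by
    refine htr.trans ?_
    have := le_mul_of_one_le_right hsum0 hG1
    rw [add_mul]
    linarith
  have ha0 : 0 ≤ 2 * ‖a‖ := by positivity
  have q5 := mul_le_mul_of_nonneg_left q4 ha0
  have q6 : (6 * ‖a‖ ^ 2 + 2 * ‖a‖ * (3 * (‖u‖ ^ 2 + ‖w‖ * ‖u‖) + 3 * ‖u - v‖ + ‖v‖ * ‖m - m0‖)) *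
      Real.exp (‖w‖ + ‖u‖ + ‖a‖) ≤ (6 * κ ^ 2 * (n : ℝ) ^ 2 * t ^ (4 * k + 2) +
      2 * ‖a‖ * (3 * U ^ 2 * (n : ℝ) ^ 2 * t ^ (4 * k) + 3 * B * U * (n : ℝ) ^ 2 * t ^ (2 * k + 2) +
      3 * (D + 4 * E) * n * t ^ (2 * k + 1) + 6 * E * (n : ℝ) ^ 2 * t ^ (2 * k + 2) +
      3 * E * t ^ (2 * k))) * G := by
    apply mul_le_mul _ hE2 (Real.exp_pos _).le (by positivity)
    rw [q1]
    have := mul_le_mul_of_nonneg_left q2 ha0
    linarith
  refine (add_le_add q6 q5).trans (le_of_eq ?_)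
  unfold zoX
  rw [ba]
  ring

end Pool.Agent.FreudM
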