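import Mathlib
import Pool.Agent.FreudM.ZeroOddB

/-!
FM3 of MP_6cbd85_an, part C: the source term minus its model is negligible.
-/

set_option autoImplicit false

open MeasureTheory Filter Topology Asymptotics Set

namespace Pool.Agent.FreudM

open Pool.Agent.Freud

theorem zo_ng_near {k : ℕ} (hk : 1 ≤ k) {Ct κ U B D E η : ℝ} {C : ℕ → ℝ} (hCt : 0 ≤ Ct)
    (hκ : 0 ≤ κ) (hU : 0 ≤ U) (hB : 0 ≤ B) (hD : 0 ≤ D) (hE : 0 ≤ E) (hη : 0 < η)
    (hC : ∀ a, 0 ≤ C a) :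
    Ng k UH (fun n z => Ct / ‖z‖ * Real.exp (-(η * n * ‖z‖)) *
      (6 * κ ^ 2 * (n : ℝ) ^ 2 * ‖z‖ ^ (4 * k + 2) +
        2 * κ * n * ‖z‖ ^ (2 * k + 1) * zoX k n ‖z‖ U B D E C)) := by
  have h1 := (Ng.pow (k := k) (p := 2) (q := 4 * k + 1) (by omega) hη UH).const_mul
    (show 0 ≤ 6 * Ct * κ ^ 2 + 6 * Ct * κ * (D + 4 * E) by positivity)
  have h2 := (Ng.pow (k := k) (p := 3) (q := 6 * k) (by omega) hη UH).const_mul
    (show 0 ≤ 6 * Ct * κ * U ^ 2 by positivity)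
  have h3 := (Ng.pow (k := k) (p := 3) (q := 4 * k + 2) (by omega) hη UH).const_mul
    (show 0 ≤ 6 * Ct * κ * B * U + 12 * Ct * κ * E by positivity)
  have h4 := (Ng.pow (k := k) (p := 1) (q := 4 * k) (by omega) hη UH).const_mul
    (show 0 ≤ 6 * Ct * κ * E by positivity)
  have h5 := (Ng.pow (k := k) (p := 2 * k + 1) (q := 6 * k) (by omega) hη UH).const_mul
    (show 0 ≤ 6 * Ct * κ * B ^ (2 * k) by positivity)
  have h6 : Ng k UH (fun n z => ∑ a ∈ Finset.range (2 * k), 2 * Ct * κ * C a *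
      ((n : ℝ) ^ (a + 1) * ‖z‖ ^ (2 * a + 4 * k) * Real.exp (-(η * n * ‖z‖)))) := by
    refine Ng.sum _ fun a _ => ?_
    exact (Ng.pow (k := k) (p := a + 1) (q := 2 * a + 4 * k) (by omega) hη UH).const_mul
      (show 0 ≤ 2 * Ct * κ * C a by have := hC a; positivity)
  refine (((((h1.add h2).add h3).add h4).add h5).add h6).mono fun n hn z hz => ?_
  have hz0 : 0 < ‖z‖ := norm_pos_iff.mpr (zb_ne_zero hz)
  set t := ‖z‖ with ht
  set G := Real.exp (-(η * n * t)) with hG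
  apply le_of_eq
  unfold zoX
  have e1 : Ct / t * G * (6 * κ ^ 2 * (n : ℝ) ^ 2 * t ^ (4 * k + 2)) =
      6 * Ct * κ ^ 2 * ((n : ℝ) ^ 2 * t ^ (4 * k + 1) * G) := by
    rw [pow_succ t (4 * k + 1)]; field_simp
  have e2 : ∀ X : ℝ, Ct / t * G * (2 * κ * n * t ^ (2 * k + 1) * X) =
      2 * Ct * κ * n * t ^ (2 * k) * G * X := by
    intro X
    rw [pow_succ t (2 * k)]; field_simp
  rw [mul_add, e1, e2, mul_add (2 * Ct * κ * n * t ^ (2 * k) * G), Finset.mul_sum]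
  have e3 : ∀ a ∈ Finset.range (2 * k), 2 * Ct * κ * n * t ^ (2 * k) * G *
      (C a * ((n : ℝ) ^ a * t ^ (2 * a + 2 * k))) =
      2 * Ct * κ * C a * ((n : ℝ) ^ (a + 1) * t ^ (2 * a + 4 * k) * G) := by
    intro a _
    ring
  rw [Finset.sum_congr rfl e3]
  ring

/-- the kernel -/
noncomputable def zoK (lam : ℝ) (n : ℕ) (z : ℂ) : ℂ :=
  Complex.exp (Complex.I * ((lam * n : ℝ) : ℂ) * z) * ztau z

/-- the polynomial factor of the model -/
noncomputable def zoT (k n : ℕ) (e m0 : ℂ) (c : ℕ → ℕ → ℂ) (z : ℂ) : ℂ :=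
  ∑ a ∈ Finset.range (2 * k), ∑ b ∈ Finset.range (2 * k),
        c a b * (n : ℂ) ^ a * z ^ (2 * a + b) + n * e * Real.log n * z ^ (2 * k + 1) * m0

/-- the model of an entry of `W0` -/
noncomputable def zoMod (k n : ℕ) (lam κ : ℝ) (e m0 : ℂ) (c : ℕ → ℕ → ℂ) (z : ℂ) : ℂ :=
  -Complex.I * ((-1) ^ n * zoK lam n z * (2 * (n * κ * z ^ (2 * k + 1)) * zoT k n e m0 c z))

theorem zo_ng_far {k : ℕ} (hk : 1 ≤ k) {Ct κ cc lam r : ℝ} {e m0 : ℂ} {c : ℕ → ℕ → ℂ}
    (hCt : 0 < Ct) (hC : ∀ z ∈ UH, ‖ztau z‖ ≤ Ct / ‖z‖)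
    (hκ : 0 ≤ κ) (hcc : 0 < cc) (hlam : 0 < lam) (hr : 0 < r) {F : ℕ → ℂ → ℂ}
    (hF : ∀ n : ℕ, 1 ≤ n → ∀ z ∈ UH, ‖F n z‖ ≤
      6 * Ct * κ * n * ‖z‖ ^ (2 * k) * Real.exp (-(cc * n * ‖z‖))) :
    Ng k {z | z ∈ UH ∧ r < ‖z‖} (fun n z => ‖F n z - zoMod k n lam κ e m0 c z‖) := by
  set S : Set ℂ := {z | z ∈ UH ∧ r < ‖z‖} with hS
  set l2 := lam / 2 with hl2
  have hl20 : 0 < l2 := by positivity
  have h1 := (Ng.pow (k := k) (p := 1) (q := 4 * k) (by omega) hcc S).const_mul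
    (show 0 ≤ 6 * Ct * κ * (r ^ (2 * k))⁻¹ by positivity)
  have h2 : Ng k S (fun n z => ∑ a ∈ Finset.range (2 * k), ∑ b ∈ Finset.range (2 * k),
      2 * Ct * κ * ‖c a b‖ * (r ^ (2 * k))⁻¹ *
      ((n : ℝ) ^ (a + 1) * ‖z‖ ^ (2 * a + b + 4 * k) * Real.exp (-(l2 * n * ‖z‖)))) := by
    refine Ng.sum _ fun a _ => Ng.sum _ fun b _ => ?_
    exact (Ng.pow (k := k) (p := a + 1) (q := 2 * a + b + 4 * k) (by omega) hl20 S).const_mul
      (by positivity)
  have h3 := (Ng.pow (k := k) (p := 3) (q := 4 * k + 2) (by omega) hl20 S).const_mul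
    (show 0 ≤ 2 * Ct * κ * ‖e‖ * ‖m0‖ * r⁻¹ by positivity)
  refine ((h1.add h2).add h3).mono fun n hn z hz => ?_
  obtain ⟨hz, hzr⟩ := hz
  have hz0 : 0 < ‖z‖ := norm_pos_iff.mpr (zb_ne_zero hz)
  have hn0 : (0 : ℝ) < n := by exact_mod_cast hn
  have hlogn := zo_log_nat hn
  set t := ‖z‖ with ht
  have hrt : 1 ≤ (r ^ (2 * k))⁻¹ * t ^ (2 * k) := by
    rw [inv_mul_eq_div, one_le_div (by positivity)]
    exact pow_le_pow_left₀ hr.le hzr.le _
  have hrt1 : 1 ≤ r⁻¹ * t := by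
    rw [inv_mul_eq_div, one_le_div hr]; exact hzr.le
  refine (norm_sub_le _ _).trans ?_
  rw [add_assoc]
  refine add_le_add ?_ ?_
  · refine (hF n hn z hz).trans ?_
    have := mul_le_mul_of_nonneg_left hrt (show 0 ≤ 6 * Ct * κ * n * t ^ (2 * k) *
      Real.exp (-(cc * n * t)) by positivity)
    rw [← ht]
    have e1 : 6 * Ct * κ * n * t ^ (2 * k) * Real.exp (-(cc * n * t)) *
        ((r ^ (2 * k))⁻¹ * t ^ (2 * k)) = 6 * Ct * κ * (r ^ (2 * k))⁻¹ * ((n : ℝ) ^ 1 *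
        t ^ (4 * k) * Real.exp (-(cc * n * t))) := by ring
    linarith
  · have hK : ‖zoK lam n z‖ ≤ Ct / t * Real.exp (-(l2 * n * t)) := by
      have := zi_kernel_bd (l := lam * n) hC hCt (by positivity) hz
      unfold zoK
      refine this.trans (le_of_eq ?_)
      rw [← ht]
      congr 2
      rw [hl2]; ring
    set G := Real.exp (-(l2 * n * t)) with hG
    have hT : ‖zoT k n e m0 c z‖ ≤ ∑ a ∈ Finset.range (2 * k), ∑ b ∈ Finset.range (2 * k),
        ‖c a b‖ * (n : ℝ) ^ a * t ^ (2 * a + b) + (n : ℝ) ^ 2 * ‖e‖ * t ^ (2 * k + 1) * ‖m0‖ := by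
      unfold zoT
      refine (norm_add_le _ _).trans (add_le_add ?_ ?_)
      · refine (norm_sum_le _ _).trans (Finset.sum_le_sum fun a _ => ?_)
        refine (norm_sum_le _ _).trans (Finset.sum_le_sum fun b _ => le_of_eq ?_)
        rw [norm_mul, norm_mul, norm_pow, norm_pow, Complex.norm_natCast]
      · rw [norm_mul, norm_mul, norm_mul, norm_mul, norm_pow, Complex.norm_natCast,
          Complex.norm_real, Real.norm_eq_abs, abs_of_nonneg hlogn.1, ← ht]
        have := mul_le_mul_of_nonneg_left hlogn.2 (show 0 ≤ (n : ℝ) * ‖e‖ * t ^ (2 * k + 1) * ‖m0‖ by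
          positivity)
        linarith
    have hM : ‖zoMod k n lam κ e m0 c z‖ ≤ (Ct / t * G) * (2 * (n * κ * t ^ (2 * k + 1)) *
        (∑ a ∈ Finset.range (2 * k), ∑ b ∈ Finset.range (2 * k),
        ‖c a b‖ * (n : ℝ) ^ a * t ^ (2 * a + b) + (n : ℝ) ^ 2 * ‖e‖ * t ^ (2 * k + 1) * ‖m0‖)) := by
      unfold zoMod
      rw [norm_mul, norm_neg, Complex.norm_I, one_mul, norm_mul, norm_mul, norm_pow, norm_neg,
        norm_one, one_pow, one_mul, norm_mul, norm_mul, Complex.norm_ofNat, norm_mul, norm_mul,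
        norm_pow, Complex.norm_natCast, Complex.norm_real, Real.norm_eq_abs, abs_of_nonneg hκ, ← ht]
      apply mul_le_mul hK _ (by positivity) (by positivity)
      exact mul_le_mul_of_nonneg_left hT (by positivity)
    refine hM.trans ?_
    have e1 : (Ct / t * G) * (2 * (n * κ * t ^ (2 * k + 1)) *
        (∑ a ∈ Finset.range (2 * k), ∑ b ∈ Finset.range (2 * k),
        ‖c a b‖ * (n : ℝ) ^ a * t ^ (2 * a + b) + (n : ℝ) ^ 2 * ‖e‖ * t ^ (2 * k + 1) * ‖m0‖)) =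
        ∑ a ∈ Finset.range (2 * k), ∑ b ∈ Finset.range (2 * k), 2 * Ct * κ * ‖c a b‖ *
          ((n : ℝ) ^ (a + 1) * t ^ (2 * a + b + 2 * k) * G) +
        2 * Ct * κ * ‖e‖ * ‖m0‖ * ((n : ℝ) ^ 3 * t ^ (4 * k + 1) * G) := by
      have e2 : (Ct / t * G) * (2 * (n * κ * t ^ (2 * k + 1)) *
        (∑ a ∈ Finset.range (2 * k), ∑ b ∈ Finset.range (2 * k),
        ‖c a b‖ * (n : ℝ) ^ a * t ^ (2 * a + b) + (n : ℝ) ^ 2 * ‖e‖ * t ^ (2 * k + 1) * ‖m0‖)) =
        2 * Ct * κ * n * t ^ (2 * k) * G * (∑ a ∈ Finset.range (2 * k),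
          ∑ b ∈ Finset.range (2 * k),
        ‖c a b‖ * (n : ℝ) ^ a * t ^ (2 * a + b) + (n : ℝ) ^ 2 * ‖e‖ * t ^ (2 * k + 1) * ‖m0‖) := by
        rw [pow_succ t (2 * k)]; field_simp
      rw [e2, mul_add, Finset.mul_sum]
      congr 1
      · refine Finset.sum_congr rfl fun a _ => ?_
        rw [Finset.mul_sum]
        refine Finset.sum_congr rfl fun b _ => ?_
        ring
      · ring
    rw [e1]
    refine add_le_add ?_ ?_
    · refine Finset.sum_le_sum fun a _ => Finset.sum_le_sum fun b _ => ?_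
      have := mul_le_mul_of_nonneg_left hrt (show 0 ≤ 2 * Ct * κ * ‖c a b‖ *
          ((n : ℝ) ^ (a + 1) * t ^ (2 * a + b + 2 * k) * G) by positivity)
      have e3 : 2 * Ct * κ * ‖c a b‖ * ((n : ℝ) ^ (a + 1) * t ^ (2 * a + b + 2 * k) * G) *
          ((r ^ (2 * k))⁻¹ * t ^ (2 * k)) = 2 * Ct * κ * ‖c a b‖ * (r ^ (2 * k))⁻¹ *
          ((n : ℝ) ^ (a + 1) * t ^ (2 * a + b + 4 * k) * G) := by ring
      linarith
    · have := mul_le_mul_of_nonneg_left hrt1 (show 0 ≤ 2 * Ct * κ * ‖e‖ * ‖m0‖ *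
          ((n : ℝ) ^ 3 * t ^ (4 * k + 1) * G) by positivity)
      have e3 : 2 * Ct * κ * ‖e‖ * ‖m0‖ * ((n : ℝ) ^ 3 * t ^ (4 * k + 1) * G) * (r⁻¹ * t) =
          2 * Ct * κ * ‖e‖ * ‖m0‖ * r⁻¹ * ((n : ℝ) ^ 3 * t ^ (4 * k + 2) * G) := by ring
      linarith

theorem zo_cpow {k : ℕ} {α : ℝ} (hα : α = 2 * k + 1) (z : ℂ) : z ^ (α : ℂ) = z ^ (2 * k + 1) := by
  have : (α : ℂ) = ((2 * k + 1 : ℕ) : ℂ) := by rw [hα]; push_cast; ring
  rw [this, Complex.cpow_natCast]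

theorem zo_rpow {k : ℕ} {α : ℝ} (hα : α = 2 * k + 1) (t : ℝ) : t ^ (α - 1) = t ^ (2 * k) := by
  have : α - 1 = ((2 * k : ℕ) : ℝ) := by rw [hα]; push_cast; ring
  rw [this, Real.rpow_natCast]

theorem zo_main_ng {k : ℕ} {α δ y0 c : ℝ} (hk : 1 ≤ k) (hα : α = 2 * k + 1) (hδ : 0 < δ)
    (hδ' : δ < 1 / 2) (hG : Geo α δ y0 c) (hN : Near0 α) (i j : Fin 2) :
    ∃ cc : ℕ → ℕ → ℂ, cc 0 0 = zM0 i j ∧
      Ng k UH (fun n z => ‖W0 α n y0 z i j - zoMod k n (2 * α / (α - 1)) (kap α)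
        (2 * Complex.I * ((Nat.centralBinom k : ℂ) / 4 ^ k)) (zM0 i j) cc z‖) := by
  obtain ⟨r0, P, d, e, hr0, hP, hP0, hP1, -, he, hN⟩ := hN
  have he' := he k hk hα
  have hk' : (1 : ℝ) ≤ k := by exact_mod_cast hk
  have hα1 : 1 < α := by rw [hα]; linarith
  have hα2 : 0 < α - 1 := by linarith
  have hα0 : 0 < α := by linarith
  rw [← he']
  obtain ⟨Ct, hC0, hC⟩ := ztau_bd
  have hκ := za_kap_pos hα1
  set κ := kap α with hκd
  set lam := 2 * α / (α - 1) with hlam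
  have hlam0 : 0 < lam := by positivity
  set η := lam / 4 with hη
  have hη0 : 0 < η := by positivity
  have hc := hG.c_pos
  -- analytic functions
  set R := min r0 1 with hR
  have hR0 : 0 < R := lt_min hr0 one_pos
  have hRr : R ≤ r0 := min_le_left _ _
  have hR1 : R ≤ 1 := min_le_right _ _
  set P2 := dslope (dslope P 0) 0 with hP2
  have hP2d : DifferentiableOn ℂ P2 (Metric.ball 0 R) := by
    have h1 : DifferentiableOn ℂ (dslope P 0) (Metric.ball 0 r0) :=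
      (Complex.differentiableOn_dslope (Metric.ball_mem_nhds 0 hr0)).2 hP
    have h2 : DifferentiableOn ℂ P2 (Metric.ball 0 r0) :=
      (Complex.differentiableOn_dslope (Metric.ball_mem_nhds 0 hr0)).2 h1
    exact h2.mono (Metric.ball_subset_ball hRr)
  have hPe : ∀ z : ℂ, P z = -(Complex.I * lam) * z + z ^ 2 * P2 z := by
    intro z
    have h1 := sub_smul_dslope P 0 z
    have h2 := sub_smul_dslope (dslope P 0) 0 z
    rw [sub_zero, smul_eq_mul] at h1 h2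
    rw [dslope_same, hP1] at h2
    rw [hP0, sub_zero] at h1
    rw [hP2, ← h1]
    have h3 : dslope P 0 z = z * dslope (dslope P 0) 0 z + -(2 * Complex.I * (α / (α - 1))) := by
      rw [h2]; ring
    rw [h3, hlam]
    push_cast
    ring
  have hgd : ∀ a : ℕ, DifferentiableOn ℂ (fun z => (-P2 z) ^ a / (a.factorial : ℂ) * zoM z i j)
      (Metric.ball 0 R) := fun a =>
    ((hP2d.neg.pow a).div_const _).mul ((zoM_diff i j).mono (Metric.ball_subset_ball hR1))
  choose cc C hcc0 hCnn hcc using fun a => zo_taylor (2 * k) hR0 (hgd a)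
  obtain ⟨cB, B, -, hB0, hB⟩ := zo_taylor 0 hR0 hP2d
  have hB' : ∀ z : ℂ, ‖z‖ ≤ R / 2 → ‖P2 z‖ ≤ B := by
    intro z hz
    have := hB z hz
    simpa using this
  refine ⟨cc, ?_, ?_⟩
  · rw [hcc0 0, zoM_zero]; simp
  -- radius
  have hy0 := hG.y0_pos
  set U := ‖d‖ + 5 * ‖e‖ with hU
  have hU0 : 0 ≤ U := by positivity
  set r' := min (R / 2) (min (y0 / 2) (η / (B + U + κ))) with hr'
  have hden : 0 < B + U + κ := by positivity
  have hr'0 : 0 < r' := lt_min (by positivity) (lt_min (by positivity) (by positivity))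
  have hr'R : r' ≤ R / 2 := min_le_left _ _
  have hr'y : r' ≤ y0 / 2 := (min_le_right _ _).trans (min_le_left _ _)
  have hr'η : r' * (B + U + κ) ≤ η := by
    have : r' ≤ η / (B + U + κ) := (min_le_right _ _).trans (min_le_right _ _)
    rwa [le_div_iff₀ hden] at this
  have hfar := zo_ng_far (k := k) (Ct := Ct) (κ := κ) (cc := c) (lam := lam) (r := r') (e := e)
    (m0 := zM0 i j) (c := cc) hk hC0 hC hκ.le hc hlam0 hr'0 (F := fun n z => W0 α n y0 z i j)
    (by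
      intro n hn z hz
      have h := za_W0_entry_bd hα1 hδ hδ' hG hC0 hC n hz i j
      rw [zo_rpow hα] at h
      refine h.trans (le_of_eq ?_)
      ring)
  have hnear : Ng k {z | z ∈ UH ∧ ‖z‖ ≤ r'} (fun n z => ‖W0 α n y0 z i j -
      zoMod k n lam κ e (zM0 i j) cc z‖) := by
    obtain ⟨M, c', hM, hc', hb⟩ := zo_ng_near (k := k) hk (Ct := Ct) (κ := κ) (U := U) (B := B)
      (D := ‖d‖) (E := ‖e‖) (η := η) (C := C) hC0.le hκ.le hU0 hB0 (norm_nonneg _) (norm_nonneg _)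
      hη0 hCnn
    have hng : Ng k {z | z ∈ UH ∧ ‖z‖ ≤ r'} (fun n z => Ct / ‖z‖ * Real.exp (-(η * n * ‖z‖)) *
      (6 * κ ^ 2 * (n : ℝ) ^ 2 * ‖z‖ ^ (4 * k + 2) +
        2 * κ * n * ‖z‖ ^ (2 * k + 1) * zoX k n ‖z‖ U B ‖d‖ ‖e‖ C)) :=
      ⟨M, c', hM, hc', fun n hn z hz => hb n hn z hz.1⟩
    refine hng.mono fun n hn z hz => ?_
    obtain ⟨hz, hzr⟩ := hz
    have hn0 : (0 : ℝ) < n := by exact_mod_cast hn
    have hz0 : 0 < ‖z‖ := norm_pos_iff.mpr (zb_ne_zero hz)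
    have hzR : ‖z‖ ≤ R / 2 := hzr.trans hr'R
    have hz2 : ‖z‖ ≤ 1 / 2 := by linarith
    have hX0 : 0 ≤ zoX k n ‖z‖ U B ‖d‖ ‖e‖ C := by
      unfold zoX
      have : 0 ≤ ∑ a ∈ Finset.range (2 * k), C a * ((n : ℝ) ^ a * ‖z‖ ^ (2 * a + 2 * k)) :=
        Finset.sum_nonneg fun a _ => mul_nonneg (hCnn a) (by positivity)
      positivity
    rcases le_or_gt z.im |z.re| with h1 | h1
    · have e1 : qfun α n y0 z = 0 := za_q_zero hG hz (Or.inl h1)
      have e2 : W0 α n y0 z i j = 0 := by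
        rw [W0_eq, e1, mul_zero, zero_smul]; rfl
      have e3 : zoMod k n lam κ e (zM0 i j) cc z = 0 := by
        unfold zoMod zoK
        rw [ztau_zero hz h1]; ring
      rw [e2, e3, sub_zero, norm_zero]
      positivity
    · have hy : 0 < z.im := hz
      have him : z.im ≤ ‖z‖ := by
        have := Complex.abs_im_le_norm z
        rwa [abs_of_pos hy] at this
      have hrho : rho (z.im / y0) = 1 := by
        apply za_rho_one
        rw [div_le_iff₀ hy0]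
        linarith
      have hzlt : ‖z‖ < r0 := by linarith
      have hNz := hN z hz hzlt
      rw [zo_cpow hα] at hNz
      have hexp : Complex.exp (-(2 * n * gfun α z) + n * ell α) =
          (-1 : ℂ) ^ n * Complex.exp (Complex.I * ((lam * n : ℝ) : ℂ) * z) *
          Complex.exp (-(n * z ^ 2 * P2 z) + (-(n * d * z ^ (2 * k + 1)) -
        n * e * z ^ (2 * k + 1) * Complex.log z)) := by
        have e1 : (-1 : ℂ) ^ n = Complex.exp (-(n * (Real.pi * Complex.I))) := by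
          have : Complex.exp (-(n * (Real.pi * Complex.I))) =
              Complex.exp (-(Real.pi * Complex.I)) ^ n := by
            rw [← Complex.exp_nat_mul]; congr 1; ring
          rw [this, Complex.exp_neg, Complex.exp_pi_mul_I]
          norm_num
        rw [e1, ← Complex.exp_add, ← Complex.exp_add]
        congr 1
        have e2 : -(2 * (n : ℂ) * gfun α z) + n * ell α = -(n * (2 * gfun α z - ell α)) := by ring
        rw [e2, hNz, hPe z]
        push_cast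
        ring
      have hneg : (-z) ^ (α : ℂ) = -z ^ (2 * k + 1) := by
        rw [zo_cpow hα, Odd.neg_pow ⟨k, rfl⟩]
      have hW : W0 α n y0 z i j = -Complex.I * ((-1) ^ n * zoK lam n z *
          (Complex.exp (-(n * z ^ 2 * P2 z) + (-(n * d * z ^ (2 * k + 1)) -
        n * e * z ^ (2 * k + 1) * Complex.log z)) *
          (Complex.exp (n * κ * z ^ (2 * k + 1)) - Complex.exp (-(n * κ * z ^ (2 * k + 1)))) *
          zM z i j)) := by
        rw [W0_eq, Matrix.smul_apply, smul_eq_mul, za_q_eq, hrho, hexp, hneg, zo_cpow hα,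
          Complex.ofReal_one]
        unfold zoK
        have : (n : ℂ) * (κ : ℂ) * -z ^ (2 * k + 1) = -(n * κ * z ^ (2 * k + 1)) := by ring
        rw [← hκd, this]
        ring
      have hdiff : W0 α n y0 z i j - zoMod k n lam κ e (zM0 i j) cc z =
          -Complex.I * ((-1) ^ n * zoK lam n z *
          (Complex.exp (-(n * z ^ 2 * P2 z) + (-(n * d * z ^ (2 * k + 1)) -
        n * e * z ^ (2 * k + 1) * Complex.log z)) *
          (Complex.exp (n * κ * z ^ (2 * k + 1)) - Complex.exp (-(n * κ * z ^ (2 * k + 1)))) *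
          zM z i j - 2 * (n * κ * z ^ (2 * k + 1)) * (∑ a ∈ Finset.range (2 * k),
            ∑ b ∈ Finset.range (2 * k),
        cc a b * (n : ℂ) ^ a * z ^ (2 * a + b) + n * e * Real.log n * z ^ (2 * k + 1) * zM0 i j))) := by
        rw [hW]; unfold zoMod zoT; ring
      rw [hdiff, norm_mul, norm_neg, Complex.norm_I, one_mul, norm_mul, norm_mul, norm_pow, norm_neg,
        norm_one, one_pow, one_mul]
      have hmz : zM z i j = zoM z i j := by rw [zoM_eq hz (by linarith)]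
      have hpt := zo_near_pt (k := k) (n := n) hk hn (z := z) (p2 := P2 z) (d := d) (e := e)
        (m := zM z i j) (m0 := zM0 i j) (κ := κ) (B := B) (r := r') (η := η) (c := cc) (C := C)
        hz0 hzr (by linarith) hκ.le (hB' z hzR) (zM_bd hz hz2 i j) (zM_near hz hz2 i j) hr'η
        (fun a _ => by rw [hmz]; exact hcc a z hzR) hCnn
      have hK : ‖zoK lam n z‖ ≤ Ct / ‖z‖ * Real.exp (-(lam / 2 * n * ‖z‖)) := by
        have := zi_kernel_bd (l := lam * n) hC hC0 (by positivity) hz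
        unfold zoK
        refine this.trans (le_of_eq ?_)
        congr 2
        ring
      refine (mul_le_mul hK hpt (norm_nonneg _) (by positivity)).trans (le_of_eq ?_)
      have hee : Real.exp (-(lam / 2 * n * ‖z‖)) * Real.exp (η * n * ‖z‖) =
          Real.exp (-(η * n * ‖z‖)) := by
        rw [← Real.exp_add]; congr 1; rw [hη]; ring
      rw [← hee]
      ring
  have hun := hnear.union hfar
  have hset : UH = {z | z ∈ UH ∧ ‖z‖ ≤ r'} ∪ {z | z ∈ UH ∧ r' < ‖z‖} := by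
    ext z
    constructor
    · intro hz
      rcases le_or_gt ‖z‖ r' with h | h
      · exact Or.inl ⟨hz, h⟩
      · exact Or.inr ⟨hz, h⟩
    · rintro (h | h)
      · exact h.1
      · exact h.1
  rw [← hset] at hun
  exact hun

end Pool.Agent.FreudM
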