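import Mathlib
import Pool.Agent.FreudM.ZeroOddC
import Pool.Agent.Freud.GBasic

/-!
FM3 of MP_6cbd85_an: the zero part at odd integers.
-/

set_option autoImplicit false

open MeasureTheory Filter Topology Asymptotics Set

namespace Pool.Agent.FreudM

open Pool.Agent.Freud

/-! ### integrals of the model -/

/-- the constants of the model integrals -/
noncomputable def zoG (lam : ℝ) (m : ℕ) : ℂ :=
  1 / 2 * Complex.exp (Complex.I * (Real.pi / 2) * m) * ((m.factorial / lam ^ (m + 1) : ℝ) : ℂ)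

theorem zo_zF (m n : ℕ) (lam : ℝ) (z : ℂ) : zF (m : ℝ) (lam * n) z = z ^ m * zoK lam n z := by
  unfold zF zoK
  rw [Complex.ofReal_natCast, Complex.cpow_natCast]
  ring

theorem zo_int {m n : ℕ} (hm : 1 ≤ m) (hn : 1 ≤ n) {lam : ℝ} (hl : 0 < lam) :
    IntegrableOn (fun z => z ^ m * zoK lam n z) UH ∧
      ∫ z in UH, z ^ m * zoK lam n z = zoG lam m / (n : ℂ) ^ (m + 1) := by
  have hn0 : (0 : ℝ) < n := by exact_mod_cast hn
  have hm0 : (0 : ℝ) < m := by exact_mod_cast hm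
  have hln : 0 < lam * n := by positivity
  have e : (fun z => z ^ m * zoK lam n z) = zF (m : ℝ) (lam * n) := by
    funext z; rw [zo_zF]
  refine ⟨by rw [e]; exact zF_int hm0 hln, ?_⟩
  have e2 : ∫ z in UH, z ^ m * zoK lam n z = ∫ z in UH, zF (m : ℝ) (lam * n) z := by rw [e]
  rw [e2, zF_integral hm0 hln, Real.Gamma_nat_eq_factorial]
  have e3 : (lam * n : ℝ) ^ (-((m : ℝ) + 1)) = (lam ^ (m + 1) * (n : ℝ) ^ (m + 1))⁻¹ := by
    rw [Real.rpow_neg hln.le, ← mul_pow]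
    congr 1
    rw [← Real.rpow_natCast]
    congr 1
    push_cast
    ring
  rw [e3]
  unfold zoG
  push_cast
  rw [mul_inv]
  field_simp

theorem zo_int_mod {k n : ℕ} (hk : 1 ≤ k) (hn : 1 ≤ n) {lam κ : ℝ} (hl : 0 < lam) (e m0 : ℂ)
    (c : ℕ → ℕ → ℂ) :
    IntegrableOn (zoMod k n lam κ e m0 c) UH ∧
    ∫ z in UH, zoMod k n lam κ e m0 c z = (-1) ^ n / (n : ℂ) ^ (2 * k + 1) *
      (∑ a ∈ Finset.range (2 * k), ∑ b ∈ Finset.range (2 * k),
        (-(2 * Complex.I * κ * c a b * zoG lam (2 * k + 1 + (2 * a + b)))) / (n : ℂ) ^ (a + b) +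
        (-(2 * Complex.I * κ * e * m0 * zoG lam (4 * k + 2))) * Real.log n / (n : ℂ) ^ (2 * k)) := by
  have hn0 : (n : ℂ) ≠ 0 := by
    have : n ≠ 0 := by omega
    exact_mod_cast this
  have e1 : zoMod k n lam κ e m0 c = fun z =>
      ∑ a ∈ Finset.range (2 * k), ∑ b ∈ Finset.range (2 * k),
        (-Complex.I * (-1) ^ n * 2 * κ * c a b * (n : ℂ) ^ (a + 1)) *
          (z ^ (2 * k + 1 + (2 * a + b)) * zoK lam n z) +
        (-Complex.I * (-1) ^ n * 2 * κ * e * m0 * Real.log n * (n : ℂ) ^ 2) *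
          (z ^ (4 * k + 2) * zoK lam n z) := by
    funext z
    unfold zoMod zoT
    rw [mul_add, mul_add, mul_add, Finset.mul_sum, Finset.mul_sum, Finset.mul_sum]
    congr 1
    · refine Finset.sum_congr rfl fun a _ => ?_
      rw [Finset.mul_sum, Finset.mul_sum, Finset.mul_sum]
      refine Finset.sum_congr rfl fun b _ => ?_
      ring
    · ring
  have i1 : ∀ a b : ℕ, IntegrableOn (fun z =>
      (-Complex.I * (-1) ^ n * 2 * κ * c a b * (n : ℂ) ^ (a + 1)) *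
          (z ^ (2 * k + 1 + (2 * a + b)) * zoK lam n z)) UH := fun a b =>
    (zo_int (m := 2 * k + 1 + (2 * a + b)) (by omega) hn hl).1.const_mul _
  have i2 : IntegrableOn (fun z =>
      (-Complex.I * (-1) ^ n * 2 * κ * e * m0 * Real.log n * (n : ℂ) ^ 2) *
          (z ^ (4 * k + 2) * zoK lam n z)) UH :=
    (zo_int (m := 4 * k + 2) (by omega) hn hl).1.const_mul _
  have i3 : ∀ a : ℕ, IntegrableOn (fun z => ∑ b ∈ Finset.range (2 * k),
      (-Complex.I * (-1) ^ n * 2 * κ * c a b * (n : ℂ) ^ (a + 1)) *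
          (z ^ (2 * k + 1 + (2 * a + b)) * zoK lam n z)) UH := fun a =>
    integrable_finsetSum _ fun b _ => i1 a b
  have i4 : IntegrableOn (fun z => ∑ a ∈ Finset.range (2 * k), ∑ b ∈ Finset.range (2 * k),
      (-Complex.I * (-1) ^ n * 2 * κ * c a b * (n : ℂ) ^ (a + 1)) *
          (z ^ (2 * k + 1 + (2 * a + b)) * zoK lam n z)) UH :=
    integrable_finsetSum _ fun a _ => i3 a
  rw [e1]
  refine ⟨i4.add i2, ?_⟩
  rw [integral_add i4 i2, integral_finsetSum _ fun a _ => i3 a, integral_const_mul,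
    (zo_int (m := 4 * k + 2) (by omega) hn hl).2, mul_add, Finset.mul_sum]
  congr 1
  · refine Finset.sum_congr rfl fun a _ => ?_
    rw [integral_finsetSum _ fun b _ => i1 a b, Finset.mul_sum]
    refine Finset.sum_congr rfl fun b _ => ?_
    rw [integral_const_mul, (zo_int (m := 2 * k + 1 + (2 * a + b)) (by omega) hn hl).2]
    have e2 : (n : ℂ) ^ (2 * k + 1 + (2 * a + b) + 1) =
        (n : ℂ) ^ (2 * k + 1) * (n : ℂ) ^ (a + b) * (n : ℂ) ^ (a + 1) := by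
      rw [← pow_add, ← pow_add]; congr 1; ring
    rw [e2]
    field_simp
  · have e2 : (n : ℂ) ^ (4 * k + 2 + 1) = (n : ℂ) ^ (2 * k + 1) * (n : ℂ) ^ (2 * k) * (n : ℂ) ^ 2 := by
      rw [← pow_add, ← pow_add]; congr 1; ring
    rw [e2]
    field_simp

/-! ### expansions in powers of `1 / n` -/

/-- `x n` is a polynomial in `1 / n` without constant term up to `O (n ^ (-(K + 1)))` -/
def PE (K : ℕ) (x : ℕ → ℂ) : Prop :=
  ∃ (X : ℕ → ℂ) (C : ℝ), ∀ n : ℕ, 1 ≤ n →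
    ‖x n - ∑ j ∈ Finset.range K, X j / (n : ℂ) ^ (j + 1)‖ ≤ C / (n : ℝ) ^ (K + 1)

theorem PE.of_bound {K : ℕ} {x : ℕ → ℂ} {C : ℝ}
    (h : ∀ n : ℕ, 1 ≤ n → ‖x n‖ ≤ C / (n : ℝ) ^ (K + 1)) : PE K x :=
  ⟨fun _ => 0, C, fun n hn => by simpa using h n hn⟩

theorem PE.add {K : ℕ} {x y : ℕ → ℂ} (hx : PE K x) (hy : PE K y) : PE K (fun n => x n + y n) := by
  obtain ⟨X, C, h⟩ := hx
  obtain ⟨Y, D, h'⟩ := hy
  refine ⟨fun j => X j + Y j, C + D, fun n hn => ?_⟩
  have e : x n + y n - ∑ j ∈ Finset.range K, (X j + Y j) / (n : ℂ) ^ (j + 1) =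
      (x n - ∑ j ∈ Finset.range K, X j / (n : ℂ) ^ (j + 1)) +
      (y n - ∑ j ∈ Finset.range K, Y j / (n : ℂ) ^ (j + 1)) := by
    simp only [add_div]
    rw [Finset.sum_add_distrib]
    ring
  rw [e, add_div]
  exact (norm_add_le _ _).trans (add_le_add (h n hn) (h' n hn))

theorem PE.zero (K : ℕ) : PE K (fun _ => 0) := PE.of_bound (C := 0) fun n _ => by simp

theorem PE.sum {ι : Type*} {K : ℕ} (s : Finset ι) {x : ι → ℕ → ℂ} (h : ∀ a ∈ s, PE K (x a)) :
    PE K (fun n => ∑ a ∈ s, x a n) := by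
  classical
  induction s using Finset.induction_on with
  | empty => simpa using PE.zero K
  | insert a s ha ih =>
    have h1 := (h a (Finset.mem_insert_self a s)).add
      (ih fun b hb => h b (Finset.mem_insert_of_mem hb))
    have e : (fun n => ∑ b ∈ insert a s, x b n) = fun n => x a n + ∑ b ∈ s, x b n := by
      funext n; rw [Finset.sum_insert ha]
    rw [e]; exact h1

theorem PE.single {K m : ℕ} (hm : 1 ≤ m) (c : ℂ) : PE K (fun n => c / (n : ℂ) ^ m) := by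
  by_cases h : m ≤ K
  · refine ⟨fun j => if j = m - 1 then c else 0, 0, fun n hn => ?_⟩
    have e : ∑ j ∈ Finset.range K, (if j = m - 1 then c else 0) / (n : ℂ) ^ (j + 1) =
        c / (n : ℂ) ^ m := by
      rw [Finset.sum_eq_single (m - 1)]
      · rw [if_pos rfl]; congr 2; omega
      · intro j _ hj; rw [if_neg hj, zero_div]
      · intro hj; exact absurd (Finset.mem_range.2 (by omega)) hj
    rw [e, sub_self, norm_zero, zero_div]
  · refine PE.of_bound (C := ‖c‖) fun n hn => ?_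
    have hn1 : (1 : ℝ) ≤ n := by exact_mod_cast hn
    rw [norm_div, norm_pow, Complex.norm_natCast]
    exact div_le_div_of_nonneg_left (norm_nonneg _) (by positivity)
      (pow_le_pow_right₀ hn1 (by omega))

/-! ### the constants -/

theorem zo_const0 {k : ℕ} {α : ℝ} (hk : 1 ≤ k) (hα : α = 2 * k + 1) (m0 : ℂ) :
    -(2 * Complex.I * (kap α : ℂ) * m0 * zoG (2 * α / (α - 1)) (2 * k + 1)) =
      ((Real.pi * bco α : ℝ) : ℂ) * m0 := by
  have hk' : (1 : ℝ) ≤ k := by exact_mod_cast hk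
  have hα2 : 0 < α - 1 := by rw [hα]; linarith
  have hα0 : 0 < α := by linarith
  have hpi := Real.pi_pos
  have e1 : Complex.exp (Complex.I * (Real.pi / 2) * ((2 * k + 1 : ℕ) : ℂ)) =
      Complex.I * (-1) ^ k := by
    have : Complex.I * (Real.pi / 2) * ((2 * k + 1 : ℕ) : ℂ) =
        (k : ℂ) * (Real.pi * Complex.I) + Real.pi / 2 * Complex.I := by push_cast; ring
    rw [this, Complex.exp_add, Complex.exp_nat_mul, Complex.exp_pi_mul_I,
      Complex.exp_pi_div_two_mul_I]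
    ring
  have e2 : Real.sin (Real.pi * α / 2) = (-1) ^ k := by
    have : Real.pi * α / 2 = Real.pi / 2 + k * Real.pi := by rw [hα]; ring
    rw [this, Real.sin_add_nat_mul_pi, Real.sin_pi_div_two, mul_one]
  have e3 : Real.Gamma (α + 1) = ((2 * k + 1).factorial : ℝ) := by
    rw [← Real.Gamma_nat_eq_factorial]; congr 1; rw [hα]; push_cast; ring
  have e4 : ((α - 1) / (2 * α)) ^ (α + 1) = 1 / (2 * α / (α - 1)) ^ (2 * k + 1 + 1) := by
    have h1 : α + 1 = ((2 * k + 1 + 1 : ℕ) : ℝ) := by rw [hα]; push_cast; ring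
    rw [h1, Real.rpow_natCast, one_div, ← inv_pow, inv_div]
  have hL : 0 < 2 * α / (α - 1) := by positivity
  unfold zoG bco
  rw [e1, e2, e3, e4]
  generalize 2 * α / (α - 1) = L at hL
  have hL' : (L : ℂ) ≠ 0 := by exact_mod_cast hL.ne'
  have hpc : (Real.pi : ℂ) ≠ 0 := by exact_mod_cast hpi.ne'
  push_cast
  have e5 : (kap α : ℂ) * (-1) ^ k * ((2 * k + 1).factorial : ℂ) * (1 / (L : ℂ) ^ (2 * k + 1 + 1)) /
      Real.pi * Real.pi = (kap α : ℂ) * (-1) ^ k * ((2 * k + 1).factorial : ℂ) *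
      (1 / (L : ℂ) ^ (2 * k + 1 + 1)) := div_mul_cancel₀ _ hpc
  rw [mul_comm (Real.pi : ℂ), e5]
  linear_combination (-(kap α : ℂ) * m0 * (-1) ^ k * ((2 * k + 1).factorial : ℂ) *
    (1 / (L : ℂ) ^ (2 * k + 1 + 1))) * Complex.I_sq

theorem zo_constL {k : ℕ} {α : ℝ} (hk : 1 ≤ k) (hα : α = 2 * k + 1) (m0 : ℂ) :
    -(2 * Complex.I * (kap α : ℂ) * (2 * Complex.I * ((Nat.centralBinom k : ℂ) / 4 ^ k)) * m0 *
      zoG (2 * α / (α - 1)) (4 * k + 2)) =
      ((Real.pi * bco α * Lr k : ℝ) : ℂ) * m0 := by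
  have hk' : (1 : ℝ) ≤ k := by exact_mod_cast hk
  have hα2 : 0 < α - 1 := by rw [hα]; linarith
  have hα0 : 0 < α := by linarith
  have hpi := Real.pi_pos
  have e1 : Complex.exp (Complex.I * (Real.pi / 2) * ((4 * k + 2 : ℕ) : ℂ)) = -1 := by
    have : Complex.I * (Real.pi / 2) * ((4 * k + 2 : ℕ) : ℂ) =
        ((2 * k + 1 : ℕ) : ℂ) * (Real.pi * Complex.I) := by push_cast; ring
    rw [this, Complex.exp_nat_mul, Complex.exp_pi_mul_I, Odd.neg_one_pow ⟨k, rfl⟩]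
  have e2 : Real.sin (Real.pi * α / 2) = (-1) ^ k := by
    have : Real.pi * α / 2 = Real.pi / 2 + k * Real.pi := by rw [hα]; ring
    rw [this, Real.sin_add_nat_mul_pi, Real.sin_pi_div_two, mul_one]
  have e3 : Real.Gamma (α + 1) = ((2 * k + 1).factorial : ℝ) := by
    rw [← Real.Gamma_nat_eq_factorial]; congr 1; rw [hα]; push_cast; ring
  have e3' : Real.Gamma ((2 * k + 1 : ℝ) + 1) = ((2 * k + 1).factorial : ℝ) := by
    rw [← hα, e3]
  have e4 : ((α - 1) / (2 * α)) ^ (α + 1) = 1 / (2 * α / (α - 1)) ^ (2 * k + 1 + 1) := by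
    have h1 : α + 1 = ((2 * k + 1 + 1 : ℕ) : ℝ) := by rw [hα]; push_cast; ring
    rw [h1, Real.rpow_natCast, one_div, ← inv_pow, inv_div]
  have e6 : Real.Gamma (2 * (2 * k + 1 : ℝ) + 1) = ((4 * k + 2).factorial : ℝ) := by
    rw [← Real.Gamma_nat_eq_factorial]; congr 1; push_cast; ring
  have e7 : (2 * (2 * k + 1) / (2 * k) : ℝ) = 2 * α / (α - 1) := by rw [hα]; congr 1; ring
  have hL : 0 < 2 * α / (α - 1) := by positivity
  unfold zoG bco Lr
  rw [e1, e2, e3, e4, e3', e6, e7]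
  generalize 2 * α / (α - 1) = L at hL
  have hf : ((2 * k + 1).factorial : ℝ) ≠ 0 := by positivity
  have key : Real.pi * (kap α * (-1) ^ k * ((2 * k + 1).factorial : ℝ) *
      (1 / L ^ (2 * k + 1 + 1)) / Real.pi) *
      (-(2 * ((Nat.centralBinom k : ℝ) / 4 ^ k) * ((4 * k + 2).factorial : ℝ) * (-1) ^ k /
        (((2 * k + 1).factorial : ℝ) * L ^ (2 * k + 1)))) =
      -(2 * kap α * ((Nat.centralBinom k : ℝ) / 4 ^ k) * (((4 * k + 2).factorial : ℝ) /
        L ^ (4 * k + 2 + 1))) := by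
    have h1 : ((-1 : ℝ) ^ k) * (-1) ^ k = 1 := by rw [← mul_pow]; norm_num
    have h2 : L ^ (4 * k + 2 + 1) = L ^ (2 * k + 1 + 1) * L ^ (2 * k + 1) := by
      rw [← pow_add]; congr 1; ring
    have h3 : Real.pi * (kap α * (-1) ^ k * ((2 * k + 1).factorial : ℝ) *
      (1 / L ^ (2 * k + 1 + 1)) / Real.pi) = kap α * (-1) ^ k * ((2 * k + 1).factorial : ℝ) *
      (1 / L ^ (2 * k + 1 + 1)) := by field_simp
    rw [h3, h2]
    have h4 : kap α * (-1) ^ k * ((2 * k + 1).factorial : ℝ) * (1 / L ^ (2 * k + 1 + 1)) *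
        (-(2 * ((Nat.centralBinom k : ℝ) / 4 ^ k) * ((4 * k + 2).factorial : ℝ) * (-1) ^ k /
        (((2 * k + 1).factorial : ℝ) * L ^ (2 * k + 1)))) =
        -(2 * kap α * ((Nat.centralBinom k : ℝ) / 4 ^ k) * (((4 * k + 2).factorial : ℝ) /
          (L ^ (2 * k + 1 + 1) * L ^ (2 * k + 1)))) * (((-1 : ℝ) ^ k) * (-1) ^ k) *
          (((2 * k + 1).factorial : ℝ) / ((2 * k + 1).factorial : ℝ)) := by
      simp only [div_eq_mul_inv, mul_inv, one_mul]
      ring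
    rw [h4, h1, div_self hf, mul_one, mul_one]
  rw [key]
  push_cast
  linear_combination (2 * (kap α : ℂ) * ((Nat.centralBinom k : ℂ) / 4 ^ k) * m0 *
    (((4 * k + 2).factorial : ℂ) / (L : ℂ) ^ (4 * k + 2 + 1))) * Complex.I_sq

/-! ### assembly -/

theorem zo_entry {k : ℕ} {α δ y0 c : ℝ} (hk : 1 ≤ k) (hα : α = 2 * k + 1) (hδ : 0 < δ)
    (hδ' : δ < 1 / 2) (hG : Geo α δ y0 c) (hN : Near0 α) (i j : Fin 2) :
    ∃ (X : ℕ → ℂ) (C : ℝ), ∀ n : ℕ, 1 ≤ n →
      ‖(∫ z in UH, W0 α n y0 z i j) -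
        (((-1) ^ n * (Real.pi * (bco α * ((n : ℝ) ^ (-α) +
          Lr k * Real.log n * (n : ℝ) ^ (1 - 2 * α)))) : ℝ) : ℂ) * zM0 i j -
        ∑ l ∈ Finset.range (2 * k - 1), (((-1) ^ n * (n : ℝ) ^ (-α - (l + 1)) : ℝ) : ℂ) * X l‖ ≤
      C * (n : ℝ) ^ (1 - 2 * α) := by
  obtain ⟨cc, hcc0, hng⟩ := zo_main_ng hk hα hδ hδ' hG hN i j
  set m0 := zM0 i j with hm0
  set κ := kap α with hκ
  set lam := 2 * α / (α - 1) with hlam
  set e : ℂ := 2 * Complex.I * ((Nat.centralBinom k : ℂ) / 4 ^ k) with he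
  have hk' : (1 : ℝ) ≤ k := by exact_mod_cast hk
  have hα2 : 0 < α - 1 := by rw [hα]; linarith
  have hα0 : 0 < α := by linarith
  have hα1 : 1 < α := by linarith
  have hlam0 : 0 < lam := by positivity
  obtain ⟨C1, hC1, hint⟩ := hng.integral hk
  have hg : ContinuousOn (gfun α) UH :=
    fun z hz => (gfun_hasDerivAt α hα1 z hz).continuousAt.continuousWithinAt
  -- the model coefficients
  set Xab : ℕ → ℕ → ℂ := fun a b =>
    -(2 * Complex.I * κ * cc a b * zoG lam (2 * k + 1 + (2 * a + b))) with hXab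
  have hX0 : Xab 0 0 = ((Real.pi * bco α : ℝ) : ℂ) * m0 := by
    rw [hXab]
    simp only [hcc0]
    have := zo_const0 (k := k) hk hα m0
    rw [← hκ, ← hlam] at this
    simpa using this
  have hY := zo_constL (k := k) hk hα m0
  rw [← hκ, ← hlam, ← he] at hY
  -- the remaining terms
  have hPE : PE (2 * k - 1) (fun n => ((-1) ^ n * (n : ℂ) ^ (2 * k + 1)) *
      ((∫ z in UH, W0 α n y0 z i j) - ∫ z in UH, zoMod k n lam κ e m0 cc z) +
      ∑ p ∈ (Finset.range (2 * k) ×ˢ Finset.range (2 * k)).erase (0, 0),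
        Xab p.1 p.2 / (n : ℂ) ^ (p.1 + p.2)) := by
    refine PE.add ?_ (PE.sum _ fun p hp => PE.single ?_ _)
    · refine PE.of_bound (C := C1) fun n hn => ?_
      have hn0 : (0 : ℝ) < n := by exact_mod_cast hn
      have h1 : (∫ z in UH, W0 α n y0 z i j) - ∫ z in UH, zoMod k n lam κ e m0 cc z =
          ∫ z in UH, (W0 α n y0 z i j - zoMod k n lam κ e m0 cc z) := by
        rw [integral_sub (za_W0_int hα1 hδ hδ' hG hg hn i j) (zo_int_mod hk hn hlam0 e m0 cc).1]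
      rw [h1, norm_mul, norm_mul, norm_pow, norm_neg, norm_one, one_pow, one_mul, norm_pow,
        Complex.norm_natCast]
      refine (mul_le_mul_of_nonneg_left (hint n hn) (by positivity)).trans (le_of_eq ?_)
      have e1 : (n : ℝ) ^ (4 * k + 1) = (n : ℝ) ^ (2 * k + 1) * (n : ℝ) ^ (2 * k - 1 + 1) := by
        rw [← pow_add]; congr 1; omega
      rw [e1]
      field_simp
    · rw [Finset.mem_erase] at hp
      by_contra hcon
      apply hp.1
      have h1 : p.1 = 0 := by omega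
      have h2 : p.2 = 0 := by omega
      exact Prod.ext h1 h2
  obtain ⟨X, C, hXC⟩ := hPE
  refine ⟨X, C, fun n hn => ?_⟩
  have hn0 : (0 : ℝ) < n := by exact_mod_cast hn
  have hnc : (n : ℂ) ≠ 0 := by exact_mod_cast hn0.ne'
  have h := hXC n hn
  beta_reduce at h
  have hmod : ∫ z in UH, zoMod k n lam κ e m0 cc z = (-1) ^ n / (n : ℂ) ^ (2 * k + 1) *
      (∑ a ∈ Finset.range (2 * k), ∑ b ∈ Finset.range (2 * k), Xab a b / (n : ℂ) ^ (a + b) +
        (-(2 * Complex.I * κ * e * m0 * zoG lam (4 * k + 2))) * Real.log n / (n : ℂ) ^ (2 * k)) :=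
    (zo_int_mod hk hn hlam0 e m0 cc).2
  rw [hmod] at h
  have hsum : ∑ a ∈ Finset.range (2 * k), ∑ b ∈ Finset.range (2 * k),
      Xab a b / (n : ℂ) ^ (a + b) = ((Real.pi * bco α : ℝ) : ℂ) * m0 +
      ∑ p ∈ (Finset.range (2 * k) ×ˢ Finset.range (2 * k)).erase (0, 0),
        Xab p.1 p.2 / (n : ℂ) ^ (p.1 + p.2) := by
    rw [← Finset.sum_product' (Finset.range (2 * k)) (Finset.range (2 * k))
      (fun a b => Xab a b / (n : ℂ) ^ (a + b))]
    have hmem : ((0, 0) : ℕ × ℕ) ∈ Finset.range (2 * k) ×ˢ Finset.range (2 * k) := by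
      rw [Finset.mem_product, Finset.mem_range]
      exact ⟨by omega, by omega⟩
    rw [← Finset.add_sum_erase _ _ hmem]
    simp only [hX0, add_zero, pow_zero, div_one]
  rw [hY] at h
  rw [hsum] at h
  -- powers
  have p1 : (n : ℝ) ^ (-α) = 1 / (n : ℝ) ^ (2 * k + 1) := by
    rw [Real.rpow_neg hn0.le, one_div]
    congr 1
    rw [← Real.rpow_natCast]; congr 1; rw [hα]; push_cast; ring
  have p2 : (n : ℝ) ^ (1 - 2 * α) = 1 / (n : ℝ) ^ (4 * k + 1) := by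
    have : 1 - 2 * α = -((4 * k + 1 : ℕ) : ℝ) := by rw [hα]; push_cast; ring
    rw [this, Real.rpow_neg hn0.le, one_div, Real.rpow_natCast]
  have p3 : ∀ l : ℕ, (n : ℝ) ^ (-α - (l + 1)) = 1 / ((n : ℝ) ^ (2 * k + 1) * (n : ℝ) ^ (l + 1)) := by
    intro l
    have : -α - ((l : ℝ) + 1) = -((2 * k + 1 + (l + 1) : ℕ) : ℝ) := by rw [hα]; push_cast; ring
    rw [this, Real.rpow_neg hn0.le, one_div, Real.rpow_natCast, pow_add]
  have p4 : (n : ℝ) ^ (4 * k + 1) = (n : ℝ) ^ (2 * k + 1) * (n : ℝ) ^ (2 * k) := by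
    rw [← pow_add]; congr 1; ring
  have p4c : (n : ℂ) ^ (4 * k + 1) = (n : ℂ) ^ (2 * k + 1) * (n : ℂ) ^ (2 * k) := by
    rw [← pow_add]; congr 1; ring
  have hone : ((-1 : ℂ) ^ n) * (-1) ^ n = 1 := by rw [← mul_pow]; norm_num
  set J := ∫ z in UH, W0 α n y0 z i j with hJ
  set S := ∑ p ∈ (Finset.range (2 * k) ×ˢ Finset.range (2 * k)).erase (0, 0),
        Xab p.1 p.2 / (n : ℂ) ^ (p.1 + p.2) with hS
  have hkey : J - (((-1) ^ n * (Real.pi * (bco α * ((n : ℝ) ^ (-α) +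
          Lr k * Real.log n * (n : ℝ) ^ (1 - 2 * α)))) : ℝ) : ℂ) * m0 -
        ∑ l ∈ Finset.range (2 * k - 1), (((-1) ^ n * (n : ℝ) ^ (-α - (l + 1)) : ℝ) : ℂ) * X l =
      ((-1) ^ n / (n : ℂ) ^ (2 * k + 1)) * ((-1) ^ n * (n : ℂ) ^ (2 * k + 1) *
        (J - (-1) ^ n / (n : ℂ) ^ (2 * k + 1) * ((((Real.pi * bco α : ℝ) : ℂ) * m0 + S) +
          ((Real.pi * bco α * Lr k : ℝ) : ℂ) * m0 * Real.log n / (n : ℂ) ^ (2 * k))) + S -
        ∑ l ∈ Finset.range (2 * k - 1), X l / (n : ℂ) ^ (l + 1)) := by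
    have hs : ∑ l ∈ Finset.range (2 * k - 1),
        (((-1) ^ n * (n : ℝ) ^ (-α - (l + 1)) : ℝ) : ℂ) * X l =
        ((-1) ^ n / (n : ℂ) ^ (2 * k + 1)) *
        ∑ l ∈ Finset.range (2 * k - 1), X l / (n : ℂ) ^ (l + 1) := by
      rw [Finset.mul_sum]
      refine Finset.sum_congr rfl fun l _ => ?_
      rw [p3 l]
      push_cast
      field_simp
    rw [hs, p1, p2]
    push_cast
    rw [p4c]
    have hnk : (n : ℂ) ^ (2 * k + 1) ≠ 0 := pow_ne_zero _ hnc
    have e1 : (-1 : ℂ) ^ n / (n : ℂ) ^ (2 * k + 1) * ((-1) ^ n * (n : ℂ) ^ (2 * k + 1)) = 1 := by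
      rw [div_mul_eq_mul_div, ← mul_assoc, hone, one_mul, div_self hnk]
    rw [mul_sub ((-1 : ℂ) ^ n / (n : ℂ) ^ (2 * k + 1)), mul_add ((-1 : ℂ) ^ n / (n : ℂ) ^ (2 * k + 1)),
      ← mul_assoc ((-1 : ℂ) ^ n / (n : ℂ) ^ (2 * k + 1)), e1, one_mul]
    field_simp
    ring
  rw [hkey, norm_mul]
  have hn1 : ‖((-1 : ℂ) ^ n / (n : ℂ) ^ (2 * k + 1))‖ = 1 / (n : ℝ) ^ (2 * k + 1) := by
    rw [norm_div, norm_pow, norm_neg, norm_one, one_pow, norm_pow, Complex.norm_natCast]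
  rw [hn1, p2, p4]
  refine (mul_le_mul_of_nonneg_left h (by positivity)).trans (le_of_eq ?_)
  have e5 : 2 * k - 1 + 1 = 2 * k := by omega
  rw [e5]
  field_simp

/-- Target FM3. -/
theorem target_zero_odd : Target_zero_odd := by
  intro k α δ y0 c hk hα hδ hδ' hG hN
  choose X C hXC using fun i j => zo_entry hk hα hδ hδ' hG hN i j
  refine ⟨fun l => Matrix.of fun i j => ((2 / Real.pi * (X i j l).re : ℝ) : ℂ),
    2 / Real.pi * (C 0 0 + C 0 1 + C 1 0 + C 1 1), fun n hn => ?_⟩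
  have hpi := Real.pi_pos
  have hentry : ∀ i j : Fin 2, ‖((2 / Real.pi : ℂ) • reM (IU (W0 α n y0)) -
      (((-1) ^ n * (bco α * ((n : ℝ) ^ (-α) + Lr k * Real.log n * (n : ℝ) ^ (1 - 2 * α))) : ℝ) : ℂ) •
        (!![0, 1; 1, 0] : Mat2) -
      ∑ l ∈ Finset.range (2 * k - 1), (((-1) ^ n * (n : ℝ) ^ (-α - (l + 1)) : ℝ) : ℂ) •
        (Matrix.of fun i j => ((2 / Real.pi * (X i j l).re : ℝ) : ℂ))) i j‖ ≤
      2 / Real.pi * (C i j * (n : ℝ) ^ (1 - 2 * α)) := by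
    intro i j
    have h := hXC i j n hn
    set T : ℂ := ∫ z in UH, W0 α n y0 z i j with hT
    set β : ℝ := bco α * ((n : ℝ) ^ (-α) + Lr k * Real.log n * (n : ℝ) ^ (1 - 2 * α)) with hβ
    have e1 : ((2 / Real.pi : ℂ) • reM (IU (W0 α n y0)) - (((-1) ^ n * β : ℝ) : ℂ) •
        (!![0, 1; 1, 0] : Mat2) -
      ∑ l ∈ Finset.range (2 * k - 1), (((-1) ^ n * (n : ℝ) ^ (-α - (l + 1)) : ℝ) : ℂ) •
        (Matrix.of fun i j => ((2 / Real.pi * (X i j l).re : ℝ) : ℂ))) i j =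
        ((2 / Real.pi * (T - (((-1) ^ n * (Real.pi * β) : ℝ) : ℂ) * zM0 i j -
          ∑ l ∈ Finset.range (2 * k - 1),
            (((-1) ^ n * (n : ℝ) ^ (-α - (l + 1)) : ℝ) : ℂ) * X i j l).re : ℝ) : ℂ) := by
      rw [Complex.sub_re, Complex.sub_re, Complex.re_ofReal_mul, Complex.re_sum]
      simp only [Complex.re_ofReal_mul]
      rw [Matrix.sub_apply, Matrix.sub_apply, Matrix.smul_apply, Matrix.smul_apply,
        Matrix.sum_apply]
      have hr2 : reM (IU (W0 α n y0)) i j = ((T.re : ℝ) : ℂ) := rfl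
      rw [hr2, smul_eq_mul, smul_eq_mul]
      have hP : ((!![0, 1; 1, 0] : Mat2) i j) = ((2 * (zM0 i j).re : ℝ) : ℂ) := by
        fin_cases i <;> fin_cases j <;> simp [zM0]
      have hs : ∑ l ∈ Finset.range (2 * k - 1),
          ((((-1) ^ n * (n : ℝ) ^ (-α - (l + 1)) : ℝ) : ℂ) •
            (Matrix.of fun i j => ((2 / Real.pi * (X i j l).re : ℝ) : ℂ)) : Mat2) i j =
          ((2 / Real.pi * ∑ l ∈ Finset.range (2 * k - 1),
            ((-1) ^ n * (n : ℝ) ^ (-α - (l + 1))) * (X i j l).re : ℝ) : ℂ) := by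
        rw [Finset.mul_sum, Complex.ofReal_sum]
        refine Finset.sum_congr rfl fun l _ => ?_
        rw [Matrix.smul_apply, Matrix.of_apply, smul_eq_mul, ← Complex.ofReal_mul]
        congr 1
        ring
      rw [hP, hs]
      have hpc : (Real.pi : ℂ) ≠ 0 := by exact_mod_cast hpi.ne'
      rw [mul_sub, mul_sub, Complex.ofReal_sub, Complex.ofReal_sub]
      congr 1
      push_cast
      field_simp
    rw [e1, Complex.norm_real, Real.norm_eq_abs, abs_mul, abs_of_pos (by positivity)]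
    apply mul_le_mul_of_nonneg_left _ (by positivity)
    exact (Complex.abs_re_le_norm _).trans h
  unfold nm
  have a := hentry 0 0
  have b := hentry 0 1
  have c := hentry 1 0
  have d := hentry 1 1
  have e : 2 / Real.pi * (C 0 0 + C 0 1 + C 1 0 + C 1 1) * (n : ℝ) ^ (1 - 2 * α) =
      2 / Real.pi * (C 0 0 * (n : ℝ) ^ (1 - 2 * α)) + 2 / Real.pi * (C 0 1 * (n : ℝ) ^ (1 - 2 * α)) +
      2 / Real.pi * (C 1 0 * (n : ℝ) ^ (1 - 2 * α)) + 2 / Real.pi * (C 1 1 * (n : ℝ) ^ (1 - 2 * α)) := by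
    ring
  rw [e]
  exact add_le_add (add_le_add (add_le_add a b) c) d

end Pool.Agent.FreudM
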