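import Pool.Agent.FreudM.NonOdd
import Pool.Agent.FreudM.NotExpE
import Pool.Agent.FreudM.ZeroOdd

/-!
# Odd integers `α`: a logarithmic oscillating term
-/

set_option autoImplicit false

open MeasureTheory Filter Topology Set
open scoped Pointwise

namespace Pool.Agent.FreudM

open Pool.Agent.Freud

variable {α y0 r c C : ℝ} {n0 : ℕ} {A : Set ℂ} {w : ℕ → ℂ → Mat2} {We Wx : ℕ → ℂ → Mat2}
  {R : ℕ → ℂ → Mat2}

/-- Smooth scales. -/
def SmS (α : ℝ) (s : ℕ → ℝ) : Prop := ∃ (p : ℝ) (q : ℕ), 0 ≤ p ∧ (1 ≤ q → α ≤ p) ∧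
  ∀ᶠ n : ℕ in atTop, s n = (n : ℝ) ^ (-p) * Real.log n ^ q

/-- Oscillating scales. -/
def OsS (α : ℝ) (s : ℕ → ℝ) : Prop := ∃ t : ℝ, α ≤ t ∧
  ∀ᶠ n : ℕ in atTop, s n = (-1) ^ n * (n : ℝ) ^ (-t)

/-- The scales used at odd integers. -/
def GS (α : ℝ) : Set (ℕ → ℝ) := {s | SmS α s ∨ OsS α s ∨ BO (2 * α - 1) s}

lemma SmS.mul {s t : ℕ → ℝ} (hs : SmS α s) (ht : SmS α t) : SmS α (s * t) := by
  obtain ⟨p, q, hp, hq, h⟩ := hs
  obtain ⟨p', q', hp', hq', h'⟩ := ht
  refine ⟨p + p', q + q', by linarith, fun h1 => ?_, ?_⟩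
  · rcases Nat.eq_zero_or_pos q with h0 | h0
    · have := hq' (by omega)
      linarith
    · have := hq h0
      linarith
  · filter_upwards [h, h', eventually_ge_atTop 1] with n e1 e2 hn
    have hn0 : (0 : ℝ) < n := by exact_mod_cast hn
    rw [Pi.mul_apply, e1, e2, neg_add, Real.rpow_add hn0, pow_add]
    ring

lemma OsS.mul {s t : ℕ → ℝ} (hα : 0 ≤ α) (hs : OsS α s) (ht : OsS α t) : SmS α (s * t) := by
  obtain ⟨p, hp, h⟩ := hs
  obtain ⟨p', hp', h'⟩ := ht
  refine ⟨p + p', 0, by linarith, fun h1 => by omega, ?_⟩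
  filter_upwards [h, h', eventually_ge_atTop 1] with n e1 e2 hn
  have hn0 : (0 : ℝ) < n := by exact_mod_cast hn
  rw [Pi.mul_apply, e1, e2, neg_add, Real.rpow_add hn0, pow_zero, mul_one]
  have : ((-1 : ℝ) ^ n) * (-1) ^ n = 1 := by
    rw [← pow_add, ← two_mul, pow_mul]
    simp
  linear_combination ((n : ℝ) ^ (-p) * (n : ℝ) ^ (-p')) * this

/-- Oscillating scales with a logarithm are negligible. -/
lemma osc_log {p : ℝ} {q : ℕ} (hp : 2 * α ≤ p) :
    BO (2 * α - 1) (fun n => (-1) ^ n * ((n : ℝ) ^ (-p) * Real.log n ^ q)) := by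
  have := BO_sgn.mul (BO_log (show 2 * α - 1 < p by linarith) q)
  rw [zero_add] at this
  exact this.congr (Eventually.of_forall fun n => by ring)

lemma SmS.mul_OsS {s t : ℕ → ℝ} (hs : SmS α s) (ht : OsS α t) :
    OsS α (s * t) ∨ BO (2 * α - 1) (s * t) := by
  obtain ⟨p, q, hp, hq, h⟩ := hs
  obtain ⟨p', hp', h'⟩ := ht
  rcases Nat.eq_zero_or_pos q with h0 | h0
  · subst h0
    refine Or.inl ⟨p + p', by linarith, ?_⟩
    filter_upwards [h, h', eventually_ge_atTop 1] with n e1 e2 hn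
    have hn0 : (0 : ℝ) < n := by exact_mod_cast hn
    rw [Pi.mul_apply, e1, e2, neg_add, Real.rpow_add hn0, pow_zero, mul_one]
    ring
  · refine Or.inr ((osc_log (α := α) (p := p + p') (q := q)
      (by have := hq h0; linarith)).congr ?_)
    filter_upwards [h, h', eventually_ge_atTop 1] with n e1 e2 hn
    have hn0 : (0 : ℝ) < n := by exact_mod_cast hn
    rw [Pi.mul_apply, e1, e2, neg_add, Real.rpow_add hn0]
    ring

lemma SmS.bo (hα : 1 < α) {s : ℕ → ℝ} (hs : SmS α s) : BO 0 s := by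
  obtain ⟨p, q, hp, hq, h⟩ := hs
  rcases Nat.eq_zero_or_pos q with h0 | h0
  · subst h0
    refine ((BO_rpow p).mono hp).congr ?_
    filter_upwards [h] with n hn
    rw [hn, pow_zero, mul_one]
  · have := hq h0
    refine (BO_log (show 0 < p by linarith) q).congr ?_
    filter_upwards [h] with n hn
    rw [hn, mul_comm]

lemma OsS.bo {s : ℕ → ℝ} (hs : OsS α s) : BO α s := by
  obtain ⟨p, hp, h⟩ := hs
  have := (BO_sgn.mul (BO_rpow p)).mono (show α ≤ 0 + p by linarith)
  refine this.congr ?_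
  filter_upwards [h] with n hn
  rw [hn]

lemma Ord_GS (hα : 1 < α) : Ord (GS α) 0 := by
  rintro s (h | h | h)
  · exact h.bo hα
  · exact h.bo.mono (by linarith)
  · exact h.mono (by linarith)

lemma GS_mul (hα : 1 < α) {s t : ℕ → ℝ} (hs : s ∈ GS α) (ht : t ∈ GS α) : s * t ∈ GS α := by
  have hs0 : BO 0 s := Ord_GS hα s hs
  have ht0 : BO 0 t := Ord_GS hα t ht
  rcases hs with hs | hs | hs
  · rcases ht with ht | ht | ht
    · exact Or.inl (hs.mul ht)
    · exact Or.inr (hs.mul_OsS ht)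
    · refine Or.inr (Or.inr ?_)
      have := hs0.mul ht
      rw [zero_add] at this
      exact this
  · rcases ht with ht | ht | ht
    · rw [mul_comm]
      exact Or.inr (ht.mul_OsS hs)
    · exact Or.inl (hs.mul (by linarith) ht)
    · refine Or.inr (Or.inr ?_)
      have := hs0.mul ht
      rw [zero_add] at this
      exact this
  · refine Or.inr (Or.inr ?_)
    have := hs.mul ht0
    rw [add_zero] at this
    exact this

lemma one_mem_GS : (1 : ℕ → ℝ) ∈ GS α := by
  refine Or.inl ⟨0, 0, le_rfl, fun h => by omega, Eventually.of_forall fun n => ?_⟩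
  simp

/-- The smooth scales explicitly. -/
lemma Lam_rep (hα : 1 < α) {l : ℕ → ℝ} (hl : l ∈ Lam α) : ∃ (p : ℝ) (q : ℕ), 0 ≤ p ∧
    (α - 1) * q ≤ p ∧ ∀ᶠ n : ℕ in atTop, l n = (n : ℝ) ^ (-p) * Real.log n ^ q := by
  refine Submonoid.closure_induction (motive := fun l _ => ∃ (p : ℝ) (q : ℕ), 0 ≤ p ∧
    (α - 1) * q ≤ p ∧ ∀ᶠ n : ℕ in atTop, l n = (n : ℝ) ^ (-p) * Real.log n ^ q) ?_ ?_ ?_ hl
  · rintro s (rfl | rfl | ⟨rfl, -⟩)
    · exact ⟨1, 0, by norm_num, by simp, Eventually.of_forall fun n => by simp [sInv]⟩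
    · exact ⟨α - 1, 0, by linarith, by simpa using hα.le,
        Eventually.of_forall fun n => by simp [sPow]⟩
    · exact ⟨α - 1, 1, by linarith, by simp, Eventually.of_forall fun n => by simp [sLog]⟩
  · exact ⟨0, 0, le_rfl, by simp, Eventually.of_forall fun n => by simp⟩
  · rintro x y - - ⟨p, q, hp, hq, h⟩ ⟨p', q', hp', hq', h'⟩
    refine ⟨p + p', q + q', by linarith, by push_cast; linarith, ?_⟩
    filter_upwards [h, h', eventually_ge_atTop 1] with n e1 e2 hn
    have hn0 : (0 : ℝ) < n := by exact_mod_cast hn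
    rw [Pi.mul_apply, e1, e2, neg_add, Real.rpow_add hn0, pow_add]
    ring

lemma JD_sub_GS (hα : 1 < α) {s : ℕ → ℝ} (hs : s ∈ JD α) : s ∈ GS α := by
  rcases hs with ⟨p, hp, rfl⟩ | ⟨p, hp, rfl⟩
  · rcases hp with hp | ⟨l, hl, rfl⟩
    · obtain ⟨p', q, hp', hq, h⟩ := Lam_rep hα hp
      refine Or.inl ⟨p' + 1, q, by linarith, fun h1 => ?_, ?_⟩
      · have : (1 : ℝ) ≤ q := by exact_mod_cast h1
        nlinarith
      · filter_upwards [h, eventually_ge_atTop 1] with n e1 hn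
        have hn0 : (0 : ℝ) < n := by exact_mod_cast hn
        rw [Pi.mul_apply, e1, neg_add, Real.rpow_add hn0]
        unfold sInv
        ring
    · obtain ⟨p', q, hp', hq, h⟩ := Lam_rep hα hl
      rcases Nat.eq_zero_or_pos q with h0 | h0
      · subst h0
        refine Or.inr (Or.inl ⟨p' + α + 1, by linarith, ?_⟩)
        filter_upwards [h, eventually_ge_atTop 1] with n e1 hn
        have hn0 : (0 : ℝ) < n := by exact_mod_cast hn
        rw [Pi.mul_apply, Pi.mul_apply, e1, neg_add, neg_add, Real.rpow_add hn0,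
          Real.rpow_add hn0]
        unfold sInv osc
        ring
      · have h1 : (1 : ℝ) ≤ q := by exact_mod_cast h0
        refine Or.inr (Or.inr ((osc_log (α := α) (p := p' + α + 1) (q := q)
          (by nlinarith)).congr ?_))
        filter_upwards [h, eventually_ge_atTop 1] with n e1 hn
        have hn0 : (0 : ℝ) < n := by exact_mod_cast hn
        rw [Pi.mul_apply, Pi.mul_apply, e1, neg_add, neg_add, Real.rpow_add hn0,
          Real.rpow_add hn0]
        unfold sInv osc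
        ring
  · have h1 : BO 0 p := Ord_PB hα p hp
    have h2 : BO (α - 1) (sPow α) := BO_rpow (α - 1)
    refine Or.inr (Or.inr ?_)
    have := ((BO_sA α).mul h2).mul h1
    exact this.mono (by linarith)

/-- Explicit expansions with pure oscillating powers. -/
def Rep (S : ℝ) (f : ℕ → ℝ) : Prop := ∃ (I J : ℕ) (a p : Fin I → ℝ) (q : Fin I → ℕ)
  (b t : Fin J → ℝ), BO S (fun n => f n - ∑ i, a i * (n : ℝ) ^ (-(p i)) * (Real.log n) ^ (q i)
    - (-1) ^ n * ∑ j, b j * (n : ℝ) ^ (-(t j)))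

lemma Rep.of_BO {S : ℝ} {f : ℕ → ℝ} (h : BO S f) : Rep S f :=
  ⟨0, 0, Fin.elim0, Fin.elim0, Fin.elim0, Fin.elim0, Fin.elim0,
    h.congr (Eventually.of_forall fun n => by simp)⟩

lemma Rep.add {S : ℝ} {f g : ℕ → ℝ} (hf : Rep S f) (hg : Rep S g) :
    Rep S (fun n => f n + g n) := by
  obtain ⟨I, J, a, p, q, b, t, h⟩ := hf
  obtain ⟨I', J', a', p', q', b', t', h'⟩ := hg
  refine ⟨I + I', J + J', Fin.append a a', Fin.append p p', Fin.append q q', Fin.append b b',
    Fin.append t t', (h.add h').congr (Eventually.of_forall fun n => ?_)⟩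
  rw [Fin.sum_univ_add, Fin.sum_univ_add]
  simp only [Fin.append_left, Fin.append_right]
  ring

lemma Rep.congr {S : ℝ} {f g : ℕ → ℝ} (hf : Rep S f) (h : ∀ᶠ n : ℕ in atTop, f n = g n) :
    Rep S g := by
  obtain ⟨I, J, a, p, q, b, t, h1⟩ := hf
  refine ⟨I, J, a, p, q, b, t, h1.congr ?_⟩
  filter_upwards [h] with n hn
  rw [hn]

lemma Rep.of_GS {s : ℕ → ℝ} (hs : s ∈ GS α) (x : ℝ) :
    Rep (2 * α - 1) (fun n => s n * x) := by
  have hz : BO (2 * α - 1) (fun _ => (0 : ℝ)) := by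
    refine ⟨0, Eventually.of_forall fun n => by simp⟩
  rcases hs with ⟨p, q, -, -, h⟩ | ⟨t, -, h⟩ | h
  · refine ⟨1, 0, fun _ => x, fun _ => p, fun _ => q, Fin.elim0, Fin.elim0, hz.congr ?_⟩
    filter_upwards [h] with n hn
    simp [hn]
    ring
  · refine ⟨0, 1, Fin.elim0, Fin.elim0, Fin.elim0, fun _ => x, fun _ => t, hz.congr ?_⟩
    filter_upwards [h] with n hn
    simp [hn]
    ring
  · exact Rep.of_BO ((h.const_mul x).congr (Eventually.of_forall fun n => by ring))

lemma Rep.of_sums {p : ℕ → Unit → ℂ} (hp : p ∈ Sums (GS α) (fun _ : Unit => (1 : ℝ))) :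
    Rep (2 * α - 1) (fun n => (p n ()).re) := by
  refine AddSubmonoid.closure_induction
    (motive := fun p _ => Rep (2 * α - 1) (fun n => (p n ()).re)) ?_ ?_ ?_ hp
  · rintro f ⟨s, hs, x, -, rfl⟩
    refine (Rep.of_GS hs (x ()).re).congr (Eventually.of_forall fun n => ?_)
    simp
  · refine (Rep.of_BO (S := 2 * α - 1) (f := fun _ => 0) ⟨0, Eventually.of_forall fun n => by
      simp⟩).congr (Eventually.of_forall fun n => by simp)
  · rintro f g - - h1 h2
    exact (h1.add h2).congr (Eventually.of_forall fun n => by simp)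

lemma Rep.of_ExpS {f : ℕ → ℝ} (h : ExpS (GS α) (2 * α - 1) (fun n => ((f n : ℝ) : ℂ))) :
    Rep (2 * α - 1) f := by
  obtain ⟨p, hp, D, K, hD⟩ := h
  have h1 : BO (2 * α - 1) (fun n => f n - (p n ()).re) := by
    refine ⟨D, ?_⟩
    filter_upwards [hD] with n hn
    have := (Complex.abs_re_le_norm _).trans (hn () (mem_univ _))
    simpa using this
  exact ((Rep.of_BO h1).add (Rep.of_sums hp)).congr (Eventually.of_forall fun n => by ring)

lemma bco_ne_zero {k : ℕ} (hk : 1 ≤ k) (hα : α = 2 * k + 1) : bco α ≠ 0 := by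
  have hk' : (1 : ℝ) ≤ k := by exact_mod_cast hk
  have hα1 : 1 < α := by rw [hα]; linarith
  have h1 : Real.sin (Real.pi * α / 2) ≠ 0 := by
    rw [hα, show Real.pi * (2 * k + 1) / 2 = k * Real.pi + Real.pi / 2 by ring,
      Real.sin_add_pi_div_two, Real.cos_nat_mul_pi]
    exact pow_ne_zero _ (by norm_num)
  have h2 : 0 < kap α := by
    unfold kap
    have g1 := Real.Gamma_pos_of_pos (show 0 < (α + 1) / 2 by linarith)
    have g2 := Real.Gamma_pos_of_pos (show 0 < α / 2 by linarith)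
    have g3 := Real.sqrt_pos.2 Real.pi_pos
    positivity
  have h3 : 0 < Real.Gamma (α + 1) := Real.Gamma_pos_of_pos (by linarith)
  have h4 : 0 < ((α - 1) / (2 * α)) ^ (α + 1) := by
    apply Real.rpow_pos_of_pos
    have : 0 < α - 1 := by linarith
    positivity
  unfold bco
  exact div_ne_zero (mul_ne_zero (mul_ne_zero (mul_ne_zero h2.ne' h1) h3.ne') h4.ne')
    Real.pi_pos.ne'

lemma Lr_ne_zero {k : ℕ} (hk : 1 ≤ k) : Lr k ≠ 0 := by
  have hk' : (1 : ℝ) ≤ k := by exact_mod_cast hk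
  have h1 : (0 : ℝ) < Nat.centralBinom k := by exact_mod_cast Nat.centralBinom_pos k
  have h2 : 0 < Real.Gamma (2 * (2 * k + 1) + 1) := Real.Gamma_pos_of_pos (by positivity)
  have h3 : 0 < Real.Gamma ((2 * k + 1) + 1) := Real.Gamma_pos_of_pos (by positivity)
  have h4 : (0 : ℝ) < (2 * (2 * k + 1) / (2 * k)) ^ (2 * k + 1) := by positivity
  unfold Lr
  apply neg_ne_zero.2
  refine div_ne_zero (mul_ne_zero (mul_ne_zero (by positivity) h2.ne')
    (pow_ne_zero _ (by norm_num))) (mul_pos h3 h4).ne'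

/-- At odd integers no expansion of the form (E) exists. -/
theorem freud_not_expE {δ c' : ℝ} {k : ℕ} (hk : 1 ≤ k) (hαk : α = 2 * k + 1) (hδ : 0 < δ)
    (hδ' : δ < 1 / 2) (hG : Geo α δ y0 c') (hA : Asm α y0 r c C n0 A w We Wx)
    {p : ℕ → Polynomial ℝ} {a : ℕ → ℝ} (hF : IsFreud α p a) : ¬ ExpE (rfreud α a) := by
  have hk' : (1 : ℝ) ≤ k := by exact_mod_cast hk
  have hα : 1 < α := by rw [hαk]; linarith
  have hα3 : 3 ≤ α := by rw [hαk]; linarith
  obtain ⟨R, hRc, hRb, hR, hr⟩ := freud_R hα hA hF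
  obtain ⟨κ, r1, hM⟩ := md_of_asm hα hA hRc hRb hR
  obtain ⟨Z, D, hZ⟩ := target_zero_odd k α δ y0 c' hk hαk hδ hδ' hG (target_near0 α hα)
  set l : ℕ → ℝ := fun n => (-1) ^ n * (bco α * (Lr k * Real.log n * (n : ℝ) ^ (1 - 2 * α)))
    with hl
  have hS0 : (0 : ℝ) ≤ 2 * α - 1 := by linarith
  have hlB : BO (2 * α - 1 - 1) l := by
    have := (BO_sgn.mul (BO_log (show 2 * α - 1 - 1 < 2 * α - 1 by linarith) 1)).const_mul
      (bco α * Lr k)
    rw [zero_add] at this
    refine this.congr (Eventually.of_forall fun n => ?_)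
    simp only [hl]
    rw [pow_one, show -(2 * α - 1) = 1 - 2 * α by ring]
    ring
  have hlB1 : BO 1 l := hlB.mono (by linarith)
  -- the factors without the logarithmic term
  have hX : ∀ i j : Fin 2, (!![0, 1; 1, 0] : Mat2) i j = 1 → ExpS (GS α) (2 * α - 1)
      (fun n => ((4 / Real.pi * (tot R We (fun n => W0 α n y0) Wx n i j).re - 2 * l n : ℝ) : ℂ)) := by
    intro i j hij
    have h1 := (((hM.total (2 * α - 1) i j).mono_P' (P' := GS α)
      fun s hs => JD_sub_GS hα hs).re).const_mul ((4 / Real.pi : ℝ) : ℂ)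
    have h2 : BO (2 * α - 1) (fun n => 2 / Real.pi * (IU (W0 α n y0) i j).re -
        (-1) ^ n * (bco α * ((n : ℝ) ^ (-α) + Lr k * Real.log n * (n : ℝ) ^ (1 - 2 * α))) -
        ∑ m ∈ Finset.range (2 * k - 1), (-1) ^ n * (n : ℝ) ^ (-α - (m + 1)) * (Z m i j).re) := by
      refine ⟨D, ?_⟩
      filter_upwards [eventually_ge_atTop 1] with n hn
      have h2 := (Complex.abs_re_le_norm _).trans ((entry_le_nm _ i j).trans (hZ n hn))
      rw [Matrix.sub_apply, Matrix.sub_apply, Complex.sub_re, Complex.sub_re, re_smul_reM,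
        Matrix.smul_apply, smul_eq_mul, hij, mul_one, Complex.ofReal_re, Matrix.sum_apply,
        Complex.re_sum] at h2
      rw [show -(2 * α - 1) = 1 - 2 * α by ring]
      refine le_trans (le_of_eq ?_) h2
      congr 1
      congr 1
      refine Finset.sum_congr rfl fun m _ => ?_
      rw [Matrix.smul_apply, smul_eq_mul, Complex.re_ofReal_mul]
    have h3 : ExpS (GS α) (2 * α - 1) (fun n => ((2 / Real.pi * (IU (W0 α n y0) i j).re -
        (-1) ^ n * (bco α * ((n : ℝ) ^ (-α) + Lr k * Real.log n * (n : ℝ) ^ (1 - 2 * α))) -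
        ∑ m ∈ Finset.range (2 * k - 1), (-1) ^ n * (n : ℝ) ^ (-α - (m + 1)) * (Z m i j).re :
          ℝ) : ℂ)) := by
      obtain ⟨D', hD'⟩ := h2
      refine ExpTo.of_bound (C := D') (K := 0) ?_
      filter_upwards [hD'] with n hn _ _
      rw [Complex.norm_real, Real.norm_eq_abs, pow_zero, mul_one]
      exact hn
    have h4 : ∀ (t x : ℝ), α ≤ t → ExpS (GS α) (2 * α - 1)
        (fun n => (((-1) ^ n * (n : ℝ) ^ (-t) : ℝ) : ℂ) * ((x : ℝ) : ℂ)) := by
      intro t x ht
      exact ExpTo.of_gen (s := fun n : ℕ => (-1) ^ n * (n : ℝ) ^ (-t))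
        (Or.inr (Or.inl ⟨t, ht, Eventually.of_forall fun n => rfl⟩))
        (PolyGrowth.const ((x : ℝ) : ℂ))
    have h5 : ExpS (GS α) (2 * α - 1) (fun n => ∑ m ∈ Finset.range (2 * k - 1),
        (((-1) ^ n * (n : ℝ) ^ (-(α + (m + 1))) : ℝ) : ℂ) * (((Z m i j).re : ℝ) : ℂ)) :=
      ExpTo.sum one_le_unit _ _ fun m _ => h4 (α + (m + 1)) _ (by
        have : (0 : ℝ) ≤ m := Nat.cast_nonneg m
        linarith)
    have h6 := h4 α (bco α) le_rfl
    have h7 := h1.add (((h3.add h5).add h6).const_mul 2)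
    refine h7.congr' (Eventually.of_forall fun n => ?_)
    simp only [hl]
    have e : ∑ m ∈ Finset.range (2 * k - 1),
        (((-1) ^ n * (n : ℝ) ^ (-(α + (m + 1))) : ℝ) : ℂ) * (((Z m i j).re : ℝ) : ℂ) =
        ((∑ m ∈ Finset.range (2 * k - 1),
          (-1) ^ n * (n : ℝ) ^ (-α - (m + 1)) * (Z m i j).re : ℝ) : ℂ) := by
      rw [Complex.ofReal_sum]
      refine Finset.sum_congr rfl fun m _ => ?_
      rw [show -(α + ((m : ℝ) + 1)) = -α - (m + 1) by ring]
      push_cast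
      ring
    rw [e, Complex.sub_re]
    push_cast
    ring
  have hXB : ∀ i j : Fin 2, BO 1 (fun n =>
      4 / Real.pi * (tot R We (fun n => W0 α n y0) Wx n i j).re - 2 * l n) :=
    fun i j => ((tot_BO hM i j).const_mul _).sub (hlB1.const_mul 2)
  have hz : BO (2 * α - 1) (fun _ => (0 : ℝ)) := ⟨0, Eventually.of_forall fun n => by simp⟩
  set X : ℕ → ℝ := fun n => 4 / Real.pi * (tot R We (fun n => W0 α n y0) Wx n 0 1).re - 2 * l n
    with hXd
  set Y : ℕ → ℝ := fun n => 4 / Real.pi * (tot R We (fun n => W0 α n y0) Wx n 1 0).re - 2 * l n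
    with hYd
  have hX1 := hX 0 1 (by simp)
  have hY1 := hX 1 0 (by simp)
  have ht : ExpS (GS α) (2 * α - 1) (fun n => ((X n + Y n + X n * Y n : ℝ) : ℂ)) := by
    have h1 := hX1.add hY1
    have h2 := ExpS.mono_P' (P' := GS α) (by
      rintro s ⟨a, ha, b, hb, rfl⟩
      exact GS_mul hα ha hb) (hX1.mul (Ord_GS hα) (Ord_GS hα) hS0 hY1)
    refine (h1.add h2).congr' (Eventually.of_forall fun n => ?_)
    simp only [hXd, hYd]
    push_cast
    ring
  have htB : BO 1 (fun n => X n + Y n + X n * Y n) :=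
    ((hXB 0 1).add (hXB 1 0)).add (((hXB 0 1).mul (hXB 1 0)).mono (by norm_num))
  obtain ⟨C1, hC1⟩ := htB
  have hsq := ExpS.sqrt (M := GS α) one_mem_GS (fun p hp q hq => GS_mul hα hp hq) (Ord_GS hα) hS0
    (t := fun n => X n + Y n + X n * Y n) ht one_pos hC1
  have hcoef := coef_lemma (S := 2 * α - 1) (X := fun n => 4 / Real.pi *
      (tot R We (fun n => W0 α n y0) Wx n 0 1).re) (Y := fun n => 4 / Real.pi *
      (tot R We (fun n => W0 α n y0) Wx n 1 0).re) (X' := X) (Y' := Y) (l := l)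
      (r := rfreud α a) (by linarith) (hXB 0 1) (hXB 1 0) hlB hlB1
      (hz.congr (Eventually.of_forall fun n => by simp only [hXd]; ring))
      (hz.congr (Eventually.of_forall fun n => by simp only [hYd]; ring)) (by
        filter_upwards [eventually_ge_atTop n0] with n hn
        exact hr n hn)
  have hrep : Rep (2 * α - 1) (fun n => rfreud α a n - 2 * l n) :=
    ((Rep.of_BO hcoef).add (Rep.of_ExpS hsq)).congr (Eventually.of_forall fun n => by ring)
  obtain ⟨I, J, b1, p1, q1, b2, t2, hfin⟩ := hrep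
  refine target_not_expE (rfreud α a) (2 * α - 1) (2 * (bco α * Lr k)) I J b1 p1 q1 b2 t2
    (mul_ne_zero two_ne_zero (mul_ne_zero (bco_ne_zero hk hαk) (Lr_ne_zero hk)))
    (by linarith) ?_
  refine (hfin.congr (Eventually.of_forall fun n => ?_)).isBigO
  simp only [hl]
  rw [show -(2 * α - 1) = 1 - 2 * α by ring]
  ring

end Pool.Agent.FreudM
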