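import Pool.Agent.FreudM.Kernel

/-!
# The four blocks of the Cauchy operator
-/

set_option autoImplicit false

open MeasureTheory Filter Topology Set

namespace Pool.Agent.FreudM

/-- The weight `1 + ‖ζ‖`. -/
noncomputable def rho1 (z : ℂ) : ℝ := 1 + ‖z‖

/-- The trivial weight. -/
def one1 (_ : ℂ) : ℝ := 1

/-- Scaled half discs. -/
def Om (r1 : ℝ) (n : ℕ) : Set ℂ := {σ | 0 < σ.im ∧ ‖σ‖ ≤ r1 * n}

/-- Scaled full discs. -/
def Di (r1 : ℝ) (n : ℕ) : Set ℂ := {σ | ‖σ‖ ≤ r1 * n}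

/-- Integer powers of `1 / n`. -/
def pw : Set (ℕ → ℝ) := {s | ∃ k : ℕ, s = fun n : ℕ => (n : ℝ) ^ (-(k : ℝ))}

lemma one_le_rho1 (z : ℂ) : 1 ≤ rho1 z := by
  unfold rho1; linarith [norm_nonneg z]

lemma one_le_one1 (z : ℂ) : 1 ≤ one1 z := le_rfl

lemma measurableSet_Om (r1 : ℝ) (n : ℕ) : MeasurableSet (Om r1 n) := by
  unfold Om
  exact (measurableSet_lt measurable_const Complex.measurable_im).inter
    (measurableSet_le measurable_norm measurable_const)

lemma Ord_mono {P : Set (ℕ → ℝ)} {a b : ℝ} (h : Ord P a) (hab : b ≤ a) : Ord P b := by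
  intro s hs
  obtain ⟨C, hC⟩ := h s hs
  refine ⟨|C|, ?_⟩
  filter_upwards [hC, eventually_ge_atTop 1] with n hn h1
  have := rpow_neg_mono_aux h1 hab
  have h0 : (0 : ℝ) ≤ (n : ℝ) ^ (-a) := Real.rpow_nonneg (Nat.cast_nonneg n) _
  calc |s n| ≤ C * (n : ℝ) ^ (-a) := hn
    _ ≤ |C| * (n : ℝ) ^ (-a) := mul_le_mul_of_nonneg_right (le_abs_self _) h0
    _ ≤ |C| * (n : ℝ) ^ (-b) := by gcongr

open scoped Pointwise in
lemma Ord.mul {P Q : Set (ℕ → ℝ)} {a b : ℝ} (h : Ord P a) (h' : Ord Q b) : Ord (P * Q) (a + b) := by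
  rintro s ⟨p, hp, q, hq, rfl⟩
  obtain ⟨C, hC⟩ := h p hp
  obtain ⟨D, hD⟩ := h' q hq
  refine ⟨|C| * |D|, ?_⟩
  filter_upwards [hC, hD, eventually_ge_atTop 1] with n hn hn' h1
  have hn0 : (0 : ℝ) < n := by exact_mod_cast h1
  have e1 : ∀ t : ℝ, (0 : ℝ) ≤ (n : ℝ) ^ t := fun t => Real.rpow_nonneg hn0.le _
  have h3 : |p n| ≤ |C| * (n : ℝ) ^ (-a) :=
    hn.trans (mul_le_mul_of_nonneg_right (le_abs_self _) (e1 _))
  have h4 : |q n| ≤ |D| * (n : ℝ) ^ (-b) :=
    hn'.trans (mul_le_mul_of_nonneg_right (le_abs_self _) (e1 _))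
  calc |(p * q) n| = |p n| * |q n| := by rw [Pi.mul_apply, abs_mul]
    _ ≤ (|C| * (n : ℝ) ^ (-a)) * (|D| * (n : ℝ) ^ (-b)) := by
        have := e1 (-a)
        gcongr
    _ = |C| * |D| * ((n : ℝ) ^ (-a) * (n : ℝ) ^ (-b)) := by ring
    _ = |C| * |D| * (n : ℝ) ^ (-(a + b)) := by
        rw [← Real.rpow_add hn0]; congr 2; ring

lemma Ord_pw : Ord pw 0 := by
  rintro s ⟨k, rfl⟩
  refine ⟨1, ?_⟩
  filter_upwards [eventually_ge_atTop 1] with n h1
  have hn0 : (0 : ℝ) < n := by exact_mod_cast h1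
  rw [abs_of_nonneg (Real.rpow_nonneg hn0.le _), one_mul]
  exact Real.rpow_le_rpow_of_exponent_le (by exact_mod_cast h1)
    (by simp)

/-- Finite sums of expansions. -/
lemma ExpTo.sum {X : Type*} [MeasurableSpace X] {P : Set (ℕ → ℝ)} {Ω : ℕ → Set X} {ρ : X → ℝ}
    {T : ℝ} (hρ : ∀ x, 1 ≤ ρ x) {ι : Type*} (S : Finset ι) (u : ι → ℕ → X → ℂ)
    (h : ∀ i ∈ S, ExpTo P Ω ρ T (u i)) : ExpTo P Ω ρ T (fun n x => ∑ i ∈ S, u i n x) := by
  classical
  induction S using Finset.induction_on with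
  | empty => simpa using ExpTo.zero
  | insert i S hi ih =>
    have h1 := (h i (Finset.mem_insert_self i S)).add hρ
      (ih fun j hj => h j (Finset.mem_insert_of_mem hj))
    refine h1.congr (Eventually.of_forall fun n x _ => ?_)
    rw [Finset.sum_insert hi]

/-- Multiplication by a fixed scale and a fixed function. -/
lemma ExpTo.gen_mul {X : Type*} [MeasurableSpace X] {P Q : Set (ℕ → ℝ)} {Ω : ℕ → Set X} {ρ : X → ℝ}
    {T : ℝ} (hρ : ∀ x, 1 ≤ ρ x) {s : ℕ → ℝ} {a : ℝ} (hs : ∃ C : ℝ, ∀ᶠ n : ℕ in atTop,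
      |s n| ≤ C * (n : ℝ) ^ (-a)) {c : X → ℂ} (hc : PolyGrowth ρ c)
    (hPQ : ∀ p ∈ P, (fun n => s n * p n) ∈ Q) {u : ℕ → X → ℂ} (hu : ExpTo P Ω ρ T u) :
    ExpTo Q Ω ρ (T + a) (fun n x => (s n : ℂ) * c x * u n x) := by
  obtain ⟨p, hp, C, K, hC⟩ := hu
  obtain ⟨D, hD⟩ := hs
  obtain ⟨hcm, B, L, hB⟩ := hc
  refine ⟨fun n x => (s n : ℂ) * c x * p n x, ?_, |D| * |B| * |C|, K + L, ?_⟩
  · refine AddSubmonoid.closure_induction
      (motive := fun p _ => (fun n x => (s n : ℂ) * c x * p n x) ∈ Sums Q ρ) ?_ ?_ ?_ hp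
    · rintro f ⟨t, ht, d, hd, rfl⟩
      have := Gen_mem_Sums (P := Q) (ρ := ρ) (hPQ t ht)
        (PolyGrowth.mul hρ (c := c) ⟨hcm, B, L, hB⟩ hd)
      convert this using 3 with n x
      push_cast
      ring
    · simpa using Sums_zero
    · rintro p q - - h1 h2
      have := (Sums Q ρ).add_mem h1 h2
      convert this using 3 with n x
      simp only [Pi.add_apply]
      ring
  · filter_upwards [hC, hD, eventually_ge_atTop 1] with n hn hn' h1 x hx
    have h0 : 0 ≤ ρ x := le_trans zero_le_one (hρ x)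
    have hn0 : (0 : ℝ) < n := by exact_mod_cast h1
    have e1 : ∀ t : ℝ, (0 : ℝ) ≤ (n : ℝ) ^ t := fun t => Real.rpow_nonneg hn0.le _
    have e2 : ‖c x‖ ≤ |B| * ρ x ^ L :=
      (hB x).trans (mul_le_mul_of_nonneg_right (le_abs_self _) (pow_nonneg h0 _))
    have e3 : ‖u n x - p n x‖ ≤ |C| * (n : ℝ) ^ (-T) * ρ x ^ K := by
      refine (hn x hx).trans ?_
      have := e1 (-T)
      gcongr
      exact le_abs_self _
    have e4 : |s n| ≤ |D| * (n : ℝ) ^ (-a) :=
      hn'.trans (mul_le_mul_of_nonneg_right (le_abs_self _) (e1 _))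
    calc ‖(s n : ℂ) * c x * u n x - (s n : ℂ) * c x * p n x‖
        = |s n| * ‖c x‖ * ‖u n x - p n x‖ := by
          rw [← mul_sub, norm_mul, norm_mul, Complex.norm_real, Real.norm_eq_abs]
      _ ≤ (|D| * (n : ℝ) ^ (-a)) * (|B| * ρ x ^ L) * (|C| * (n : ℝ) ^ (-T) * ρ x ^ K) := by
          have := e1 (-a)
          have := e1 (-T)
          gcongr
      _ = |D| * |B| * |C| * ((n : ℝ) ^ (-a) * (n : ℝ) ^ (-T)) * ρ x ^ (K + L) := by
          rw [pow_add]; ring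
      _ = |D| * |B| * |C| * (n : ℝ) ^ (-(T + a)) * ρ x ^ (K + L) := by
          rw [← Real.rpow_add hn0]; congr 3; ring

section E

variable {A : Set ℂ} {r : ℝ} {Q : Set (ℕ → ℝ)} {T a : ℝ} {b : ℕ → ℂ → ℂ}

lemma indicator_le_cube (hA2 : ∀ s ∈ A, ‖s‖ ≤ 2) (s : ℂ) :
    A.indicator (fun _ => (1 : ℝ)) s ≤ 27 * (1 + ‖s‖) ^ (-3 : ℝ) := by
  by_cases hs : s ∈ A
  · rw [indicator_of_mem hs]
    have h3 : (1 + ‖s‖) ^ (-3 : ℝ) = ((1 + ‖s‖) ^ 3)⁻¹ := by
      rw [Real.rpow_neg (by positivity)]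
      norm_cast
    have := hA2 s hs
    have h4 : (1 + ‖s‖) ^ 3 ≤ 27 := by
      have : (1 + ‖s‖) ^ 3 ≤ (3 : ℝ) ^ 3 := by
        gcongr
        linarith
      linarith
    rw [h3, ← div_eq_mul_inv, le_div_iff₀ (by positivity)]
    linarith
  · rw [indicator_of_notMem hs]
    positivity

/-- Integration over the annuli against the Cauchy kernel. -/
theorem EE (hA : MeasurableSet A) (hA2 : ∀ s ∈ A, ‖s‖ ≤ 2) (hQ : Ord Q a)
    (hb : ExpTo Q (fun _ => A) one1 T b)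
    (hbm : ∀ᶠ n : ℕ in atTop, AEStronglyMeasurable (b n) (volume.restrict A)) :
    ExpTo Q (fun _ => univ) one1 T (fun n z => ∫ s in A, b n s * (s - z)⁻¹) := by
  obtain ⟨Ck, hCk, hk⟩ := kernel_int
  have key := ExpTo.integral (μ := (volume : Measure ℂ)) (Ω' := fun _ => (univ : Set ℂ))
    (ρ' := one1) one_le_one1 one_le_one1 hQ (h := A.indicator (fun _ => (1 : ℝ)))
    (fun x => indicator_nonneg (fun _ _ => zero_le_one) x)
    (measurable_const.indicator hA) (k := fun s z => (s - z)⁻¹)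
    (by
      have : Measurable (fun p : ℂ × ℂ => (p.1 - p.2)⁻¹) :=
        (measurable_fst.sub measurable_snd).inv
      exact this)
    (fun _ => hA) (fun K => ⟨Ck * 27, 0, fun y => ?_⟩) (fun K => ⟨0, 0, ?_⟩) hb hbm
  · refine key.congr (Eventually.of_forall fun n z _ => ?_)
    refine setIntegral_congr_fun hA fun s hs => ?_
    simp only [indicator_of_mem hs]
    push_cast
    ring
  · have := hk (A.indicator (fun _ => (1 : ℝ))) 27 (measurable_const.indicator hA)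
      (fun x => indicator_nonneg (fun _ _ => zero_le_one) x) (indicator_le_cube hA2) y
    simpa [one1] using this
  · refine Eventually.of_forall fun n y _ => ?_
    have : ∫ x in Aᶜ, A.indicator (fun _ => (1 : ℝ)) x * one1 x ^ K * ‖(x - y)⁻¹‖ = 0 := by
      rw [← integral_zero ℂ ℝ (μ := volume.restrict Aᶜ)]
      refine setIntegral_congr_fun hA.compl fun s hs => ?_
      simp [indicator_of_notMem hs]
    rw [this]
    simp

/-- Moments over the annuli. -/
theorem EM (hA : MeasurableSet A) (hA2 : ∀ s ∈ A, ‖s‖ ≤ 2) (hQ : Ord Q a)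
    {Y : Type*} [MeasurableSpace Y] {Ω' : ℕ → Set Y} {ρ' : Y → ℝ} (hρ' : ∀ y, 1 ≤ ρ' y)
    (hb : ExpTo Q (fun _ => A) one1 T b)
    (hbm : ∀ᶠ n : ℕ in atTop, AEStronglyMeasurable (b n) (volume.restrict A))
    {k : ℂ → ℂ} (hk : Measurable k) {B : ℝ} (hB : ∀ s ∈ A, ‖k s‖ ≤ B) :
    ExpTo Q Ω' ρ' T (fun n _ => ∫ s in A, b n s * k s) := by
  have hfin : volume A ≠ ⊤ := by
    have h1 : A ⊆ Metric.closedBall 0 2 := fun s hs => by simpa using hA2 s hs
    exact ((measure_mono h1).trans_lt measure_closedBall_lt_top).ne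
  have hBi : ∀ s, A.indicator (fun _ => (1 : ℝ)) s * ‖k s‖ ≤ A.indicator (fun _ => |B|) s := by
    intro s
    by_cases hs : s ∈ A
    · rw [indicator_of_mem hs, indicator_of_mem hs, one_mul]
      exact (hB s hs).trans (le_abs_self _)
    · rw [indicator_of_notMem hs, indicator_of_notMem hs, zero_mul]
  have hint : Integrable (A.indicator (fun _ => |B|)) := by
    rw [integrable_indicator_iff hA]
    exact integrableOn_const hfin
  have hint' : Integrable (fun s => A.indicator (fun _ => (1 : ℝ)) s * ‖k s‖) := by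
    refine hint.mono' ((measurable_const.indicator hA).mul hk.norm).aestronglyMeasurable
      (Eventually.of_forall fun s => ?_)
    rw [Real.norm_of_nonneg]
    · exact hBi s
    · exact mul_nonneg (indicator_nonneg (fun _ _ => zero_le_one) s) (norm_nonneg _)
  have key := ExpTo.integral (μ := (volume : Measure ℂ)) (Ω' := Ω')
    (ρ' := ρ') one_le_one1 hρ' hQ (h := A.indicator (fun _ => (1 : ℝ)))
    (fun x => indicator_nonneg (fun _ _ => zero_le_one) x)
    (measurable_const.indicator hA) (k := fun s _ => k s)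
    (by
      have : Measurable (fun p : ℂ × Y => k p.1) := hk.comp measurable_fst
      exact this)
    (fun _ => hA)
    (fun K => ⟨∫ s, A.indicator (fun _ => |B|) s, 0, fun y => ?_⟩) (fun K => ⟨0, 0, ?_⟩) hb hbm
  · refine key.congr (Eventually.of_forall fun n z _ => ?_)
    refine setIntegral_congr_fun hA fun s hs => ?_
    simp only [indicator_of_mem hs]
    push_cast
    ring
  · refine ⟨by simpa [one1] using hint', ?_⟩
    simp only [one1, one_pow, mul_one, pow_zero]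
    exact integral_mono hint' hint hBi
  · refine Eventually.of_forall fun n y _ => ?_
    have : ∫ x in Aᶜ, A.indicator (fun _ => (1 : ℝ)) x * one1 x ^ K * ‖k x‖ = 0 := by
      rw [← integral_zero ℂ ℝ (μ := volume.restrict Aᶜ)]
      refine setIntegral_congr_fun hA.compl fun s hs => ?_
      simp [indicator_of_notMem hs]
    rw [this]
    simp

/-- A geometric expansion. -/
lemma geom_kernel (N : ℕ) {s w : ℂ} (hs : s ≠ 0) (hsw : s ≠ w) :
    (s - w)⁻¹ = ∑ k ∈ Finset.range N, w ^ k * (s⁻¹) ^ (k + 1) + w ^ N * (s⁻¹) ^ N * (s - w)⁻¹ := by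
  induction N with
  | zero => simp
  | succ N ih =>
    rw [Finset.sum_range_succ]
    have h1 : s - w ≠ 0 := sub_ne_zero.2 hsw
    have h2 : w ^ N * (s⁻¹) ^ N * (s - w)⁻¹ = w ^ N * (s⁻¹) ^ (N + 1) +
        w ^ (N + 1) * (s⁻¹) ^ (N + 1) * (s - w)⁻¹ := by
      rw [pow_succ (s⁻¹), pow_succ w]
      field_simp
      ring
    rw [add_assoc, ← h2]
    exact ih

/-- From the annuli to the origin. -/
theorem EO (hA : MeasurableSet A) (hA2 : ∀ s ∈ A, ‖s‖ ≤ 2) (hr : 0 < r) (hAr : ∀ s ∈ A, r ≤ ‖s‖)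
    {r1 : ℝ} (hr1 : r1 ≤ r / 2) (hQ : Ord Q a) (haT : a ≤ T) {Q' : Set (ℕ → ℝ)}
    (hQ' : ∀ p ∈ Q, ∀ k : ℕ, (fun n : ℕ => (n : ℝ) ^ (-(k : ℝ)) * p n) ∈ Q')
    (hb : ExpTo Q (fun _ => A) one1 T b)
    (hbm : ∀ᶠ n : ℕ in atTop, AEStronglyMeasurable (b n) (volume.restrict A)) :
    ExpTo Q' (Di r1) rho1 T (fun n ζ => ∫ s in A, b n s * (s - ζ / n)⁻¹) := by
  obtain ⟨N, hN⟩ := exists_nat_ge (T - a)
  have hAne : ∀ s ∈ A, s ≠ 0 := fun s hs h => by
    have := hAr s hs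
    rw [h, norm_zero] at this
    linarith
  have hfin : volume A < ⊤ := by
    have h1 : A ⊆ Metric.closedBall 0 2 := fun s hs => by simpa using hA2 s hs
    exact (measure_mono h1).trans_lt measure_closedBall_lt_top
  -- boundedness of b
  obtain ⟨p, hp, C, K, hC⟩ := id hb
  obtain ⟨D, L, hD0, hD⟩ := Sums_bound one_le_one1 hQ hp
  have hbb : ∀ᶠ n : ℕ in atTop, ∀ s ∈ A, ‖b n s‖ ≤ (D + |C|) * (n : ℝ) ^ (-a) := by
    filter_upwards [hC, hD, eventually_ge_atTop 1] with n h1 h2 hn s hs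
    have e1 : ∀ t : ℝ, (0 : ℝ) ≤ (n : ℝ) ^ t := fun t => Real.rpow_nonneg (Nat.cast_nonneg n) _
    calc ‖b n s‖ = ‖(b n s - p n s) + p n s‖ := by ring_nf
      _ ≤ ‖b n s - p n s‖ + ‖p n s‖ := norm_add_le _ _
      _ ≤ C * (n : ℝ) ^ (-T) * one1 s ^ K + D * (n : ℝ) ^ (-a) * one1 s ^ L :=
          add_le_add (h1 s hs) (h2 s)
      _ ≤ |C| * (n : ℝ) ^ (-a) + D * (n : ℝ) ^ (-a) := by
          simp only [one1, one_pow, mul_one]
          have := rpow_neg_mono_aux hn haT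
          have := e1 (-T)
          gcongr
          exact le_abs_self C
      _ = _ := by ring
  have main : ExpTo Q' (Di r1) rho1 T (fun n ζ => ∑ k ∈ Finset.range N,
      (((n : ℝ) ^ (-(k : ℝ)) : ℝ) : ℂ) * ζ ^ k * ∫ s in A, b n s * (s⁻¹) ^ (k + 1)) := by
    refine ExpTo.sum one_le_rho1 _ _ fun k _ => ?_
    have h1 := EM hA hA2 hQ (Ω' := Di r1) one_le_rho1 hb hbm
      (k := fun s => (s⁻¹) ^ (k + 1)) (by fun_prop) (B := (r⁻¹) ^ (k + 1)) (fun s hs => by
        rw [norm_pow, norm_inv]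
        have := hAr s hs
        gcongr)
    have h2 := h1.gen_mul one_le_rho1 (s := fun n : ℕ => (n : ℝ) ^ (-(k : ℝ))) (a := 0)
      ⟨1, by
        filter_upwards [eventually_ge_atTop 1] with n h1
        have hn0 : (0 : ℝ) < n := by exact_mod_cast h1
        rw [abs_of_nonneg (Real.rpow_nonneg hn0.le _), one_mul]
        exact Real.rpow_le_rpow_of_exponent_le (by exact_mod_cast h1) (by simp)⟩
      (c := fun ζ : ℂ => ζ ^ k)
      ⟨by fun_prop, 1, k, fun ζ => by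
        rw [norm_pow, one_mul]
        unfold rho1
        gcongr
        linarith⟩ (fun p hp => hQ' p hp k)
    simpa using h2
  have hrem : ExpTo Q' (Di r1) rho1 T (fun n ζ =>
      (ζ / n) ^ N * ∫ s in A, b n s * ((s⁻¹) ^ N * (s - ζ / n)⁻¹)) := by
    refine ExpTo.of_bound (C := (D + |C|) * (volume.real A * ((r⁻¹) ^ N * (2 / r)))) (K := N) ?_
    filter_upwards [hbb, eventually_ge_atTop 1] with n hbn hn1 ζ hζ
    have hn0 : (0 : ℝ) < n := by exact_mod_cast hn1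
    have hw : ‖ζ / n‖ ≤ r1 := by
      rw [norm_div, Complex.norm_natCast, div_le_iff₀ hn0]
      exact hζ
    have e1 : ∀ t : ℝ, (0 : ℝ) ≤ (n : ℝ) ^ t := fun t => Real.rpow_nonneg (Nat.cast_nonneg n) _
    have h1 : ‖∫ s in A, b n s * ((s⁻¹) ^ N * (s - ζ / n)⁻¹)‖ ≤
        ((D + |C|) * (n : ℝ) ^ (-a) * ((r⁻¹) ^ N * (2 / r))) * volume.real A := by
      refine norm_setIntegral_le_of_norm_le_const hfin fun s hs => ?_
      rw [norm_mul, norm_mul, norm_pow, norm_inv, norm_inv]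
      have h3 : r / 2 ≤ ‖s - ζ / n‖ := by
        have := hAr s hs
        have := norm_sub_norm_le s (ζ / n)
        linarith
      have h4 : ‖s - ζ / n‖⁻¹ ≤ 2 / r := by
        rw [show 2 / r = (r / 2)⁻¹ by field_simp]
        exact inv_anti₀ (by positivity) h3
      have h5 : ‖s‖⁻¹ ≤ r⁻¹ := inv_anti₀ hr (hAr s hs)
      have := hbn s hs
      have := e1 (-a)
      gcongr
    have h2 : ‖(ζ / n) ^ N‖ ≤ (n : ℝ) ^ (-(N : ℝ)) * rho1 ζ ^ N := by
      rw [norm_pow, norm_div, Complex.norm_natCast, div_pow, Real.rpow_neg hn0.le,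
        Real.rpow_natCast, div_eq_inv_mul]
      unfold rho1
      gcongr
      linarith
    have h6 : (n : ℝ) ^ (-(N : ℝ)) * (n : ℝ) ^ (-a) ≤ (n : ℝ) ^ (-T) := by
      rw [← Real.rpow_add hn0]
      exact Real.rpow_le_rpow_of_exponent_le (by exact_mod_cast hn1) (by linarith)
    have h7 : 0 ≤ rho1 ζ := zero_le_one.trans (one_le_rho1 ζ)
    rw [norm_mul]
    calc ‖(ζ / n) ^ N‖ * ‖∫ s in A, b n s * ((s⁻¹) ^ N * (s - ζ / n)⁻¹)‖
        ≤ ((n : ℝ) ^ (-(N : ℝ)) * rho1 ζ ^ N) *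
          (((D + |C|) * (n : ℝ) ^ (-a) * ((r⁻¹) ^ N * (2 / r))) * volume.real A) := by
          have := e1 (-(N : ℝ))
          gcongr
      _ = (D + |C|) * (volume.real A * ((r⁻¹) ^ N * (2 / r))) *
          ((n : ℝ) ^ (-(N : ℝ)) * (n : ℝ) ^ (-a)) * rho1 ζ ^ N := by ring
      _ ≤ _ := by gcongr
  refine (main.add one_le_rho1 hrem).congr ?_
  filter_upwards [hbb, hbm, eventually_ge_atTop 1] with n hbn hbmn hn1 ζ hζ
  have hn0 : (0 : ℝ) < n := by exact_mod_cast hn1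
  have hw : ‖ζ / n‖ ≤ r1 := by
    rw [norm_div, Complex.norm_natCast, div_le_iff₀ hn0]
    exact hζ
  have hint : ∀ (k : ℂ → ℂ), Measurable k → ∀ B : ℝ, (∀ s ∈ A, ‖k s‖ ≤ B) →
      IntegrableOn (fun s => b n s * k s) A := by
    intro k hk B hB
    have : IsFiniteMeasure (volume.restrict A) := ⟨by simpa using hfin⟩
    refine Integrable.of_bound (hbmn.mul hk.aestronglyMeasurable)
      (((D + |C|) * (n : ℝ) ^ (-a)) * |B|) ?_
    filter_upwards [ae_restrict_mem hA] with s hs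
    rw [norm_mul]
    have := (hB s hs).trans (le_abs_self B)
    have := hbn s hs
    have : 0 ≤ (D + |C|) * (n : ℝ) ^ (-a) := le_trans (norm_nonneg _) this
    gcongr
  have i1 : ∀ k ∈ Finset.range N, IntegrableOn (fun s => b n s * (s⁻¹) ^ (k + 1)) A := by
    intro k _
    refine hint _ (by fun_prop) ((r⁻¹) ^ (k + 1)) fun s hs => ?_
    rw [norm_pow, norm_inv]
    have := hAr s hs
    gcongr
  have i2 : IntegrableOn (fun s => b n s * ((s⁻¹) ^ N * (s - ζ / n)⁻¹)) A := by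
    refine hint _ (by fun_prop) ((r⁻¹) ^ N * (2 / r)) fun s hs => ?_
    rw [norm_mul, norm_pow, norm_inv, norm_inv]
    have h3 : r / 2 ≤ ‖s - ζ / n‖ := by
      have := hAr s hs
      have := norm_sub_norm_le s (ζ / n)
      linarith
    have h4 : ‖s - ζ / n‖⁻¹ ≤ 2 / r := by
      rw [show 2 / r = (r / 2)⁻¹ by field_simp]
      exact inv_anti₀ (by positivity) h3
    have h5 : ‖s‖⁻¹ ≤ r⁻¹ := inv_anti₀ hr (hAr s hs)
    gcongr
  have e1 : ∀ k : ℕ, (((n : ℝ) ^ (-(k : ℝ)) : ℝ) : ℂ) * ζ ^ k = (ζ / n) ^ k := by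
    intro k
    rw [Real.rpow_neg hn0.le, Real.rpow_natCast, div_pow, div_eq_inv_mul]
    push_cast
    rfl
  simp only [e1]
  have e2 : ∀ s ∈ A, b n s * (s - ζ / n)⁻¹ = ∑ k ∈ Finset.range N, (ζ / n) ^ k *
      (b n s * (s⁻¹) ^ (k + 1)) + (ζ / n) ^ N * (b n s * ((s⁻¹) ^ N * (s - ζ / n)⁻¹)) := by
    intro s hs
    have hne : s ≠ ζ / n := by
      intro h
      have h1 := hAr s hs
      have h2 := hw
      rw [← h] at h2
      linarith
    rw [geom_kernel N (hAne s hs) hne, mul_add, Finset.mul_sum]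
    congr 1
    · refine Finset.sum_congr rfl fun k _ => ?_
      ring
    · rw [← geom_kernel N (hAne s hs) hne]
      ring
  rw [setIntegral_congr_fun hA e2, integral_add (integrable_finsetSum _ fun k hk =>
    (i1 k hk).const_mul _) (i2.const_mul _), integral_finsetSum _ fun k hk =>
    (i1 k hk).const_mul _]
  simp only [integral_const_mul]

end E

end Pool.Agent.FreudM
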