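import Pool.Agent.FreudM.Ops

/-!
# The blocks of the Cauchy operator coming from the origin
-/

set_option autoImplicit false

open MeasureTheory Filter Topology Set

namespace Pool.Agent.FreudM

/-- Exponential weight on the upper half plane. -/
noncomputable def hO (κ : ℝ) (σ : ℂ) : ℝ :=
  {σ : ℂ | 0 < σ.im}.indicator (fun σ => Real.exp (-(κ * ‖σ‖))) σ

lemma hO_nonneg (κ : ℝ) (σ : ℂ) : 0 ≤ hO κ σ :=
  indicator_nonneg (fun _ _ => (Real.exp_pos _).le) σ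

lemma hO_measurable (κ : ℝ) : Measurable (hO κ) := by
  unfold hO
  refine Measurable.indicator ?_ (measurableSet_lt measurable_const Complex.measurable_im)
  fun_prop

lemma hO_of_mem {κ r1 : ℝ} {n : ℕ} {σ : ℂ} (h : σ ∈ Om r1 n) :
    hO κ σ = Real.exp (-(κ * ‖σ‖)) := by
  unfold hO
  exact indicator_of_mem (s := {σ : ℂ | 0 < σ.im}) h.1 _

lemma hO_le {κ : ℝ} (hκ : 0 < κ) (K : ℕ) : ∃ C : ℝ, 0 < C ∧ ∀ σ : ℂ,
    hO κ σ * rho1 σ ^ K ≤ C * (1 + ‖σ‖) ^ (-3 : ℝ) := by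
  obtain ⟨C, hC0, hC⟩ := exp_growth κ hκ K
  refine ⟨C, hC0, fun σ => ?_⟩
  unfold hO rho1
  by_cases h : σ ∈ {σ : ℂ | 0 < σ.im}
  · rw [indicator_of_mem h]
    exact hC ‖σ‖ (norm_nonneg σ)
  · rw [indicator_of_notMem h, zero_mul]
    positivity

lemma exp_le_pow (c : ℝ) (hc : 0 < c) (t : ℝ) : ∃ C : ℝ, 0 < C ∧ ∀ᶠ n : ℕ in atTop,
    Real.exp (-(c * n)) ≤ C * (n : ℝ) ^ (-t) := by
  have h := tendsto_rpow_mul_exp_neg_mul_atTop_nhds_zero t c hc
  have h2 := h.comp tendsto_natCast_atTop_atTop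
  refine ⟨1, one_pos, ?_⟩
  filter_upwards [h2.eventually (gt_mem_nhds one_pos), eventually_ge_atTop 1] with n hn h1
  have hn0 : (0 : ℝ) < n := by exact_mod_cast h1
  simp only [Function.comp_apply] at hn
  rw [one_mul, Real.rpow_neg hn0.le, ← one_div, le_div_iff₀ (by positivity)]
  have : Real.exp (-(c * n)) * (n : ℝ) ^ t = (n : ℝ) ^ t * Real.exp (-c * n) := by
    rw [mul_comm]; congr 2; ring
  rw [this]
  exact hn.le

lemma hO_tail {κ r1 : ℝ} (hκ : 0 < κ) (hr1 : 0 < r1) (K : ℕ) (t : ℝ) : ∃ C : ℝ, 0 < C ∧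
    ∀ᶠ n : ℕ in atTop, ∀ σ ∈ (Om r1 n)ᶜ,
      hO κ σ * rho1 σ ^ K ≤ C * (n : ℝ) ^ (-t) * (1 + ‖σ‖) ^ (-3 : ℝ) := by
  obtain ⟨C, hC0, hC⟩ := exp_growth (κ / 2) (half_pos hκ) K
  obtain ⟨D, hD0, hD⟩ := exp_le_pow (κ / 2 * r1) (by positivity) t
  refine ⟨D * C, by positivity, ?_⟩
  filter_upwards [hD] with n hn σ hσ
  unfold hO rho1
  by_cases h : σ ∈ {σ : ℂ | 0 < σ.im}
  · rw [indicator_of_mem h]
    have h1 : r1 * n < ‖σ‖ := by
      by_contra hcon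
      exact hσ ⟨h, not_lt.1 hcon⟩
    have h2 : Real.exp (-(κ * ‖σ‖)) ≤ Real.exp (-(κ / 2 * r1 * n)) * Real.exp (-(κ / 2 * ‖σ‖)) := by
      rw [← Real.exp_add]
      apply Real.exp_le_exp.2
      have : κ / 2 * (r1 * n) ≤ κ / 2 * ‖σ‖ := by gcongr
      nlinarith
    calc Real.exp (-(κ * ‖σ‖)) * (1 + ‖σ‖) ^ K
        ≤ (Real.exp (-(κ / 2 * r1 * n)) * Real.exp (-(κ / 2 * ‖σ‖))) * (1 + ‖σ‖) ^ K := by gcongr
      _ = Real.exp (-(κ / 2 * r1 * n)) * (Real.exp (-(κ / 2 * ‖σ‖)) * (1 + ‖σ‖) ^ K) := by ring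
      _ ≤ (D * (n : ℝ) ^ (-t)) * (C * (1 + ‖σ‖) ^ (-3 : ℝ)) := by
          have h3 := hC ‖σ‖ (norm_nonneg σ)
          have h4 : (0 : ℝ) ≤ (n : ℝ) ^ (-t) := Real.rpow_nonneg (Nat.cast_nonneg n) _
          gcongr
      _ = _ := by ring
  · rw [indicator_of_notMem h, zero_mul]
    have h4 : (0 : ℝ) ≤ (n : ℝ) ^ (-t) := Real.rpow_nonneg (Nat.cast_nonneg n) _
    positivity

section O

variable {r κ r1 : ℝ} {Q : Set (ℕ → ℝ)} {T a : ℝ} {b : ℕ → ℂ → ℂ}

/-- Near the origin, singular kernel. -/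
theorem OO (hκ : 0 < κ) (hr1 : 0 < r1) (hQ : Ord Q a) (hb : ExpTo Q (Om r1) rho1 T b)
    (hbm : ∀ᶠ n : ℕ in atTop, AEStronglyMeasurable (b n) (volume.restrict (Om r1 n))) :
    ExpTo Q (fun _ => univ) rho1 T
      (fun n ζ => ∫ σ in Om r1 n, (hO κ σ : ℂ) * b n σ * (σ - ζ)⁻¹) := by
  obtain ⟨Ck, hCk, hk⟩ := kernel_int
  refine ExpTo.integral (μ := (volume : Measure ℂ)) (Ω' := fun _ => (univ : Set ℂ))
    (ρ' := rho1) one_le_rho1 one_le_rho1 hQ (h := hO κ) (hO_nonneg κ) (hO_measurable κ)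
    (k := fun s z => (s - z)⁻¹)
    (by
      have : Measurable (fun p : ℂ × ℂ => (p.1 - p.2)⁻¹) :=
        (measurable_fst.sub measurable_snd).inv
      exact this)
    (measurableSet_Om r1) (fun K => ?_) (fun K => ?_) hb hbm
  · obtain ⟨C, hC0, hC⟩ := hO_le hκ K
    refine ⟨Ck * C, 0, fun y => ?_⟩
    have hm : Measurable (fun σ : ℂ => hO κ σ * rho1 σ ^ K) := by
      refine (hO_measurable κ).mul ?_
      unfold rho1
      fun_prop
    have h0 : ∀ σ : ℂ, 0 ≤ hO κ σ * rho1 σ ^ K := fun σ =>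
      mul_nonneg (hO_nonneg κ σ) (pow_nonneg (zero_le_one.trans (one_le_rho1 σ)) _)
    simpa using hk _ C hm h0 hC y
  · obtain ⟨C, hC0, hC⟩ := hO_tail hκ hr1 K (T - a)
    refine ⟨Ck * C, 0, ?_⟩
    filter_upwards [hC] with n hn y _
    have hm : Measurable (fun σ : ℂ => (Om r1 n)ᶜ.indicator (fun σ => hO κ σ * rho1 σ ^ K) σ) := by
      refine Measurable.indicator ((hO_measurable κ).mul ?_) (measurableSet_Om r1 n).compl
      unfold rho1
      fun_prop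
    have h0 : ∀ σ : ℂ, 0 ≤ (Om r1 n)ᶜ.indicator (fun σ => hO κ σ * rho1 σ ^ K) σ := fun σ =>
      indicator_nonneg (fun σ _ => mul_nonneg (hO_nonneg κ σ)
        (pow_nonneg (zero_le_one.trans (one_le_rho1 σ)) _)) σ
    have h4 : (0 : ℝ) ≤ (n : ℝ) ^ (-(T - a)) := Real.rpow_nonneg (Nat.cast_nonneg n) _
    have h5 := (hk _ (C * (n : ℝ) ^ (-(T - a))) hm h0 (fun σ => by
      by_cases hσ : σ ∈ (Om r1 n)ᶜ
      · rw [indicator_of_mem hσ]
        exact hn σ hσ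
      · rw [indicator_of_notMem hσ]
        positivity) y).2
    calc ∫ x in (Om r1 n)ᶜ, hO κ x * rho1 x ^ K * ‖(x - y)⁻¹‖
        = ∫ x, (Om r1 n)ᶜ.indicator (fun σ => hO κ σ * rho1 σ ^ K) x * ‖(x - y)⁻¹‖ := by
          rw [← integral_indicator (measurableSet_Om r1 n).compl]
          congr 1
          ext x
          by_cases hx : x ∈ (Om r1 n)ᶜ
          · rw [indicator_of_mem hx, indicator_of_mem hx]
          · rw [indicator_of_notMem hx, indicator_of_notMem hx, zero_mul]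
      _ ≤ Ck * (C * (n : ℝ) ^ (-(T - a))) := h5
      _ = Ck * C * (n : ℝ) ^ (-(T - a)) * rho1 y ^ 0 := by ring

/-- Near the origin, moments. -/
theorem OM (hκ : 0 < κ) (hr1 : 0 < r1) (hQ : Ord Q a)
    {Y : Type*} [MeasurableSpace Y] {Ω' : ℕ → Set Y} {ρ' : Y → ℝ} (hρ' : ∀ y, 1 ≤ ρ' y)
    (hb : ExpTo Q (Om r1) rho1 T b)
    (hbm : ∀ᶠ n : ℕ in atTop, AEStronglyMeasurable (b n) (volume.restrict (Om r1 n)))
    {k : ℂ → ℂ} (hk : PolyGrowth rho1 k) :
    ExpTo Q Ω' ρ' T (fun n _ => ∫ σ in Om r1 n, (hO κ σ : ℂ) * b n σ * k σ) := by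
  obtain ⟨hkm, B, L, hB⟩ := hk
  have hB' : ∀ x, ‖k x‖ ≤ |B| * rho1 x ^ L := fun x => (hB x).trans
    (mul_le_mul_of_nonneg_right (le_abs_self _) (pow_nonneg (zero_le_one.trans (one_le_rho1 x)) _))
  have hrm : Measurable rho1 := by unfold rho1; fun_prop
  refine ExpTo.integral (μ := (volume : Measure ℂ)) (Ω' := Ω')
    (ρ' := ρ') one_le_rho1 hρ' hQ (h := hO κ) (hO_nonneg κ) (hO_measurable κ)
    (k := fun s _ => k s)
    (by
      have : Measurable (fun p : ℂ × Y => k p.1) := hkm.comp measurable_fst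
      exact this)
    (measurableSet_Om r1) (fun K => ?_) (fun K => ?_) hb hbm
  · obtain ⟨C, hC0, hC⟩ := hO_le hκ (K + L)
    have hle : ∀ x, hO κ x * rho1 x ^ K * ‖k x‖ ≤ (|B| * C) * (1 + ‖x‖) ^ (-3 : ℝ) := by
      intro x
      have h1 := hO_nonneg κ x
      have h2 := zero_le_one.trans (one_le_rho1 x)
      calc hO κ x * rho1 x ^ K * ‖k x‖ ≤ hO κ x * rho1 x ^ K * (|B| * rho1 x ^ L) := by
            have := hB' x
            gcongr
        _ = |B| * (hO κ x * rho1 x ^ (K + L)) := by rw [pow_add]; ring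
        _ ≤ |B| * (C * (1 + ‖x‖) ^ (-3 : ℝ)) := by
            have := hC x
            gcongr
        _ = _ := by ring
    have hi : Integrable (fun x => hO κ x * rho1 x ^ K * ‖k x‖) := by
      refine (integrable_cube.const_mul (|B| * C)).mono'
        (((hO_measurable κ).mul (hrm.pow_const K)).mul hkm.norm).aestronglyMeasurable
        (Eventually.of_forall fun x => ?_)
      rw [Real.norm_of_nonneg]
      · exact hle x
      · exact mul_nonneg (mul_nonneg (hO_nonneg κ x)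
          (pow_nonneg (zero_le_one.trans (one_le_rho1 x)) _)) (norm_nonneg _)
    refine ⟨(|B| * C) * ∫ x : ℂ, (1 + ‖x‖) ^ (-3 : ℝ), 0, fun y => ⟨hi, ?_⟩⟩
    rw [pow_zero, mul_one, ← integral_const_mul]
    exact integral_mono hi (integrable_cube.const_mul _) hle
  · obtain ⟨C, hC0, hC⟩ := hO_tail hκ hr1 (K + L) (T - a)
    refine ⟨(|B| * C) * ∫ x : ℂ, (1 + ‖x‖) ^ (-3 : ℝ), 0, ?_⟩
    filter_upwards [hC] with n hn y _
    have h4 : (0 : ℝ) ≤ (n : ℝ) ^ (-(T - a)) := Real.rpow_nonneg (Nat.cast_nonneg n) _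
    have hle : ∀ x ∈ (Om r1 n)ᶜ, hO κ x * rho1 x ^ K * ‖k x‖ ≤
        (|B| * C * (n : ℝ) ^ (-(T - a))) * (1 + ‖x‖) ^ (-3 : ℝ) := by
      intro x hx
      have h1 := hO_nonneg κ x
      have h2 := zero_le_one.trans (one_le_rho1 x)
      calc hO κ x * rho1 x ^ K * ‖k x‖ ≤ hO κ x * rho1 x ^ K * (|B| * rho1 x ^ L) := by
            have := hB' x
            gcongr
        _ = |B| * (hO κ x * rho1 x ^ (K + L)) := by rw [pow_add]; ring
        _ ≤ |B| * (C * (n : ℝ) ^ (-(T - a)) * (1 + ‖x‖) ^ (-3 : ℝ)) := by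
            have := hn x hx
            gcongr
        _ = _ := by ring
    have hg : Integrable (fun x : ℂ => (|B| * C * (n : ℝ) ^ (-(T - a))) * (1 + ‖x‖) ^ (-3 : ℝ)) :=
      integrable_cube.const_mul _
    calc ∫ x in (Om r1 n)ᶜ, hO κ x * rho1 x ^ K * ‖k x‖
        ≤ ∫ x in (Om r1 n)ᶜ, (|B| * C * (n : ℝ) ^ (-(T - a))) * (1 + ‖x‖) ^ (-3 : ℝ) := by
          refine integral_mono_of_nonneg (Eventually.of_forall fun x => ?_) hg.integrableOn ?_
          · exact mul_nonneg (mul_nonneg (hO_nonneg κ x)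
              (pow_nonneg (zero_le_one.trans (one_le_rho1 x)) _)) (norm_nonneg _)
          · filter_upwards [ae_restrict_mem (measurableSet_Om r1 n).compl] with x hx using hle x hx
      _ ≤ ∫ x, (|B| * C * (n : ℝ) ^ (-(T - a))) * (1 + ‖x‖) ^ (-3 : ℝ) := by
          refine setIntegral_le_integral hg (Eventually.of_forall fun x => ?_)
          simp only [Pi.zero_apply]
          positivity
      _ = |B| * C * (∫ x : ℂ, (1 + ‖x‖) ^ (-3 : ℝ)) * (n : ℝ) ^ (-(T - a)) * ρ' y ^ 0 := by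
          rw [integral_const_mul]; ring

/-- From the origin to the outside. -/
theorem OE (hκ : 0 < κ) (hr : 0 < r) (hr1 : 0 < r1) (hr1' : r1 ≤ r / 2) (hQ : Ord Q a)
    (haT : a ≤ T) {Q' : Set (ℕ → ℝ)}
    (hQ' : ∀ p ∈ Q, ∀ k : ℕ, (fun n : ℕ => (n : ℝ) ^ (-(k : ℝ)) * p n) ∈ Q')
    (hb : ExpTo Q (Om r1) rho1 T b)
    (hbm : ∀ᶠ n : ℕ in atTop, AEStronglyMeasurable (b n) (volume.restrict (Om r1 n))) :
    ExpTo Q' (fun _ => {z : ℂ | r ≤ ‖z‖}) one1 T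
      (fun n z => ∫ σ in Om r1 n, (hO κ σ : ℂ) * b n σ * (z - σ / n)⁻¹) := by
  obtain ⟨N, hN⟩ := exists_nat_ge (T - a)
  have hrm : Measurable rho1 := by unfold rho1; fun_prop
  -- boundedness of b
  obtain ⟨p, hp, C, K, hC⟩ := id hb
  obtain ⟨D, L, hD0, hD⟩ := Sums_bound one_le_rho1 hQ hp
  have hbb : ∀ᶠ n : ℕ in atTop, ∀ s ∈ Om r1 n,
      ‖b n s‖ ≤ (D + |C|) * (n : ℝ) ^ (-a) * rho1 s ^ (K + L) := by
    filter_upwards [hC, hD, eventually_ge_atTop 1] with n h1 h2 hn s hs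
    have e1 : ∀ t : ℝ, (0 : ℝ) ≤ (n : ℝ) ^ t := fun t => Real.rpow_nonneg (Nat.cast_nonneg n) _
    have hs1 := one_le_rho1 s
    have hs0 := zero_le_one.trans hs1
    calc ‖b n s‖ = ‖(b n s - p n s) + p n s‖ := by ring_nf
      _ ≤ ‖b n s - p n s‖ + ‖p n s‖ := norm_add_le _ _
      _ ≤ C * (n : ℝ) ^ (-T) * rho1 s ^ K + D * (n : ℝ) ^ (-a) * rho1 s ^ L :=
          add_le_add (h1 s hs) (h2 s)
      _ ≤ |C| * (n : ℝ) ^ (-a) * rho1 s ^ (K + L) + D * (n : ℝ) ^ (-a) * rho1 s ^ (K + L) := by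
          have e2 := rpow_neg_mono_aux hn haT
          have e3 := e1 (-T)
          have e4 := e1 (-a)
          have e5 : rho1 s ^ K ≤ rho1 s ^ (K + L) := pow_le_pow_right₀ hs1 (by omega)
          have e6 : rho1 s ^ L ≤ rho1 s ^ (K + L) := pow_le_pow_right₀ hs1 (by omega)
          gcongr
          exact le_abs_self C
      _ = _ := by ring
  obtain ⟨CK, hCK0, hCK⟩ := hO_le hκ (K + L + N)
  obtain ⟨CK', hCK0', hCK'⟩ := hO_le hκ (K + L)
  set I3 : ℝ := ∫ x : ℂ, (1 + ‖x‖) ^ (-3 : ℝ) with hI3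
  have hI3' : 0 ≤ I3 := integral_nonneg fun x => by positivity
  have main : ExpTo Q' (fun _ => {z : ℂ | r ≤ ‖z‖}) one1 T (fun n z => ∑ k ∈ Finset.range N,
      (((n : ℝ) ^ (-(k : ℝ)) : ℝ) : ℂ) * ({z : ℂ | r ≤ ‖z‖}.indicator (fun z => (z⁻¹) ^ (k + 1)) z)
        * ∫ σ in Om r1 n, (hO κ σ : ℂ) * b n σ * σ ^ k) := by
    refine ExpTo.sum one_le_one1 _ _ fun k _ => ?_
    have h1 := OM hκ hr1 hQ (Ω' := fun _ => {z : ℂ | r ≤ ‖z‖}) (ρ' := one1) one_le_one1 hb hbm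
      (k := fun s => s ^ k) ⟨by fun_prop, 1, k, fun s => by
        rw [norm_pow, one_mul]
        unfold rho1
        gcongr
        linarith⟩
    have h2 := h1.gen_mul one_le_one1 (s := fun n : ℕ => (n : ℝ) ^ (-(k : ℝ))) (a := 0)
      ⟨1, by
        filter_upwards [eventually_ge_atTop 1] with n h1
        have hn0 : (0 : ℝ) < n := by exact_mod_cast h1
        rw [abs_of_nonneg (Real.rpow_nonneg hn0.le _), one_mul]
        exact Real.rpow_le_rpow_of_exponent_le (by exact_mod_cast h1) (by simp)⟩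
      (c := {z : ℂ | r ≤ ‖z‖}.indicator (fun z : ℂ => (z⁻¹) ^ (k + 1)))
      ⟨Measurable.indicator (by fun_prop) (measurableSet_le measurable_const measurable_norm),
        (r⁻¹) ^ (k + 1), 0, fun z => by
        by_cases hz : z ∈ {z : ℂ | r ≤ ‖z‖}
        · rw [indicator_of_mem hz, norm_pow, norm_inv, pow_zero, mul_one]
          have : r ≤ ‖z‖ := hz
          gcongr
        · rw [indicator_of_notMem hz, norm_zero]
          positivity⟩ (fun p hp => hQ' p hp k)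
    simpa using h2
  have hker : ∀ n : ℕ, 1 ≤ n → ∀ z : ℂ, r ≤ ‖z‖ → ∀ s ∈ Om r1 n,
      s / n ≠ z ∧ ‖(z - s / n)⁻¹‖ ≤ 2 / r := by
    intro n hn z hz s hs
    have hn0 : (0 : ℝ) < n := by exact_mod_cast hn
    have hw : ‖s / n‖ ≤ r1 := by
      rw [norm_div, Complex.norm_natCast, div_le_iff₀ hn0]
      exact hs.2
    have h3 : r / 2 ≤ ‖z - s / n‖ := by
      have := norm_sub_norm_le z (s / n)
      linarith
    refine ⟨fun h => ?_, ?_⟩
    · rw [h, sub_self, norm_zero] at h3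
      linarith
    · rw [norm_inv, show 2 / r = (r / 2)⁻¹ by field_simp]
      exact inv_anti₀ (by positivity) h3
  have hremb : ∀ n : ℕ, 1 ≤ n → ∀ z : ℂ, r ≤ ‖z‖ →
      (∀ s ∈ Om r1 n, ‖b n s‖ ≤ (D + |C|) * (n : ℝ) ^ (-a) * rho1 s ^ (K + L)) →
      ∀ s ∈ Om r1 n, ‖(hO κ s : ℂ) * b n s * (s ^ N * ((z⁻¹) ^ N * (z - s / n)⁻¹))‖ ≤
        ((D + |C|) * (n : ℝ) ^ (-a) * ((r⁻¹) ^ N * (2 / r)) * CK) * (1 + ‖s‖) ^ (-3 : ℝ) := by
    intro n hn z hz hbn s hs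
    have e1 : ∀ t : ℝ, (0 : ℝ) ≤ (n : ℝ) ^ t := fun t => Real.rpow_nonneg (Nat.cast_nonneg n) _
    have hs1 := one_le_rho1 s
    have hs0 := zero_le_one.trans hs1
    have h1 := hbn s hs
    have h2 := (hker n hn z hz s hs).2
    have h3 : ‖z‖⁻¹ ≤ r⁻¹ := inv_anti₀ hr hz
    have h4 : ‖s‖ ≤ rho1 s := by unfold rho1; linarith
    have h5 := hO_nonneg κ s
    rw [norm_mul, norm_mul, norm_mul, norm_mul, norm_pow, norm_pow, norm_inv z, Complex.norm_real,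
      Real.norm_of_nonneg h5]
    calc hO κ s * ‖b n s‖ * (‖s‖ ^ N * (‖z‖⁻¹ ^ N * ‖(z - s / n)⁻¹‖))
        ≤ hO κ s * ((D + |C|) * (n : ℝ) ^ (-a) * rho1 s ^ (K + L)) *
          (rho1 s ^ N * (r⁻¹ ^ N * (2 / r))) := by
          have := e1 (-a)
          gcongr
      _ = (D + |C|) * (n : ℝ) ^ (-a) * ((r⁻¹) ^ N * (2 / r)) * (hO κ s * rho1 s ^ (K + L + N)) := by
          rw [pow_add (rho1 s) (K + L) N]; ring
      _ ≤ (D + |C|) * (n : ℝ) ^ (-a) * ((r⁻¹) ^ N * (2 / r)) * (CK * (1 + ‖s‖) ^ (-3 : ℝ)) := by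
          have := hCK s
          have := e1 (-a)
          gcongr
      _ = _ := by ring
  have hrem : ExpTo Q' (fun _ => {z : ℂ | r ≤ ‖z‖}) one1 T (fun n z =>
      (((n : ℝ) ^ (-(N : ℝ)) : ℝ) : ℂ) *
        ∫ σ in Om r1 n, (hO κ σ : ℂ) * b n σ * (σ ^ N * ((z⁻¹) ^ N * (z - σ / n)⁻¹))) := by
    refine ExpTo.of_bound (C := (D + |C|) * ((r⁻¹) ^ N * (2 / r)) * CK * I3) (K := 0) ?_
    filter_upwards [hbb, eventually_ge_atTop 1] with n hbn hn1 z hz
    have hn0 : (0 : ℝ) < n := by exact_mod_cast hn1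
    have e1 : ∀ t : ℝ, (0 : ℝ) ≤ (n : ℝ) ^ t := fun t => Real.rpow_nonneg (Nat.cast_nonneg n) _
    have h1 : ‖∫ σ in Om r1 n, (hO κ σ : ℂ) * b n σ * (σ ^ N * ((z⁻¹) ^ N * (z - σ / n)⁻¹))‖ ≤
        ((D + |C|) * (n : ℝ) ^ (-a) * ((r⁻¹) ^ N * (2 / r)) * CK) * I3 := by
      calc _ ≤ ∫ s in Om r1 n, ((D + |C|) * (n : ℝ) ^ (-a) * ((r⁻¹) ^ N * (2 / r)) * CK) *
            (1 + ‖s‖) ^ (-3 : ℝ) := by
            refine norm_integral_le_of_norm_le (integrable_cube.const_mul _).integrableOn ?_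
            filter_upwards [ae_restrict_mem (measurableSet_Om r1 n)] with s hs using
              hremb n hn1 z hz hbn s hs
        _ ≤ ∫ s, ((D + |C|) * (n : ℝ) ^ (-a) * ((r⁻¹) ^ N * (2 / r)) * CK) *
            (1 + ‖s‖) ^ (-3 : ℝ) := by
            refine setIntegral_le_integral (integrable_cube.const_mul _)
              (Eventually.of_forall fun x => ?_)
            have := e1 (-a)
            simp only [Pi.zero_apply]
            positivity
        _ = _ := integral_const_mul _ _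
    have h6 : (n : ℝ) ^ (-(N : ℝ)) * (n : ℝ) ^ (-a) ≤ (n : ℝ) ^ (-T) := by
      rw [← Real.rpow_add hn0]
      exact Real.rpow_le_rpow_of_exponent_le (by exact_mod_cast hn1) (by linarith)
    rw [norm_mul, Complex.norm_real, Real.norm_of_nonneg (e1 _)]
    calc (n : ℝ) ^ (-(N : ℝ)) * ‖∫ σ in Om r1 n, (hO κ σ : ℂ) * b n σ *
          (σ ^ N * ((z⁻¹) ^ N * (z - σ / n)⁻¹))‖
        ≤ (n : ℝ) ^ (-(N : ℝ)) *
          (((D + |C|) * (n : ℝ) ^ (-a) * ((r⁻¹) ^ N * (2 / r)) * CK) * I3) := by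
          have := e1 (-(N : ℝ))
          gcongr
      _ = (D + |C|) * ((r⁻¹) ^ N * (2 / r)) * CK * I3 *
          ((n : ℝ) ^ (-(N : ℝ)) * (n : ℝ) ^ (-a)) := by ring
      _ ≤ (D + |C|) * ((r⁻¹) ^ N * (2 / r)) * CK * I3 * (n : ℝ) ^ (-T) := by gcongr
      _ = _ := by simp [one1]
  refine (main.add one_le_one1 hrem).congr ?_
  filter_upwards [hbb, hbm, eventually_ge_atTop 1] with n hbn hbmn hn1 z hz
  have hn0 : (0 : ℝ) < n := by exact_mod_cast hn1
  have hnc : (n : ℂ) ≠ 0 := by exact_mod_cast hn0.ne'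
  have e1 : ∀ t : ℝ, (0 : ℝ) ≤ (n : ℝ) ^ t := fun t => Real.rpow_nonneg (Nat.cast_nonneg n) _
  have hz' : r ≤ ‖z‖ := hz
  have hz0 : z ≠ 0 := fun h => by
    rw [h, norm_zero] at hz'
    linarith
  have i1 : ∀ k : ℕ, k ≤ N → IntegrableOn (fun s => (hO κ s : ℂ) * b n s * s ^ k) (Om r1 n) := by
    intro k hk
    refine Integrable.mono' ((integrable_cube.const_mul
      ((D + |C|) * (n : ℝ) ^ (-a) * CK)).integrableOn (s := Om r1 n)) ?_ ?_
    · exact (((Complex.measurable_ofReal.comp (hO_measurable κ)).aestronglyMeasurable).mul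
        hbmn).mul (by fun_prop)
    · filter_upwards [ae_restrict_mem (measurableSet_Om r1 n)] with s hs
      have hs1 := one_le_rho1 s
      have hs0 := zero_le_one.trans hs1
      have h1 := hbn s hs
      have h4 : ‖s‖ ≤ rho1 s := by unfold rho1; linarith
      have h5 := hO_nonneg κ s
      rw [norm_mul, norm_mul, norm_pow, Complex.norm_real, Real.norm_of_nonneg h5]
      calc hO κ s * ‖b n s‖ * ‖s‖ ^ k
          ≤ hO κ s * ((D + |C|) * (n : ℝ) ^ (-a) * rho1 s ^ (K + L)) * rho1 s ^ N := by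
            have := e1 (-a)
            have h6 : ‖s‖ ^ k ≤ rho1 s ^ N :=
              (pow_le_pow_left₀ (norm_nonneg _) h4 k).trans (pow_le_pow_right₀ hs1 hk)
            gcongr
        _ = (D + |C|) * (n : ℝ) ^ (-a) * (hO κ s * rho1 s ^ (K + L + N)) := by
            rw [pow_add (rho1 s) (K + L) N]; ring
        _ ≤ (D + |C|) * (n : ℝ) ^ (-a) * (CK * (1 + ‖s‖) ^ (-3 : ℝ)) := by
            have := hCK s
            have := e1 (-a)
            gcongr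
        _ = _ := by ring
  have i2 : IntegrableOn (fun s => (hO κ s : ℂ) * b n s *
      (s ^ N * ((z⁻¹) ^ N * (z - s / n)⁻¹))) (Om r1 n) := by
    refine Integrable.mono' ((integrable_cube.const_mul
      ((D + |C|) * (n : ℝ) ^ (-a) * ((r⁻¹) ^ N * (2 / r)) * CK)).integrableOn (s := Om r1 n)) ?_ ?_
    · exact (((Complex.measurable_ofReal.comp (hO_measurable κ)).aestronglyMeasurable).mul
        hbmn).mul (by fun_prop)
    · filter_upwards [ae_restrict_mem (measurableSet_Om r1 n)] with s hs using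
        hremb n hn1 z hz' hbn s hs
  have e3 : ∀ k : ℕ, (((n : ℝ) ^ (-(k : ℝ)) : ℝ) : ℂ) = ((n : ℂ)⁻¹) ^ k := by
    intro k
    rw [Real.rpow_neg hn0.le, Real.rpow_natCast]
    push_cast
    rw [inv_pow]
  simp only [e3, indicator_of_mem (s := {z : ℂ | r ≤ ‖z‖}) hz']
  have e2 : ∀ s ∈ Om r1 n, (hO κ s : ℂ) * b n s * (z - s / n)⁻¹ = ∑ k ∈ Finset.range N,
      ((n : ℂ)⁻¹) ^ k * (z⁻¹) ^ (k + 1) * ((hO κ s : ℂ) * b n s * s ^ k) + ((n : ℂ)⁻¹) ^ N *
        ((hO κ s : ℂ) * b n s * (s ^ N * ((z⁻¹) ^ N * (z - s / n)⁻¹))) := by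
    intro s hs
    have hne : z ≠ s / n := (hker n hn1 z hz' s hs).1.symm
    rw [geom_kernel N hz0 hne, mul_add, Finset.mul_sum]
    congr 1
    · refine Finset.sum_congr rfl fun k _ => ?_
      rw [div_eq_mul_inv, mul_pow]
      ring
    · rw [← geom_kernel N hz0 hne, div_eq_mul_inv, mul_pow]
      ring
  rw [setIntegral_congr_fun (measurableSet_Om r1 n) e2, integral_add
    (integrable_finsetSum _ fun k hk => (i1 k (Finset.mem_range.1 hk).le).const_mul _)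
    (i2.const_mul _), integral_finsetSum _ fun k hk =>
    (i1 k (Finset.mem_range.1 hk).le).const_mul _]
  simp only [integral_const_mul]

end O

end Pool.Agent.FreudM
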