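import Pool.Agent.FreudM.Targets

/-!
# Scaling, the reflected Cauchy operator and small kernels
-/

set_option autoImplicit false

open MeasureTheory Filter Topology Set

namespace Pool.Agent.FreudM

open Pool.Agent.Freud

lemma measurableSet_UH' : MeasurableSet UH :=
  measurableSet_lt measurable_const Complex.measurable_im

/-- Scaling of integrals over half discs. -/
lemma setIntegral_Om_scale (F : ℂ → ℂ) (r1 : ℝ) {n : ℕ} (hn : 1 ≤ n) :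
    ∫ s in Om r1 1, F s = (((n : ℝ) ^ (-2 : ℝ) : ℝ) : ℂ) * ∫ σ in Om r1 n, F (σ / n) := by
  have hn0 : (0 : ℝ) < n := by exact_mod_cast hn
  have hnc : (n : ℂ) ≠ 0 := by exact_mod_cast hn0.ne'
  have h := Measure.integral_comp_smul (volume : Measure ℂ) ((Om r1 1).indicator F) ((n : ℝ)⁻¹)
  have e1 : ∀ σ : ℂ, (Om r1 1).indicator F (((n : ℝ)⁻¹) • σ) =
      (Om r1 n).indicator (fun σ => F (σ / n)) σ := by
    intro σ
    have h1 : ((n : ℝ)⁻¹) • σ = σ / n := by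
      rw [Complex.real_smul]; push_cast; rw [div_eq_inv_mul]
    rw [h1]
    have h2 : σ / n ∈ Om r1 1 ↔ σ ∈ Om r1 n := by
      unfold Om
      simp only [mem_ofPred_eq, Nat.cast_one, mul_one]
      rw [norm_div, Complex.norm_natCast, div_le_iff₀ hn0]
      have : (σ / (n : ℂ)).im = σ.im / n := by
        rw [← Complex.ofReal_natCast, Complex.div_ofReal_im]
      rw [this]
      constructor
      · rintro ⟨a, b⟩
        exact ⟨(div_pos_iff_of_pos_right hn0).1 a, b⟩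
      · rintro ⟨a, b⟩
        exact ⟨div_pos a hn0, b⟩
    by_cases hσ : σ ∈ Om r1 n
    · rw [indicator_of_mem hσ, indicator_of_mem (h2.2 hσ)]
    · rw [indicator_of_notMem hσ, indicator_of_notMem (fun h => hσ (h2.1 h))]
  simp only [e1] at h
  rw [integral_indicator (measurableSet_Om r1 n), integral_indicator (measurableSet_Om r1 1),
    Complex.finrank_real_complex] at h
  rw [h]
  have e2 : |((((n : ℝ)⁻¹) ^ 2)⁻¹)| = (n : ℝ) ^ (2 : ℝ) := by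
    rw [abs_of_nonneg (by positivity), inv_pow, inv_inv, Real.rpow_two]
  rw [e2, Complex.real_smul, ← mul_assoc, ← Complex.ofReal_mul, ← Real.rpow_add hn0]
  norm_num

/-- The Cauchy integral over the upper half plane. -/
noncomputable def JI (f : ℂ → ℂ) (z : ℂ) : ℂ := ∫ s in UH, f s * (s - z)⁻¹

lemma KS_eq {f : ℂ → ℂ} {z : ℂ} (h1 : IntegrableOn (fun s => f s * (s - z)⁻¹) UH)
    (h2 : IntegrableOn (fun s => f s * (s - (starRingEnd ℂ) z)⁻¹) UH) :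
    KS f z = -(1 / (Real.pi : ℂ)) * (JI f z + (starRingEnd ℂ) (JI f ((starRingEnd ℂ) z))) := by
  unfold KS JI
  congr 1
  have e : ∀ s : ℂ, (starRingEnd ℂ) (f s) / ((starRingEnd ℂ) s - z) =
      (starRingEnd ℂ) (f s * (s - (starRingEnd ℂ) z)⁻¹) := by
    intro s
    rw [map_mul, map_inv₀, map_sub, Complex.conj_conj, div_eq_mul_inv]
  have h3 : IntegrableOn (fun s => (starRingEnd ℂ) (f s * (s - (starRingEnd ℂ) z)⁻¹)) UH :=
    (Complex.conjCLE : ℂ →L[ℝ] ℂ).integrable_comp h2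
  simp only [e, div_eq_mul_inv (f _)]
  rw [integral_add h1 h3, integral_conj]

/-- Cubic decay gives integrability and a bound of the Cauchy integral. -/
lemma JI_bound : ∃ Ck : ℝ, 0 < Ck ∧ ∀ (S : Set ℂ) (f : ℂ → ℂ) (M : ℝ), MeasurableSet S → 0 ≤ M →
    AEStronglyMeasurable f (volume.restrict S) → (∀ s ∈ S, ‖f s‖ ≤ M * (1 + ‖s‖) ^ (-3 : ℝ)) →
    ∀ z : ℂ, IntegrableOn (fun s => f s * (s - z)⁻¹) S ∧
      ‖∫ s in S, f s * (s - z)⁻¹‖ ≤ Ck * M := by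
  obtain ⟨Ck, hCk, hk⟩ := kernel_int
  refine ⟨Ck, hCk, fun S f M hS hM hf hfM z => ?_⟩
  obtain ⟨hi, hb⟩ := hk (fun s => M * (1 + ‖s‖) ^ (-3 : ℝ)) M (by fun_prop)
    (fun s => by positivity) (fun s => le_rfl) z
  have hle : ∀ s ∈ S, ‖f s * (s - z)⁻¹‖ ≤ M * (1 + ‖s‖) ^ (-3 : ℝ) * ‖(s - z)⁻¹‖ := by
    intro s hs
    rw [norm_mul]
    exact mul_le_mul_of_nonneg_right (hfM s hs) (norm_nonneg _)
  have hint : IntegrableOn (fun s => f s * (s - z)⁻¹) S := by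
    refine Integrable.mono' (hi.integrableOn (s := S)) (hf.mul ?_) ?_
    · exact ((measurable_id.sub_const z).inv).aestronglyMeasurable
    · filter_upwards [ae_restrict_mem hS] with s hs using hle s hs
  refine ⟨hint, ?_⟩
  calc ‖∫ s in S, f s * (s - z)⁻¹‖
      ≤ ∫ s in S, M * (1 + ‖s‖) ^ (-3 : ℝ) * ‖(s - z)⁻¹‖ := by
        refine norm_integral_le_of_norm_le hi.integrableOn ?_
        filter_upwards [ae_restrict_mem hS] with s hs using hle s hs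
    _ ≤ ∫ s, M * (1 + ‖s‖) ^ (-3 : ℝ) * ‖(s - z)⁻¹‖ := by
        refine setIntegral_le_integral hi (Eventually.of_forall fun s => ?_)
        simp only [Pi.zero_apply]
        positivity
    _ ≤ Ck * M := hb

/-- The scaled source term near the origin has a small Cauchy integral. -/
lemma zero_kernel (α c : ℝ) (hα : 1 < α) (hc : 0 < c) : ∃ D : ℝ, 0 < D ∧ ∀ n : ℕ, 1 ≤ n →
    ∀ z : ℂ, Integrable (fun s : ℂ => (n : ℝ) * ‖s‖ ^ (α - 1) * Real.exp (-(c * n * ‖s‖)) *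
        ‖(s - z)⁻¹‖) ∧
      ∫ s : ℂ, (n : ℝ) * ‖s‖ ^ (α - 1) * Real.exp (-(c * n * ‖s‖)) * ‖(s - z)⁻¹‖
        ≤ D * (n : ℝ) ^ (-(α - 1)) := by
  obtain ⟨Ck, hCk, hk⟩ := kernel_int
  obtain ⟨K, hK⟩ := exists_nat_ge (α - 1)
  obtain ⟨C, hC0, hC⟩ := exp_growth c hc K
  have hg : ∀ s : ℂ, ‖s‖ ^ (α - 1) * Real.exp (-(c * ‖s‖)) ≤ C * (1 + ‖s‖) ^ (-3 : ℝ) := by
    intro s
    have h0 := norm_nonneg s
    have h1 : ‖s‖ ^ (α - 1) ≤ (1 + ‖s‖) ^ K := by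
      calc ‖s‖ ^ (α - 1) ≤ (1 + ‖s‖) ^ (α - 1) :=
            Real.rpow_le_rpow h0 (by linarith) (by linarith)
        _ ≤ (1 + ‖s‖) ^ (K : ℝ) := Real.rpow_le_rpow_of_exponent_le (by linarith) hK
        _ = (1 + ‖s‖) ^ K := Real.rpow_natCast _ _
    calc ‖s‖ ^ (α - 1) * Real.exp (-(c * ‖s‖)) ≤ (1 + ‖s‖) ^ K * Real.exp (-(c * ‖s‖)) := by
          gcongr
      _ = Real.exp (-(c * ‖s‖)) * (1 + ‖s‖) ^ K := mul_comm _ _
      _ ≤ _ := hC _ h0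
  refine ⟨Ck * C, by positivity, fun n hn z => ?_⟩
  have hn0 : (0 : ℝ) < n := by exact_mod_cast hn
  have hnc : (n : ℂ) ≠ 0 := by exact_mod_cast hn0.ne'
  obtain ⟨hi, hb⟩ := hk (fun s => ‖s‖ ^ (α - 1) * Real.exp (-(c * ‖s‖))) C
    (by fun_prop) (fun s => by positivity) hg (n * z)
  -- scaling
  set G : ℂ → ℝ := fun s => ‖s‖ ^ (α - 1) * Real.exp (-(c * ‖s‖)) * ‖(s - n * z)⁻¹‖ with hG
  have e1 : ∀ s : ℂ, (n : ℝ) * ‖s‖ ^ (α - 1) * Real.exp (-(c * n * ‖s‖)) * ‖(s - z)⁻¹‖ =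
      ((n : ℝ) ^ (-(α - 1)) * (n : ℝ) ^ (2 : ℝ)) * G ((n : ℝ) • s) := by
    intro s
    have a1 : ‖(n : ℝ) • s‖ = n * ‖s‖ := by rw [norm_smul, Real.norm_of_nonneg hn0.le]
    have a2 : ‖((n : ℝ) • s - n * z)⁻¹‖ = (n : ℝ)⁻¹ * ‖(s - z)⁻¹‖ := by
      rw [Complex.real_smul, Complex.ofReal_natCast, ← mul_sub, mul_inv, norm_mul, norm_inv,
        Complex.norm_natCast]
    simp only [hG]
    rw [a1, a2, Real.mul_rpow hn0.le (norm_nonneg s), show c * (n * ‖s‖) = c * n * ‖s‖ by ring]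
    have a3 : (n : ℝ) ^ (-(α - 1)) * (n : ℝ) ^ (2 : ℝ) * ((n : ℝ) ^ (α - 1) * (n : ℝ)⁻¹) = n := by
      rw [← Real.rpow_neg_one, ← Real.rpow_add hn0, ← Real.rpow_add hn0, ← Real.rpow_add hn0]
      rw [show -(α - 1) + 2 + (α - 1 + -1) = 1 by ring, Real.rpow_one]
    calc (n : ℝ) * ‖s‖ ^ (α - 1) * Real.exp (-(c * n * ‖s‖)) * ‖(s - z)⁻¹‖
        = ((n : ℝ) ^ (-(α - 1)) * (n : ℝ) ^ (2 : ℝ) * ((n : ℝ) ^ (α - 1) * (n : ℝ)⁻¹)) *
          (‖s‖ ^ (α - 1) * Real.exp (-(c * n * ‖s‖)) * ‖(s - z)⁻¹‖) := by rw [a3]; ring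
      _ = _ := by ring
  have hn' : ((n : ℝ)) ≠ 0 := hn0.ne'
  constructor
  · simp only [e1]
    exact ((integrable_comp_smul_iff volume G hn').2 hi).const_mul _
  · simp only [e1]
    rw [integral_const_mul, Measure.integral_comp_smul, Complex.finrank_real_complex]
    have e2 : |(((n : ℝ) ^ 2)⁻¹)| = (n : ℝ) ^ (-2 : ℝ) := by
      rw [abs_of_nonneg (by positivity), Real.rpow_neg hn0.le, Real.rpow_two]
    rw [e2, smul_eq_mul]
    calc (n : ℝ) ^ (-(α - 1)) * (n : ℝ) ^ (2 : ℝ) * ((n : ℝ) ^ (-2 : ℝ) * ∫ x, G x)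
        = (n : ℝ) ^ (-(α - 1)) * ((n : ℝ) ^ (2 : ℝ) * (n : ℝ) ^ (-2 : ℝ)) * ∫ x, G x := by ring
      _ = (n : ℝ) ^ (-(α - 1)) * ∫ x, G x := by
          rw [← Real.rpow_add hn0]; norm_num
      _ ≤ (n : ℝ) ^ (-(α - 1)) * (Ck * C) := by gcongr
      _ = _ := by ring

end Pool.Agent.FreudM
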