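import Pool.Agent.FreudM.Total

/-!
# Square roots of expansions
-/

set_option autoImplicit false

open MeasureTheory Filter Topology Set
open scoped Pointwise

namespace Pool.Agent.FreudM

open Pool.Agent.Freud

open Polynomial in
/-- Polynomial approximations of `√(1 + t)`. -/
lemma exists_sqrt_poly (N : ℕ) : ∃ P Q : ℝ[X], P.eval 0 = 1 ∧
    P ^ 2 - (1 + X) = X ^ (N + 1) * Q := by
  induction N with
  | zero => exact ⟨1, -1, by simp, by ring⟩
  | succ N ih =>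
    obtain ⟨P, Q, hP, hQ⟩ := ih
    set b : ℝ := Q.eval 0 with hb
    have h1 : (X : ℝ[X]) ∣ Q - C b * P := by
      rw [X_dvd_iff, coeff_zero_eq_eval_zero]
      simp [hP, hb]
    obtain ⟨S, hS⟩ := h1
    refine ⟨P - C (b / 2) * X ^ (N + 1), S + C (b / 2) ^ 2 * X ^ N, ?_, ?_⟩
    · simp [hP]
    · have e1 : (C b : ℝ[X]) = 2 * C (b / 2) := by
        rw [← C_ofNat, ← C_mul]; congr 1; ring
      calc (P - C (b / 2) * X ^ (N + 1)) ^ 2 - (1 + X)
          = (P ^ 2 - (1 + X)) - (2 * C (b / 2)) * P * X ^ (N + 1) +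
            C (b / 2) ^ 2 * X ^ (N + 1) * X ^ (N + 1) := by ring
        _ = X ^ (N + 1) * (Q - C b * P) + C (b / 2) ^ 2 * X ^ (N + 1) * X ^ (N + 1) := by
            rw [hQ, e1]; ring
        _ = X ^ (N + 1 + 1) * (S + C (b / 2) ^ 2 * X ^ N) := by
            rw [hS]; ring

/-- Quantitative version. -/
lemma sqrt_approx (N : ℕ) : ∃ (P : Polynomial ℝ) (C δ : ℝ), 0 < δ ∧ P.eval 0 = 1 ∧
    (1 ≤ N → P.derivative.eval 0 = 1 / 2) ∧
    ∀ t : ℝ, |t| ≤ δ → |√(1 + t) - P.eval t| ≤ C * |t| ^ (N + 1) := by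
  obtain ⟨P, Q, hP, hPQ⟩ := exists_sqrt_poly N
  have hPc : ContinuousAt (fun t => P.eval t) 0 := P.continuous.continuousAt
  have h1 : ∀ᶠ t in 𝓝 (0 : ℝ), 0 < P.eval t :=
    hPc.eventually (lt_mem_nhds (show (0 : ℝ) < P.eval 0 by rw [hP]; norm_num))
  obtain ⟨δ1, hδ1, hδ1'⟩ := Metric.eventually_nhds_iff.1 h1
  obtain ⟨M, hM⟩ := (isCompact_closedBall (0 : ℝ) 1).exists_bound_of_continuousOn
    (f := fun t => Q.eval t) Q.continuous.continuousOn
  refine ⟨P, 2 * M, min (δ1 / 2) (1 / 2), by positivity, hP, ?_, ?_⟩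
  · intro hN
    have h2 := congrArg (fun R => (Polynomial.derivative R).eval 0) hPQ
    obtain ⟨m, rfl⟩ : ∃ m, N = m + 1 := ⟨N - 1, by omega⟩
    simp [Polynomial.derivative_pow, hP] at h2
    linarith
  · intro t ht
    have ht1 : |t| ≤ δ1 / 2 := ht.trans (min_le_left _ _)
    have ht2 : |t| ≤ 1 / 2 := ht.trans (min_le_right _ _)
    have hpos : 0 < P.eval t := hδ1' (by rw [dist_zero_right, Real.norm_eq_abs]; linarith)
    have h3 := abs_le.1 ht2
    have h4 : (1 / 2 : ℝ) ≤ √(1 + t) := by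
      apply Real.le_sqrt_of_sq_le
      linarith
    have h5 : √(1 + t) ^ 2 = 1 + t := Real.sq_sqrt (by linarith)
    have h6 : P.eval t ^ 2 - (1 + t) = t ^ (N + 1) * Q.eval t := by
      have := congrArg (fun R => Polynomial.eval t R) hPQ
      simpa using this
    have h7 : |Q.eval t| ≤ M := hM t (by
      rw [Metric.mem_closedBall, dist_zero_right, Real.norm_eq_abs]; linarith)
    have h8 : (√(1 + t) - P.eval t) * (√(1 + t) + P.eval t) = -(t ^ (N + 1) * Q.eval t) := by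
      rw [← h6]; linear_combination h5
    have h9 : |√(1 + t) - P.eval t| * (√(1 + t) + P.eval t) = |t| ^ (N + 1) * |Q.eval t| := by
      rw [← abs_of_pos (show 0 < √(1 + t) + P.eval t by linarith), ← abs_mul, h8, abs_neg, abs_mul,
        abs_pow]
    have h10 : |√(1 + t) - P.eval t| * (1 / 2) ≤ |t| ^ (N + 1) * |Q.eval t| := by
      rw [← h9]
      gcongr
      linarith
    have h11 : |t| ^ (N + 1) * |Q.eval t| ≤ |t| ^ (N + 1) * M := by gcongr
    nlinarith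

variable {P : Set (ℕ → ℝ)} {T : ℝ} {u v : ℕ → ℂ}

lemma one_le_unit (x : Unit) : (1 : ℝ) ≤ (fun _ : Unit => (1 : ℝ)) x := le_rfl

lemma ExpS.add (hu : ExpS P T u) (hv : ExpS P T v) : ExpS P T (fun n => u n + v n) :=
  ExpTo.add one_le_unit hu hv

lemma ExpS.const_mul (hu : ExpS P T u) (a : ℂ) : ExpS P T (fun n => a * u n) :=
  ExpTo.const_mul one_le_unit hu a

lemma ExpS.re (hu : ExpS P T u) : ExpS P T (fun n => (((u n).re : ℝ) : ℂ)) := by
  have h1 : ExpS P T (fun n => (starRingEnd ℂ) (u n)) := ExpTo.conj hu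
  refine ((hu.add h1).const_mul (1 / 2)).congr (Eventually.of_forall fun n _ _ => ?_)
  show (1 / 2 : ℂ) * (u n + (starRingEnd ℂ) (u n)) = (((u n).re : ℝ) : ℂ)
  rw [Complex.re_eq_add_conj]
  ring

lemma ExpS.mul {Q : Set (ℕ → ℝ)} (hP : Ord P 0) (hQ : Ord Q 0) (hT : 0 ≤ T)
    (hu : ExpS P T u) (hv : ExpS Q T v) : ExpS (P * Q) T (fun n => u n * v n) := by
  have := ExpTo.mul one_le_unit hP hQ hT hu hv
  rwa [add_zero, min_self] at this

/-- Size of an expansion. -/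
lemma ExpS.size {a : ℝ} (hP : Ord P a) (hT : a ≤ T) (hu : ExpS P T u) : ∃ C : ℝ, 0 ≤ C ∧
    ∀ᶠ n : ℕ in atTop, ‖u n‖ ≤ C * (n : ℝ) ^ (-a) := by
  obtain ⟨p, hp, C, K, hC⟩ := hu
  obtain ⟨D, L, hD0, hD⟩ := Sums_bound one_le_unit hP hp
  refine ⟨|C| + D, by positivity, ?_⟩
  filter_upwards [hC, hD, eventually_ge_atTop 1] with n h1 h2 hn
  have e1 : ∀ t : ℝ, (0 : ℝ) ≤ (n : ℝ) ^ t := fun t => Real.rpow_nonneg (Nat.cast_nonneg n) _
  have a1 := h1 () (mem_univ _)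
  have a2 := h2 ()
  simp only [one_pow, mul_one] at a1 a2
  calc ‖u n‖ = ‖(u n - p n ()) + p n ()‖ := by ring_nf
    _ ≤ ‖u n - p n ()‖ + ‖p n ()‖ := norm_add_le _ _
    _ ≤ C * (n : ℝ) ^ (-T) + D * (n : ℝ) ^ (-a) := add_le_add a1 a2
    _ ≤ |C| * (n : ℝ) ^ (-a) + D * (n : ℝ) ^ (-a) := by
        have e2 := rpow_neg_mono_aux hn hT
        have e3 := e1 (-T)
        have e4 := e1 (-a)
        gcongr
        exact le_abs_self C
    _ = _ := by ring

/-- Polynomials of expansions. -/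
lemma ExpS.poly {M : Set (ℕ → ℝ)} (h1 : (1 : ℕ → ℝ) ∈ M) (hM : ∀ p ∈ M, ∀ q ∈ M, p * q ∈ M)
    (hO : Ord M 0) (hT : 0 ≤ T) (hu : ExpS M T u) (F : Polynomial ℝ) :
    ExpS M T (fun n => (F.map (algebraMap ℝ ℂ)).eval (u n)) := by
  have hpow : ∀ k : ℕ, ExpS M T (fun n => u n ^ k) := by
    intro k
    induction k with
    | zero =>
      have : ExpS M T (fun n => (((1 : ℕ → ℝ) n : ℝ) : ℂ) * 1) :=
        ExpTo.of_gen h1 (PolyGrowth.const 1)
      simpa using this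
    | succ k ih =>
      have := (ExpS.mul hO hO hT ih hu).mono_P (P' := M) (by
        rintro p ⟨a, ha, b, hb, rfl⟩
        exact hM a ha b hb)
      refine this.congr (Eventually.of_forall fun n _ _ => ?_)
      show u n ^ k * u n = u n ^ (k + 1)
      rw [pow_succ]
  simp only [Polynomial.eval_eq_sum_range]
  exact ExpTo.sum one_le_unit _ _ fun k _ => (hpow k).const_mul _

/-- Square roots of expansions. -/
theorem ExpS.sqrt {M : Set (ℕ → ℝ)} (h1 : (1 : ℕ → ℝ) ∈ M) (hM : ∀ p ∈ M, ∀ q ∈ M, p * q ∈ M)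
    (hO : Ord M 0) (hT : 0 ≤ T) {t : ℕ → ℝ} (ht : ExpS M T (fun n => ((t n : ℝ) : ℂ)))
    {μ : ℝ} (hμ : 0 < μ) {C : ℝ} (hC : ∀ᶠ n : ℕ in atTop, |t n| ≤ C * (n : ℝ) ^ (-μ)) :
    ExpS M T (fun n => ((√(1 + t n) : ℝ) : ℂ)) := by
  obtain ⟨N, hN⟩ := exists_nat_ge (T / μ)
  obtain ⟨F, D, δ, hδ, -, -, hF⟩ := sqrt_approx N
  have h2 := ExpS.poly h1 hM hO hT ht F
  have hsmall : ∀ᶠ n : ℕ in atTop, |t n| ≤ δ := by
    have h3 : Tendsto (fun n : ℕ => C * (n : ℝ) ^ (-μ)) atTop (𝓝 (C * 0)) :=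
      ((tendsto_rpow_neg_atTop hμ).comp tendsto_natCast_atTop_atTop).const_mul C
    rw [mul_zero] at h3
    filter_upwards [hC, h3.eventually (gt_mem_nhds hδ)] with n h4 h5
    linarith
  have h6 : ExpS M T (fun n => ((√(1 + t n) - F.eval (t n) : ℝ) : ℂ)) := by
    refine ExpTo.of_bound (C := |D| * |C| ^ (N + 1)) (K := 0) ?_
    filter_upwards [hC, hsmall, eventually_ge_atTop 1] with n h4 h5 hn _ _
    have hn0 : (0 : ℝ) < n := by exact_mod_cast hn
    rw [Complex.norm_real, Real.norm_eq_abs, pow_zero, mul_one]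
    have h7 : (n : ℝ) ^ (-μ) = (n : ℝ) ^ (-μ) := rfl
    have h8 : |t n| ≤ |C| * (n : ℝ) ^ (-μ) :=
      h4.trans (mul_le_mul_of_nonneg_right (le_abs_self _) (Real.rpow_nonneg hn0.le _))
    calc |√(1 + t n) - F.eval (t n)| ≤ D * |t n| ^ (N + 1) := hF _ h5
      _ ≤ |D| * (|C| * (n : ℝ) ^ (-μ)) ^ (N + 1) := by
          gcongr
          exact le_abs_self D
      _ = |D| * |C| ^ (N + 1) * ((n : ℝ) ^ (-μ)) ^ (N + 1) := by rw [mul_pow]; ring
      _ ≤ |D| * |C| ^ (N + 1) * (n : ℝ) ^ (-T) := by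
          gcongr
          rw [← Real.rpow_natCast, ← Real.rpow_mul hn0.le]
          refine Real.rpow_le_rpow_of_exponent_le (by exact_mod_cast hn) ?_
          rw [div_le_iff₀ hμ] at hN
          push_cast
          nlinarith
  refine (h6.add h2).congr (Eventually.of_forall fun n _ _ => ?_)
  have e : (Polynomial.map (algebraMap ℝ ℂ) F).eval ((t n : ℝ) : ℂ) = ((F.eval (t n) : ℝ) : ℂ) := by
    rw [Polynomial.eval_map]
    exact Polynomial.eval₂_at_apply (algebraMap ℝ ℂ) (t n)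
  show ((√(1 + t n) - F.eval (t n) : ℝ) : ℂ) +
    (Polynomial.map (algebraMap ℝ ℂ) F).eval ((t n : ℝ) : ℂ) = ((√(1 + t n) : ℝ) : ℂ)
  rw [e]
  push_cast
  ring

end Pool.Agent.FreudM
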