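import Pool.Agent.FreudM.Machine

/-!
# One step of the bootstrap
-/

set_option autoImplicit false

open MeasureTheory Filter Topology Set
open scoped Pointwise

namespace Pool.Agent.FreudM

open Pool.Agent.Freud

variable {α κ r r1 c : ℝ} {A : Set ℂ} {We W0 Wx R : ℕ → ℂ → Mat2}

lemma Ord_one_aux {s : ℕ → ℝ} (C : ℝ) (h : ∀ᶠ n : ℕ in atTop, |s n| ≤ C) :
    ∃ C : ℝ, ∀ᶠ n : ℕ in atTop, |s n| ≤ C * (n : ℝ) ^ (-(0 : ℝ)) := by
  refine ⟨C, ?_⟩
  filter_upwards [h] with n hn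
  simpa using hn

lemma sInv_bd : ∀ᶠ n : ℕ in atTop, |sInv n| ≤ 1 := by
  filter_upwards [eventually_ge_atTop 1] with n h1
  have hn0 : (0 : ℝ) < n := by exact_mod_cast h1
  unfold sInv
  rw [abs_of_nonneg (Real.rpow_nonneg hn0.le _)]
  exact Real.rpow_le_one_of_one_le_of_nonpos (by exact_mod_cast h1) (by norm_num)

lemma sPow_bd (hα : 1 < α) : ∀ᶠ n : ℕ in atTop, |sPow α n| ≤ 1 := by
  filter_upwards [eventually_ge_atTop 1] with n h1
  have hn0 : (0 : ℝ) < n := by exact_mod_cast h1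
  unfold sPow
  rw [abs_of_nonneg (Real.rpow_nonneg hn0.le _)]
  exact Real.rpow_le_one_of_one_le_of_nonpos (by exact_mod_cast h1) (by linarith)

lemma sLog_bd (hα : 1 < α) : ∀ᶠ n : ℕ in atTop, |sLog α n| ≤ 1 / (α - 1) := by
  filter_upwards [eventually_ge_atTop 1] with n h1
  have hn1 : (1 : ℝ) ≤ n := by exact_mod_cast h1
  have hn0 : (0 : ℝ) < n := by linarith
  unfold sLog
  have h2 := Real.log_le_rpow_div hn0.le (ε := α - 1) (by linarith)
  have h3 := Real.log_nonneg hn1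
  rw [abs_of_nonneg (mul_nonneg (Real.rpow_nonneg hn0.le _) h3)]
  calc (n : ℝ) ^ (-(α - 1)) * Real.log n ≤ (n : ℝ) ^ (-(α - 1)) * ((n : ℝ) ^ (α - 1) / (α - 1)) :=
        mul_le_mul_of_nonneg_left h2 (Real.rpow_nonneg hn0.le _)
    _ = ((n : ℝ) ^ (-(α - 1)) * (n : ℝ) ^ (α - 1)) / (α - 1) := by ring
    _ = 1 / (α - 1) := by
        rw [← Real.rpow_add hn0, neg_add_cancel, Real.rpow_zero]

lemma Ord_Lam (hα : 1 < α) : Ord (Lam α : Set (ℕ → ℝ)) 0 := by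
  intro s hs
  refine Submonoid.closure_induction (motive := fun s _ => ∃ C : ℝ, ∀ᶠ n : ℕ in atTop,
    |s n| ≤ C * (n : ℝ) ^ (-(0 : ℝ))) ?_ ?_ ?_ hs
  · rintro s (rfl | rfl | ⟨rfl, -⟩)
    · exact Ord_one_aux 1 sInv_bd
    · exact Ord_one_aux 1 (sPow_bd hα)
    · exact Ord_one_aux _ (sLog_bd hα)
  · exact Ord_one_aux 1 (Eventually.of_forall fun n => by simp)
  · rintro s t - - ⟨C, hC⟩ ⟨D, hD⟩
    refine ⟨|C| * |D|, ?_⟩
    filter_upwards [hC, hD] with n h1 h2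
    simp only [neg_zero, Real.rpow_zero, mul_one] at h1 h2 ⊢
    rw [Pi.mul_apply, abs_mul]
    exact mul_le_mul (h1.trans (le_abs_self _)) (h2.trans (le_abs_self _)) (abs_nonneg _)
      (abs_nonneg _)

/-- Expansion of all entries on the annuli. -/
def EA (R : ℕ → ℂ → Mat2) (A : Set ℂ) (P : Set (ℕ → ℝ)) (T : ℝ) : Prop :=
  ∀ i j, ExpTo P (fun _ => A) one1 T (fun n s => R n s i j)

/-- Expansion of all entries near the origin, in the scaled variable. -/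
def EZ (R : ℕ → ℂ → Mat2) (r1 : ℝ) (P : Set (ℕ → ℝ)) (T : ℝ) : Prop :=
  ∀ i j, ExpTo P (Om r1) rho1 T (fun n σ => R n (σ / n) i j)

/-- The normalised source near the origin. -/
noncomputable def vv (α κ : ℝ) (W0 : ℕ → ℂ → Mat2) (n : ℕ) (σ : ℂ) (i j : Fin 2) : ℂ :=
  (((-1) ^ n * (n : ℝ) ^ (α - 2) * Real.exp (κ * ‖σ‖) : ℝ) : ℂ) * W0 n (σ / n) i j

/-- The normalised product near the origin. -/
noncomputable def bO (α κ : ℝ) (R W0 : ℕ → ℂ → Mat2) (i j : Fin 2) (n : ℕ) (σ : ℂ) : ℂ :=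
  R n (σ / n) i 0 * vv α κ W0 n σ 0 j + R n (σ / n) i 1 * vv α κ W0 n σ 1 j

lemma MD.pr_We (h : MD α κ r r1 c A We W0 Wx R) {P : Set (ℕ → ℝ)} {T : ℝ} (hP : Ord P 0)
    (hT : 0 ≤ T) (hR : EA R A P T) (i j : Fin 2) :
    ExpTo (P * pw1) (fun _ => A) one1 (T + 1) (fun n s => pr R We n i j s) := by
  have key : ∀ k, ExpTo (P * pw1) (fun _ => A) one1 (T + 1)
      (fun n s => R n s i k * We n s k j) := by
    intro k
    have := (hR i k).mul one_le_one1 hP Ord_pw1 (by linarith) (h.We_exp (T + 1) k j)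
    rwa [add_zero, min_self] at this
  exact (key 0).add one_le_one1 (key 1)

lemma MD.pr_W0 (h : MD α κ r r1 c A We W0 Wx R) {P : Set (ℕ → ℝ)} {T : ℝ} (hP : Ord P 0)
    (hT : 0 ≤ T) (hR : EZ R r1 P T) (i j : Fin 2) :
    ExpTo (P * (Lam α : Set (ℕ → ℝ))) (Om r1) rho1 T (bO α κ R W0 i j) := by
  have key : ∀ k, ExpTo (P * (Lam α : Set (ℕ → ℝ))) (Om r1) rho1 T
      (fun n σ => R n (σ / n) i k * vv α κ W0 n σ k j) := by
    intro k
    have := (hR i k).mul one_le_rho1 hP (Ord_Lam h.hα) hT (h.W0_exp T k j)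
    rwa [add_zero, min_self] at this
  exact (key 0).add one_le_rho1 (key 1)

lemma div_mem_UH {n : ℕ} (hn : 1 ≤ n) {σ : ℂ} (hσ : 0 < σ.im) : σ / n ∈ UH := by
  have hn0 : (0 : ℝ) < n := by exact_mod_cast hn
  show 0 < (σ / (n : ℂ)).im
  rw [← Complex.ofReal_natCast, Complex.div_ofReal_im]
  exact div_pos hσ hn0

lemma MD.meas_We (h : MD α κ r r1 c A We W0 Wx R) (i j : Fin 2) : ∀ᶠ n : ℕ in atTop,
    AEStronglyMeasurable (fun s => pr R We n i j s) (volume.restrict A) := by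
  filter_upwards [h.We_cont, h.R_cont] with n c1 cR
  refine ContinuousOn.aestronglyMeasurable (ContinuousOn.mono ?_ h.A_sub) h.A_meas
  exact ((cR i 0).mul (c1 0 j)).add ((cR i 1).mul (c1 1 j))

lemma MD.meas_W0 (h : MD α κ r r1 c A We W0 Wx R) (i j : Fin 2) : ∀ᶠ n : ℕ in atTop,
    AEStronglyMeasurable (bO α κ R W0 i j n) (volume.restrict (Om r1 n)) := by
  filter_upwards [h.W0_cont, h.R_cont, eventually_ge_atTop 1] with n c1 cR hn
  refine ContinuousOn.aestronglyMeasurable ?_ (measurableSet_Om r1 n)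
  have hmap : MapsTo (fun σ : ℂ => σ / n) (Om r1 n) UH := fun σ hσ => div_mem_UH hn hσ.1
  have hc : ContinuousOn (fun σ : ℂ => σ / n) (Om r1 n) := by fun_prop
  have hR' : ∀ i j, ContinuousOn (fun σ => R n (σ / n) i j) (Om r1 n) := fun i j =>
    (cR i j).comp hc hmap
  have hW' : ∀ i j, ContinuousOn (fun σ => vv α κ W0 n σ i j) (Om r1 n) := fun i j => by
    refine ContinuousOn.mul ?_ ((c1 i j).comp hc hmap)
    fun_prop
  exact ((hR' i 0).mul (hW' 0 j)).add ((hR' i 1).mul (hW' 1 j))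

/-- Rewriting the origin part in the scaled variable. -/
lemma origin_scale (R W0 : ℕ → ℂ → Mat2) (α κ r1 : ℝ) {n : ℕ} (hn : 1 ≤ n) (i j : Fin 2)
    (k : ℂ → ℂ) : ∫ s in Om r1 1, pr R W0 n i j s * k s =
      ((osc α n : ℝ) : ℂ) * ∫ σ in Om r1 n, (hO κ σ : ℂ) * bO α κ R W0 i j n σ * k (σ / n) := by
  have hn0 : (0 : ℝ) < n := by exact_mod_cast hn
  rw [setIntegral_Om_scale _ r1 hn]
  have e : ∀ σ ∈ Om r1 n, pr R W0 n i j (σ / n) * k (σ / n) =
      (((-1) ^ n * (n : ℝ) ^ (-(α - 2)) : ℝ) : ℂ) *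
        ((hO κ σ : ℂ) * bO α κ R W0 i j n σ * k (σ / n)) := by
    intro σ hσ
    rw [hO_of_mem hσ]
    have h1 : (((-1) ^ n * (n : ℝ) ^ (-(α - 2)) : ℝ) : ℂ) * (Real.exp (-(κ * ‖σ‖)) : ℂ) *
        (((-1) ^ n * (n : ℝ) ^ (α - 2) * Real.exp (κ * ‖σ‖) : ℝ) : ℂ) = 1 := by
      rw [← Complex.ofReal_mul, ← Complex.ofReal_mul, ← Complex.ofReal_one]
      congr 1
      have a1 : ((-1 : ℝ) ^ n) * (-1) ^ n = 1 := by rw [← mul_pow]; norm_num
      have a2 : (n : ℝ) ^ (-(α - 2)) * (n : ℝ) ^ (α - 2) = 1 := by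
        rw [← Real.rpow_add hn0, neg_add_cancel, Real.rpow_zero]
      have a3 : Real.exp (-(κ * ‖σ‖)) * Real.exp (κ * ‖σ‖) = 1 := by
        rw [← Real.exp_add, neg_add_cancel, Real.exp_zero]
      calc (-1) ^ n * (n : ℝ) ^ (-(α - 2)) * Real.exp (-(κ * ‖σ‖)) *
            ((-1) ^ n * (n : ℝ) ^ (α - 2) * Real.exp (κ * ‖σ‖))
          = ((-1) ^ n * (-1) ^ n) * ((n : ℝ) ^ (-(α - 2)) * (n : ℝ) ^ (α - 2)) *
            (Real.exp (-(κ * ‖σ‖)) * Real.exp (κ * ‖σ‖)) := by ring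
        _ = 1 := by rw [a1, a2, a3]; norm_num
    unfold bO vv pr
    linear_combination (-(R n (σ / n) i 0 * W0 n (σ / n) 0 j +
      R n (σ / n) i 1 * W0 n (σ / n) 1 j) * k (σ / n)) * h1
  rw [setIntegral_congr_fun (measurableSet_Om r1 n) e, integral_const_mul, ← mul_assoc]
  congr 1
  rw [← Complex.ofReal_mul]
  congr 1
  unfold osc
  have a2 : (n : ℝ) ^ (-2 : ℝ) * (n : ℝ) ^ (-(α - 2)) = (n : ℝ) ^ (-α) := by
    rw [← Real.rpow_add hn0]; congr 1; ring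
  rw [← a2]
  ring

lemma osc_bd (α : ℝ) : ∃ C : ℝ, ∀ᶠ n : ℕ in atTop, |osc α n| ≤ C * (n : ℝ) ^ (-α) :=
  ⟨1, Eventually.of_forall fun n => by
    unfold osc
    rw [abs_mul, abs_pow, abs_neg, abs_one, one_pow, one_mul, one_mul,
      abs_of_nonneg (Real.rpow_nonneg (Nat.cast_nonneg n) _)]⟩

/-- The scale `(-1)^n n^(1-α)`. -/
noncomputable def oscn (α : ℝ) : ℕ → ℝ := fun n => (-1) ^ n * (n : ℝ) ^ (-(α - 1))

lemma oscn_bd (α : ℝ) : ∃ C : ℝ, ∀ᶠ n : ℕ in atTop, |oscn α n| ≤ C * (n : ℝ) ^ (-(α - 1)) :=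
  ⟨1, Eventually.of_forall fun n => by
    unfold oscn
    rw [abs_mul, abs_pow, abs_neg, abs_one, one_pow, one_mul, one_mul,
      abs_of_nonneg (Real.rpow_nonneg (Nat.cast_nonneg n) _)]⟩

/-- Expansion of the Cauchy integral away from the origin. -/
lemma MD.J_out (h : MD α κ r r1 c A We W0 Wx R) {P Q E : Set (ℕ → ℝ)} {T : ℝ} (hP : Ord P 0)
    (hQ : Ord Q 0) (hT : 0 ≤ T) (hRA : EA R A P T) (hRZ : EZ R r1 Q T)
    (hE1 : ∀ p ∈ P * pw1, p ∈ E)
    (hE2 : ∀ p ∈ Q * (Lam α : Set (ℕ → ℝ)), ∀ k : ℕ,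
      (fun n : ℕ => osc α n * ((n : ℝ) ^ (-(k : ℝ)) * p n)) ∈ E) (i j : Fin 2) :
    ExpTo E (fun _ => {z : ℂ | r ≤ ‖z‖}) one1 (T + min 1 (α - 1))
      (fun n z => Jall R We W0 Wx n i j z) := by
  have hα := h.hα
  set μ := min 1 (α - 1) with hμ
  have hμ1 : μ ≤ 1 := min_le_left _ _
  have hμ2 : μ ≤ α - 1 := min_le_right _ _
  have hA2 : ∀ s ∈ A, ‖s‖ ≤ 2 := fun s hs => (h.A_loc s hs).2
  -- annular part
  have hJe := EE h.A_meas hA2 ((hP.mul Ord_pw1)) (h.pr_We hP hT hRA i j) (h.meas_We i j)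
  have hJe' : ExpTo E (fun _ => {z : ℂ | r ≤ ‖z‖}) one1 (T + μ)
      (fun n z => ∫ s in A, pr R We n i j s * (s - z)⁻¹) :=
    ((hJe.mono_P hE1).mono_T one_le_one1 (by linarith)).mono_Ω
      (Eventually.of_forall fun n => subset_univ _)
  -- origin part
  have hb := h.pr_W0 hQ hT hRZ i j
  have hord : Ord (Q * (Lam α : Set (ℕ → ℝ))) 0 := by
    have := hQ.mul (Ord_Lam hα)
    rwa [add_zero] at this
  have hJo := OE h.hκ h.hr h.hr1 h.hr1' hord hT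
    (Q' := {s | ∃ p ∈ Q * (Lam α : Set (ℕ → ℝ)), ∃ k : ℕ,
      s = fun n : ℕ => (n : ℝ) ^ (-(k : ℝ)) * p n})
    (fun p hp k => ⟨p, hp, k, rfl⟩) hb (h.meas_W0 i j)
  have hJo' := hJo.gen_mul (Q := E) one_le_one1 (osc_bd α) (c := fun _ => (-1 : ℂ))
    (PolyGrowth.const (-1)) (by
      rintro q ⟨p, hp, k, rfl⟩
      exact hE2 p hp k)
  have hJo'' : ExpTo E (fun _ => {z : ℂ | r ≤ ‖z‖}) one1 (T + μ)
      (fun n z => ∫ s in Om r1 1, pr R W0 n i j s * (s - z)⁻¹) := by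
    refine (hJo'.mono_T one_le_one1 (by linarith)).congr ?_
    filter_upwards [eventually_ge_atTop 1] with n hn z _
    rw [origin_scale R W0 α κ r1 hn i j (fun s => (s - z)⁻¹), mul_assoc]
    congr 1
    rw [← integral_const_mul]
    congr 1
    ext σ
    rw [← neg_sub z (σ / n), inv_neg]
    ring
  -- negligible part
  obtain ⟨C, hC0, hC⟩ := h.neg_part (T + μ)
  have hJx : ExpTo E (fun _ => {z : ℂ | r ≤ ‖z‖}) one1 (T + μ)
      (fun n z => Jall R We W0 Wx n i j z - (∫ s in A, pr R We n i j s * (s - z)⁻¹) -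
        ∫ s in Om r1 1, pr R W0 n i j s * (s - z)⁻¹) := by
    refine ExpTo.of_bound (C := C) (K := 0) ?_
    filter_upwards [hC] with n hn z _
    simpa [one1] using hn i j z
  refine ((hJx.add one_le_one1 hJe').add one_le_one1 hJo'').congr
    (Eventually.of_forall fun n z _ => ?_)
  ring

/-- Expansion of the Cauchy integral near the origin. -/
lemma MD.J_in (h : MD α κ r r1 c A We W0 Wx R) {P Q O : Set (ℕ → ℝ)} {T : ℝ} (hP : Ord P 0)
    (hQ : Ord Q 0) (hT : 0 ≤ T) (hRA : EA R A P T) (hRZ : EZ R r1 Q T)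
    (hO1 : ∀ p ∈ P * pw1, ∀ k : ℕ, (fun n : ℕ => (n : ℝ) ^ (-(k : ℝ)) * p n) ∈ O)
    (hO2 : ∀ p ∈ Q * (Lam α : Set (ℕ → ℝ)), (fun n : ℕ => oscn α n * p n) ∈ O) (i j : Fin 2) :
    ExpTo O (Di r1) rho1 (T + min 1 (α - 1))
      (fun n ζ => Jall R We W0 Wx n i j (ζ / n)) := by
  have hα := h.hα
  set μ := min 1 (α - 1) with hμ
  have hμ1 : μ ≤ 1 := min_le_left _ _
  have hμ2 : μ ≤ α - 1 := min_le_right _ _
  have hA2 : ∀ s ∈ A, ‖s‖ ≤ 2 := fun s hs => (h.A_loc s hs).2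
  have hAr : ∀ s ∈ A, r ≤ ‖s‖ := fun s hs => (h.A_loc s hs).1
  -- annular part
  have hord1 : Ord (P * pw1) 1 := by
    have := hP.mul Ord_pw1
    rwa [zero_add] at this
  have hJe := EO h.A_meas hA2 h.hr hAr h.hr1' hord1 (by linarith) hO1
    (h.pr_We hP hT hRA i j) (h.meas_We i j)
  have hJe' : ExpTo O (Di r1) rho1 (T + μ)
      (fun n ζ => ∫ s in A, pr R We n i j s * (s - ζ / n)⁻¹) :=
    hJe.mono_T one_le_rho1 (by linarith)
  -- origin part
  have hb := h.pr_W0 hQ hT hRZ i j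
  have hord : Ord (Q * (Lam α : Set (ℕ → ℝ))) 0 := by
    have := hQ.mul (Ord_Lam hα)
    rwa [add_zero] at this
  have hJo := OO h.hκ h.hr1 hord hb (h.meas_W0 i j)
  have hJo' := hJo.gen_mul (Q := O) one_le_rho1 (oscn_bd α) (c := fun _ => (1 : ℂ))
    (PolyGrowth.const 1) hO2
  have hJo'' : ExpTo O (Di r1) rho1 (T + μ)
      (fun n ζ => ∫ s in Om r1 1, pr R W0 n i j s * (s - ζ / n)⁻¹) := by
    refine ((hJo'.mono_T one_le_rho1 (by linarith)).mono_Ω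
      (Eventually.of_forall fun n => subset_univ _)).congr ?_
    filter_upwards [eventually_ge_atTop 1] with n hn ζ _
    have hn0 : (0 : ℝ) < n := by exact_mod_cast hn
    have hnc : (n : ℂ) ≠ 0 := by exact_mod_cast hn0.ne'
    rw [origin_scale R W0 α κ r1 hn i j (fun s => (s - ζ / n)⁻¹)]
    have e1 : ∀ σ : ℂ, (σ / n - ζ / n)⁻¹ = n * (σ - ζ)⁻¹ := by
      intro σ
      rw [← sub_div, inv_div, div_eq_mul_inv]
    simp only [e1]
    have e2 : ((osc α n : ℝ) : ℂ) * n = ((oscn α n : ℝ) : ℂ) := by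
      rw [← Complex.ofReal_natCast, ← Complex.ofReal_mul]
      congr 1
      unfold osc oscn
      rw [mul_assoc]
      congr 1
      nth_rewrite 2 [← Real.rpow_one (n : ℝ)]
      rw [← Real.rpow_add hn0]
      congr 1
      ring
    rw [← e2, mul_one, mul_assoc]
    congr 1
    rw [← integral_const_mul]
    congr 1
    ext σ
    ring
  -- negligible part
  obtain ⟨C, hC0, hC⟩ := h.neg_part (T + μ)
  have hJx : ExpTo O (Di r1) rho1 (T + μ)
      (fun n ζ => Jall R We W0 Wx n i j (ζ / n) -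
        (∫ s in A, pr R We n i j s * (s - ζ / n)⁻¹) -
        ∫ s in Om r1 1, pr R W0 n i j s * (s - ζ / n)⁻¹) := by
    refine ExpTo.of_bound (C := C) (K := 0) ?_
    filter_upwards [hC] with n hn z _
    simpa using hn i j (z / n)
  refine ((hJx.add one_le_rho1 hJe').add one_le_rho1 hJo'').congr
    (Eventually.of_forall fun n z _ => ?_)
  ring

/-- The deviation of the solution from the identity. -/
noncomputable def Dv (R : ℕ → ℂ → Mat2) : ℕ → ℂ → Mat2 := fun n z => R n z - 1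

/-- One step of the bootstrap. -/
theorem MD.step (h : MD α κ r r1 c A We W0 Wx R) {P Q E O : Set (ℕ → ℝ)} {T : ℝ} (hP : Ord P 0)
    (hQ : Ord Q 0) (hT : 0 ≤ T) (hRA : EA R A P T) (hRZ : EZ R r1 Q T)
    (hE1 : ∀ p ∈ P * pw1, p ∈ E)
    (hE2 : ∀ p ∈ Q * (Lam α : Set (ℕ → ℝ)), ∀ k : ℕ,
      (fun n : ℕ => osc α n * ((n : ℝ) ^ (-(k : ℝ)) * p n)) ∈ E)
    (hO1 : ∀ p ∈ P * pw1, ∀ k : ℕ, (fun n : ℕ => (n : ℝ) ^ (-(k : ℝ)) * p n) ∈ O)
    (hO2 : ∀ p ∈ Q * (Lam α : Set (ℕ → ℝ)), (fun n : ℕ => oscn α n * p n) ∈ O) :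
    EA (Dv R) A E (T + min 1 (α - 1)) ∧ EZ (Dv R) r1 O (T + min 1 (α - 1)) := by
  have hmc : Measurable (fun z : ℂ => (starRingEnd ℂ) z) := Complex.continuous_conj.measurable
  constructor
  · intro i j
    have h1 := h.J_out hP hQ hT hRA hRZ hE1 hE2 i j
    have h2 : ExpTo E (fun _ => {z : ℂ | r ≤ ‖z‖}) one1 (T + min 1 (α - 1))
        (fun n z => (starRingEnd ℂ) (Jall R We W0 Wx n i j ((starRingEnd ℂ) z))) :=
      (h1.comp hmc (ρ' := one1) (fun _ => rfl) (Eventually.of_forall fun n z hz => by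
        have hz' : r ≤ ‖z‖ := hz
        show r ≤ ‖(starRingEnd ℂ) z‖
        rwa [RCLike.norm_conj])).conj
    have h3 := ((h1.add one_le_one1 h2).const_mul one_le_one1 (-(1 / (Real.pi : ℂ)))).mono_Ω
      (Ω' := fun _ => A) (Eventually.of_forall fun n s hs => (h.A_loc s hs).1)
    refine h3.congr ?_
    filter_upwards [h.eqn] with n hn z hz
    show _ = (R n z - 1) i j
    rw [Matrix.sub_apply, hn z (h.A_sub hz) i j]
    ring
  · intro i j
    have h1 := h.J_in hP hQ hT hRA hRZ hO1 hO2 i j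
    have h2 : ExpTo O (Di r1) rho1 (T + min 1 (α - 1))
        (fun n ζ => (starRingEnd ℂ) (Jall R We W0 Wx n i j (((starRingEnd ℂ) ζ) / n))) :=
      (h1.comp hmc (ρ' := rho1) (fun z => by unfold rho1; rw [RCLike.norm_conj])
        (Eventually.of_forall fun n z hz => by
          have hz' : ‖z‖ ≤ r1 * n := hz
          show ‖(starRingEnd ℂ) z‖ ≤ r1 * n
          rwa [RCLike.norm_conj])).conj
    have h3 := ((h1.add one_le_rho1 h2).const_mul one_le_rho1 (-(1 / (Real.pi : ℂ)))).mono_Ω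
      (Ω' := Om r1) (Eventually.of_forall fun n s hs => hs.2)
    refine h3.congr ?_
    filter_upwards [h.eqn, eventually_ge_atTop 1] with n hn hn1 σ hσ
    show _ = (R n (σ / n) - 1) i j
    rw [Matrix.sub_apply, hn _ (div_mem_UH hn1 hσ.1) i j, map_div₀, Complex.conj_natCast]
    ring

end Pool.Agent.FreudM
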