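import Pool.Agent.FreudM.Boot

/-!
# The total integral
-/

set_option autoImplicit false

open MeasureTheory Filter Topology Set
open scoped Pointwise

namespace Pool.Agent.FreudM

open Pool.Agent.Freud

variable {α κ r r1 c : ℝ} {A : Set ℂ} {We W0 Wx R : ℕ → ℂ → Mat2}

/-- Expansions of a sequence of complex numbers. -/
def ExpS (P : Set (ℕ → ℝ)) (T : ℝ) (u : ℕ → ℂ) : Prop :=
  ExpTo P (fun _ => (univ : Set Unit)) (fun _ => 1) T (fun n _ => u n)

/-- Cubic decay gives integrability. -/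
lemma cube_int : ∃ Ck : ℝ, 0 < Ck ∧ ∀ (S : Set ℂ) (f : ℂ → ℂ) (M : ℝ), MeasurableSet S → 0 ≤ M →
    AEStronglyMeasurable f (volume.restrict S) → (∀ s ∈ S, ‖f s‖ ≤ M * (1 + ‖s‖) ^ (-3 : ℝ)) →
    IntegrableOn f S ∧ ‖∫ s in S, f s‖ ≤ Ck * M := by
  set I3 : ℝ := ∫ s : ℂ, (1 + ‖s‖) ^ (-3 : ℝ) with hI3
  have hI3' : 0 ≤ I3 := integral_nonneg fun s => by positivity
  refine ⟨I3 + 1, by positivity, fun S f M hS hM hf hfM => ?_⟩
  have hint : IntegrableOn f S := by
    refine Integrable.mono' ((integrable_cube.const_mul M).integrableOn (s := S)) hf ?_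
    filter_upwards [ae_restrict_mem hS] with s hs using hfM s hs
  refine ⟨hint, ?_⟩
  calc ‖∫ s in S, f s‖ ≤ ∫ s in S, M * (1 + ‖s‖) ^ (-3 : ℝ) := by
        refine norm_integral_le_of_norm_le (integrable_cube.const_mul M).integrableOn ?_
        filter_upwards [ae_restrict_mem hS] with s hs using hfM s hs
    _ ≤ ∫ s, M * (1 + ‖s‖) ^ (-3 : ℝ) := by
        refine setIntegral_le_integral (integrable_cube.const_mul M)
          (Eventually.of_forall fun s => ?_)
        simp only [Pi.zero_apply]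
        positivity
    _ = M * I3 := integral_const_mul _ _
    _ ≤ (I3 + 1) * M := by nlinarith

lemma meas_bO {R' : ℕ → ℂ → Mat2} (hR : ∀ᶠ n : ℕ in atTop, ∀ i j,
    ContinuousOn (fun s => R' n s i j) UH) (hW : ∀ᶠ n : ℕ in atTop, ∀ i j,
    ContinuousOn (fun s => W0 n s i j) UH) (i j : Fin 2) : ∀ᶠ n : ℕ in atTop,
    AEStronglyMeasurable (bO α κ R' W0 i j n) (volume.restrict (Om r1 n)) := by
  filter_upwards [hW, hR, eventually_ge_atTop 1] with n c1 cR hn
  refine ContinuousOn.aestronglyMeasurable ?_ (measurableSet_Om r1 n)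
  have hmap : MapsTo (fun σ : ℂ => σ / n) (Om r1 n) UH := fun σ hσ => div_mem_UH hn hσ.1
  have hc : ContinuousOn (fun σ : ℂ => σ / n) (Om r1 n) := by fun_prop
  have hR' : ∀ i j, ContinuousOn (fun σ => R' n (σ / n) i j) (Om r1 n) := fun i j =>
    (cR i j).comp hc hmap
  have hW' : ∀ i j, ContinuousOn (fun σ => vv α κ W0 n σ i j) (Om r1 n) := fun i j => by
    refine ContinuousOn.mul ?_ ((c1 i j).comp hc hmap)
    fun_prop
  exact ((hR' i 0).mul (hW' 0 j)).add ((hR' i 1).mul (hW' 1 j))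

/-- Expansion of the integral near the origin of a product. -/
lemma MD.origin_int (h : MD α κ r r1 c A We W0 Wx R) {R' : ℕ → ℂ → Mat2}
    (hR : ∀ᶠ n : ℕ in atTop, ∀ i j, ContinuousOn (fun s => R' n s i j) UH) {Q J : Set (ℕ → ℝ)}
    {T : ℝ} (hT : 0 ≤ T) (hQ : Ord Q 0) (hRZ : EZ R' r1 Q T)
    (hJ : ∀ p ∈ Q * (Lam α : Set (ℕ → ℝ)), (fun n : ℕ => osc α n * p n) ∈ J) (i j : Fin 2) :
    ExpS J T (fun n => ∫ s in Om r1 1, pr R' W0 n i j s) := by
  have hα := h.hα
  have hord : Ord (Q * (Lam α : Set (ℕ → ℝ))) 0 := by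
    have := hQ.mul (Ord_Lam hα)
    rwa [add_zero] at this
  have key : ∀ k, ExpTo (Q * (Lam α : Set (ℕ → ℝ))) (Om r1) rho1 T
      (fun n σ => R' n (σ / n) i k * vv α κ W0 n σ k j) := by
    intro k
    have := (hRZ i k).mul one_le_rho1 hQ (Ord_Lam h.hα) hT (h.W0_exp T k j)
    rwa [add_zero, min_self] at this
  have hb : ExpTo (Q * (Lam α : Set (ℕ → ℝ))) (Om r1) rho1 T (bO α κ R' W0 i j) :=
    (key 0).add one_le_rho1 (key 1)
  have hM := OM h.hκ h.hr1 hord (Y := Unit) (Ω' := fun _ => univ) (ρ' := fun _ => 1)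
    (fun _ => le_rfl) hb (meas_bO hR h.W0_cont i j) (k := fun _ => 1) (PolyGrowth.const 1)
  have hM' := hM.gen_mul (Q := J) (fun _ => le_rfl) (osc_bd α) (c := fun _ => (1 : ℂ))
    (PolyGrowth.const 1) hJ
  refine (hM'.mono_T (fun _ => le_rfl) (by linarith)).congr ?_
  filter_upwards [eventually_ge_atTop 1] with n hn z _
  have := origin_scale R' W0 α κ r1 hn i j (fun _ => 1)
  simp only [mul_one] at this ⊢
  rw [this]

/-- The part of the integral outside the small disc is negligible. -/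
lemma MD.outer_int (h : MD α κ r r1 c A We W0 Wx R) {R' : ℕ → ℂ → Mat2}
    (hR : ∀ᶠ n : ℕ in atTop, ∀ i j, ContinuousOn (fun s => R' n s i j) UH)
    (hB : ∀ᶠ n : ℕ in atTop, ∀ s ∈ UH, ∀ i j, ‖R' n s i j‖ ≤ 3) (N : ℝ) : ∃ C : ℝ, 0 ≤ C ∧
    ∀ᶠ n : ℕ in atTop, ∀ i j, IntegrableOn (fun s => pr R' W0 n i j s) UH ∧
      ‖∫ s in UH \ Om r1 1, pr R' W0 n i j s‖ ≤ C * (n : ℝ) ^ (-N) := by
  obtain ⟨Ck, hCk, hk⟩ := cube_int
  obtain ⟨C2, h2⟩ := h.W0_bd
  obtain ⟨K, hK⟩ := exists_nat_ge (α - 1)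
  have hc := h.hc
  obtain ⟨C4, hC40, hC4⟩ := exp_growth (c / 2) (half_pos hc) K
  obtain ⟨C6, hC60, hC6⟩ := exp_growth c hc K
  obtain ⟨C5, hC50, hC5⟩ := exp_le_pow (c / 2 * r1) (by have := h.hr1; positivity) (N + 1)
  refine ⟨Ck * (6 * (|C2| * (C5 * C4))), by positivity, ?_⟩
  filter_upwards [h2, hC5, hB, h.W0_cont, hR, eventually_ge_atTop 1] with n hn2 hn5 hR c2 cR hn i j
  have hn0 : (0 : ℝ) < n := by exact_mod_cast hn
  have hn1 : (1 : ℝ) ≤ n := by exact_mod_cast hn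
  have e1 : ∀ t : ℝ, (0 : ℝ) ≤ (n : ℝ) ^ t := fun t => Real.rpow_nonneg (Nat.cast_nonneg n) _
  have hm : AEStronglyMeasurable (fun s => pr R' W0 n i j s) (volume.restrict UH) := by
    refine ContinuousOn.aestronglyMeasurable ?_ measurableSet_UH'
    exact ((cR i 0).mul (c2 0 j)).add ((cR i 1).mul (c2 1 j))
  have hpr : ∀ (s : ℂ) (g : ℝ), s ∈ UH → (∀ i j, ‖W0 n s i j‖ ≤ g) →
      ‖pr R' W0 n i j s‖ ≤ 6 * g := by
    intro s g hs hg
    have g0 : 0 ≤ g := (norm_nonneg _).trans (hg 0 0)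
    calc ‖pr R' W0 n i j s‖ ≤ ‖R' n s i 0 * W0 n s 0 j‖ + ‖R' n s i 1 * W0 n s 1 j‖ :=
          norm_add_le _ _
      _ = ‖R' n s i 0‖ * ‖W0 n s 0 j‖ + ‖R' n s i 1‖ * ‖W0 n s 1 j‖ := by
          rw [norm_mul, norm_mul]
      _ ≤ 3 * g + 3 * g := by
          have b1 := hR s hs i 0
          have b2 := hR s hs i 1
          have b3 := hg 0 j
          have b4 := hg 1 j
          gcongr
      _ = 6 * g := by ring
  have g1 : ∀ s : ℂ, ‖s‖ ^ (α - 1) ≤ (1 + ‖s‖) ^ K := by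
    intro s
    have hs0 := norm_nonneg s
    calc ‖s‖ ^ (α - 1) ≤ (1 + ‖s‖) ^ (α - 1) :=
          Real.rpow_le_rpow hs0 (by linarith) (by linarith [h.hα])
      _ ≤ (1 + ‖s‖) ^ (K : ℝ) := Real.rpow_le_rpow_of_exponent_le (by linarith) hK
      _ = (1 + ‖s‖) ^ K := Real.rpow_natCast _ _
  constructor
  · refine (hk UH (fun s => pr R' W0 n i j s) (6 * (|C2| * (n * C6))) measurableSet_UH'
      (by positivity) hm (fun s hs => ?_)).1
    have hs0 := norm_nonneg s
    have := hpr s (|C2| * ((n : ℝ) * (C6 * (1 + ‖s‖) ^ (-3 : ℝ)))) hs (fun i j => by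
      refine (hn2 s hs i j).trans ?_
      have a1 : Real.exp (-(c * n * ‖s‖)) ≤ Real.exp (-(c * ‖s‖)) := by
        apply Real.exp_le_exp.2
        have : c * ‖s‖ * 1 ≤ c * ‖s‖ * n := by gcongr
        nlinarith
      calc C2 * ((n : ℝ) * ‖s‖ ^ (α - 1) * Real.exp (-(c * n * ‖s‖)))
          ≤ |C2| * ((n : ℝ) * (1 + ‖s‖) ^ K * Real.exp (-(c * ‖s‖))) := by
            have := g1 s
            gcongr
            exact le_abs_self C2
        _ = |C2| * ((n : ℝ) * (Real.exp (-(c * ‖s‖)) * (1 + ‖s‖) ^ K)) := by ring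
        _ ≤ |C2| * ((n : ℝ) * (C6 * (1 + ‖s‖) ^ (-3 : ℝ))) := by
            have := hC6 ‖s‖ hs0
            gcongr)
    refine this.trans (le_of_eq ?_)
    ring
  · refine ((hk (UH \ Om r1 1) (fun s => pr R' W0 n i j s)
      (6 * (|C2| * (C5 * C4)) * (n : ℝ) ^ (-N)) (measurableSet_UH'.diff (measurableSet_Om r1 1))
      (by have := e1 (-N); positivity)
      (hm.mono_measure (Measure.restrict_mono sdiff_subset le_rfl)) (fun s hs => ?_)).2).trans
      (le_of_eq (by ring))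
    have hsr : r1 < ‖s‖ := by
      by_contra hcon
      refine hs.2 ⟨hs.1, ?_⟩
      simpa using not_lt.1 hcon
    have hs0 := norm_nonneg s
    have g2 : Real.exp (-(c * n * ‖s‖)) ≤ Real.exp (-(c / 2 * r1 * n)) *
        Real.exp (-(c / 2 * ‖s‖)) := by
      rw [← Real.exp_add]
      apply Real.exp_le_exp.2
      have a1 : c / 2 * r1 * n ≤ c / 2 * ‖s‖ * n := by gcongr
      have a2 : c / 2 * ‖s‖ * 1 ≤ c / 2 * ‖s‖ * n := by gcongr
      nlinarith
    have g3 : (n : ℝ) * ‖s‖ ^ (α - 1) * Real.exp (-(c * n * ‖s‖)) ≤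
        (C5 * C4) * (n : ℝ) ^ (-N) * (1 + ‖s‖) ^ (-3 : ℝ) := by
      have a3 := hC4 ‖s‖ hs0
      have a4 : (n : ℝ) * (n : ℝ) ^ (-(N + 1)) = (n : ℝ) ^ (-N) := by
        nth_rewrite 1 [← Real.rpow_one (n : ℝ)]
        rw [← Real.rpow_add hn0]
        congr 1
        ring
      calc (n : ℝ) * ‖s‖ ^ (α - 1) * Real.exp (-(c * n * ‖s‖))
          ≤ (n : ℝ) * (1 + ‖s‖) ^ K * (Real.exp (-(c / 2 * r1 * n)) *
            Real.exp (-(c / 2 * ‖s‖))) := by
            have := g1 s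
            gcongr
        _ = (n : ℝ) * Real.exp (-(c / 2 * r1 * n)) *
            (Real.exp (-(c / 2 * ‖s‖)) * (1 + ‖s‖) ^ K) := by ring
        _ ≤ (n : ℝ) * (C5 * (n : ℝ) ^ (-(N + 1))) * (C4 * (1 + ‖s‖) ^ (-3 : ℝ)) := by gcongr
        _ = (C5 * C4) * ((n : ℝ) * (n : ℝ) ^ (-(N + 1))) * (1 + ‖s‖) ^ (-3 : ℝ) := by ring
        _ = _ := by rw [a4]
    have := hpr s (|C2| * ((C5 * C4) * (n : ℝ) ^ (-N) * (1 + ‖s‖) ^ (-3 : ℝ))) hs.1
      (fun i j => by
        refine (hn2 s hs.1 i j).trans ?_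
        calc C2 * ((n : ℝ) * ‖s‖ ^ (α - 1) * Real.exp (-(c * n * ‖s‖)))
            ≤ |C2| * ((n : ℝ) * ‖s‖ ^ (α - 1) * Real.exp (-(c * n * ‖s‖))) := by
              gcongr
              exact le_abs_self C2
          _ ≤ _ := by gcongr)
    refine this.trans (le_of_eq ?_)
    ring

/-- The total integral of the source. -/
noncomputable def tot (R We W0 Wx : ℕ → ℂ → Mat2) (n : ℕ) : Mat2 :=
  IU (fun s => R n s * (We n s + W0 n s + Wx n s))

/-- Expansion of the deviation of the total integral from the leading part. -/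
theorem MD.total (h : MD α κ r r1 c A We W0 Wx R) (T : ℝ) (i j : Fin 2) :
    ExpS (JD α) T (fun n => tot R We W0 Wx n i j - IU (W0 n) i j) := by
  wlog hT : 0 ≤ T with H
  · exact (H h 0 i j le_rfl).mono_T (fun _ => le_rfl) (not_le.1 hT).le
  have hα := h.hα
  -- annular part
  have a1 := h.pr_We (Ord_PA hα) hT (h.all T).1 i j
  have a2 := EM h.A_meas (fun s hs => (h.A_loc s hs).2) ((Ord_PA hα).mul Ord_pw1) (Y := Unit)
    (Ω' := fun _ => univ) (ρ' := fun _ => 1) (fun _ => le_rfl) a1 (h.meas_We i j)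
    (k := fun _ => 1) measurable_const (B := 1) (fun _ _ => by simp)
  have a3 : ExpS (JD α) T (fun n => ∫ s in A, pr R We n i j s) := by
    have := (a2.mono_P (P' := JD α) (by
      rintro p ⟨a, ha, b, hb, rfl⟩
      obtain ⟨l, hl, rfl⟩ := mem_pw1 (α := α) hb
      exact Or.inl ⟨a * l, PA_mul_Lam ha hl, by
        show a * (sInv * l) = sInv * (a * l)
        ring⟩)).mono_T (fun _ => le_rfl) (show T ≤ T + 1 by linarith)
    simp only [mul_one] at this
    exact this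
  -- deviation near the origin
  have hDc : ∀ᶠ n : ℕ in atTop, ∀ i j, ContinuousOn (fun s => Dv R n s i j) UH := by
    filter_upwards [h.R_cont] with n hn i j
    exact (hn i j).sub continuousOn_const
  have hDb : ∀ᶠ n : ℕ in atTop, ∀ s ∈ UH, ∀ i j, ‖Dv R n s i j‖ ≤ 3 := by
    filter_upwards [h.R_unif] with n hn s hs i j
    have h1 : ‖(1 : Mat2) i j‖ ≤ 1 := by
      fin_cases i <;> fin_cases j <;> simp
    have h2 := hn s hs i j
    calc ‖Dv R n s i j‖ = ‖R n s i j - (1 : Mat2) i j‖ := rfl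
      _ ≤ ‖R n s i j‖ + ‖(1 : Mat2) i j‖ := norm_sub_le _ _
      _ ≤ 3 := by linarith
  have b1 := h.origin_int hDc hT (Ord_OD hα) (h.dev T) (J := JD α) (by
    rintro p ⟨a, ha, b, hb, rfl⟩
    rcases ha with ⟨q, hq, rfl⟩ | ⟨q, hq, rfl⟩
    · refine Or.inl ⟨osc α * (q * b), osc_mul_PB hα (PB_mul_Lam (PA_sub_PB hα hq) hb), ?_⟩
      ext n
      simp only [Pi.mul_apply]
      ring
    · refine Or.inr ⟨q * b, PB_mul_Lam hq hb, ?_⟩
      have : (fun n : ℕ => osc α n * ((oscn α * q) * b) n) =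
          (sgn * sgn) * (sA α * sPow α * (q * b)) := by
        ext n
        rw [osc_eq, oscn_eq]
        simp only [Pi.mul_apply]
        ring
      show (fun n : ℕ => osc α n * ((oscn α * q) * b) n) = sB α * (q * b)
      rw [this, sgn_mul_sgn, one_mul]
      rfl) i j
  obtain ⟨C1, hC10, hC1⟩ := h.outer_int hDc hDb T
  have b2 : ExpS (JD α) T (fun n => ∫ s in UH \ Om r1 1, pr (Dv R) W0 n i j s) := by
    refine ExpTo.of_bound (C := C1) (K := 0) ?_
    filter_upwards [hC1] with n hn _ _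
    simpa using (hn i j).2
  -- negligible part
  obtain ⟨Ck, hCk, hk⟩ := cube_int
  obtain ⟨C3, h3⟩ := h.Wx_neg T
  have hx : ∀ᶠ n : ℕ in atTop, IntegrableOn (fun s => pr R Wx n i j s) UH ∧
      ‖∫ s in UH, pr R Wx n i j s‖ ≤ Ck * (4 * |C3|) * (n : ℝ) ^ (-T) := by
    filter_upwards [h3, h.R_unif, h.Wx_cont, h.R_cont] with n hn3 hR c3 cR
    have e1 : ∀ t : ℝ, (0 : ℝ) ≤ (n : ℝ) ^ t := fun t => Real.rpow_nonneg (Nat.cast_nonneg n) _
    have hm : AEStronglyMeasurable (fun s => pr R Wx n i j s) (volume.restrict UH) := by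
      refine ContinuousOn.aestronglyMeasurable ?_ measurableSet_UH'
      exact ((cR i 0).mul (c3 0 j)).add ((cR i 1).mul (c3 1 j))
    have := hk UH (fun s => pr R Wx n i j s) (4 * |C3| * (n : ℝ) ^ (-T)) measurableSet_UH'
      (by have := e1 (-T); positivity) hm (fun s hs => by
        have g0 : ∀ i j, ‖Wx n s i j‖ ≤ |C3| * (n : ℝ) ^ (-T) * (1 + ‖s‖) ^ (-3 : ℝ) := by
          intro i j
          refine (hn3 s hs i j).trans ?_
          have := e1 (-T)
          gcongr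
          exact le_abs_self C3
        calc ‖pr R Wx n i j s‖ ≤ ‖R n s i 0 * Wx n s 0 j‖ + ‖R n s i 1 * Wx n s 1 j‖ :=
              norm_add_le _ _
          _ = ‖R n s i 0‖ * ‖Wx n s 0 j‖ + ‖R n s i 1‖ * ‖Wx n s 1 j‖ := by
              rw [norm_mul, norm_mul]
          _ ≤ 2 * (|C3| * (n : ℝ) ^ (-T) * (1 + ‖s‖) ^ (-3 : ℝ)) +
              2 * (|C3| * (n : ℝ) ^ (-T) * (1 + ‖s‖) ^ (-3 : ℝ)) := by
              have b1 := hR s hs i 0
              have b2 := hR s hs i 1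
              have b3 := g0 0 j
              have b4 := g0 1 j
              gcongr
          _ = _ := by ring)
    exact ⟨this.1, this.2.trans (le_of_eq (by ring))⟩
  have b3 : ExpS (JD α) T (fun n => ∫ s in UH, pr R Wx n i j s) := by
    refine ExpTo.of_bound (C := Ck * (4 * |C3|)) (K := 0) ?_
    filter_upwards [hx] with n hn _ _
    simpa using hn.2
  -- integrability of the annular part
  obtain ⟨C4, hC40, hC4⟩ := h.We_bd
  have ha : ∀ᶠ n : ℕ in atTop, IntegrableOn (fun s => pr R We n i j s) UH := by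
    filter_upwards [hC4, h.R_unif, h.We_cont, h.R_cont] with n hn3 hR c3 cR
    have e1 : ∀ t : ℝ, (0 : ℝ) ≤ (n : ℝ) ^ t := fun t => Real.rpow_nonneg (Nat.cast_nonneg n) _
    have hm : AEStronglyMeasurable (fun s => pr R We n i j s) (volume.restrict UH) := by
      refine ContinuousOn.aestronglyMeasurable ?_ measurableSet_UH'
      exact ((cR i 0).mul (c3 0 j)).add ((cR i 1).mul (c3 1 j))
    refine (hk UH (fun s => pr R We n i j s) (4 * C4 * (n : ℝ) ^ (-1 : ℝ)) measurableSet_UH'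
      (by have := e1 (-1); positivity) hm (fun s hs => ?_)).1
    calc ‖pr R We n i j s‖ ≤ ‖R n s i 0 * We n s 0 j‖ + ‖R n s i 1 * We n s 1 j‖ :=
          norm_add_le _ _
      _ = ‖R n s i 0‖ * ‖We n s 0 j‖ + ‖R n s i 1‖ * ‖We n s 1 j‖ := by
          rw [norm_mul, norm_mul]
      _ ≤ 2 * (C4 * (n : ℝ) ^ (-1 : ℝ) * (1 + ‖s‖) ^ (-3 : ℝ)) +
          2 * (C4 * (n : ℝ) ^ (-1 : ℝ) * (1 + ‖s‖) ^ (-3 : ℝ)) := by
          have b1 := hR s hs i 0
          have b2 := hR s hs i 1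
          have b3 := hn3 s 0 j
          have b4 := hn3 s 1 j
          gcongr
      _ = _ := by ring
  -- identity of the leading part: the identity matrix has continuous bounded entries
  have hIc : ∀ᶠ n : ℕ in atTop, ∀ i j, ContinuousOn (fun s => (1 : ℕ → ℂ → Mat2) n s i j) UH :=
    Eventually.of_forall fun n i j => continuousOn_const
  have hIb : ∀ᶠ n : ℕ in atTop, ∀ s ∈ UH, ∀ i j, ‖(1 : ℕ → ℂ → Mat2) n s i j‖ ≤ 3 := by
    refine Eventually.of_forall fun n s _ i j => ?_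
    have h1 : ‖(1 : Mat2) i j‖ ≤ 1 := by
      fin_cases i <;> fin_cases j <;> simp
    exact h1.trans (by norm_num)
  obtain ⟨C5, hC50, hC5⟩ := h.outer_int hIc hIb T
  refine (((a3.add (fun _ => le_rfl) b1).add (fun _ => le_rfl) b2).add (fun _ => le_rfl) b3).congr ?_
  filter_upwards [hx, ha, hC1, hC5] with n hxn han hC1n hC5n _ _
  have hsub : Om r1 1 ⊆ UH := fun s hs => hs.1
  have iD := (hC1n i j).1
  have iI := (hC5n i j).1
  have E0 : ∀ s, pr (1 : ℕ → ℂ → Mat2) W0 n i j s = W0 n s i j := by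
    intro s
    rw [← pr_eq]
    simp
  have E1 : ∫ s in UH, pr R We n i j s = ∫ s in A, pr R We n i j s := by
    refine setIntegral_eq_of_subset_of_forall_sdiff_eq_zero measurableSet_UH' h.A_sub
      fun s hs => ?_
    simp [pr, h.We_off n s hs.2]
  have E2 : ∫ s in UH, pr (Dv R) W0 n i j s = (∫ s in Om r1 1, pr (Dv R) W0 n i j s) +
      ∫ s in UH \ Om r1 1, pr (Dv R) W0 n i j s := by
    rw [← setIntegral_union disjoint_sdiff_right (measurableSet_UH'.diff (measurableSet_Om r1 1))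
      (iD.mono_set hsub) (iD.mono_set sdiff_subset), union_sdiff_cancel hsub]
  have E3 : ∀ s, (R n s * (We n s + W0 n s + Wx n s)) i j =
      pr R We n i j s + (pr (1 : ℕ → ℂ → Mat2) W0 n i j s + pr (Dv R) W0 n i j s) +
        pr R Wx n i j s := by
    intro s
    have e1 : pr (1 : ℕ → ℂ → Mat2) W0 n i j s + pr (Dv R) W0 n i j s = pr R W0 n i j s := by
      rw [← pr_eq, ← pr_eq, ← pr_eq, ← Matrix.add_apply]
      have : (1 : ℕ → ℂ → Mat2) n s * W0 n s + Dv R n s * W0 n s = R n s * W0 n s := by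
        unfold Dv
        rw [← add_mul]
        congr 1
        simp
      rw [this]
    rw [e1]
    simp only [pr, Matrix.mul_apply, Fin.sum_univ_two, Matrix.add_apply]
    ring
  have i12 : IntegrableOn (fun s => pr (1 : ℕ → ℂ → Mat2) W0 n i j s +
      pr (Dv R) W0 n i j s) UH := iI.add iD
  have i123 : IntegrableOn (fun s => pr R We n i j s + (pr (1 : ℕ → ℂ → Mat2) W0 n i j s +
      pr (Dv R) W0 n i j s)) UH := han.add i12
  have E4 : tot R We W0 Wx n i j = (∫ s in UH, pr R We n i j s) + (IU (W0 n) i j +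
      ∫ s in UH, pr (Dv R) W0 n i j s) + ∫ s in UH, pr R Wx n i j s := by
    unfold tot IU
    simp only [E3]
    rw [integral_add i123 hxn.1, integral_add han i12, integral_add iI iD]
    simp only [E0]
  rw [E4, E1, E2]
  ring

/-- Expansion of the leading part. -/
theorem MD.lead (h : MD α κ r r1 c A We W0 Wx R) (T : ℝ) (i j : Fin 2) :
    ExpS {s | ∃ l ∈ Lam α, s = osc α * l} T (fun n => IU (W0 n) i j) := by
  wlog hT : 0 ≤ T with H
  · exact (H h 0 i j le_rfl).mono_T (fun _ => le_rfl) (not_le.1 hT).le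
  have hα := h.hα
  have hIc : ∀ᶠ n : ℕ in atTop, ∀ i j, ContinuousOn (fun s => (1 : ℕ → ℂ → Mat2) n s i j) UH :=
    Eventually.of_forall fun n i j => continuousOn_const
  have hIb : ∀ᶠ n : ℕ in atTop, ∀ s ∈ UH, ∀ i j, ‖(1 : ℕ → ℂ → Mat2) n s i j‖ ≤ 3 := by
    refine Eventually.of_forall fun n s _ i j => ?_
    have h1 : ‖(1 : Mat2) i j‖ ≤ 1 := by
      fin_cases i <;> fin_cases j <;> simp
    exact h1.trans (by norm_num)
  obtain ⟨C5, hC50, hC5⟩ := h.outer_int hIc hIb T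
  have hEZ : EZ (1 : ℕ → ℂ → Mat2) r1 (Lam α : Set (ℕ → ℝ)) T := by
    intro i j
    have := ExpTo.of_gen (P := (Lam α : Set (ℕ → ℝ))) (Ω := Om r1) (T := T)
      (one_mem (Lam α)) (PolyGrowth.const (ρ := rho1) ((1 : Mat2) i j))
    simpa using this
  have b1 := h.origin_int hIc hT (Ord_Lam hα) hEZ
    (J := {s | ∃ l ∈ Lam α, s = osc α * l}) (by
      rintro p ⟨a, ha, b, hb, rfl⟩
      exact ⟨a * b, mul_mem ha hb, rfl⟩) i j
  have b2 : ExpS {s | ∃ l ∈ Lam α, s = osc α * l} T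
      (fun n => ∫ s in UH \ Om r1 1, pr (1 : ℕ → ℂ → Mat2) W0 n i j s) := by
    refine ExpTo.of_bound (C := C5) (K := 0) ?_
    filter_upwards [hC5] with n hn _ _
    simpa using (hn i j).2
  refine (b1.add (fun _ => le_rfl) b2).congr ?_
  filter_upwards [hC5] with n hC5n _ _
  have hsub : Om r1 1 ⊆ UH := fun s hs => hs.1
  have iI := (hC5n i j).1
  have E0 : ∀ s, pr (1 : ℕ → ℂ → Mat2) W0 n i j s = W0 n s i j := by
    intro s
    rw [← pr_eq]
    simp
  rw [← setIntegral_union disjoint_sdiff_right (measurableSet_UH'.diff (measurableSet_Om r1 1))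
      (iI.mono_set hsub) (iI.mono_set sdiff_subset), union_sdiff_cancel hsub]
  unfold IU
  simp only [E0]

end Pool.Agent.FreudM
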